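import Mathlib

open MeasureTheory Topology
open scoped NNReal ENNReal

namespace Pool.Agent.Helper569.Circle

/-- Pure strategies: `1`-Lipschitz maps `s : [0, ∞) → ℝ/ℤ` (arc length metric) with `s 0 = 0`. -/
def PureStrategy : Type :=
  {s : C(ℝ≥0, UnitAddCircle) // LipschitzWith 1 s ∧ s 0 = 0}

/-- The compact-open topology on pure strategies. -/
instance : TopologicalSpace PureStrategy := instTopologicalSpaceSubtype

/-- The Borel sigma-algebra on pure strategies. -/
instance : MeasurableSpace PureStrategy := borel PureStrategy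

instance : BorelSpace PureStrategy := ⟨rfl⟩

/-- The meeting time of two paths: the first time at which they agree, `∞` if there is none. -/
noncomputable def meetingTime (p q : ℝ≥0 → UnitAddCircle) : ℝ≥0∞ :=
  ⨅ (t : ℝ≥0) (_ : p t = q t), (t : ℝ≥0∞)

/-- Expected meeting time of two pure strategies on the directed circle: the relative rotation is
uniformly distributed. -/
noncomputable def directedTime (s₁ s₂ : PureStrategy) : ℝ≥0∞ :=
  ∫⁻ a : UnitAddCircle, meetingTime (fun t => a + s₁.1 t) (fun t => s₂.1 t)

/-- Expected meeting time of two pure strategies on the undirected circle: the relative rotation is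
uniformly distributed and with probability `1/2` there is a relative reflection. -/
noncomputable def undirectedTime (s₁ s₂ : PureStrategy) : ℝ≥0∞ :=
  (1 / 2) * ∫⁻ a : UnitAddCircle,
    (meetingTime (fun t => a + s₁.1 t) (fun t => s₂.1 t) +
      meetingTime (fun t => a + s₁.1 t) (fun t => -(s₂.1 t)))

/-- Expected meeting time when both players independently use the mixed strategy `μ`. -/
noncomputable def symmetricTime (K : PureStrategy → PureStrategy → ℝ≥0∞)
    (μ : ProbabilityMeasure PureStrategy) : ℝ≥0∞ :=
  ∫⁻ s₁, ∫⁻ s₂, K s₁ s₂ ∂(μ : Measure PureStrategy) ∂(μ : Measure PureStrategy)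

/-- The symmetric rendezvous value. -/
noncomputable def symmetricValue (K : PureStrategy → PureStrategy → ℝ≥0∞) : ℝ≥0∞ :=
  ⨅ μ : ProbabilityMeasure PureStrategy, symmetricTime K μ

/-- A mixed strategy is an optimal symmetric strategy if it attains the symmetric value. -/
def IsOptimalSymmetric (K : PureStrategy → PureStrategy → ℝ≥0∞)
    (μ : ProbabilityMeasure PureStrategy) : Prop :=
  symmetricTime K μ = symmetricValue K

/-- The (lifted) position at time `t` of a player who, on each time interval `[k h, (k + 1) h]`,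
moves at speed one in direction `+` if `ε k` holds and in direction `-` otherwise. -/
noncomputable def tourPosition (h : ℝ) (ε : ℕ → Bool) (t : ℝ) : ℝ :=
  ∑ k ∈ Finset.range ⌈t / h⌉₊, (if ε k then 1 else -1) * min h (t - k * h)

/-- auxiliary: distance travelled on the `k`-th interval up to time `t`. -/
noncomputable def ramp (h : ℝ) (k : ℕ) (t : ℝ) : ℝ := max 0 (min h (t - k * h))

lemma tourPosition_eq {h : ℝ} (hh : 0 < h) (ε : ℕ → Bool) {t : ℝ} {N : ℕ} (hN : t ≤ N * h) :
    tourPosition h ε t = ∑ k ∈ Finset.range N, (if ε k then 1 else -1) * ramp h k t := by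
  have hN' : ⌈t / h⌉₊ ≤ N := by
    apply Nat.ceil_le.2
    rw [div_le_iff₀ hh]
    exact hN
  rw [tourPosition, ← Finset.sum_range_add_sum_Ico _ hN']
  have h1 : ∑ k ∈ Finset.Ico ⌈t / h⌉₊ N, (if ε k then (1 : ℝ) else -1) * ramp h k t = 0 := by
    apply Finset.sum_eq_zero
    intro k hk
    have h2 : t / h ≤ k := Nat.ceil_le.1 (Finset.mem_Ico.1 hk).1
    rw [div_le_iff₀ hh] at h2
    have h3 : ramp h k t = 0 := by
      unfold ramp
      apply max_eq_left
      exact (min_le_right _ _).trans (by linarith)
    rw [h3, mul_zero]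
  rw [h1, add_zero]
  apply Finset.sum_congr rfl
  intro k hk
  have h2 : (k : ℝ) < t / h := Nat.lt_ceil.1 (Finset.mem_range.1 hk)
  rw [lt_div_iff₀ hh] at h2
  have h3 : ramp h k t = min h (t - k * h) := by
    unfold ramp
    apply max_eq_right
    exact le_min hh.le (by linarith)
  rw [h3]

lemma ramp_mono (h : ℝ) (k : ℕ) {s t : ℝ} (hst : s ≤ t) : ramp h k s ≤ ramp h k t := by
  unfold ramp
  exact max_le_max le_rfl (min_le_min le_rfl (by linarith))

lemma sum_ramp {h : ℝ} (hh : 0 < h) {t : ℝ} (ht : 0 ≤ t) (N : ℕ) :
    ∑ k ∈ Finset.range N, ramp h k t = min t (N * h) := by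
  induction N with
  | zero => simp [ht]
  | succ n ih =>
    rw [Finset.sum_range_succ, ih]
    unfold ramp
    push_cast
    rcases le_total t (n * h) with h1 | h1
    · rw [min_eq_left h1, max_eq_left ((min_le_right _ _).trans (by linarith)),
        min_eq_left (by nlinarith)]
      ring
    · rw [min_eq_right h1]
      rcases le_total t ((n + 1) * h) with h2 | h2
      · rw [min_eq_left h2, min_eq_right (by linarith), max_eq_right (by linarith)]
        ring
      · rw [min_eq_right h2, min_eq_left (by linarith), max_eq_right hh.le]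
        ring

lemma abs_tourPosition_sub {h : ℝ} (hh : 0 < h) (ε : ℕ → Bool) {s t : ℝ} (hs : 0 ≤ s)
    (hst : s ≤ t) : |tourPosition h ε t - tourPosition h ε s| ≤ t - s := by
  obtain ⟨N, hN⟩ := exists_nat_ge (t / h)
  rw [div_le_iff₀ hh] at hN
  rw [tourPosition_eq hh ε hN, tourPosition_eq hh ε (hst.trans hN), ← Finset.sum_sub_distrib]
  calc |∑ k ∈ Finset.range N, ((if ε k then 1 else -1) * ramp h k t -
        (if ε k then 1 else -1) * ramp h k s)|
      ≤ ∑ k ∈ Finset.range N, |(if ε k then 1 else -1) * ramp h k t -
        (if ε k then 1 else -1) * ramp h k s| := Finset.abs_sum_le_sum_abs _ _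
    _ = ∑ k ∈ Finset.range N, (ramp h k t - ramp h k s) := by
        apply Finset.sum_congr rfl
        intro k _
        rw [← mul_sub, abs_mul]
        have : |(if ε k then (1 : ℝ) else -1)| = 1 := by split_ifs <;> simp
        rw [this, one_mul, abs_of_nonneg]
        linarith [ramp_mono h k hst]
    _ = t - s := by
        rw [Finset.sum_sub_distrib, sum_ramp hh (hs.trans hst), sum_ramp hh hs,
          min_eq_left hN, min_eq_left (hst.trans hN)]

lemma tourPosition_zero (h : ℝ) (ε : ℕ → Bool) : tourPosition h ε 0 = 0 := by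
  simp [tourPosition]

/-- On the interval `[i h, (i + 1) h]` the position changes at unit speed in direction `ε i`. -/
lemma tourPosition_step {h : ℝ} (hh : 0 < h) (ε : ℕ → Bool) (i : ℕ) {τ : ℝ} (h0 : 0 ≤ τ)
    (h1 : τ ≤ h) : tourPosition h ε (i * h + τ) =
      tourPosition h ε (i * h) + (if ε i then 1 else -1) * τ := by
  rw [tourPosition_eq hh ε (N := i + 1) (by push_cast; linarith),
    tourPosition_eq hh ε (N := i + 1) (t := i * h) (by push_cast; linarith),
    Finset.sum_range_succ, Finset.sum_range_succ]
  have e1 : ∀ k ∈ Finset.range i, (if ε k then (1 : ℝ) else -1) * ramp h k (i * h + τ) =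
      (if ε k then (1 : ℝ) else -1) * ramp h k (i * h) := by
    intro k hk
    have hk' : (k : ℝ) + 1 ≤ i := by exact_mod_cast Finset.mem_range.1 hk
    congr 1
    unfold ramp
    rw [min_eq_left (by nlinarith), min_eq_left (by nlinarith)]
  have e2 : ramp h i (i * h + τ) = τ := by
    unfold ramp
    rw [add_sub_cancel_left, min_eq_right h1, max_eq_right h0]
  have e3 : ramp h i (i * h) = 0 := by
    unfold ramp
    rw [sub_self, min_eq_right hh.le, max_self]
  rw [Finset.sum_congr rfl e1, e2, e3]
  ring

lemma norm_coe_le (x : ℝ) : ‖(x : UnitAddCircle)‖ ≤ |x| := by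
  rw [UnitAddCircle.norm_eq]
  simpa using round_le x 0

lemma tour_lipschitz {h : ℝ} (hh : 0 < h) (ε : ℕ → Bool) :
    LipschitzWith 1 (fun t : ℝ≥0 => ((tourPosition h ε t : ℝ) : UnitAddCircle)) := by
  have key : ∀ s t : ℝ≥0, s ≤ t → dist ((tourPosition h ε s : ℝ) : UnitAddCircle)
      ((tourPosition h ε t : ℝ) : UnitAddCircle) ≤ dist s t := by
    intro s t hst
    rw [dist_comm, dist_eq_norm, ← AddCircle.coe_sub]
    refine (norm_coe_le _).trans ?_
    refine (abs_tourPosition_sub hh ε s.2 (NNReal.coe_le_coe.2 hst)).trans ?_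
    rw [dist_comm, NNReal.dist_eq]
    exact le_abs_self _
  apply LipschitzWith.of_dist_le_mul
  intro s t
  rw [NNReal.coe_one, one_mul]
  rcases le_total s t with h1 | h1
  · exact key s t h1
  · rw [dist_comm, dist_comm s t]
    exact key t s h1

/-- The pure strategy which moves at speed one in direction `ε k` on `[k h, (k + 1) h]`. -/
noncomputable def tourPath (h : ℝ) (hh : 0 < h) (ε : ℕ → Bool) : PureStrategy :=
  ⟨⟨fun t : ℝ≥0 => ((tourPosition h ε t : ℝ) : UnitAddCircle), (tour_lipschitz hh ε).continuous⟩,
    tour_lipschitz hh ε, by simp [tourPosition_zero]⟩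

lemma continuous_tourPath (h : ℝ) (hh : 0 < h) : Continuous (tourPath h hh) := by
  apply Continuous.subtype_mk
  apply ContinuousMap.continuous_of_continuous_uncurry
  have h1 : Continuous (fun p : (ℕ → Bool) × ℝ≥0 => tourPosition h p.1 p.2) := by
    rw [continuous_iff_continuousAt]
    intro p
    obtain ⟨N, hN⟩ := exists_nat_ge (((p.2 : ℝ) + 1) / h)
    rw [div_le_iff₀ hh] at hN
    have h2 : (fun p : (ℕ → Bool) × ℝ≥0 => ∑ k ∈ Finset.range N,
        (if p.1 k then (1 : ℝ) else -1) * ramp h k p.2) =ᶠ[𝓝 p]
        (fun p : (ℕ → Bool) × ℝ≥0 => tourPosition h p.1 p.2) := by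
      have h3 : {x : (ℕ → Bool) × ℝ≥0 | x.2 < p.2 + 1} ∈ 𝓝 p := by
        apply IsOpen.mem_nhds
        · exact isOpen_lt continuous_snd continuous_const
        · simp
      filter_upwards [h3] with x hx
      rw [tourPosition_eq hh x.1 (N := N)]
      have : (x.2 : ℝ) < p.2 + 1 := by exact_mod_cast hx
      linarith
    apply ContinuousAt.congr _ h2
    apply Continuous.continuousAt
    apply continuous_finsetSum
    intro k _
    apply Continuous.mul
    · have h4 : Continuous (fun b : Bool => if b then (1 : ℝ) else -1) := continuous_of_discreteTopology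
      exact h4.comp ((continuous_apply k).comp continuous_fst)
    · unfold ramp
      fun_prop
  exact (AddCircle.continuous_mk' 1).comp h1

/-- A fair coin. -/
noncomputable def fairCoin : Measure Bool := (PMF.uniformOfFintype Bool).toMeasure

instance : IsProbabilityMeasure fairCoin := by unfold fairCoin; infer_instance

/-- CO-HA-TO: on each interval `[k/2, (k+1)/2]` the player travels half the circle at speed one in
a direction chosen by a fair coin, all coin tosses being independent. -/
noncomputable def coHaTo : ProbabilityMeasure PureStrategy :=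
  ⟨(Measure.infinitePi fun _ : ℕ => fairCoin).map (tourPath (1 / 2) (by norm_num)),
    Measure.isProbabilityMeasure_map (continuous_tourPath _ _).measurable.aemeasurable⟩

end Pool.Agent.Helper569.Circle
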