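import Pool.Agent.Helper569.CircleProb

open MeasureTheory Topology
open scoped NNReal ENNReal

namespace Pool.Agent.Helper569.Circle

lemma symmetricTime_map {Ω : Type*} [MeasurableSpace Ω] (P : Measure Ω) [IsProbabilityMeasure P]
    {φ : Ω → PureStrategy} (hφ : Measurable φ) {K : PureStrategy → PureStrategy → ℝ≥0∞}
    (hK : Measurable (fun x : PureStrategy × PureStrategy => K x.1 x.2)) :
    symmetricTime K ⟨P.map φ, Measure.isProbabilityMeasure_map hφ.aemeasurable⟩ =
      ∫⁻ ω, ∫⁻ ω', K (φ ω) (φ ω') ∂P ∂P := by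
  unfold symmetricTime
  change ∫⁻ s₁, ∫⁻ s₂, K s₁ s₂ ∂(P.map φ) ∂(P.map φ) = _
  rw [lintegral_map]
  · congr 1
    funext ω
    rw [lintegral_map _ hφ]
    exact hK.comp measurable_prodMk_left
  · have : SFinite (P.map φ) := inferInstance
    exact hK.lintegral_prod_right'
  · exact hφ

lemma tourPosition_neg (h : ℝ) (w : ℕ → Bool) (t : ℝ) :
    tourPosition h (fun k => !(w k)) t = -tourPosition h w t := by
  unfold tourPosition
  rw [← Finset.sum_neg_distrib]
  apply Finset.sum_congr rfl
  intro k _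
  rcases hw : w k with _ | _
  · rw [if_pos (by simp [hw]), if_neg (by simp)]
    ring
  · rw [if_neg (by simp [hw]), if_pos (by simp)]
    ring

lemma tourPath_neg (h : ℝ) (hh : 0 < h) (w : ℕ → Bool) (t : ℝ≥0) :
    -((tourPath h hh w).1 t) = (tourPath h hh (fun k => !(w k))).1 t := by
  change -((tourPosition h w t : ℝ) : UnitAddCircle) =
    ((tourPosition h (fun k => !(w k)) t : ℝ) : UnitAddCircle)
  rw [tourPosition_neg]
  rfl

lemma measurable_meet_right (s₁ s₂ : PureStrategy) : Measurable (fun a : UnitAddCircle =>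
    meetingTime (fun t => a + s₁.1 t) (fun t => s₂.1 t)) := by
  apply LowerSemicontinuous.measurable
  apply lowerSemicontinuous_meetingTime (f := fun (a : UnitAddCircle) t => a + s₁.1 t)
    (g := fun _ t => s₂.1 t)
  · exact continuous_fst.add (s₁.1.continuous.comp continuous_snd)
  · exact s₂.1.continuous.comp continuous_snd

lemma measurable_comp_pair {Z : Type*} [MeasurableSpace Z] {f g : Z → PureStrategy}
    (hf : Measurable f) (hg : Measurable g) (K : PureStrategy → PureStrategy → ℝ≥0∞)
    (hK : Measurable (fun x : PureStrategy × PureStrategy => K x.1 x.2)) :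
    Measurable (fun z => K (f z) (g z)) := hK.comp (hf.prodMk hg)

lemma measurable_directed_comp {Z : Type*} [MeasurableSpace Z] {f g : Z → PureStrategy}
    (hf : Measurable f) (hg : Measurable g) : Measurable (fun z => directedTime (f z) (g z)) :=
  measurable_comp_pair hf hg directedTime measurable_directedTime

lemma measurable_tour_dirs {ι : Type} [Fintype ι] [MeasurableSpace ι] [MeasurableSingletonClass ι]
    (h : ℝ) (hh : 0 < h) (m : ℕ) (X : ι → ℕ → Bool) :
    Measurable (fun ω : ℕ → ι => tourPath h hh (dirs m X ω)) := by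
  have h1 : Measurable (dirs m X) := by
    rw [measurable_pi_iff]
    exact measurable_dirs m X
  exact (continuous_tourPath h hh).measurable.comp h1

lemma undirectedTime_tour (h : ℝ) (hh : 0 < h) (v w : ℕ → Bool) :
    undirectedTime (tourPath h hh v) (tourPath h hh w) =
      (1 / 2) * (directedTime (tourPath h hh v) (tourPath h hh w) +
        directedTime (tourPath h hh v) (tourPath h hh (fun k => !(w k)))) := by
  unfold undirectedTime directedTime
  rw [lintegral_add_left]
  · simp only [tourPath_neg]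
  · exact measurable_meet_right _ _

section

variable {ι : Type} [Fintype ι] [Nonempty ι] [MeasurableSpace ι] [MeasurableSingletonClass ι]

lemma measurable_kap_dirs {m : ℕ} (hm : 0 < m) (q : ℕ) (X Y : ι → ℕ → Bool) (j : ℤ) :
    Measurable (fun p : (ℕ → ι) × (ℕ → ι) => kap q j (dirs m X p.1) (dirs m Y p.2)) := by
  simp_rw [kap_eq_iSup hm]
  exact Measurable.iSup fun N => measurable_cnt_dirs m q X Y (N * m) j

lemma exp_directed {q m : ℕ} (h0q : 0 < q) (hm : 0 < m) (X Y : ι → ℕ → Bool) :
    ∫⁻ ω, ∫⁻ ω', directedTime (tourPath (hq q) (hq_pos h0q) (dirs m X ω))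
      (tourPath (hq q) (hq_pos h0q) (dirs m Y ω')) ∂(iid ι) ∂(iid ι) =
    ∑ j ∈ Finset.range q, ENNReal.ofReal (hq q / q) * (ekap m q X Y j + 1 / 2) := by
  simp_rw [directedTime_tour h0q]
  have h1 : ∀ ω : ℕ → ι, ∫⁻ ω', ∑ j ∈ Finset.range q, ENNReal.ofReal (hq q / q) *
      (kap q j (dirs m X ω) (dirs m Y ω') + 1 / 2) ∂(iid ι) =
      ∑ j ∈ Finset.range q, ENNReal.ofReal (hq q / q) *
      (∫⁻ ω', kap q j (dirs m X ω) (dirs m Y ω') ∂(iid ι) + 1 / 2) := by
    intro ω
    rw [lintegral_finsetSum]
    · apply Finset.sum_congr rfl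
      intro j _
      rw [lintegral_const_mul, lintegral_add_right _ measurable_const, lintegral_const,
        measure_univ, mul_one]
      exact (((measurable_kap_dirs hm q X Y j).comp measurable_prodMk_left).add measurable_const)
    · intro j _
      exact (((measurable_kap_dirs hm q X Y j).comp measurable_prodMk_left).add
        measurable_const).const_mul _
  simp_rw [h1]
  rw [lintegral_finsetSum]
  · apply Finset.sum_congr rfl
    intro j _
    rw [lintegral_const_mul, lintegral_add_right _ measurable_const, lintegral_const,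
      measure_univ, mul_one]
    · rfl
    · exact ((measurable_kap_dirs hm q X Y j).lintegral_prod_right').add measurable_const
  · intro j _
    exact (((measurable_kap_dirs hm q X Y j).lintegral_prod_right').add
      measurable_const).const_mul _

/-- the mixed strategy playing i.i.d. uniform patterns on blocks of `m` steps -/
noncomputable def blockLaw (q m : ℕ) (h0q : 0 < q) (X : ι → ℕ → Bool) :
    ProbabilityMeasure PureStrategy :=
  ⟨(iid ι).map (fun ω => tourPath (hq q) (hq_pos h0q) (dirs m X ω)),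
    Measure.isProbabilityMeasure_map (measurable_tour_dirs _ _ m X).aemeasurable⟩

lemma symmetricTime_directed {q m : ℕ} (h0q : 0 < q) (hm : 0 < m) (X : ι → ℕ → Bool) :
    symmetricTime directedTime (blockLaw q m h0q X) =
    ∑ j ∈ Finset.range q, ENNReal.ofReal (hq q / q) * (ekap m q X X j + 1 / 2) := by
  refine (symmetricTime_map (iid ι)
    (φ := fun ω => tourPath (hq q) (hq_pos h0q) (dirs m X ω))
    (measurable_tour_dirs _ _ m X)
    measurable_directedTime).trans ?_
  exact exp_directed h0q hm X X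

omit [Fintype ι] [Nonempty ι] [MeasurableSpace ι] [MeasurableSingletonClass ι] in
lemma lintegral_half_add {Ω : Type*} [MeasurableSpace Ω] (P : Measure Ω) [IsProbabilityMeasure P]
    (F G : Ω → Ω → ℝ≥0∞) (hF : Measurable (fun p : Ω × Ω => F p.1 p.2))
    (hG : Measurable (fun p : Ω × Ω => G p.1 p.2)) :
    ∫⁻ ω, ∫⁻ ω', 1 / 2 * (F ω ω' + G ω ω') ∂P ∂P =
      1 / 2 * (∫⁻ ω, ∫⁻ ω', F ω ω' ∂P ∂P + ∫⁻ ω, ∫⁻ ω', G ω ω' ∂P ∂P) := by
  have hF' : ∀ ω, Measurable (F ω) := fun ω => hF.comp measurable_prodMk_left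
  have hG' : ∀ ω, Measurable (G ω) := fun ω => hG.comp measurable_prodMk_left
  have h1 : ∀ ω, ∫⁻ ω', 1 / 2 * (F ω ω' + G ω ω') ∂P =
      1 / 2 * (∫⁻ ω', F ω ω' ∂P + ∫⁻ ω', G ω ω' ∂P) := by
    intro ω
    have h2 : Measurable (fun ω' => F ω ω' + G ω ω') := (hF' ω).add (hG' ω)
    rw [lintegral_const_mul _ h2, lintegral_add_left (hF' ω)]
  simp_rw [h1]
  have h3 : Measurable (fun ω => ∫⁻ ω', F ω ω' ∂P) := hF.lintegral_prod_right'
  have h4 : Measurable (fun ω => ∫⁻ ω', G ω ω' ∂P) := hG.lintegral_prod_right'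
  have h5 : Measurable (fun ω => ∫⁻ ω', F ω ω' ∂P + ∫⁻ ω', G ω ω' ∂P) := h3.add h4
  rw [lintegral_const_mul _ h5, lintegral_add_left h3]

lemma symmetricTime_undirected {q m : ℕ} (h0q : 0 < q) (hm : 0 < m) (X : ι → ℕ → Bool) :
    symmetricTime undirectedTime (blockLaw q m h0q X) =
    (1 / 2) * (∑ j ∈ Finset.range q, ENNReal.ofReal (hq q / q) * (ekap m q X X j + 1 / 2) +
      ∑ j ∈ Finset.range q, ENNReal.ofReal (hq q / q) *
        (ekap m q X (fun x k => !(X x k)) j + 1 / 2)) := by
  refine (symmetricTime_map (iid ι)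
    (φ := fun ω => tourPath (hq q) (hq_pos h0q) (dirs m X ω))
    (measurable_tour_dirs _ _ m X)
    measurable_undirectedTime).trans ?_
  simp_rw [undirectedTime_tour]
  have hφ : Measurable (fun p : (ℕ → ι) × (ℕ → ι) =>
      directedTime (tourPath (hq q) (hq_pos h0q) (dirs m X p.1))
      (tourPath (hq q) (hq_pos h0q) (dirs m X p.2))) :=
    measurable_directed_comp ((measurable_tour_dirs _ (hq_pos h0q) m X).comp measurable_fst)
      ((measurable_tour_dirs _ (hq_pos h0q) m X).comp measurable_snd)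
  have h2 : ∀ ω' : ℕ → ι, (fun k => !(dirs m X ω' k)) = dirs m (fun x k => !(X x k)) ω' := by
    intro ω'
    rfl
  simp_rw [h2]
  have hψ : Measurable (fun p : (ℕ → ι) × (ℕ → ι) =>
      directedTime (tourPath (hq q) (hq_pos h0q) (dirs m X p.1))
      (tourPath (hq q) (hq_pos h0q) (dirs m (fun x k => !(X x k)) p.2))) :=
    measurable_directed_comp ((measurable_tour_dirs _ (hq_pos h0q) m X).comp measurable_fst)
      ((measurable_tour_dirs _ (hq_pos h0q) m (fun x k => !(X x k))).comp measurable_snd)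
  refine (lintegral_half_add (iid ι) _ _ hφ hψ).trans ?_
  rw [exp_directed h0q hm X X, exp_directed h0q hm X (fun x k => !(X x k))]

end

/-! ### CO-HA-TO -/

lemma hq_one : hq 1 = 1 / 2 := by unfold hq; norm_num

lemma coHaTo_eq : coHaTo = blockLaw 1 1 Nat.one_pos (fun (b : Bool) (_ : ℕ) => b) := by
  apply Subtype.ext
  change (Measure.infinitePi fun _ : ℕ => fairCoin).map (tourPath (1 / 2) (by norm_num)) =
    (iid Bool).map (fun ω => tourPath (hq 1) (hq_pos Nat.one_pos)
      (dirs 1 (fun (b : Bool) (_ : ℕ) => b) ω))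
  have h1 : (fun ω : ℕ → Bool => tourPath (hq 1) (hq_pos Nat.one_pos)
      (dirs 1 (fun (b : Bool) (_ : ℕ) => b) ω)) = tourPath (1 / 2) (by norm_num) := by
    funext ω
    have h2 : dirs 1 (fun (b : Bool) (_ : ℕ) => b) ω = ω := by
      funext k
      simp [dirs]
    rw [h2]
    congr 1
    exact hq_one
  rw [h1]
  rfl

lemma ecnt_coHaTo (Y : Bool → ℕ → Bool) (hY : Y = (fun b _ => b) ∨ Y = (fun b _ => !b)) (N : ℕ) :
    ecnt 1 1 (fun (b : Bool) (_ : ℕ) => b) Y N 0 = 1 - (2 : ℝ≥0∞)⁻¹ ^ N := by
  induction N with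
  | zero => simp [ecnt_zero]
  | succ n ih =>
    have hd : ∀ x y : Bool, alive 1 0 (fun _ => x) (Y y) 1 = true → disp (fun _ => x) (Y y) 1 = 0 := by
      rcases hY with rfl | rfl <;> decide
    have hsum : ∑ x : Bool, ∑ y : Bool, ((cnt 1 0 (fun _ => x) (Y y) 1 : ℝ≥0∞) +
        (if alive 1 0 (fun _ => x) (Y y) 1 then
        ecnt 1 1 (fun (b : Bool) (_ : ℕ) => b) Y n (0 + disp (fun _ => x) (Y y) 1) else 0)) =
        2 * (1 + ecnt 1 1 (fun (b : Bool) (_ : ℕ) => b) Y n 0) := by
      rcases hY with rfl | rfl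
      · simp only [Fintype.sum_bool]
        have a1 : alive 1 0 (fun _ => true) (fun _ => true) 1 = true := by decide
        have a2 : alive 1 0 (fun _ => true) (fun _ => false) 1 = false := by decide
        have a3 : alive 1 0 (fun _ => false) (fun _ => true) 1 = false := by decide
        have a4 : alive 1 0 (fun _ => false) (fun _ => false) 1 = true := by decide
        have b1 : disp (fun _ => true) (fun _ => true) 1 = 0 := by decide
        have b4 : disp (fun _ => false) (fun _ => false) 1 = 0 := by decide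
        have c1 : cnt 1 0 (fun _ => true) (fun _ => true) 1 = 1 := by decide
        have c2 : cnt 1 0 (fun _ => true) (fun _ => false) 1 = 0 := by decide
        have c3 : cnt 1 0 (fun _ => false) (fun _ => true) 1 = 0 := by decide
        have c4 : cnt 1 0 (fun _ => false) (fun _ => false) 1 = 1 := by decide
        rw [a1, a2, a3, a4, b1, b4, c1, c2, c3, c4]
        simp only [if_true, Nat.cast_one, Nat.cast_zero, add_zero]
        simp
        ring
      · simp only [Fintype.sum_bool]
        have a1 : alive 1 0 (fun _ => true) (fun _ => !true) 1 = false := by decide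
        have a2 : alive 1 0 (fun _ => true) (fun _ => !false) 1 = true := by decide
        have a3 : alive 1 0 (fun _ => false) (fun _ => !true) 1 = true := by decide
        have a4 : alive 1 0 (fun _ => false) (fun _ => !false) 1 = false := by decide
        have b2 : disp (fun _ => true) (fun _ => !false) 1 = 0 := by decide
        have b3 : disp (fun _ => false) (fun _ => !true) 1 = 0 := by decide
        have c1 : cnt 1 0 (fun _ => true) (fun _ => !true) 1 = 0 := by decide
        have c2 : cnt 1 0 (fun _ => true) (fun _ => !false) 1 = 1 := by decide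
        have c3 : cnt 1 0 (fun _ => false) (fun _ => !true) 1 = 1 := by decide
        have c4 : cnt 1 0 (fun _ => false) (fun _ => !false) 1 = 0 := by decide
        rw [a1, a2, a3, a4, b2, b3, c1, c2, c3, c4]
        simp only [if_true, Nat.cast_one, Nat.cast_zero, add_zero]
        simp
        ring
    rw [ecnt_succ Nat.one_pos, hsum, ih, Fintype.card_bool]
    have h2 : (2 : ℝ≥0∞)⁻¹ ^ n ≤ 1 := pow_le_one₀ (by simp) (by norm_num)
    have h3 : (2 : ℝ≥0∞)⁻¹ ^ n ≠ ⊤ := ne_top_of_le_ne_top ENNReal.one_ne_top h2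
    push_cast
    rw [← ENNReal.toReal_eq_toReal_iff']
    · rw [ENNReal.toReal_mul, ENNReal.toReal_mul, ENNReal.toReal_mul, ENNReal.toReal_add (by simp)
        (by simp), ENNReal.toReal_sub_of_le h2 (by simp), ENNReal.toReal_sub_of_le
        (pow_le_one₀ (by simp) (by norm_num)) (by simp)]
      simp only [ENNReal.toReal_inv, ENNReal.toReal_ofNat, ENNReal.toReal_one, ENNReal.toReal_pow]
      rw [pow_succ]
      ring
    · apply ENNReal.mul_ne_top (by simp)
      apply ENNReal.mul_ne_top (by simp)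
      apply ENNReal.mul_ne_top (by simp)
      simp
    · simp

lemma iSup_geom : ⨆ N : ℕ, (1 - (2 : ℝ≥0∞)⁻¹ ^ N) = 1 := by
  rw [← ENNReal.sub_iInf]
  have : ⨅ N : ℕ, (2 : ℝ≥0∞)⁻¹ ^ N = 0 := by
    have h1 : Filter.Tendsto (fun N : ℕ => (2 : ℝ≥0∞)⁻¹ ^ N) Filter.atTop (𝓝 0) :=
      ENNReal.tendsto_pow_atTop_nhds_zero_of_lt_one (by norm_num)
    apply le_antisymm _ bot_le
    exact ge_of_tendsto' h1 (fun N => iInf_le _ N)
  rw [this, tsub_zero]

lemma ekap_coHaTo (Y : Bool → ℕ → Bool) (hY : Y = (fun b _ => b) ∨ Y = (fun b _ => !b)) :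
    ekap 1 1 (fun (b : Bool) (_ : ℕ) => b) Y 0 = 1 := by
  rw [ekap_eq Nat.one_pos]
  simp_rw [ecnt_coHaTo Y hY]
  exact iSup_geom

theorem coHaTo_directed : symmetricTime directedTime coHaTo = 3 / 4 := by
  rw [coHaTo_eq, symmetricTime_directed Nat.one_pos Nat.one_pos, Finset.sum_range_one]
  rw [Nat.cast_zero, ekap_coHaTo _ (Or.inl rfl), hq_one]
  rw [← ENNReal.toReal_eq_toReal_iff']
  · rw [ENNReal.toReal_mul, ENNReal.toReal_ofReal (by norm_num), ENNReal.toReal_add (by simp) (by simp)]
    norm_num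
  · exact ENNReal.mul_ne_top (by simp) (by simp)
  · exact ENNReal.div_ne_top (by simp) (by simp)

theorem coHaTo_undirected : symmetricTime undirectedTime coHaTo = 3 / 4 := by
  rw [coHaTo_eq, symmetricTime_undirected Nat.one_pos Nat.one_pos, Finset.sum_range_one,
    Finset.sum_range_one]
  rw [Nat.cast_zero, ekap_coHaTo _ (Or.inl rfl), ekap_coHaTo _ (Or.inr rfl), hq_one]
  rw [← ENNReal.toReal_eq_toReal_iff']
  · rw [ENNReal.toReal_mul, ENNReal.toReal_add, ENNReal.toReal_mul,
      ENNReal.toReal_ofReal (by norm_num), ENNReal.toReal_add (by simp) (by simp)]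
    · norm_num
    · exact ENNReal.mul_ne_top (by simp) (by simp)
    · exact ENNReal.mul_ne_top (by simp) (by simp)
  · apply ENNReal.mul_ne_top (by simp)
    rw [ENNReal.add_ne_top]
    exact ⟨ENNReal.mul_ne_top (by simp) (by simp), ENNReal.mul_ne_top (by simp) (by simp)⟩
  · exact ENNReal.div_ne_top (by simp) (by simp)

end Pool.Agent.Helper569.Circle
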