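import Pool.Agent.Helper569.CircleDefs

open MeasureTheory Topology
open scoped NNReal ENNReal

namespace Pool.Agent.Helper569.Circle

/-- relative displacement in one step, in units of twice the step length -/
def stp (b c : Bool) : ℤ := if b = c then 0 else if b then 1 else -1

/-- relative displacement after `i` steps -/
def disp (v w : ℕ → Bool) : ℕ → ℤ
  | 0 => 0
  | i + 1 => disp v w i + stp (v i) (w i)

/-- not yet met after `i` steps when starting in cell `j` -/
def alive (q : ℕ) (j : ℤ) (v w : ℕ → Bool) : ℕ → Bool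
  | 0 => decide (0 ≤ j ∧ j < q)
  | i + 1 => alive q j v w i && decide (0 ≤ j + disp v w (i + 1) ∧ j + disp v w (i + 1) < q)

/-- number of steps survived among the first `N` -/
def cnt (q : ℕ) (j : ℤ) (v w : ℕ → Bool) : ℕ → ℕ
  | 0 => 0
  | i + 1 => cnt q j v w i + (if alive q j v w (i + 1) then 1 else 0)

/-- total number of steps survived -/
noncomputable def kap (q : ℕ) (j : ℤ) (v w : ℕ → Bool) : ℝ≥0∞ := ⨆ N, (cnt q j v w N : ℝ≥0∞)

lemma tourPosition_at {h : ℝ} (hh : 0 < h) (v : ℕ → Bool) (i : ℕ) {τ : ℝ} (h0 : 0 ≤ τ)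
    (h1 : τ ≤ h) : tourPosition h v (i * h + τ) =
      ∑ k ∈ Finset.range i, (if v k then 1 else -1) * h + (if v i then 1 else -1) * τ := by
  rw [tourPosition_eq hh v (N := i + 1) (by push_cast; linarith), Finset.sum_range_succ]
  congr 1
  · apply Finset.sum_congr rfl
    intro k hk
    have hk' : (k : ℝ) + 1 ≤ i := by exact_mod_cast Finset.mem_range.1 hk
    congr 1
    unfold ramp
    rw [min_eq_left (by nlinarith), max_eq_right hh.le]
  · congr 1
    unfold ramp
    rw [add_sub_cancel_left, min_eq_right h1, max_eq_right h0]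

lemma sgn_sub (b c : Bool) : (if b then (1 : ℝ) else -1) - (if c then 1 else -1) = 2 * (stp b c : ℤ) := by
  cases b <;> cases c <;> simp [stp] <;> norm_num

lemma sum_sgn_sub (v w : ℕ → Bool) (h : ℝ) (i : ℕ) :
    ∑ k ∈ Finset.range i, (if v k then (1 : ℝ) else -1) * h -
      ∑ k ∈ Finset.range i, (if w k then (1 : ℝ) else -1) * h = 2 * h * (disp v w i : ℤ) := by
  induction i with
  | zero => simp [disp]
  | succ n ih =>
    rw [Finset.sum_range_succ, Finset.sum_range_succ]
    have h1 := sgn_sub (v n) (w n)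
    have h2 : disp v w (n + 1) = disp v w n + stp (v n) (w n) := rfl
    rw [h2]
    push_cast
    linear_combination ih + h * h1

lemma diff_eq {h : ℝ} (hh : 0 < h) (v w : ℕ → Bool) (i : ℕ) {τ : ℝ} (h0 : 0 ≤ τ)
    (h1 : τ ≤ h) : tourPosition h v (i * h + τ) - tourPosition h w (i * h + τ) =
      2 * h * (disp v w i : ℤ) + 2 * (stp (v i) (w i) : ℤ) * τ := by
  rw [tourPosition_at hh v i h0 h1, tourPosition_at hh w i h0 h1]
  have h2 := sum_sgn_sub v w h i
  have h3 := sgn_sub (v i) (w i)
  linear_combination h2 + τ * h3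

lemma alive_zero_le {q : ℕ} {j : ℤ} {v w : ℕ → Bool} : ∀ {i k : ℕ}, k ≤ i → alive q j v w i →
    alive q j v w k := by
  intro i
  induction i with
  | zero => intro k hk h; rwa [Nat.le_zero.1 hk]
  | succ n ih =>
    intro k hk h
    rcases Nat.lt_or_ge k (n + 1) with h1 | h1
    · apply ih (Nat.lt_succ_iff.1 h1)
      rw [alive, Bool.and_eq_true] at h
      exact h.1
    · rw [le_antisymm hk h1]
      exact h

lemma alive_bound {q : ℕ} {j : ℤ} {v w : ℕ → Bool} {i : ℕ} (h : alive q j v w i) :
    0 ≤ j + disp v w i ∧ j + disp v w i < q := by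
  cases i with
  | zero => simpa [alive, disp] using h
  | succ n =>
    rw [alive, Bool.and_eq_true, decide_eq_true_eq] at h
    exact h.2

lemma coe_meet_iff (a x y : ℝ) : (a : UnitAddCircle) + (x : UnitAddCircle) = (y : UnitAddCircle) ↔
    ∃ n : ℤ, a + (x - y) = n := by
  rw [← AddCircle.coe_add, ← sub_eq_zero, ← AddCircle.coe_sub, AddCircle.coe_eq_zero_iff]
  constructor
  · rintro ⟨n, hn⟩
    refine ⟨n, ?_⟩
    rw [zsmul_eq_mul, mul_one] at hn
    rw [hn]; ring
  · rintro ⟨n, hn⟩
    refine ⟨n, ?_⟩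
    rw [zsmul_eq_mul, mul_one, ← hn]; ring

lemma not_int_of_lt {q : ℕ} (hq : 0 < q) {y : ℝ} (h0 : 0 < y) (h1 : y < q) :
    ¬ ∃ n : ℤ, y / q = n := by
  rintro ⟨n, hn⟩
  have hq' : (0 : ℝ) < q := by exact_mod_cast hq
  have h2 : 0 < y / q := by positivity
  have h3 : y / q < 1 := by rw [div_lt_one hq']; exact h1
  rw [hn] at h2 h3
  have h4 : (0 : ℤ) < n := by exact_mod_cast h2
  have h5 : n < (1 : ℤ) := by exact_mod_cast h3
  omega

/-- step length for the grid of `q` cells -/
noncomputable def hq (q : ℕ) : ℝ := 1 / (2 * q)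

lemma hq_pos {q : ℕ} (h : 0 < q) : 0 < hq q := by
  unfold hq
  have : (0 : ℝ) < q := by exact_mod_cast h
  positivity

/-- the relative position (in units of the cells) -/
lemma rel_eq {q : ℕ} (h0q : 0 < q) (v w : ℕ → Bool) (j : ℤ) (u : ℝ) (i : ℕ) {τ : ℝ} (h0 : 0 ≤ τ)
    (h1 : τ ≤ hq q) :
    ((j : ℝ) + u) / q + (tourPosition (hq q) v (i * hq q + τ) -
      tourPosition (hq q) w (i * hq q + τ)) =
    (((j + disp v w i : ℤ) : ℝ) + u + (stp (v i) (w i) : ℤ) * (τ / hq q)) / q := by
  rw [diff_eq (hq_pos h0q) v w i h0 h1]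
  have hq' : (0 : ℝ) < q := by exact_mod_cast h0q
  unfold hq
  push_cast
  field_simp
  ring

lemma stp_cases (b c : Bool) : stp b c = 0 ∨ stp b c = 1 ∨ stp b c = -1 := by
  cases b <;> cases c <;> simp [stp]

lemma no_meet_of_alive {q : ℕ} (h0q : 0 < q) {v w : ℕ → Bool} {j : ℤ} {u : ℝ} (hu0 : 0 < u)
    (hu1 : u < 1) {i : ℕ} (ha : alive q j v w (i + 1)) {τ : ℝ} (h0 : 0 ≤ τ)
    (h1 : τ ≤ hq q) :
    ¬ ((((j : ℝ) + u) / q : ℝ) : UnitAddCircle) +
      ((tourPosition (hq q) v (i * hq q + τ) : ℝ) : UnitAddCircle) =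
      ((tourPosition (hq q) w (i * hq q + τ) : ℝ) : UnitAddCircle) := by
  rw [coe_meet_iff, rel_eq h0q v w j u i h0 h1]
  have hb1 := alive_bound ha
  have hb0 := alive_bound (alive_zero_le (Nat.le_succ i) ha)
  have hd : disp v w (i + 1) = disp v w i + stp (v i) (w i) := rfl
  rw [hd] at hb1
  have hh := hq_pos h0q
  have hl0 : 0 ≤ τ / hq q := by positivity
  have hl1 : τ / hq q ≤ 1 := by rw [div_le_one hh]; exact h1
  generalize τ / hq q = l at hl0 hl1 ⊢
  obtain ⟨a1, a2⟩ := hb0
  obtain ⟨a3, a4⟩ := hb1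
  have b1 : (0 : ℝ) ≤ ((j + disp v w i : ℤ) : ℝ) := by exact_mod_cast a1
  have b2 : ((j + disp v w i : ℤ) : ℝ) + 1 ≤ q := by exact_mod_cast a2
  have b3 : (0 : ℝ) ≤ ((j + disp v w i : ℤ) : ℝ) + (stp (v i) (w i) : ℤ) := by
    exact_mod_cast (by omega : (0 : ℤ) ≤ (j + disp v w i) + stp (v i) (w i))
  have b4 : ((j + disp v w i : ℤ) : ℝ) + (stp (v i) (w i) : ℤ) + 1 ≤ q := by
    exact_mod_cast (by omega : (j + disp v w i) + stp (v i) (w i) + 1 ≤ (q : ℤ))
  apply not_int_of_lt h0q <;> nlinarith

/-- the offset of the meeting time in the step in which the players meet -/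
noncomputable def off (b c : Bool) (u : ℝ) : ℝ := if stp b c = 1 then 1 - u else u

lemma exit_cases {q : ℕ} {v w : ℕ → Bool} {j : ℤ} {i : ℕ} (ha : alive q j v w i)
    (hb : ¬ alive q j v w (i + 1)) : (stp (v i) (w i) = 1 ∧ j + disp v w i = q - 1) ∨
      (stp (v i) (w i) = -1 ∧ j + disp v w i = 0) := by
  have h1 := alive_bound ha
  have h2 : ¬ (0 ≤ j + disp v w (i + 1) ∧ j + disp v w (i + 1) < q) := by
    intro h
    apply hb
    rw [alive, Bool.and_eq_true, decide_eq_true_eq]
    exact ⟨ha, h⟩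
  have hd : disp v w (i + 1) = disp v w i + stp (v i) (w i) := rfl
  rw [hd] at h2
  rcases stp_cases (v i) (w i) with h | h | h <;> rw [h] at h2 ⊢ <;> omega

lemma meetingTime_exit {q : ℕ} (h0q : 0 < q) {v w : ℕ → Bool} {j : ℤ} {u : ℝ} (hu0 : 0 < u)
    (hu1 : u < 1) {i : ℕ} (ha : alive q j v w i) (hb : ¬ alive q j v w (i + 1)) :
    meetingTime (fun t => ((((j : ℝ) + u) / q : ℝ) : UnitAddCircle) +
      (tourPath (hq q) (hq_pos h0q) v).1 t) (fun t => (tourPath (hq q) (hq_pos h0q) w).1 t) =
    ENNReal.ofReal ((i + off (v i) (w i) u) * hq q) := by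
  have hh := hq_pos h0q
  have hoff0 : 0 ≤ off (v i) (w i) u := by unfold off; split_ifs <;> linarith
  have hoff1 : off (v i) (w i) u ≤ 1 := by unfold off; split_ifs <;> linarith
  have hq' : (0 : ℝ) < q := by exact_mod_cast h0q
  apply le_antisymm
  · -- meeting happens at that time
    have h1 : 0 ≤ (i + off (v i) (w i) u) * hq q := by positivity
    refine (iInf₂_le (⟨_, h1⟩ : ℝ≥0) ?_).trans (le_of_eq ?_)
    · change ((((j : ℝ) + u) / q : ℝ) : UnitAddCircle) +
        ((tourPosition (hq q) v ((i + off (v i) (w i) u) * hq q) : ℝ) : UnitAddCircle) =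
        ((tourPosition (hq q) w ((i + off (v i) (w i) u) * hq q) : ℝ) : UnitAddCircle)
      rw [add_mul, coe_meet_iff, rel_eq h0q v w j u i (by positivity) (by nlinarith)]
      rw [mul_div_assoc, div_self hh.ne', mul_one]
      rcases exit_cases ha hb with ⟨h2, h3⟩ | ⟨h2, h3⟩
      · refine ⟨1, ?_⟩
        rw [h3]
        unfold off
        rw [if_pos h2, h2]
        push_cast
        field_simp
        ring
      · refine ⟨0, ?_⟩
        rw [h3]
        unfold off
        rw [if_neg (by rw [h2]; norm_num), h2]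
        push_cast
        ring
    · rw [ENNReal.ofReal, Real.toNNReal_of_nonneg h1]
      rfl
  · refine le_iInf₂ fun t ht => ?_
    rw [ENNReal.ofReal_le_iff_le_toReal ENNReal.coe_ne_top, ENNReal.coe_toReal]
    by_contra hlt
    rw [not_le] at hlt
    change ((((j : ℝ) + u) / q : ℝ) : UnitAddCircle) +
        ((tourPosition (hq q) v t : ℝ) : UnitAddCircle) =
        ((tourPosition (hq q) w t : ℝ) : UnitAddCircle) at ht
    obtain ⟨k, hk1, hk2⟩ : ∃ k : ℕ, (k : ℝ) * hq q ≤ t ∧ (t : ℝ) < (k + 1) * hq q := by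
      refine ⟨⌊(t : ℝ) / hq q⌋₊, ?_, ?_⟩
      · rw [← le_div_iff₀ hh]
        exact Nat.floor_le (by positivity)
      · rw [← div_lt_iff₀ hh]
        exact Nat.lt_floor_add_one _
    have hk : k ≤ i := by
      by_contra hki
      have : (i : ℝ) + 1 ≤ k := by exact_mod_cast not_le.1 hki
      nlinarith
    obtain ⟨τ, hτ⟩ : ∃ τ, (t : ℝ) = k * hq q + τ := ⟨t - k * hq q, by ring⟩
    rw [hτ] at ht hk1 hk2 hlt
    rcases Nat.lt_or_ge k i with h1 | h1
    · exact no_meet_of_alive h0q hu0 hu1 (alive_zero_le h1 ha) (by linarith) (by linarith) ht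
    · have hki : k = i := le_antisymm hk h1
      subst hki
      rw [coe_meet_iff, rel_eq h0q v w j u k (by linarith) (by linarith)] at ht
      have hτ0 : 0 ≤ τ := by linarith
      have hτ1 : τ < off (v k) (w k) u * hq q := by nlinarith
      have hl0 : 0 ≤ τ / hq q := by positivity
      have hl1 : τ / hq q < off (v k) (w k) u := by rw [div_lt_iff₀ hh]; exact hτ1
      revert ht
      generalize τ / hq q = l at hl0 hl1 ⊢
      apply not_int_of_lt h0q
      · rcases exit_cases ha hb with ⟨h2, h3⟩ | ⟨h2, h3⟩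
        · rw [h3, h2]
          push_cast
          have : (1 : ℝ) ≤ q := by exact_mod_cast h0q
          linarith
        · rw [h3, h2]
          unfold off at hl1
          rw [h2, if_neg (by norm_num)] at hl1
          push_cast
          linarith
      · rcases exit_cases ha hb with ⟨h2, h3⟩ | ⟨h2, h3⟩
        · rw [h3, h2]
          unfold off at hl1
          rw [h2, if_pos rfl] at hl1
          push_cast
          linarith
        · rw [h3, h2]
          push_cast
          have : (1 : ℝ) ≤ q := by exact_mod_cast h0q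
          linarith

lemma meetingTime_never {q : ℕ} (h0q : 0 < q) {v w : ℕ → Bool} {j : ℤ} {u : ℝ} (hu0 : 0 < u)
    (hu1 : u < 1) (ha : ∀ i, alive q j v w i) :
    meetingTime (fun t => ((((j : ℝ) + u) / q : ℝ) : UnitAddCircle) +
      (tourPath (hq q) (hq_pos h0q) v).1 t) (fun t => (tourPath (hq q) (hq_pos h0q) w).1 t) = ⊤ := by
  have hh := hq_pos h0q
  unfold meetingTime
  simp only [iInf_eq_top]
  intro t ht
  exfalso
  change ((((j : ℝ) + u) / q : ℝ) : UnitAddCircle) +
        ((tourPosition (hq q) v t : ℝ) : UnitAddCircle) =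
        ((tourPosition (hq q) w t : ℝ) : UnitAddCircle) at ht
  obtain ⟨k, hk1, hk2⟩ : ∃ k : ℕ, (k : ℝ) * hq q ≤ t ∧ (t : ℝ) < (k + 1) * hq q := by
    refine ⟨⌊(t : ℝ) / hq q⌋₊, ?_, ?_⟩
    · rw [← le_div_iff₀ hh]
      exact Nat.floor_le (by positivity)
    · rw [← div_lt_iff₀ hh]
      exact Nat.lt_floor_add_one _
  obtain ⟨τ, hτ⟩ : ∃ τ, (t : ℝ) = k * hq q + τ := ⟨t - k * hq q, by ring⟩
  rw [hτ] at ht hk1 hk2
  exact no_meet_of_alive h0q hu0 hu1 (ha (k + 1)) (by linarith) (by linarith) ht

lemma cnt_of_alive {q : ℕ} {j : ℤ} {v w : ℕ → Bool} {N : ℕ} (h : alive q j v w N) :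
    cnt q j v w N = N := by
  induction N with
  | zero => rfl
  | succ n ih =>
    rw [cnt, if_pos h, ih (alive_zero_le (Nat.le_succ n) h)]

lemma cnt_of_exit {q : ℕ} {j : ℤ} {v w : ℕ → Bool} {i : ℕ} (ha : alive q j v w i)
    (hb : ¬ alive q j v w (i + 1)) : ∀ N, i ≤ N → cnt q j v w N = i := by
  intro N hN
  induction N, hN using Nat.le_induction with
  | base => exact cnt_of_alive ha
  | succ n hn ih =>
    have h1 : ¬ alive q j v w (n + 1) = true := fun h => hb (alive_zero_le (by omega) h)
    rw [cnt, ih, if_neg h1, add_zero]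

lemma cnt_mono (q : ℕ) (j : ℤ) (v w : ℕ → Bool) : Monotone (cnt q j v w) := by
  apply monotone_nat_of_le_succ
  intro n
  rw [cnt]
  omega

lemma kap_of_exit {q : ℕ} {j : ℤ} {v w : ℕ → Bool} {i : ℕ} (ha : alive q j v w i)
    (hb : ¬ alive q j v w (i + 1)) : kap q j v w = i := by
  apply le_antisymm
  · apply iSup_le
    intro N
    rcases le_total i N with h | h
    · rw [cnt_of_exit ha hb N h]
    · have := cnt_mono q j v w h
      rw [cnt_of_exit ha hb i le_rfl] at this
      exact_mod_cast this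
  · refine le_iSup_of_le i ?_
    rw [cnt_of_exit ha hb i le_rfl]

lemma kap_of_alive {q : ℕ} {j : ℤ} {v w : ℕ → Bool} (ha : ∀ i, alive q j v w i) :
    kap q j v w = ⊤ := by
  unfold kap
  simp_rw [cnt_of_alive (ha _)]
  exact ENNReal.iSup_natCast


lemma cell_integral {q : ℕ} (h0q : 0 < q) (v w : ℕ → Bool) {j : ℕ} (hj : j < q) :
    ∫⁻ a in Set.Ioc ((j : ℝ) / q) (((j : ℝ) + 1) / q),
      meetingTime (fun t => (a : UnitAddCircle) + (tourPath (hq q) (hq_pos h0q) v).1 t)
        (fun t => (tourPath (hq q) (hq_pos h0q) w).1 t) =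
    ENNReal.ofReal (hq q / q) * (kap q j v w + 1 / 2) := by
  have hh := hq_pos h0q
  have hq' : (0 : ℝ) < q := by exact_mod_cast h0q
  have ha0 : alive q (j : ℤ) v w 0 := by simp [alive, hj]
  rw [← restrict_Ioo_eq_restrict_Ioc]
  by_cases hex : ∃ i, ¬ alive q (j : ℤ) v w i
  · obtain ⟨i, hai, hbi⟩ : ∃ i, alive q (j : ℤ) v w i ∧ ¬ alive q (j : ℤ) v w (i + 1) := by
      classical
      have h1 := Nat.find_spec hex
      have h2 : Nat.find hex ≠ 0 := by
        intro h
        rw [h] at h1
        exact h1 ha0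
      obtain ⟨i, hi⟩ := Nat.exists_eq_succ_of_ne_zero h2
      refine ⟨i, ?_, ?_⟩
      · by_contra h
        have := Nat.find_min' hex h
        omega
      · rw [hi] at h1
        exact h1
    have h1 : ∫⁻ a in Set.Ioo ((j : ℝ) / q) (((j : ℝ) + 1) / q),
      meetingTime (fun t => (a : UnitAddCircle) + (tourPath (hq q) (hq_pos h0q) v).1 t)
        (fun t => (tourPath (hq q) (hq_pos h0q) w).1 t) =
        ∫⁻ a in Set.Ioo ((j : ℝ) / q) (((j : ℝ) + 1) / q),
          ENNReal.ofReal ((i + off (v i) (w i) (a * q - j)) * hq q) := by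
      apply setLIntegral_congr_fun measurableSet_Ioo
      intro a ha
      rw [Set.mem_Ioo, div_lt_iff₀ hq', lt_div_iff₀ hq'] at ha
      have h2 := meetingTime_exit h0q (j := (j : ℤ)) (u := a * q - j) (by linarith) (by linarith)
        hai hbi
      have h3 : (((j : ℤ) : ℝ) + (a * q - j)) / q = a := by
        push_cast
        field_simp
        ring
      rw [h3] at h2
      exact h2
    rw [h1, kap_of_exit hai hbi]
    have hoffc : ∀ b c : Bool, Continuous (fun a : ℝ => off b c (a * q - j)) := by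
      intro b c
      unfold off
      split_ifs <;> fun_prop
    have hle : (j : ℝ) / q ≤ ((j : ℝ) + 1) / q := by
      apply div_le_div_of_nonneg_right _ hq'.le
      linarith
    rw [← ofReal_integral_eq_lintegral_ofReal]
    · rw [← integral_Ioc_eq_integral_Ioo, ← intervalIntegral.integral_of_le hle]
      have hval : ∫ a in ((j : ℝ) / q)..(((j : ℝ) + 1) / q),
          (i + off (v i) (w i) (a * q - j)) * hq q = (hq q / q) * (i + 1 / 2) := by
        unfold off
        by_cases hs : stp (v i) (w i) = 1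
        · simp only [if_pos hs]
          have : (fun a : ℝ => ((i : ℝ) + (1 - (a * q - j))) * hq q) =
              fun a => ((i + 1 + j) * hq q) - (q * hq q) * a := by
            ext a; ring
          rw [this, intervalIntegral.integral_sub (by simp) (by
            apply Continuous.intervalIntegrable; fun_prop), intervalIntegral.integral_const,
            intervalIntegral.integral_const_mul, integral_id]
          simp only [smul_eq_mul]
          field_simp
          ring
        · simp only [if_neg hs]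
          have : (fun a : ℝ => ((i : ℝ) + (a * q - j)) * hq q) =
              fun a => ((i - j) * hq q) + (q * hq q) * a := by
            ext a; ring
          rw [this, intervalIntegral.integral_add (by simp) (by
            apply Continuous.intervalIntegrable; fun_prop), intervalIntegral.integral_const,
            intervalIntegral.integral_const_mul, integral_id]
          simp only [smul_eq_mul]
          field_simp
          ring
      rw [hval, ENNReal.ofReal_mul (by positivity), ENNReal.ofReal_add (by positivity) (by norm_num),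
        ENNReal.ofReal_natCast]
      congr 2
      rw [ENNReal.ofReal_div_of_pos (by norm_num)]
      simp
    · exact ((continuous_const.add (hoffc _ _)).mul continuous_const).integrableOn_Icc.mono_set
        Set.Ioo_subset_Icc_self
    · rw [Filter.EventuallyLE, ae_restrict_iff' measurableSet_Ioo]
      refine Filter.Eventually.of_forall fun a ha => ?_
      rw [Set.mem_Ioo, div_lt_iff₀ hq', lt_div_iff₀ hq'] at ha
      have : 0 ≤ off (v i) (w i) (a * q - j) := by unfold off; split_ifs <;> linarith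
      simp only [Pi.zero_apply]
      positivity
  · push Not at hex
    rw [kap_of_alive hex]
    have h1 : ∫⁻ a in Set.Ioo ((j : ℝ) / q) (((j : ℝ) + 1) / q),
      meetingTime (fun t => (a : UnitAddCircle) + (tourPath (hq q) (hq_pos h0q) v).1 t)
        (fun t => (tourPath (hq q) (hq_pos h0q) w).1 t) =
        ∫⁻ a in Set.Ioo ((j : ℝ) / q) (((j : ℝ) + 1) / q), ⊤ := by
      apply setLIntegral_congr_fun measurableSet_Ioo
      intro a ha
      rw [Set.mem_Ioo, div_lt_iff₀ hq', lt_div_iff₀ hq'] at ha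
      have h2 := meetingTime_never h0q (j := (j : ℤ)) (u := a * q - j) (by linarith) (by linarith)
        hex
      have h3 : (((j : ℤ) : ℝ) + (a * q - j)) / q = a := by
        push_cast
        field_simp
        ring
      rw [h3] at h2
      exact h2
    rw [h1, setLIntegral_const, Real.volume_Ioo, top_add, ENNReal.mul_top, ENNReal.top_mul]
    · rw [ne_eq, ENNReal.ofReal_eq_zero, not_le, sub_pos]
      exact div_lt_div_of_pos_right (by linarith) hq'
    · rw [ne_eq, ENNReal.ofReal_eq_zero, not_le]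
      positivity

lemma directedTime_tour {q : ℕ} (h0q : 0 < q) (v w : ℕ → Bool) :
    directedTime (tourPath (hq q) (hq_pos h0q) v) (tourPath (hq q) (hq_pos h0q) w) =
    ∑ j ∈ Finset.range q, ENNReal.ofReal (hq q / q) * (kap q j v w + 1 / 2) := by
  have hq' : (0 : ℝ) < q := by exact_mod_cast h0q
  unfold directedTime
  rw [← UnitAddCircle.lintegral_preimage 0, zero_add]
  have key : ∀ n : ℕ, n ≤ q → ∫⁻ a in Set.Ioc (0 : ℝ) ((n : ℝ) / q),
      meetingTime (fun t => (a : UnitAddCircle) + (tourPath (hq q) (hq_pos h0q) v).1 t)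
        (fun t => (tourPath (hq q) (hq_pos h0q) w).1 t) =
      ∑ j ∈ Finset.range n, ENNReal.ofReal (hq q / q) * (kap q j v w + 1 / 2) := by
    intro n
    induction n with
    | zero => intro _; simp
    | succ n ih =>
      intro hn
      rw [Finset.sum_range_succ, ← ih (by omega), ← cell_integral h0q v w (by omega : n < q)]
      have h1 : (0 : ℝ) ≤ (n : ℝ) / q := by positivity
      have h2 : (n : ℝ) / q ≤ ((n : ℝ) + 1) / q := by
        apply div_le_div_of_nonneg_right _ hq'.le
        linarith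
      have h3 : Set.Ioc (0 : ℝ) (((n + 1 : ℕ) : ℝ) / q) =
          Set.Ioc (0 : ℝ) ((n : ℝ) / q) ∪ Set.Ioc ((n : ℝ) / q) (((n : ℝ) + 1) / q) := by
        push_cast
        rw [Set.Ioc_union_Ioc_eq_Ioc h1 h2]
      rw [h3, lintegral_union measurableSet_Ioc]
      exact Set.Ioc_disjoint_Ioc_of_le le_rfl
  have := key q le_rfl
  rw [div_self hq'.ne'] at this
  exact this

end Pool.Agent.Helper569.Circle
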