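import Pool.Agent.Helper569.CircleDefs

open MeasureTheory Topology
open scoped NNReal ENNReal

namespace Pool.Agent.Helper569.Circle

instance : SecondCountableTopology PureStrategy :=
  TopologicalSpace.Subtype.secondCountableTopology _

lemma meetingTime_le_iff {p q : ℝ≥0 → UnitAddCircle} (hp : Continuous p) (hq : Continuous q)
    (r : ℝ≥0) : meetingTime p q ≤ r ↔ ∃ t ∈ Set.Icc 0 r, p t = q t := by
  constructor
  · intro h
    have hclosed : IsClosed {t : ℝ≥0 | p t = q t} := isClosed_eq hp hq
    have hne : {t : ℝ≥0 | p t = q t}.Nonempty := by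
      by_contra hne
      rw [Set.not_nonempty_iff_eq_empty] at hne
      have : meetingTime p q = ⊤ := by
        unfold meetingTime
        simp only [iInf_eq_top]
        intro t ht
        have : t ∈ {t : ℝ≥0 | p t = q t} := ht
        rw [hne] at this
        exact absurd this (Set.notMem_empty _)
      rw [this] at h
      exact absurd h (by simp)
    refine ⟨sInf {t : ℝ≥0 | p t = q t}, ⟨bot_le, ?_⟩, hclosed.csInf_mem hne (OrderBot.bddBelow _)⟩
    have h2 : ((sInf {t : ℝ≥0 | p t = q t} : ℝ≥0) : ℝ≥0∞) ≤ meetingTime p q := by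
      unfold meetingTime
      refine le_iInf₂ fun t ht => ?_
      have h3 : sInf {t : ℝ≥0 | p t = q t} ≤ t :=
        csInf_le (OrderBot.bddBelow _) (show t ∈ {t : ℝ≥0 | p t = q t} from ht)
      exact_mod_cast h3
    exact_mod_cast h2.trans h
  · rintro ⟨t, ⟨_, ht⟩, hpq⟩
    exact (iInf₂_le t hpq).trans (by exact_mod_cast ht)

lemma lowerSemicontinuous_meetingTime {Z : Type*} [TopologicalSpace Z]
    (f g : Z → ℝ≥0 → UnitAddCircle) (hf : Continuous (Function.uncurry f))
    (hg : Continuous (Function.uncurry g)) :
    LowerSemicontinuous (fun z => meetingTime (f z) (g z)) := by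
  rw [lowerSemicontinuous_iff_isClosed_preimage]
  intro y
  rcases eq_or_ne y ⊤ with rfl | hy
  · simp
  · lift y to ℝ≥0 using hy
    have h1 : (fun z => meetingTime (f z) (g z)) ⁻¹' Set.Iic (y : ℝ≥0∞) =
        Prod.snd '' {x : (Set.Icc (0 : ℝ≥0) y) × Z | f x.2 x.1 = g x.2 x.1} := by
      ext z
      have hfz : Continuous (f z) := hf.comp (Continuous.prodMk_right z)
      have hgz : Continuous (g z) := hg.comp (Continuous.prodMk_right z)
      rw [Set.mem_preimage, Set.mem_Iic, meetingTime_le_iff hfz hgz]
      constructor
      · rintro ⟨t, ht, h⟩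
        exact ⟨(⟨t, ht⟩, z), h, rfl⟩
      · rintro ⟨⟨t, z'⟩, h, rfl⟩
        exact ⟨t, t.2, h⟩
    rw [h1]
    apply isClosedMap_snd_of_compactSpace
    apply isClosed_eq
    · exact hf.comp (continuous_snd.prodMk (continuous_subtype_val.comp continuous_fst))
    · exact hg.comp (continuous_snd.prodMk (continuous_subtype_val.comp continuous_fst))

lemma continuous_eval_strategy {Z : Type*} [TopologicalSpace Z] (s : Z → PureStrategy)
    (t : Z → ℝ≥0) (hs : Continuous s) (ht : Continuous t) :
    Continuous (fun z => (s z).1 (t z)) := by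
  have h1 : Continuous (fun z => (s z).1) := continuous_subtype_val.comp hs
  exact h1.eval ht

lemma measurable_meet₁ : Measurable (fun x : (PureStrategy × PureStrategy) × UnitAddCircle =>
    meetingTime (fun t => x.2 + x.1.1.1 t) (fun t => x.1.2.1 t)) := by
  apply LowerSemicontinuous.measurable
  apply lowerSemicontinuous_meetingTime (f := fun (x : (PureStrategy × PureStrategy) × UnitAddCircle) t => x.2 + x.1.1.1 t)
    (g := fun x t => x.1.2.1 t)
  · apply Continuous.add
    · exact continuous_snd.comp continuous_fst
    · exact continuous_eval_strategy (fun z : ((PureStrategy × PureStrategy) × UnitAddCircle) × ℝ≥0 => z.1.1.1) (fun z => z.2) (by fun_prop) (by fun_prop)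
  · exact continuous_eval_strategy (fun z : ((PureStrategy × PureStrategy) × UnitAddCircle) × ℝ≥0 => z.1.1.2) (fun z => z.2) (by fun_prop) (by fun_prop)

lemma measurable_meet₂ : Measurable (fun x : (PureStrategy × PureStrategy) × UnitAddCircle =>
    meetingTime (fun t => x.2 + x.1.1.1 t) (fun t => -(x.1.2.1 t))) := by
  apply LowerSemicontinuous.measurable
  apply lowerSemicontinuous_meetingTime (f := fun (x : (PureStrategy × PureStrategy) × UnitAddCircle) t => x.2 + x.1.1.1 t)
    (g := fun x t => -(x.1.2.1 t))
  · apply Continuous.add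
    · exact continuous_snd.comp continuous_fst
    · exact continuous_eval_strategy (fun z : ((PureStrategy × PureStrategy) × UnitAddCircle) × ℝ≥0 => z.1.1.1) (fun z => z.2) (by fun_prop) (by fun_prop)
  · apply Continuous.neg
    exact continuous_eval_strategy (fun z : ((PureStrategy × PureStrategy) × UnitAddCircle) × ℝ≥0 => z.1.1.2) (fun z => z.2) (by fun_prop) (by fun_prop)

lemma measurable_directedTime :
    Measurable (fun x : PureStrategy × PureStrategy => directedTime x.1 x.2) :=
  measurable_meet₁.lintegral_prod_right'

lemma measurable_undirectedTime :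
    Measurable (fun x : PureStrategy × PureStrategy => undirectedTime x.1 x.2) :=
  (measurable_meet₁.add measurable_meet₂).lintegral_prod_right'.const_mul _

end Pool.Agent.Helper569.Circle
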