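import Pool.Agent.Helper569.CircleMeas
import Pool.Agent.Helper569.CircleGeom

open MeasureTheory Topology
open scoped NNReal ENNReal

namespace Pool.Agent.Helper569.Circle

section cons

variable {ι : Type} [MeasurableSpace ι]

/-- prepend an element to a sequence -/
def scons (x : ι) (ω : ℕ → ι) : ℕ → ι
  | 0 => x
  | k + 1 => ω k

lemma measurable_scons : Measurable (fun p : ι × (ℕ → ι) => scons p.1 p.2) := by
  rw [measurable_pi_iff]
  intro k
  cases k with
  | zero => exact measurable_fst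
  | succ n => exact (measurable_pi_apply n).comp measurable_snd

lemma map_scons (ν : Measure ι) [IsProbabilityMeasure ν] :
    (ν.prod (Measure.infinitePi fun _ : ℕ => ν)).map (fun p : ι × (ℕ → ι) => scons p.1 p.2) =
      Measure.infinitePi fun _ : ℕ => ν := by
  classical
  apply Measure.eq_infinitePi
  intro s t ht
  obtain ⟨N, hN⟩ : ∃ N, s ⊆ Finset.range (N + 1) := by
    obtain ⟨M, hM⟩ := s.exists_nat_subset_range
    exact ⟨M, hM.trans (Finset.range_mono (Nat.le_succ M))⟩
  set t' : ℕ → Set ι := fun i => if i ∈ s then t i else Set.univ with ht'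
  have ht'm : ∀ i, MeasurableSet (t' i) := by
    intro i
    simp only [ht']
    split_ifs
    · exact ht i
    · exact MeasurableSet.univ
  have h1 : Set.pi (s : Set ℕ) t = Set.pi ((Finset.range (N + 1) : Finset ℕ) : Set ℕ) t' := by
    ext ω
    simp only [Set.mem_pi, Finset.mem_coe, ht']
    constructor
    · intro h i _
      split_ifs with hi
      · exact h i hi
      · trivial
    · intro h i hi
      have := h i (hN hi)
      rwa [if_pos hi] at this
  have h2 : ∏ i ∈ s, ν (t i) = ∏ i ∈ Finset.range (N + 1), ν (t' i) := by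
    rw [← Finset.prod_subset hN]
    · apply Finset.prod_congr rfl
      intro i hi
      simp only [ht', if_pos hi]
    · intro i _ hi
      simp only [ht', if_neg hi, measure_univ]
  rw [h1, h2, Finset.prod_range_succ', Measure.map_apply measurable_scons]
  · have h3 : (fun p : ι × (ℕ → ι) => scons p.1 p.2) ⁻¹'
        (Set.pi ((Finset.range (N + 1) : Finset ℕ) : Set ℕ) t') =
        (t' 0) ×ˢ (Set.pi ((Finset.range N : Finset ℕ) : Set ℕ) (fun k => t' (k + 1))) := by
      ext ⟨x, ω⟩
      simp only [Set.mem_preimage, Set.mem_pi, Finset.coe_range, Set.mem_Iio, Set.mem_prod]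
      constructor
      · intro h
        refine ⟨h 0 (by omega), fun k hk => h (k + 1) (by omega)⟩
      · rintro ⟨h0, h⟩ k hk
        cases k with
        | zero => exact h0
        | succ n => exact h n (by omega)
    rw [h3, Measure.prod_prod, Measure.infinitePi_pi, mul_comm]
    intro i _
    exact ht'm _
  · exact MeasurableSet.pi (Finset.countable_toSet _) (fun i _ => ht'm i)

lemma lintegral_scons (ν : Measure ι) [IsProbabilityMeasure ν] {F : (ℕ → ι) → ℝ≥0∞}
    (hF : Measurable F) :
    ∫⁻ ω, F ω ∂(Measure.infinitePi fun _ : ℕ => ν) =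
      ∫⁻ x, ∫⁻ ω, F (scons x ω) ∂(Measure.infinitePi fun _ : ℕ => ν) ∂ν := by
  conv_lhs => rw [← map_scons ν]
  rw [lintegral_map hF measurable_scons]
  exact lintegral_prod (fun p : ι × (ℕ → ι) => F (scons p.1 p.2))
    (hF.comp measurable_scons).aemeasurable

end cons

section unif

variable {ι : Type} [Fintype ι] [Nonempty ι] [MeasurableSpace ι] [MeasurableSingletonClass ι]

/-- the uniform measure -/
noncomputable def unif (ι : Type) [Fintype ι] [Nonempty ι] [MeasurableSpace ι] : Measure ι :=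
  (PMF.uniformOfFintype ι).toMeasure

instance : IsProbabilityMeasure (unif ι) := by unfold unif; infer_instance

/-- law of an i.i.d. uniform sequence -/
noncomputable def iid (ι : Type) [Fintype ι] [Nonempty ι] [MeasurableSpace ι] :
    Measure (ℕ → ι) := Measure.infinitePi fun _ : ℕ => unif ι

instance : IsProbabilityMeasure (iid ι) := by unfold iid; infer_instance

lemma lintegral_unif (f : ι → ℝ≥0∞) :
    ∫⁻ x, f x ∂(unif ι) = (Fintype.card ι : ℝ≥0∞)⁻¹ * ∑ x, f x := by
  rw [lintegral_fintype, Finset.mul_sum]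
  apply Finset.sum_congr rfl
  intro x _
  rw [unif, PMF.toMeasure_apply_singleton _ _ (measurableSet_singleton x),
    PMF.uniformOfFintype_apply, mul_comm]

lemma lintegral_iid {F : (ℕ → ι) → ℝ≥0∞} (hF : Measurable F) :
    ∫⁻ ω, F ω ∂(iid ι) = (Fintype.card ι : ℝ≥0∞)⁻¹ * ∑ x, ∫⁻ ω, F (scons x ω) ∂(iid ι) := by
  rw [iid, lintegral_scons _ hF, lintegral_unif]

omit [Fintype ι] [Nonempty ι] [MeasurableSingletonClass ι] in
lemma measurable_scons_right (x : ι) : Measurable (scons x : (ℕ → ι) → (ℕ → ι)) :=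
  measurable_scons.comp measurable_prodMk_left

lemma lintegral_iid₂ {F : (ℕ → ι) × (ℕ → ι) → ℝ≥0∞} (hF : Measurable F) :
    ∫⁻ ω, ∫⁻ ω', F (ω, ω') ∂(iid ι) ∂(iid ι) =
      (Fintype.card ι : ℝ≥0∞)⁻¹ * ((Fintype.card ι : ℝ≥0∞)⁻¹ *
        ∑ x, ∑ y, ∫⁻ ω, ∫⁻ ω', F (scons x ω, scons y ω') ∂(iid ι) ∂(iid ι)) := by
  rw [lintegral_iid (F := fun ω => ∫⁻ ω', F (ω, ω') ∂(iid ι)) hF.lintegral_prod_right']
  congr 1
  rw [Finset.mul_sum]
  apply Finset.sum_congr rfl
  intro x _
  have h1 : ∀ ω : ℕ → ι, ∫⁻ ω', F (scons x ω, ω') ∂(iid ι) = (Fintype.card ι : ℝ≥0∞)⁻¹ *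
      ∑ y, ∫⁻ ω', F (scons x ω, scons y ω') ∂(iid ι) := by
    intro ω
    exact lintegral_iid (hF.comp measurable_prodMk_left)
  simp_rw [h1]
  rw [lintegral_const_mul, lintegral_finsetSum]
  · intro y _
    apply Measurable.lintegral_prod_right' (f := fun p : (ℕ → ι) × (ℕ → ι) =>
      F (scons x p.1, scons y p.2))
    exact hF.comp (((measurable_scons_right x).comp measurable_fst).prodMk
      ((measurable_scons_right y).comp measurable_snd))
  · apply Finset.measurable_sum
    intro y _
    apply Measurable.lintegral_prod_right' (f := fun p : (ℕ → ι) × (ℕ → ι) =>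
      F (scons x p.1, scons y p.2))
    exact hF.comp (((measurable_scons_right x).comp measurable_fst).prodMk
      ((measurable_scons_right y).comp measurable_snd))

end unif

section shift

/-- shifted sequence -/
def shf (m : ℕ) (v : ℕ → Bool) : ℕ → Bool := fun k => v (m + k)

lemma disp_shf (v w : ℕ → Bool) (m i : ℕ) :
    disp v w (m + i) = disp v w m + disp (shf m v) (shf m w) i := by
  induction i with
  | zero => simp [disp]
  | succ n ih =>
    have h1 : disp v w (m + (n + 1)) = disp v w (m + n) + stp (v (m + n)) (w (m + n)) := rfl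
    have h2 : disp (shf m v) (shf m w) (n + 1) = disp (shf m v) (shf m w) n +
      stp (v (m + n)) (w (m + n)) := rfl
    rw [h1, h2, ih]
    ring

lemma alive_shf (q : ℕ) (j : ℤ) (v w : ℕ → Bool) (m i : ℕ) :
    alive q j v w (m + i) = (alive q j v w m && alive q (j + disp v w m) (shf m v) (shf m w) i) := by
  induction i with
  | zero =>
    rw [Nat.add_zero]
    cases h : alive q j v w m with
    | false => simp
    | true =>
      have := alive_bound h
      simp [alive, this]
  | succ n ih =>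
    have h1 : alive q j v w (m + (n + 1)) = (alive q j v w (m + n) &&
      decide (0 ≤ j + disp v w (m + (n + 1)) ∧ j + disp v w (m + (n + 1)) < q)) := rfl
    have h2 : alive q (j + disp v w m) (shf m v) (shf m w) (n + 1) =
      (alive q (j + disp v w m) (shf m v) (shf m w) n &&
        decide (0 ≤ j + disp v w m + disp (shf m v) (shf m w) (n + 1) ∧
          j + disp v w m + disp (shf m v) (shf m w) (n + 1) < q)) := rfl
    rw [h1, h2, ih, disp_shf, ← Bool.and_assoc, add_assoc]

lemma cnt_shf (q : ℕ) (j : ℤ) (v w : ℕ → Bool) (m K : ℕ) :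
    cnt q j v w (m + K) = cnt q j v w m +
      (if alive q j v w m then cnt q (j + disp v w m) (shf m v) (shf m w) K else 0) := by
  induction K with
  | zero => simp [cnt]
  | succ n ih =>
    have h1 : cnt q j v w (m + (n + 1)) = cnt q j v w (m + n) +
      (if alive q j v w (m + (n + 1)) then 1 else 0) := rfl
    rw [h1, ih, alive_shf]
    by_cases h : alive q j v w m
    · simp only [h, if_true, Bool.true_and, cnt]
      omega
    · simp [h]

lemma disp_congr {v v' w w' : ℕ → Bool} {N : ℕ} (hv : ∀ k < N, v k = v' k)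
    (hw : ∀ k < N, w k = w' k) : disp v w N = disp v' w' N := by
  induction N with
  | zero => rfl
  | succ n ih =>
    rw [disp, disp, ih (fun k hk => hv k (by omega)) (fun k hk => hw k (by omega)),
      hv n (by omega), hw n (by omega)]

lemma alive_congr {q : ℕ} {j : ℤ} {v v' w w' : ℕ → Bool} {N : ℕ} (hv : ∀ k < N, v k = v' k)
    (hw : ∀ k < N, w k = w' k) : alive q j v w N = alive q j v' w' N := by
  induction N with
  | zero => rfl
  | succ n ih =>
    rw [alive, alive, ih (fun k hk => hv k (by omega)) (fun k hk => hw k (by omega)),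
      disp_congr hv hw]

lemma cnt_congr {q : ℕ} {j : ℤ} {v v' w w' : ℕ → Bool} {N : ℕ} (hv : ∀ k < N, v k = v' k)
    (hw : ∀ k < N, w k = w' k) : cnt q j v w N = cnt q j v' w' N := by
  induction N with
  | zero => rfl
  | succ n ih =>
    rw [cnt, cnt, ih (fun k hk => hv k (by omega)) (fun k hk => hw k (by omega)),
      alive_congr hv hw]

end shift

section measurability

variable {Z : Type*} [MeasurableSpace Z]

lemma measurable_disp {v w : Z → ℕ → Bool} (hv : ∀ k, Measurable (fun z => v z k))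
    (hw : ∀ k, Measurable (fun z => w z k)) (N : ℕ) : Measurable (fun z => disp (v z) (w z) N) := by
  induction N with
  | zero => exact measurable_const
  | succ n ih =>
    have h1 : Measurable (fun z => stp (v z n) (w z n)) :=
      (measurable_of_countable (fun p : Bool × Bool => stp p.1 p.2)).comp ((hv n).prodMk (hw n))
    exact ih.add h1

lemma measurable_alive {v w : Z → ℕ → Bool} (hv : ∀ k, Measurable (fun z => v z k))
    (hw : ∀ k, Measurable (fun z => w z k)) (q : ℕ) (j : ℤ) (N : ℕ) :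
    Measurable (fun z => alive q j (v z) (w z) N) := by
  induction N with
  | zero => exact measurable_const
  | succ n ih =>
    exact (measurable_of_countable (fun p : Bool × ℤ => p.1 && decide (0 ≤ j + p.2 ∧ j + p.2 < q))).comp
      (ih.prodMk (measurable_disp hv hw (n + 1)))

lemma measurable_cnt {v w : Z → ℕ → Bool} (hv : ∀ k, Measurable (fun z => v z k))
    (hw : ∀ k, Measurable (fun z => w z k)) (q : ℕ) (j : ℤ) (N : ℕ) :
    Measurable (fun z => cnt q j (v z) (w z) N) := by
  induction N with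
  | zero => exact measurable_const
  | succ n ih =>
    exact (measurable_of_countable (fun p : ℕ × Bool => p.1 + if p.2 then 1 else 0)).comp
      (ih.prodMk (measurable_alive hv hw q j (n + 1)))

end measurability

section block

variable {ι : Type}

/-- the sequence of directions obtained by concatenating the patterns `X (ω 0)`, `X (ω 1)`, ...,
each of length `m` -/
def dirs (m : ℕ) (X : ι → ℕ → Bool) (ω : ℕ → ι) (k : ℕ) : Bool := X (ω (k / m)) (k % m)

lemma dirs_scons_lt {m : ℕ} (X : ι → ℕ → Bool) (x : ι) (ω : ℕ → ι) {k : ℕ} (hk : k < m) :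
    dirs m X (scons x ω) k = X x k := by
  unfold dirs
  rw [Nat.div_eq_of_lt hk, Nat.mod_eq_of_lt hk]
  rfl

lemma shf_dirs_scons {m : ℕ} (hm : 0 < m) (X : ι → ℕ → Bool) (x : ι) (ω : ℕ → ι) :
    shf m (dirs m X (scons x ω)) = dirs m X ω := by
  funext k
  unfold shf dirs
  rw [Nat.add_mod_left, Nat.add_div_left _ hm]
  rfl

lemma cnt_block {m : ℕ} (hm : 0 < m) (q : ℕ) (j : ℤ) (X Y : ι → ℕ → Bool) (x y : ι)
    (ω ω' : ℕ → ι) (N : ℕ) :
    cnt q j (dirs m X (scons x ω)) (dirs m Y (scons y ω')) ((N + 1) * m) =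
      cnt q j (X x) (Y y) m + (if alive q j (X x) (Y y) m then
        cnt q (j + disp (X x) (Y y) m) (dirs m X ω) (dirs m Y ω') (N * m) else 0) := by
  rw [show (N + 1) * m = m + N * m by ring, cnt_shf, shf_dirs_scons hm, shf_dirs_scons hm,
    cnt_congr (fun k hk => dirs_scons_lt X x ω hk) (fun k hk => dirs_scons_lt Y y ω' hk),
    alive_congr (fun k hk => dirs_scons_lt X x ω hk) (fun k hk => dirs_scons_lt Y y ω' hk),
    disp_congr (fun k hk => dirs_scons_lt X x ω hk) (fun k hk => dirs_scons_lt Y y ω' hk)]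

lemma measurable_dirs [MeasurableSpace ι] [MeasurableSingletonClass ι] [Countable ι] (m : ℕ)
    (X : ι → ℕ → Bool) (k : ℕ) : Measurable (fun ω : ℕ → ι => dirs m X ω k) :=
  (measurable_of_countable (fun x : ι => X x (k % m))).comp (measurable_pi_apply (k / m))

variable [Fintype ι] [Nonempty ι] [MeasurableSpace ι] [MeasurableSingletonClass ι]

/-- expected number of steps survived within the first `N` blocks -/
noncomputable def ecnt (m q : ℕ) (X Y : ι → ℕ → Bool) (N : ℕ) (j : ℤ) : ℝ≥0∞ :=
  ∫⁻ ω, ∫⁻ ω', (cnt q j (dirs m X ω) (dirs m Y ω') (N * m) : ℝ≥0∞) ∂(iid ι) ∂(iid ι)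

lemma measurable_cnt_dirs (m q : ℕ) (X Y : ι → ℕ → Bool) (K : ℕ) (j : ℤ) :
    Measurable (fun p : (ℕ → ι) × (ℕ → ι) =>
      (cnt q j (dirs m X p.1) (dirs m Y p.2) K : ℝ≥0∞)) :=
  (measurable_of_countable (fun n : ℕ => (n : ℝ≥0∞))).comp
    (measurable_cnt (v := fun p : (ℕ → ι) × (ℕ → ι) => dirs m X p.1)
      (w := fun p : (ℕ → ι) × (ℕ → ι) => dirs m Y p.2)
      (fun k => (measurable_dirs m X k).comp measurable_fst)
      (fun k => (measurable_dirs m Y k).comp measurable_snd) q j K)

lemma ecnt_zero (m q : ℕ) (X Y : ι → ℕ → Bool) (j : ℤ) : ecnt m q X Y 0 j = 0 := by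
  simp [ecnt, cnt]

lemma ecnt_succ {m : ℕ} (hm : 0 < m) (q : ℕ) (X Y : ι → ℕ → Bool) (N : ℕ) (j : ℤ) :
    ecnt m q X Y (N + 1) j = (Fintype.card ι : ℝ≥0∞)⁻¹ * ((Fintype.card ι : ℝ≥0∞)⁻¹ *
      ∑ x, ∑ y, ((cnt q j (X x) (Y y) m : ℝ≥0∞) + (if alive q j (X x) (Y y) m then
        ecnt m q X Y N (j + disp (X x) (Y y) m) else 0))) := by
  unfold ecnt
  rw [lintegral_iid₂ (F := fun p : (ℕ → ι) × (ℕ → ι) =>
      (cnt q j (dirs m X p.1) (dirs m Y p.2) ((N + 1) * m) : ℝ≥0∞))
      (measurable_cnt_dirs m q X Y _ j)]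
  congr 2
  apply Finset.sum_congr rfl
  intro x _
  apply Finset.sum_congr rfl
  intro y _
  simp only [cnt_block hm]
  by_cases h : alive q j (X x) (Y y) m
  · simp only [h, if_true]
    push_cast
    have hmeas := measurable_cnt_dirs m q X Y (N * m) (j + disp (X x) (Y y) m)
    have h1 : ∀ ω : ℕ → ι, ∫⁻ ω', ((cnt q j (X x) (Y y) m : ℝ≥0∞) +
        (cnt q (j + disp (X x) (Y y) m) (dirs m X ω) (dirs m Y ω') (N * m) : ℝ≥0∞)) ∂(iid ι) =
        (cnt q j (X x) (Y y) m : ℝ≥0∞) + ∫⁻ ω',
        (cnt q (j + disp (X x) (Y y) m) (dirs m X ω) (dirs m Y ω') (N * m) : ℝ≥0∞) ∂(iid ι) := by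
      intro ω
      rw [lintegral_add_left measurable_const, lintegral_const, measure_univ, mul_one]
    simp_rw [h1]
    rw [lintegral_add_left measurable_const, lintegral_const, measure_univ, mul_one]
  · simp [h]

/-- expected total number of steps survived -/
noncomputable def ekap (m q : ℕ) (X Y : ι → ℕ → Bool) (j : ℤ) : ℝ≥0∞ :=
  ∫⁻ ω, ∫⁻ ω', kap q j (dirs m X ω) (dirs m Y ω') ∂(iid ι) ∂(iid ι)

lemma kap_eq_iSup {m : ℕ} (hm : 0 < m) (q : ℕ) (j : ℤ) (v w : ℕ → Bool) :
    kap q j v w = ⨆ N, (cnt q j v w (N * m) : ℝ≥0∞) := by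
  apply le_antisymm
  · apply iSup_le
    intro N
    refine le_iSup_of_le N ?_
    exact_mod_cast cnt_mono q j v w (Nat.le_mul_of_pos_right N hm)
  · apply iSup_le
    intro N
    exact le_iSup (fun N => (cnt q j v w N : ℝ≥0∞)) (N * m)

lemma ekap_eq {m : ℕ} (hm : 0 < m) (q : ℕ) (X Y : ι → ℕ → Bool) (j : ℤ) :
    ekap m q X Y j = ⨆ N, ecnt m q X Y N j := by
  unfold ekap ecnt
  simp_rw [kap_eq_iSup hm]
  have h1 : ∀ ω : ℕ → ι, ∫⁻ ω', ⨆ N, (cnt q j (dirs m X ω) (dirs m Y ω') (N * m) : ℝ≥0∞) ∂(iid ι) =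
      ⨆ N, ∫⁻ ω', (cnt q j (dirs m X ω) (dirs m Y ω') (N * m) : ℝ≥0∞) ∂(iid ι) := by
    intro ω
    apply lintegral_iSup
    · intro N
      exact (measurable_cnt_dirs m q X Y (N * m) j).comp measurable_prodMk_left
    · intro N N' hN ω'
      exact Nat.cast_le.2 (cnt_mono q j _ _ (Nat.mul_le_mul_right m hN))
  simp_rw [h1]
  apply lintegral_iSup
  · intro N
    exact (measurable_cnt_dirs m q X Y (N * m) j).lintegral_prod_right'
  · intro N N' hN ω
    apply lintegral_mono
    intro ω'
    exact Nat.cast_le.2 (cnt_mono q j _ _ (Nat.mul_le_mul_right m hN))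

end block

end Pool.Agent.Helper569.Circle
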