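import Pool.Agent.Helper569.CircleFinal

open MeasureTheory Topology
open scoped NNReal ENNReal

namespace Pool.Agent.Helper569.Circle

/-- ten direction patterns of length six, coded by the bits of a number -/
def pat (i : Fin 10) (k : ℕ) : Bool := (![12, 51, 0, 63, 7, 56, 30, 33, 18, 45] i : ℕ).testBit k

lemma alive_of_out {q : ℕ} {j : ℤ} (hj : ¬ (0 ≤ j ∧ j < q)) (v w : ℕ → Bool) (i : ℕ) :
    alive q j v w i = false := by
  induction i with
  | zero => simpa [alive] using hj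
  | succ n ih => rw [alive, ih, Bool.false_and]

lemma cnt_of_out {q : ℕ} {j : ℤ} (hj : ¬ (0 ≤ j ∧ j < q)) (v w : ℕ → Bool) (i : ℕ) :
    cnt q j v w i = 0 := by
  induction i with
  | zero => rfl
  | succ n ih => rw [cnt, ih, alive_of_out hj]; simp

lemma sum_bound (Y : Fin 10 → ℕ → Bool) (j : ℤ) (B : ℝ≥0∞) (e : ℤ → ℝ≥0∞) (he : ∀ i, e i ≤ B)
    (c a : ℕ) (hc : ∑ x, ∑ y, cnt 2 j (pat x) (Y y) 6 = c)
    (ha : (∑ x, ∑ y, if alive 2 j (pat x) (Y y) 6 then 1 else 0) = a) :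
    ∑ x, ∑ y, ((cnt 2 j (pat x) (Y y) 6 : ℝ≥0∞) + (if alive 2 j (pat x) (Y y) 6 then
      e (j + disp (pat x) (Y y) 6) else 0)) ≤ c + a * B := by
  calc ∑ x, ∑ y, ((cnt 2 j (pat x) (Y y) 6 : ℝ≥0∞) + (if alive 2 j (pat x) (Y y) 6 then
      e (j + disp (pat x) (Y y) 6) else 0))
      ≤ ∑ x, ∑ y, ((cnt 2 j (pat x) (Y y) 6 : ℝ≥0∞) +
        ((if alive 2 j (pat x) (Y y) 6 then 1 else 0 : ℕ) : ℝ≥0∞) * B) := by
        apply Finset.sum_le_sum
        intro x _
        apply Finset.sum_le_sum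
        intro y _
        gcongr
        split_ifs
        · simpa using he _
        · simp
    _ = c + a * B := by
        simp_rw [Finset.sum_add_distrib, ← Finset.sum_mul]
        rw [← hc, ← ha]
        push_cast
        rfl

lemma numeric : (10 : ℝ≥0∞)⁻¹ * ((10 : ℝ≥0∞)⁻¹ * (((224 : ℕ) : ℝ≥0∞) +
    ((10 : ℕ) : ℝ≥0∞) * (112 / 45))) = 112 / 45 := by
  have h45 : (112 / 45 : ℝ≥0∞) ≠ ⊤ := ENNReal.div_ne_top (by simp) (by simp)
  rw [← ENNReal.toReal_eq_toReal_iff']
  · rw [ENNReal.toReal_mul, ENNReal.toReal_mul, ENNReal.toReal_add (by simp)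
      (ENNReal.mul_ne_top (by simp) h45), ENNReal.toReal_mul]
    norm_num
  · apply ENNReal.mul_ne_top (by simp)
    apply ENNReal.mul_ne_top (by simp)
    rw [ENNReal.add_ne_top]
    exact ⟨by simp, ENNReal.mul_ne_top (by simp) h45⟩
  · exact h45

lemma ecnt_pat_le (Y : Fin 10 → ℕ → Bool)
    (hc0 : ∑ x, ∑ y, cnt 2 0 (pat x) (Y y) 6 = 224)
    (hc1 : ∑ x, ∑ y, cnt 2 1 (pat x) (Y y) 6 = 224)
    (ha0 : (∑ x, ∑ y, if alive 2 0 (pat x) (Y y) 6 then 1 else 0) = 10)
    (ha1 : (∑ x, ∑ y, if alive 2 1 (pat x) (Y y) 6 then 1 else 0) = 10) (N : ℕ) :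
    ∀ j : ℤ, ecnt 6 2 pat Y N j ≤ 112 / 45 := by
  induction N with
  | zero => intro j; rw [ecnt_zero]; exact bot_le
  | succ n ih =>
    intro j
    by_cases hj : 0 ≤ j ∧ j < (2 : ℕ)
    · rw [ecnt_succ (by norm_num), Fintype.card_fin]
      refine le_trans ?_ numeric.le
      have hj' : j = 0 ∨ j = 1 := by
        obtain ⟨h0, h1⟩ := hj
        push_cast at h1
        omega
      have := hj'.elim
        (fun h => h ▸ sum_bound Y 0 (112 / 45) (ecnt 6 2 pat Y n) ih 224 10 hc0 ha0)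
        (fun h => h ▸ sum_bound Y 1 (112 / 45) (ecnt 6 2 pat Y n) ih 224 10 hc1 ha1)
      push_cast at this ⊢
      gcongr
    · unfold ecnt
      simp_rw [cnt_of_out hj]
      simp

lemma ekap_pat_le (Y : Fin 10 → ℕ → Bool)
    (hc0 : ∑ x, ∑ y, cnt 2 0 (pat x) (Y y) 6 = 224)
    (hc1 : ∑ x, ∑ y, cnt 2 1 (pat x) (Y y) 6 = 224)
    (ha0 : (∑ x, ∑ y, if alive 2 0 (pat x) (Y y) 6 then 1 else 0) = 10)
    (ha1 : (∑ x, ∑ y, if alive 2 1 (pat x) (Y y) 6 then 1 else 0) = 10) (j : ℤ) :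
    ekap 6 2 pat Y j ≤ 112 / 45 := by
  rw [ekap_eq (by norm_num)]
  exact iSup_le fun N => ecnt_pat_le Y hc0 hc1 ha0 ha1 N j

lemma ekap_pat_same (j : ℤ) : ekap 6 2 pat pat j ≤ 112 / 45 :=
  ekap_pat_le pat (by decide +kernel) (by decide +kernel) (by decide +kernel)
    (by decide +kernel) j

lemma ekap_pat_flip (j : ℤ) : ekap 6 2 pat (fun x k => !(pat x k)) j ≤ 112 / 45 :=
  ekap_pat_le (fun x k => !(pat x k)) (by decide +kernel) (by decide +kernel) (by decide +kernel)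
    (by decide +kernel) j

/-- the improved mixed strategy -/
noncomputable def better : ProbabilityMeasure PureStrategy := blockLaw 2 6 Nat.two_pos pat

lemma sum_le (Y : Fin 10 → ℕ → Bool) (hY : ∀ j : ℤ, ekap 6 2 pat Y j ≤ 112 / 45) :
    ∑ j ∈ Finset.range 2, ENNReal.ofReal (hq 2 / (2 : ℕ)) * (ekap 6 2 pat Y j + 1 / 2) ≤
      269 / 360 := by
  have h45 : (112 / 45 : ℝ≥0∞) ≠ ⊤ := ENNReal.div_ne_top (by simp) (by simp)
  calc ∑ j ∈ Finset.range 2, ENNReal.ofReal (hq 2 / (2 : ℕ)) * (ekap 6 2 pat Y j + 1 / 2)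
      ≤ ∑ j ∈ Finset.range 2, ENNReal.ofReal (hq 2 / (2 : ℕ)) * (112 / 45 + 1 / 2) := by
        apply Finset.sum_le_sum
        intro j _
        gcongr
        exact hY j
    _ = 269 / 360 := by
        rw [Finset.sum_const, Finset.card_range, nsmul_eq_mul]
        have hh : hq 2 / (2 : ℕ) = 1 / 8 := by unfold hq; norm_num
        rw [hh]
        rw [← ENNReal.toReal_eq_toReal_iff']
        · rw [ENNReal.toReal_mul, ENNReal.toReal_mul, ENNReal.toReal_ofReal (by norm_num),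
            ENNReal.toReal_add h45 (by simp)]
          norm_num
        · apply ENNReal.mul_ne_top (by simp)
          apply ENNReal.mul_ne_top (by simp)
          rw [ENNReal.add_ne_top]
          exact ⟨h45, by simp⟩
        · exact ENNReal.div_ne_top (by simp) (by simp)

theorem better_directed : symmetricTime directedTime better ≤ 269 / 360 := by
  rw [better, symmetricTime_directed Nat.two_pos (by norm_num)]
  exact sum_le pat ekap_pat_same

theorem better_undirected : symmetricTime undirectedTime better ≤ 269 / 360 := by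
  rw [better, symmetricTime_undirected Nat.two_pos (by norm_num)]
  calc (1 / 2 : ℝ≥0∞) * (∑ j ∈ Finset.range 2, ENNReal.ofReal (hq 2 / (2 : ℕ)) *
        (ekap 6 2 pat pat j + 1 / 2) +
      ∑ j ∈ Finset.range 2, ENNReal.ofReal (hq 2 / (2 : ℕ)) *
        (ekap 6 2 pat (fun x k => !(pat x k)) j + 1 / 2))
      ≤ (1 / 2 : ℝ≥0∞) * (269 / 360 + 269 / 360) := by
        gcongr
        · exact sum_le pat ekap_pat_same
        · exact sum_le _ ekap_pat_flip
    _ = 269 / 360 := by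
        rw [← two_mul, ← mul_assoc, one_div, ENNReal.inv_mul_cancel (by simp) (by simp), one_mul]

lemma lt_three_quarters : (269 / 360 : ℝ≥0∞) < 3 / 4 := by
  rw [← ENNReal.toReal_lt_toReal]
  · norm_num
  · exact ENNReal.div_ne_top (by simp) (by simp)
  · exact ENNReal.div_ne_top (by simp) (by simp)

end Pool.Agent.Helper569.Circle
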