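import Pool.Agent.Helper569.FaultyDefs

open MeasureTheory
open scoped ENNReal

namespace Pool.Agent.Helper569.Faulty

lemma turnTime_succ (y : ℕ → ℝ) (n : ℕ) :
    turnTime y (n + 1) = turnTime y n + |y (n + 1) - y n| := by
  unfold turnTime
  rw [Finset.sum_range_succ]

lemma passTime_le_of_finset {y : ℕ → ℝ} {h : ℝ} {k : ℕ} {T : ℝ} (F : Finset ℝ) (hF : k ≤ F.card)
    (hT : ∀ s ∈ F, s ≤ T ∧ IsAt y s h) : passTime y h k ≤ ENNReal.ofReal T := by
  unfold passTime
  refine iInf₂_le T ?_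
  calc (k : ℕ∞) ≤ (F.card : ℕ∞) := by exact_mod_cast hF
    _ = (F : Set ℝ).encard := (Set.encard_coe_eq_coe_finsetCard F).symm
    _ ≤ _ := Set.encard_le_encard (fun s hs => hT s hs)

lemma passTime_le {y : ℕ → ℝ} {h : ℝ} {τ : ℕ → ℝ} (hτ : StrictMono τ)
    (hp : ∀ k, IsAt y (τ k) h) (k : ℕ) : passTime y h (k + 1) ≤ ENNReal.ofReal (τ k) := by
  apply passTime_le_of_finset ((Finset.range (k + 1)).image τ)
  · rw [Finset.card_image_of_injective _ hτ.injective, Finset.card_range]
  · intro s hs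
    rw [Finset.mem_image] at hs
    obtain ⟨i, hi, rfl⟩ := hs
    exact ⟨hτ.monotone (Nat.lt_succ_iff.1 (Finset.mem_range.1 hi)), hp i⟩

lemma le_passTime {y : ℕ → ℝ} {h : ℝ} {τ : ℕ → ℝ} (hτ : StrictMono τ)
    (hp : ∀ s, IsAt y s h → ∃ k, s = τ k) (k : ℕ) :
    ENNReal.ofReal (τ k) ≤ passTime y h (k + 1) := by
  unfold passTime
  refine le_iInf₂ fun T hT => ?_
  apply ENNReal.ofReal_le_ofReal
  by_contra hlt
  rw [not_le] at hlt
  have h1 : {s : ℝ | s ≤ T ∧ IsAt y s h} ⊆ (((Finset.range k).image τ : Finset ℝ) : Set ℝ) := by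
    rintro s ⟨hs1, hs2⟩
    obtain ⟨i, rfl⟩ := hp s hs2
    rw [Finset.mem_coe, Finset.mem_image]
    refine ⟨i, ?_, rfl⟩
    rw [Finset.mem_range]
    exact hτ.lt_iff_lt.1 (hs1.trans_lt hlt)
  have h2 := hT.trans (Set.encard_le_encard h1)
  rw [Set.encard_coe_eq_coe_finsetCard, Finset.card_image_of_injective _ hτ.injective,
    Finset.card_range] at h2
  have h3 : k + 1 ≤ k := by exact_mod_cast h2
  omega

lemma passTime_mono (y : ℕ → ℝ) (h : ℝ) {k l : ℕ} (hkl : k ≤ l) :
    passTime y h k ≤ passTime y h l := by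
  unfold passTime
  refine le_iInf₂ fun t ht => ?_
  have h1 : (k : ℕ∞) ≤ (l : ℕ∞) := by exact_mod_cast hkl
  exact iInf₂_le t (h1.trans ht)

lemma passTime_eq_top {y : ℕ → ℝ} {h : ℝ} (hno : ∀ s, ¬ IsAt y s h) (k : ℕ) :
    passTime y h (k + 1) = ⊤ := by
  unfold passTime
  simp only [iInf_eq_top]
  intro t ht
  exfalso
  have : {s : ℝ | s ≤ t ∧ IsAt y s h} = ∅ := by
    ext s
    simp only [Set.mem_ofPred_eq, Set.mem_empty_iff_false, iff_false, not_and]
    intro _
    exact hno s
  rw [this, Set.encard_empty] at ht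
  have h1 : ((k + 1 : ℕ) : ℕ∞) = 0 := le_antisymm ht bot_le
  have h2 : k + 1 = 0 := by exact_mod_cast h1
  omega

section expectation

variable {p : ℝ}

lemma coin_prob (hp0 : 0 ≤ p) (hp1 : p ≤ 1) : IsProbabilityMeasure (coin p) := by
  constructor
  unfold coin
  simp only [Measure.coe_add, Measure.coe_smul, Pi.add_apply, Pi.smul_apply, smul_eq_mul,
    measure_univ, mul_one]
  rw [← ENNReal.ofReal_add hp0 (by linarith)]
  simp

lemma coin_true (p : ℝ) : coin p {true} = ENNReal.ofReal p := by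
  unfold coin
  simp

lemma coin_false (p : ℝ) : coin p {false} = ENNReal.ofReal (1 - p) := by
  unfold coin
  simp

/-- the first success is at index `k` -/
def firstAt (k : ℕ) : Set (ℕ → Bool) :=
  Set.pi ((Finset.range (k + 1) : Finset ℕ) : Set ℕ) (fun j => if j = k then {true} else {false})

lemma mem_firstAt {k : ℕ} {ω : ℕ → Bool} :
    ω ∈ firstAt k ↔ (∀ j < k, ω j = false) ∧ ω k = true := by
  unfold firstAt
  simp only [Set.mem_pi, Finset.coe_range, Set.mem_Iio]
  constructor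
  · intro h
    refine ⟨fun j hj => ?_, ?_⟩
    · have := h j (by omega)
      rwa [if_neg (by omega), Set.mem_singleton_iff] at this
    · have := h k (by omega)
      rwa [if_pos rfl, Set.mem_singleton_iff] at this
  · rintro ⟨h1, h2⟩ j hj
    by_cases hjk : j = k
    · rw [if_pos hjk, hjk, Set.mem_singleton_iff]; exact h2
    · rw [if_neg hjk, Set.mem_singleton_iff]; exact h1 j (by omega)

lemma measurableSet_firstAt (k : ℕ) : MeasurableSet (firstAt k) :=
  MeasurableSet.pi (Finset.countable_toSet _) (fun _ _ => MeasurableSet.of_discrete)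

lemma measure_firstAt (hp0 : 0 ≤ p) (hp1 : p ≤ 1) (k : ℕ) :
    (Measure.infinitePi fun _ : ℕ => coin p) (firstAt k) = ENNReal.ofReal (p * (1 - p) ^ k) := by
  have := coin_prob hp0 hp1
  unfold firstAt
  rw [Measure.infinitePi_pi _ (fun _ _ => MeasurableSet.of_discrete), Finset.prod_range_succ,
    if_pos rfl, coin_true]
  have : ∏ x ∈ Finset.range k, coin p (if x = k then {true} else {false}) =
      ∏ x ∈ Finset.range k, ENNReal.ofReal (1 - p) := by
    apply Finset.prod_congr rfl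
    intro x hx
    rw [if_neg (Finset.mem_range.1 hx).ne, coin_false]
  rw [this, Finset.prod_const, Finset.card_range, ← ENNReal.ofReal_pow (by linarith),
    ← ENNReal.ofReal_mul (by positivity), mul_comm]

lemma measure_never (hp0 : 0 < p) (hp1 : p ≤ 1) :
    (Measure.infinitePi fun _ : ℕ => coin p) (⋃ k, firstAt k)ᶜ = 0 := by
  have := coin_prob hp0.le hp1
  have h1 : ∀ n : ℕ, (Measure.infinitePi fun _ : ℕ => coin p) (⋃ k, firstAt k)ᶜ ≤
      ENNReal.ofReal (1 - p) ^ n := by
    intro n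
    have h2 : (⋃ k, firstAt k)ᶜ ⊆ Set.pi ((Finset.range n : Finset ℕ) : Set ℕ)
        (fun _ => ({false} : Set Bool)) := by
      intro ω hω j _
      rw [Set.mem_singleton_iff]
      by_contra hj
      rw [Bool.not_eq_false] at hj
      apply hω
      classical
      have hex : ∃ j, ω j = true := ⟨j, hj⟩
      rw [Set.mem_iUnion]
      refine ⟨Nat.find hex, mem_firstAt.2 ⟨fun i hi => ?_, Nat.find_spec hex⟩⟩
      have := Nat.find_min hex hi
      simpa using this
    refine (measure_mono h2).trans ?_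
    rw [Measure.infinitePi_pi _ (fun _ _ => MeasurableSet.of_discrete)]
    simp only [coin_false, Finset.prod_const, Finset.card_range]
    exact le_rfl
  have h3 : Filter.Tendsto (fun n : ℕ => ENNReal.ofReal (1 - p) ^ n) Filter.atTop (nhds 0) := by
    apply ENNReal.tendsto_pow_atTop_nhds_zero_of_lt_one
    rw [← ENNReal.ofReal_one]
    exact (ENNReal.ofReal_lt_ofReal_iff one_pos).2 (by linarith)
  exact le_antisymm (ge_of_tendsto' h3 h1) bot_le

/-- the expected detection time is the sum over the passes -/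
lemma expectedTime_eq (hp0 : 0 < p) (hp1 : p ≤ 1) (y : ℕ → ℝ) (h : ℝ) :
    expectedTime p y h = ∑' k : ℕ, ENNReal.ofReal (p * (1 - p) ^ k) * passTime y h (k + 1) := by
  unfold expectedTime
  have h1 : (Measure.infinitePi fun _ : ℕ => coin p).restrict (⋃ k, firstAt k) =
      Measure.infinitePi fun _ : ℕ => coin p := by
    apply Measure.restrict_eq_self_of_ae_mem
    rw [ae_iff]
    exact measure_never hp0 hp1
  rw [← h1, lintegral_iUnion measurableSet_firstAt]
  · congr 1
    funext k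
    have h2 : ∫⁻ ω in firstAt k, detectionTime y h ω ∂(Measure.infinitePi fun _ : ℕ => coin p) =
        ∫⁻ _ω in firstAt k, passTime y h (k + 1) ∂(Measure.infinitePi fun _ : ℕ => coin p) := by
      apply setLIntegral_congr_fun (measurableSet_firstAt k)
      intro ω hω
      obtain ⟨ha, hb⟩ := mem_firstAt.1 hω
      change detectionTime y h ω = passTime y h (k + 1)
      unfold detectionTime
      apply le_antisymm
      · exact iInf₂_le k hb
      · refine le_iInf₂ fun j hj => ?_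
        apply passTime_mono
        by_contra hlt
        have := ha j (by omega)
        rw [this] at hj
        exact absurd hj (by simp)
    rw [h2, setLIntegral_const, measure_firstAt hp0.le hp1, mul_comm]
  · intro i j hij
    rw [Function.onFun, Set.disjoint_left]
    intro ω hi hj
    obtain ⟨a1, a2⟩ := mem_firstAt.1 hi
    obtain ⟨b1, b2⟩ := mem_firstAt.1 hj
    rcases Nat.lt_or_gt_of_ne hij with h | h
    · rw [b1 i h] at a2; exact absurd a2 (by simp)
    · rw [a1 j h] at b2; exact absurd b2 (by simp)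

lemma expectedTime_le (hp0 : 0 < p) (hp1 : p ≤ 1) {y : ℕ → ℝ} {h : ℝ} {τ : ℕ → ℝ}
    (hτ : StrictMono τ) (hp : ∀ k, IsAt y (τ k) h) :
    expectedTime p y h ≤ ∑' k : ℕ, ENNReal.ofReal (p * (1 - p) ^ k * τ k) := by
  rw [expectedTime_eq hp0 hp1]
  apply ENNReal.tsum_le_tsum
  intro k
  have h1 : 0 ≤ 1 - p := by linarith
  have h0 : 0 ≤ p * (1 - p) ^ k := by positivity
  rw [ENNReal.ofReal_mul h0]
  exact mul_le_mul_right (passTime_le hτ hp k) _

lemma le_expectedTime (hp0 : 0 < p) (hp1 : p ≤ 1) {y : ℕ → ℝ} {h : ℝ} {τ : ℕ → ℝ}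
    (hτ : StrictMono τ) (hp : ∀ s, IsAt y s h → ∃ k, s = τ k) :
    ∑' k : ℕ, ENNReal.ofReal (p * (1 - p) ^ k * τ k) ≤ expectedTime p y h := by
  rw [expectedTime_eq hp0 hp1]
  apply ENNReal.tsum_le_tsum
  intro k
  have h1 : 0 ≤ 1 - p := by linarith
  have h0 : 0 ≤ p * (1 - p) ^ k := by positivity
  rw [ENNReal.ofReal_mul h0]
  exact mul_le_mul_right (le_passTime hτ hp k) _

lemma expectedTime_eq_top (hp0 : 0 < p) (hp1 : p ≤ 1) {y : ℕ → ℝ} {h : ℝ}
    (hno : ∀ s, ¬ IsAt y s h) : expectedTime p y h = ⊤ := by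
  rw [expectedTime_eq hp0 hp1]
  apply ENNReal.tsum_eq_top_of_eq_top
  refine ⟨0, ?_⟩
  rw [passTime_eq_top hno, pow_zero, mul_one, ENNReal.mul_top]
  simpa using hp0

end expectation

/-- positions on a segment of the trajectory -/
lemma isAt_segment (y : ℕ → ℝ) (n : ℕ) {x : ℝ} (hx : x ∈ Set.uIcc (y n) (y (n + 1))) :
    IsAt y (turnTime y n + |x - y n|) x := by
  rcases eq_or_ne (y (n + 1)) (y n) with h | h
  · rw [h, Set.uIcc_self, Set.mem_singleton_iff] at hx
    refine ⟨n, 0, by simp, ?_, ?_⟩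
    · rw [hx]; simp
    · rw [hx]; simp
  · have hne : y (n + 1) - y n ≠ 0 := sub_ne_zero.2 h
    refine ⟨n, (x - y n) / (y (n + 1) - y n), ?_, ?_, ?_⟩
    · rw [Set.mem_uIcc] at hx
      rcases hx with ⟨h1, h2⟩ | ⟨h1, h2⟩
      · have hpos : 0 < y (n + 1) - y n := lt_of_le_of_ne (by linarith) hne.symm
        exact ⟨div_nonneg (by linarith) hpos.le, by rw [div_le_one hpos]; linarith⟩
      · have hneg : y (n + 1) - y n < 0 := lt_of_le_of_ne (by linarith) hne
        exact ⟨div_nonneg_of_nonpos (by linarith) hneg.le,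
          by rw [div_le_one_of_neg hneg]; linarith⟩
    · congr 1
      have h0 : 0 ≤ (x - y n) / (y (n + 1) - y n) := by
        rw [Set.mem_uIcc] at hx
        rcases hx with ⟨h1, h2⟩ | ⟨h1, h2⟩
        · exact div_nonneg (by linarith) (by linarith)
        · exact div_nonneg_of_nonpos (by linarith) (by linarith)
      have h3 : |x - y n| = |(x - y n) / (y (n + 1) - y n)| * |y (n + 1) - y n| := by
        rw [← abs_mul, div_mul_cancel₀ _ hne]
      rw [h3, abs_of_nonneg h0]
    · rw [div_mul_cancel₀ _ hne]; ring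

/-- conversely -/
lemma isAt_iff (y : ℕ → ℝ) {t x : ℝ} (h : IsAt y t x) :
    ∃ n, x ∈ Set.uIcc (y n) (y (n + 1)) ∧ t = turnTime y n + |x - y n| := by
  obtain ⟨n, s, ⟨hs0, hs1⟩, ht, hx⟩ := h
  refine ⟨n, ?_, ?_⟩
  · rw [Set.mem_uIcc, hx]
    rcases le_total (y n) (y (n + 1)) with h1 | h1
    · left
      constructor <;> nlinarith
    · right
      constructor <;> nlinarith
  · rw [ht, hx, add_sub_cancel_left, abs_mul, abs_of_nonneg hs0]

/-- from an extended sum bound to a real sum bound -/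
lemma summable_of_tsum_ofReal_le {f : ℕ → ℝ} (hf : ∀ k, 0 ≤ f k) {C : ℝ} (hC : 0 ≤ C)
    (h : ∑' k, ENNReal.ofReal (f k) ≤ ENNReal.ofReal C) : Summable f ∧ ∑' k, f k ≤ C := by
  have h1 : ∑' k, ENNReal.ofReal (f k) ≠ ⊤ := ne_top_of_le_ne_top ENNReal.ofReal_ne_top h
  have h2 : Summable f := by
    have := ENNReal.summable_toReal h1
    simpa [ENNReal.toReal_ofReal (hf _)] using this
  refine ⟨h2, ?_⟩
  rw [← ENNReal.ofReal_tsum_of_nonneg hf h2] at h
  exact (ENNReal.ofReal_le_ofReal_iff hC).1 h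

end Pool.Agent.Helper569.Faulty
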