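import Pool.Agent.Helper569.FaultyBasic

open MeasureTheory
open scoped ENNReal

namespace Pool.Agent.Helper569.Faulty

/-- time at which the first `n` excursions are completed -/
noncomputable def S (x : ℕ → ℝ) (n : ℕ) : ℝ := 2 * ∑ j ∈ Finset.range n, x j

lemma S_zero (x : ℕ → ℝ) : S x 0 = 0 := by simp [S]

lemma S_succ (x : ℕ → ℝ) (n : ℕ) : S x (n + 1) = S x n + 2 * x n := by
  unfold S
  rw [Finset.sum_range_succ]
  ring

lemma S_nonneg {x : ℕ → ℝ} (hx0 : ∀ n, 0 < x n) (n : ℕ) : 0 ≤ S x n := by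
  unfold S
  have : 0 ≤ ∑ j ∈ Finset.range n, x j := Finset.sum_nonneg fun j _ => (hx0 j).le
  linarith

lemma S_mono {x : ℕ → ℝ} (hx0 : ∀ n, 0 < x n) : Monotone (S x) := by
  apply monotone_nat_of_le_succ
  intro n
  rw [S_succ]
  linarith [hx0 n]

lemma x_mono2 {x : ℕ → ℝ} (hx2 : ∀ n, x n < x (n + 2)) (i m : ℕ) : x i ≤ x (i + 2 * m) := by
  induction m with
  | zero => simp
  | succ n ih =>
    have := hx2 (i + 2 * n)
    rw [show i + 2 * (n + 1) = i + 2 * n + 2 by ring]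
    linarith

lemma x_mono_parity {x : ℕ → ℝ} (hx2 : ∀ n, x n < x (n + 2)) {i n : ℕ} (hin : i ≤ n)
    (hpar : n % 2 = i % 2) : x i ≤ x n := by
  obtain ⟨m, hm⟩ : ∃ m, n = i + 2 * m := ⟨(n - i) / 2, by omega⟩
  rw [hm]
  exact x_mono2 hx2 i m

lemma pow_parity {i n : ℕ} (hpar : n % 2 = i % 2) : (-1 : ℝ) ^ n = (-1) ^ i := by
  rw [← Nat.div_add_mod n 2, ← Nat.div_add_mod i 2, hpar, pow_add, pow_add, pow_mul, pow_mul]
  simp

lemma sign_cases {σ : ℝ} (hσ : σ = 1 ∨ σ = -1) (n : ℕ) :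
    σ * (-1) ^ n = 1 ∨ σ * (-1) ^ n = -1 := by
  rcases neg_one_pow_eq_or ℝ n with h | h <;> rcases hσ with h' | h' <;> rw [h, h'] <;> simp

section cyc

variable {x : ℕ → ℝ} {σ : ℝ} {y : ℕ → ℝ}

lemma abs_step (hx0 : ∀ n, 0 < x n) (hσ : σ = 1 ∨ σ = -1)
    (hy : ∀ n, y (n + 1) = σ * (-1) ^ n * x n) (n : ℕ) :
    |y (n + 2) - y (n + 1)| = x n + x (n + 1) := by
  rw [hy (n + 1), hy n, pow_succ]
  have h1 := hx0 n
  have h2 := hx0 (n + 1)
  rcases sign_cases hσ n with h | h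
  · rw [show σ * ((-1) ^ n * -1) * x (n + 1) - σ * (-1) ^ n * x n =
      (σ * (-1) ^ n) * (-(x n + x (n + 1))) by ring, h, one_mul, abs_neg, abs_of_pos (by linarith)]
  · rw [show σ * ((-1) ^ n * -1) * x (n + 1) - σ * (-1) ^ n * x n =
      (σ * (-1) ^ n) * (-(x n + x (n + 1))) by ring, h, neg_one_mul, neg_neg,
      abs_of_pos (by linarith)]

lemma turnTime_cyc (hx0 : ∀ n, 0 < x n) (hσ : σ = 1 ∨ σ = -1) (hy0 : y 0 = 0)
    (hy : ∀ n, y (n + 1) = σ * (-1) ^ n * x n) (n : ℕ) :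
    turnTime y (n + 1) = S x n + x n := by
  induction n with
  | zero =>
    rw [turnTime_succ, S_zero, hy0, hy 0]
    have h1 := hx0 0
    have : turnTime y 0 = 0 := by simp [turnTime]
    rw [this, pow_zero, mul_one, sub_zero, abs_mul, abs_of_pos h1]
    rcases hσ with h | h <;> rw [h] <;> simp
  | succ n ih =>
    rw [turnTime_succ, ih, S_succ, abs_step hx0 hσ hy]
    ring

lemma isAt_cyc (hx0 : ∀ n, 0 < x n) (hσ : σ = 1 ∨ σ = -1) (hy0 : y 0 = 0)
    (hy : ∀ n, y (n + 1) = σ * (-1) ^ n * x n) {i : ℕ} {g t : ℝ} (hg : 0 < g)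
    (h : IsAt y t (σ * (-1) ^ i * g)) :
    ∃ n, n % 2 = i % 2 ∧ g ≤ x n ∧ (t = S x n + g ∨ t = S x (n + 1) - g) := by
  obtain ⟨m, hm1, hm2⟩ := isAt_iff y h
  rcases m with _ | n
  · -- first segment
    rw [hy0, hy 0, pow_zero, mul_one] at hm1
    have h1 := hx0 0
    have ht0 : turnTime y 0 = 0 := by simp [turnTime]
    rw [ht0, hy0, sub_zero, zero_add] at hm2
    have hi : i % 2 = 0 := by
      by_contra hne
      have hp : (-1 : ℝ) ^ i = -1 := by
        rw [pow_parity (show i % 2 = 1 % 2 by omega), pow_one]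
      rw [hp] at hm1
      rw [Set.mem_uIcc] at hm1
      rcases hσ with h2 | h2 <;> rw [h2] at hm1 <;> rcases hm1 with ⟨a, b⟩ | ⟨a, b⟩ <;> nlinarith
    have hp : (-1 : ℝ) ^ i = 1 := by
      rw [pow_parity (show i % 2 = 0 % 2 by omega), pow_zero]
    rw [hp, mul_one] at hm1 hm2
    refine ⟨0, by omega, ?_, Or.inl ?_⟩
    · rw [Set.mem_uIcc] at hm1
      rcases hσ with h2 | h2 <;> rw [h2] at hm1 <;> rcases hm1 with ⟨a, b⟩ | ⟨a, b⟩ <;> nlinarith
    · rw [hm2, S_zero, zero_add, abs_mul, abs_of_pos hg]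
      rcases hσ with h2 | h2 <;> rw [h2] <;> simp
  · rw [turnTime_cyc hx0 hσ hy0 hy n] at hm2
    rw [hy n, hy (n + 1)] at hm1
    rw [hy n] at hm2
    have h1 := hx0 n
    have h2 := hx0 (n + 1)
    by_cases hpar : n % 2 = i % 2
    · rw [← pow_parity hpar] at hm1 hm2
      have hs : σ * (-1) ^ (n + 1) = -(σ * (-1) ^ n) := by rw [pow_succ]; ring
      rw [hs] at hm1
      have hgn : g ≤ x n := by
        rw [Set.mem_uIcc] at hm1
        rcases sign_cases hσ n with h3 | h3 <;> rw [h3] at hm1 <;>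
          rcases hm1 with ⟨a, b⟩ | ⟨a, b⟩ <;> nlinarith
      refine ⟨n, hpar, hgn, Or.inr ?_⟩
      rw [hm2, S_succ, ← mul_sub, abs_mul, abs_of_nonpos (by linarith : g - x n ≤ 0)]
      rcases sign_cases hσ n with h3 | h3 <;> rw [h3] <;> simp <;> ring
    · have hpar' : (n + 1) % 2 = i % 2 := by omega
      rw [← pow_parity hpar'] at hm1 hm2
      have hs : σ * (-1) ^ n = -(σ * (-1) ^ (n + 1)) := by rw [pow_succ]; ring
      rw [hs] at hm1 hm2
      have hgn : g ≤ x (n + 1) := by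
        rw [Set.mem_uIcc] at hm1
        rcases sign_cases hσ (n + 1) with h3 | h3 <;> rw [h3] at hm1 <;>
          rcases hm1 with ⟨a, b⟩ | ⟨a, b⟩ <;> nlinarith
      refine ⟨n + 1, hpar', hgn, Or.inl ?_⟩
      have e : σ * (-1) ^ (n + 1) * g - -(σ * (-1) ^ (n + 1)) * x n =
          σ * (-1) ^ (n + 1) * (g + x n) := by ring
      rw [hm2, S_succ, e, abs_mul, abs_of_pos (by linarith : 0 < g + x n)]
      rcases sign_cases hσ (n + 1) with h3 | h3 <;> rw [h3] <;> simp <;> ring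

/-- the pass times of a point between two consecutive turning points of one side -/
noncomputable def tau (x : ℕ → ℝ) (i : ℕ) (g : ℝ) (k : ℕ) : ℝ := S x (i + 2 + k) + (-1) ^ k * g

lemma tau_strictMono (hx0 : ∀ n, 0 < x n) (hx2 : ∀ n, x n < x (n + 2)) {i : ℕ} {g : ℝ}
    (hg : 0 < g) (hgi : g < x (i + 2)) : StrictMono (tau x i g) := by
  apply strictMono_nat_of_lt_succ
  intro k
  unfold tau
  rw [show i + 2 + (k + 1) = i + 2 + k + 1 by ring, S_succ, pow_succ]
  rcases Nat.even_or_odd k with h | h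
  · rw [h.neg_one_pow]
    have : x (i + 2) ≤ x (i + 2 + k) := by
      apply x_mono_parity hx2 (by omega)
      obtain ⟨m, hm⟩ := h
      omega
    linarith
  · rw [h.neg_one_pow]
    have := hx0 (i + 2 + k)
    linarith

lemma isAt_tau (hx0 : ∀ n, 0 < x n) (hx2 : ∀ n, x n < x (n + 2)) (hσ : σ = 1 ∨ σ = -1)
    (hy0 : y 0 = 0) (hy : ∀ n, y (n + 1) = σ * (-1) ^ n * x n) {i : ℕ} {g t : ℝ} (hgi : x i < g)
    (h : IsAt y t (σ * (-1) ^ i * g)) : ∃ k, t = tau x i g k := by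
  have hg : 0 < g := (hx0 i).trans hgi
  obtain ⟨n, hpar, hgn, ht⟩ := isAt_cyc hx0 hσ hy0 hy hg h
  have hn : i + 2 ≤ n := by
    by_contra hlt
    have h1 : n ≤ i := by omega
    have := x_mono_parity hx2 h1 hpar.symm
    linarith
  unfold tau
  rcases ht with ht | ht
  · refine ⟨n - (i + 2), ?_⟩
    rw [ht, show i + 2 + (n - (i + 2)) = n by omega,
      pow_parity (show (n - (i + 2)) % 2 = 0 % 2 by omega)]
    ring
  · refine ⟨n - (i + 2) + 1, ?_⟩
    rw [ht, show i + 2 + (n - (i + 2) + 1) = n + 1 by omega,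
      pow_parity (show (n - (i + 2) + 1) % 2 = 1 % 2 by omega)]
    ring

end cyc

section sums

variable {p : ℝ}

lemma hasSum_pq (hp0 : 0 < p) (hp1 : p < 1) : HasSum (fun k : ℕ => p * (1 - p) ^ k) 1 := by
  have h := (hasSum_geometric_of_lt_one (by linarith : 0 ≤ 1 - p) (by linarith)).mul_left p
  have e : p * (1 - (1 - p))⁻¹ = 1 := by
    rw [sub_sub_cancel, mul_inv_cancel₀ hp0.ne']
  rwa [e] at h

lemma hasSum_alt (hp0 : 0 < p) (hp1 : p < 1) :
    HasSum (fun k : ℕ => p * (1 - p) ^ k * (-1) ^ k) (p / (2 - p)) := by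
  have h := (hasSum_geometric_of_abs_lt_one (r := -(1 - p))
    (by rw [abs_neg, abs_of_pos (by linarith)]; linarith)).mul_left p
  have e : p * (1 - -(1 - p))⁻¹ = p / (2 - p) := by
    rw [div_eq_mul_inv]; congr 2; ring
  rw [e] at h
  have e2 : (fun k : ℕ => p * (1 - p) ^ k * (-1) ^ k) = fun k => p * (-(1 - p)) ^ k := by
    funext k
    rw [neg_pow (1 - p) k]
    ring
  rw [e2]
  exact h

end sums

section bound

variable {x : ℕ → ℝ} {σ : ℝ} {y : ℕ → ℝ} {p c : ℝ}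

lemma ratio_le_iff (hp0 : 0 < p) (hc : 0 ≤ c) (y : ℕ → ℝ) :
    competitiveRatio p y ≤ ENNReal.ofReal (p * c) ↔
      ∀ h : ℝ, 1 ≤ |h| → expectedTime p y h ≤ ENNReal.ofReal (c * |h|) := by
  unfold competitiveRatio
  rw [iSup₂_le_iff]
  apply forall_congr'
  intro h
  apply forall_congr'
  intro hh
  have hpos : 0 < |h| := by linarith
  have h1 : ENNReal.ofReal |h| ≠ 0 := by simpa using hpos
  have h3 : ENNReal.ofReal p ≠ 0 := by simpa using hp0
  rw [ENNReal.div_le_iff h1 ENNReal.ofReal_ne_top, ENNReal.ofReal_mul hp0.le,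
    ENNReal.ofReal_mul hc, mul_assoc]
  exact ENNReal.mul_le_mul_iff_right h3 ENNReal.ofReal_ne_top

/-- the key consequence of a small competitive ratio -/
lemma key_bound (hp0 : 0 < p) (hp1 : p < 1) (hc : 0 ≤ c) (hx0 : ∀ n, 0 < x n)
    (hx2 : ∀ n, x n < x (n + 2)) (hσ : σ = 1 ∨ σ = -1)
    (hy0 : y 0 = 0) (hy : ∀ n, y (n + 1) = σ * (-1) ^ n * x n)
    (hr : competitiveRatio p y ≤ ENNReal.ofReal (p * c)) {i : ℕ} (hi : 1 ≤ x i) :
    Summable (fun k : ℕ => p * (1 - p) ^ k * S x (i + 2 + k)) ∧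
      ∑' k : ℕ, p * (1 - p) ^ k * S x (i + 2 + k) ≤ (c - p / (2 - p)) * x i := by
  have hq0 : 0 < 1 - p := by linarith
  have main : ∀ g, x i < g → g < x (i + 2) →
      Summable (fun k : ℕ => p * (1 - p) ^ k * S x (i + 2 + k)) ∧
      ∑' k : ℕ, p * (1 - p) ^ k * S x (i + 2 + k) ≤ (c - p / (2 - p)) * g := by
    intro g h1 h2
    have hg : 0 < g := (hx0 i).trans h1
    have habs : |σ * (-1) ^ i * g| = g := by
      rw [abs_mul, abs_of_pos hg]
      rcases sign_cases hσ i with h3 | h3 <;> rw [h3] <;> simp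
    have h4 := (ratio_le_iff hp0 hc y).1 hr (σ * (-1) ^ i * g) (by rw [habs]; linarith)
    rw [habs] at h4
    have hmono := tau_strictMono hx0 hx2 hg h2
    have h5 := (le_expectedTime hp0 hp1.le hmono
      (fun s hs => isAt_tau hx0 hx2 hσ hy0 hy h1 hs)).trans h4
    have htau0 : ∀ k, 0 ≤ tau x i g k := by
      intro k
      refine le_trans ?_ (hmono.monotone (Nat.zero_le k))
      unfold tau
      have := S_nonneg hx0 (i + 2 + 0)
      simp only [pow_zero, one_mul]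
      linarith
    obtain ⟨h6, h7⟩ := summable_of_tsum_ofReal_le (fun k => mul_nonneg (by positivity) (htau0 k))
      (by positivity) h5
    have h8 := (h6.hasSum).sub ((hasSum_alt hp0 hp1).mul_right g)
    have h9 : (fun k : ℕ => p * (1 - p) ^ k * tau x i g k - p * (1 - p) ^ k * (-1) ^ k * g) =
        fun k : ℕ => p * (1 - p) ^ k * S x (i + 2 + k) := by
      funext k
      unfold tau
      ring
    rw [h9] at h8
    refine ⟨h8.summable, ?_⟩
    rw [h8.tsum_eq]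
    linarith
  have hlt := hx2 i
  obtain ⟨g0, hg1, hg2⟩ := exists_between hlt
  refine ⟨(main g0 hg1 hg2).1, ?_⟩
  apply le_of_forall_pos_le_add
  intro η hη
  set a := ∑' k : ℕ, p * (1 - p) ^ k * S x (i + 2 + k) with ha
  by_cases hcb : c - p / (2 - p) ≤ 0
  · have h1 := (main g0 hg1 hg2).2
    nlinarith
  · push Not at hcb
    obtain ⟨g, h1, h2⟩ := exists_between (lt_min hlt
      (by have : 0 < η / (c - p / (2 - p)) := by positivity
          linarith : x i < x i + η / (c - p / (2 - p))))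
    have h3 := (main g h1 (h2.trans_le (min_le_left _ _))).2
    have h4 : g ≤ x i + η / (c - p / (2 - p)) := (h2.trans_le (min_le_right _ _)).le
    calc a ≤ (c - p / (2 - p)) * g := h3
      _ ≤ (c - p / (2 - p)) * (x i + η / (c - p / (2 - p))) := by gcongr
      _ = (c - p / (2 - p)) * x i + η := by
        rw [mul_add, mul_div_cancel₀ _ hcb.ne']

/-- a finite competitive ratio forces the turning points to be unbounded on each side -/
lemma unbounded (hp0 : 0 < p) (hp1 : p < 1) (hc : 0 ≤ c) (hx0 : ∀ n, 0 < x n)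
    (hσ : σ = 1 ∨ σ = -1)
    (hy0 : y 0 = 0) (hy : ∀ n, y (n + 1) = σ * (-1) ^ n * x n)
    (hr : competitiveRatio p y ≤ ENNReal.ofReal (p * c)) (i : ℕ) {M : ℝ} (hM : 1 ≤ M) :
    ∃ n, n % 2 = i % 2 ∧ M ≤ x n := by
  by_contra hno
  push Not at hno
  have hM0 : 0 < M := by linarith
  have habs : |σ * (-1) ^ i * M| = M := by
    rw [abs_mul, abs_of_pos hM0]
    rcases sign_cases hσ i with h3 | h3 <;> rw [h3] <;> simp
  have h4 := (ratio_le_iff hp0 hc y).1 hr (σ * (-1) ^ i * M) (by rw [habs]; linarith)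
  rw [expectedTime_eq_top hp0 hp1.le] at h4
  · exact absurd h4 (by simp)
  · intro s hs
    obtain ⟨n, h1, h2, _⟩ := isAt_cyc hx0 hσ hy0 hy hM0 hs
    exact absurd h2 (not_le.2 (hno n h1))

end bound

end Pool.Agent.Helper569.Faulty
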