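import Mathlib

open MeasureTheory
open scoped ENNReal

namespace Pool.Agent.Helper569.Faulty

/-- The time at which a unit speed searcher with turning points `y 0, y 1, y 2, ...` reaches the
point `y n`. -/
noncomputable def turnTime (y : ℕ → ℝ) (n : ℕ) : ℝ :=
  ∑ i ∈ Finset.range n, |y (i + 1) - y i|

/-- `y` is the sequence of turning points of a trajectory on the line starting at `0`: the
direction of motion alternates and the total length is infinite. -/
def IsTrajectory (y : ℕ → ℝ) : Prop :=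
  y 0 = 0 ∧ y 1 ≠ 0 ∧ (∀ i, (y (i + 2) - y (i + 1)) * (y (i + 1) - y i) < 0) ∧
    ¬ Summable fun i => |y (i + 1) - y i|

/-- At time `t` the searcher is at the point `x`. -/
def IsAt (y : ℕ → ℝ) (t x : ℝ) : Prop :=
  ∃ i : ℕ, ∃ s ∈ Set.Icc (0 : ℝ) 1,
    t = turnTime y i + s * |y (i + 1) - y i| ∧ x = y i + s * (y (i + 1) - y i)

/-- The time of the `k`-th pass over `h` (infinite if there are fewer than `k` passes). -/
noncomputable def passTime (y : ℕ → ℝ) (h : ℝ) (k : ℕ) : ℝ≥0∞ :=
  ⨅ (t : ℝ) (_ : (k : ℕ∞) ≤ {s : ℝ | s ≤ t ∧ IsAt y s h}.encard), ENNReal.ofReal t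

/-- The outcome of one pass: detection (`true`) with probability `p`. -/
noncomputable def coin (p : ℝ) : Measure Bool :=
  ENNReal.ofReal p • Measure.dirac true + ENNReal.ofReal (1 - p) • Measure.dirac false

/-- The time `T_h` of the first detection of an item at `h`, when `ω k` tells whether the
`(k+1)`-st pass over `h` is a detection. -/
noncomputable def detectionTime (y : ℕ → ℝ) (h : ℝ) (ω : ℕ → Bool) : ℝ≥0∞ :=
  ⨅ (k : ℕ) (_ : ω k = true), passTime y h (k + 1)

/-- The expected detection time of an item hidden at `h`, the outcomes of the passes being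
independent. -/
noncomputable def expectedTime (p : ℝ) (y : ℕ → ℝ) (h : ℝ) : ℝ≥0∞ :=
  ∫⁻ ω, detectionTime y h ω ∂(Measure.infinitePi fun _ : ℕ => coin p)

/-- The competitive ratio of the trajectory. -/
noncomputable def competitiveRatio (p : ℝ) (y : ℕ → ℝ) : ℝ≥0∞ :=
  ⨆ (h : ℝ) (_ : 1 ≤ |h|), ENNReal.ofReal p * expectedTime p y h / ENNReal.ofReal |h|

/-- The turning points are `x 0, -x 1, x 2, -x 3, ...` (or the mirror image) with all `x n > 0`
and `x n < x (n + 2)`. -/
def IsCyclicMonotone (y : ℕ → ℝ) : Prop :=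
  ∃ x : ℕ → ℝ, (∀ n, 0 < x n) ∧ (∀ n, x n < x (n + 2)) ∧
    ((∀ n, y (n + 1) = (-1) ^ n * x n) ∨ (∀ n, y (n + 1) = -((-1) ^ n * x n)))

end Pool.Agent.Helper569.Faulty
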