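import Pool.Agent.Helper569.FaultyMain

open MeasureTheory
open scoped ENNReal

namespace Pool.Agent.Helper569.Faulty

variable {x : ℕ → ℝ} {ε p c : ℝ}

lemma bound_all (hp0 : 0 < p) (hp1 : p < 1) (hx0 : ∀ n, 0 < x n) (hx2 : ∀ n, x n < x (n + 2))
    (hε : 0 < ε) (hε1 : ε ≤ 1 / 4) (hεc : ε * (c + 2 * p * (1 - p)) ≤ 2 * p * (1 - p) ^ 2)
    {i : ℕ} (hi : 2 ≤ i) {g : ℝ} (hgi0 : x i ≤ g) (hgi : g < x (i + 2))
    (hS : Summable (fun k : ℕ => p * (1 - p) ^ k * S x (i + 2 + k)))
    (hA : ∑' k : ℕ, p * (1 - p) ^ k * S x (i + 2 + k) ≤ (c - p / (2 - p)) * x i) :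
    expectedTime p (zigY x ε) ((-1) ^ i * g) ≤
      ENNReal.ofReal ((c - 2 * p * (1 - p) * ε) * g) := by
  have hg : 0 < g := (hx0 i).trans_le hgi0
  rcases le_or_gt (zz x ε i) g with hz | hz
  · exact bound_B hp0 hp1 hx0 hx2 hε hgi0 hgi hz hS hA
  · have hWi := W_le (x := x) (ε := ε) i
    have hW1 : W x ε (i + 1) = W x ε i + 2 * (zz x ε i - x i) := W_succ i
    have hSm : S x i ≤ S x (i + 2) := S_mono hx0 (by omega)
    have hεS : ε * S x i ≤ ε * S x (i + 2) := mul_le_mul_of_nonneg_left hSm hε.le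
    have hb0 : beta x ε i g 0 = S x (i + 2) + W x ε (i + 1) + g := by
      unfold beta
      simp
    have hbm := beta_strictMono hx0 hx2 hε hg hgi
    rcases eq_or_lt_of_le hgi0 with heq | hlt
    · -- the point is the old turning point
      obtain ⟨j, rfl⟩ : ∃ j, i = j + 2 := ⟨i - 2, by omega⟩
      have hWj : W x ε (j + 1) ≤ W x ε (j + 2) := W_mono hx0 hx2 hε (by omega)
      have hSj : S x (j + 2) < S x (j + 2 + 2) := by
        have h1 := S_succ x (j + 2)
        have h2 := S_succ x (j + 2 + 1)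
        have h3 := hx0 (j + 2)
        have h4 := hx0 (j + 2 + 1)
        have e : S x (j + 2 + 1 + 1) = S x (j + 2 + 2) := rfl
        linarith
      set τ : ℕ → ℝ := fun k => match k with
        | 0 => S x (j + 2) + W x ε (j + 1) + g
        | 1 => S x (j + 2 + 2) + W x ε (j + 2) + g
        | (k + 2) => beta x ε (j + 2) g k with hτdef
      have hτ : StrictMono τ := by
        apply strictMono_nat_of_lt_succ
        intro k
        rcases k with _ | _ | k
        · change S x (j + 2) + W x ε (j + 1) + g < S x (j + 2 + 2) + W x ε (j + 2) + g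
          linarith
        · change S x (j + 2 + 2) + W x ε (j + 2) + g < beta x ε (j + 2) g 0
          rw [hb0, hW1]
          linarith
        · exact hbm (Nat.lt_succ_self k)
      refine bound_A hp0 hp1 hx0 hx2 hε hε1 hεc hgi0 hz hS hA hτ ?_ ?_ ?_ ?_
      · intro k
        rcases k with _ | _ | k
        · have h1 := pass_c hx0 hx2 hε (k := j) (g := g) (by linarith [hx2 j]) heq.ge
          rw [← pow_parity (show j % 2 = (j + 2) % 2 by omega)]
          exact h1
        · exact pass_a hx0 hx2 hε hg hz.le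
        · exact beta_pass hx0 hx2 hε hgi0 hgi k
      · change S x (j + 2) + W x ε (j + 1) + g ≤ _
        linarith
      · change S x (j + 2 + 2) + W x ε (j + 2) + g ≤ _
        linarith
      · intro k
        exact beta_le hx0 hε (j + 2) g k
    · set τ : ℕ → ℝ := fun k => match k with
        | 0 => S x (i + 2) + W x ε i + g
        | 1 => S x (i + 2) + W x ε i + 2 * zz x ε i - g
        | (k + 2) => beta x ε i g k with hτdef
      have hτ : StrictMono τ := by
        apply strictMono_nat_of_lt_succ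
        intro k
        rcases k with _ | _ | k
        · change S x (i + 2) + W x ε i + g < S x (i + 2) + W x ε i + 2 * zz x ε i - g
          linarith
        · change S x (i + 2) + W x ε i + 2 * zz x ε i - g < beta x ε i g 0
          rw [hb0, hW1]
          linarith
        · exact hbm (Nat.lt_succ_self k)
      refine bound_A hp0 hp1 hx0 hx2 hε hε1 hεc hgi0 hz hS hA hτ ?_ ?_ ?_ ?_
      · intro k
        rcases k with _ | _ | k
        · exact pass_a hx0 hx2 hε hg hz.le
        · exact pass_b hx0 hx2 hε hgi0 hz.le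
        · exact beta_pass hx0 hx2 hε hgi0 hgi k
      · change S x (i + 2) + W x ε i + g ≤ _
        linarith
      · change S x (i + 2) + W x ε i + 2 * zz x ε i - g ≤ _
        linarith
      · intro k
        exact beta_le hx0 hε i g k

lemma S_div (x : ℕ → ℝ) (R : ℝ) (n : ℕ) : S (fun n => x n / R) n = S x n / R := by
  unfold S
  rw [← Finset.sum_div]
  ring

theorem improve (hp0 : 0 < p) (hp1 : p < 1) {C : ℝ} (hC : 1 ≤ C) (hc0 : 0 ≤ c) (hcC : c ≤ C)
    {y : ℕ → ℝ} (hyt : IsTrajectory y) (hym : IsCyclicMonotone y)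
    (hr : competitiveRatio p y ≤ ENNReal.ofReal (p * c)) :
    ∃ y' : ℕ → ℝ, IsTrajectory y' ∧ competitiveRatio p y' ≤
      ENNReal.ofReal (p * (c - 2 * p * (1 - p) * (p * (1 - p) ^ 2 / (4 * C)))) ∧
      0 ≤ c - 2 * p * (1 - p) * (p * (1 - p) ^ 2 / (4 * C)) := by
  obtain ⟨x, hx0, hx2, hsign⟩ := hym
  obtain ⟨σ, hσ, hy⟩ : ∃ σ : ℝ, (σ = 1 ∨ σ = -1) ∧ ∀ n, y (n + 1) = σ * (-1) ^ n * x n := by
    rcases hsign with h | h
    · exact ⟨1, Or.inl rfl, fun n => by rw [h n]; ring⟩
    · exact ⟨-1, Or.inr rfl, fun n => by rw [h n]; ring⟩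
  have hy0 := hyt.1
  have hq0 : 0 < 1 - p := by linarith
  set ε := p * (1 - p) ^ 2 / (4 * C) with hεdef
  have hε : 0 < ε := by positivity
  have hpq2 : p * (1 - p) ^ 2 ≤ 1 := by
    have h1 : (1 - p) ^ 2 ≤ 1 := pow_le_one₀ hq0.le (by linarith)
    nlinarith
  have hεC : ε * (4 * C) = p * (1 - p) ^ 2 := by
    rw [hεdef, div_mul_cancel₀]
    positivity
  have hε1 : ε ≤ 1 / 4 := by
    rw [hεdef, div_le_iff₀ (by positivity)]
    linarith
  have hεc : ε * (c + 2 * p * (1 - p)) ≤ 2 * p * (1 - p) ^ 2 := by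
    have h1 : 2 * p * (1 - p) ≤ 1 := by nlinarith [sq_nonneg (2 * p - 1)]
    have h2 : ε * (c + 2 * p * (1 - p)) ≤ ε * (4 * C) := by
      apply mul_le_mul_of_nonneg_left _ hε.le
      linarith
    have h3 : 0 < p * (1 - p) ^ 2 := by positivity
    linarith
  -- the starting index
  obtain ⟨n0, hn0, hxn0⟩ := unbounded hp0 hp1 hc0 hx0 hσ hy0 hy hr 0 le_rfl
  obtain ⟨n1, hn1, hxn1⟩ := unbounded hp0 hp1 hc0 hx0 hσ hy0 hy hr 1 le_rfl
  set N := 2 * (max n0 n1) + 2 with hN
  have hxN : 1 ≤ x N := hxn0.trans (x_mono_parity hx2 (by omega) (by omega))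
  have hxN1 : 1 ≤ x (N + 1) := hxn1.trans (x_mono_parity hx2 (by omega) (by omega))
  set R := max (x N) (x (N + 1)) with hR
  have hR1 : 1 ≤ R := hxN.trans (le_max_left _ _)
  have hR0 : 0 < R := by linarith
  set x' : ℕ → ℝ := fun n => x n / R with hx'
  have hx0' : ∀ n, 0 < x' n := fun n => div_pos (hx0 n) hR0
  have hx2' : ∀ n, x' n < x' (n + 2) := fun n => div_lt_div_of_pos_right (hx2 n) hR0
  -- the main estimate for one point
  have main : ∀ j0 : ℕ, (j0 = N ∨ j0 = N + 1) → ∀ g : ℝ, 1 ≤ g →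
      expectedTime p (zigY x' ε) ((-1) ^ j0 * g) ≤
        ENNReal.ofReal ((c - 2 * p * (1 - p) * ε) * g) := by
    intro j0 hj0 g hg
    have hxj0 : 1 ≤ x j0 := by rcases hj0 with h | h <;> rw [h] <;> assumption
    have hxj0R : x j0 ≤ R := by
      rcases hj0 with h | h <;> rw [h]
      · exact le_max_left _ _
      · exact le_max_right _ _
    have hstart : x' j0 ≤ g := by
      have : x' j0 ≤ 1 := by
        change x j0 / R ≤ 1
        rw [div_le_one hR0]; exact hxj0R
      linarith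
    obtain ⟨n, hn1, hn2⟩ := unbounded hp0 hp1 hc0 hx0 hσ hy0 hy hr j0
      (M := R * g + 1) (by nlinarith)
    have hex : ∃ m, g < x' (j0 + 2 * m) := by
      have hlt : j0 ≤ n := by
        by_contra hlt
        have := x_mono_parity hx2 (by omega : n ≤ j0) hn1.symm
        nlinarith
      refine ⟨(n - j0) / 2, ?_⟩
      rw [show j0 + 2 * ((n - j0) / 2) = n by omega]
      change g < x n / R
      rw [lt_div_iff₀ hR0]
      nlinarith
    classical
    have hspec := Nat.find_spec hex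
    have hne : Nat.find hex ≠ 0 := by
      intro h
      rw [h, mul_zero, add_zero] at hspec
      linarith
    obtain ⟨m, hm⟩ := Nat.exists_eq_succ_of_ne_zero hne
    have hmin : x' (j0 + 2 * m) ≤ g := by
      by_contra h
      push Not at h
      have := Nat.find_min' hex h
      omega
    rw [hm, show j0 + 2 * m.succ = j0 + 2 * m + 2 by rw [Nat.succ_eq_add_one]; ring] at hspec
    set i := j0 + 2 * m with hi
    have hxi : 1 ≤ x i := hxj0.trans (x_mono_parity hx2 (by omega) (by omega))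
    obtain ⟨hS, hA⟩ := key_bound hp0 hp1 hc0 hx0 hx2 hσ hy0 hy hr hxi
    have hfun : (fun k : ℕ => p * (1 - p) ^ k * S x' (i + 2 + k)) =
        fun k : ℕ => (p * (1 - p) ^ k * S x (i + 2 + k)) / R := by
      funext k
      rw [hx', S_div]
      ring
    have hS' : Summable (fun k : ℕ => p * (1 - p) ^ k * S x' (i + 2 + k)) := by
      rw [hfun]
      exact hS.div_const R
    have hA' : ∑' k : ℕ, p * (1 - p) ^ k * S x' (i + 2 + k) ≤ (c - p / (2 - p)) * x' i := by
      rw [hfun, tsum_div_const]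
      change _ ≤ (c - p / (2 - p)) * (x i / R)
      rw [← mul_div_assoc]
      exact div_le_div_of_nonneg_right hA hR0.le
    have h1 := bound_all hp0 hp1 hx0' hx2' hε hε1 hεc (i := i) (by omega) hmin hspec hS' hA'
    rwa [pow_parity (show i % 2 = j0 % 2 by omega)] at h1
  have hnonneg : 0 ≤ c - 2 * p * (1 - p) * ε := by
    by_contra hneg
    push Not at hneg
    obtain ⟨hS, hA⟩ := key_bound hp0 hp1 hc0 hx0 hx2 hσ hy0 hy hr hxN
    have hA0 : 0 ≤ ∑' k : ℕ, p * (1 - p) ^ k * S x (N + 2 + k) := by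
      apply tsum_nonneg
      intro k
      have h1 := S_nonneg hx0 (N + 2 + k)
      positivity
    have hB : p / 2 ≤ p / (2 - p) := by
      apply div_le_div_of_nonneg_left hp0.le <;> linarith
    have hcB : p / (2 - p) ≤ c := by
      by_contra hneg'
      push Not at hneg'
      have : (c - p / (2 - p)) * x N < 0 := mul_neg_of_neg_of_pos (by linarith) (by linarith)
      linarith
    have h5 : (1 - p) * ε ≤ 1 * (1 / 4) := mul_le_mul (by linarith) hε1 hε.le zero_le_one
    have h6 : 2 * p * ((1 - p) * ε) ≤ 2 * p * (1 * (1 / 4)) :=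
      mul_le_mul_of_nonneg_left h5 (by positivity)
    linarith
  refine ⟨zigY x' ε, isTrajectory_zigY hx0' hx2' hε, ?_, hnonneg⟩
  rw [ratio_le_iff hp0 hnonneg]
  intro h hh
  rcases le_total 0 h with h1 | h1
  · have h2 := main N (Or.inl rfl) |h| hh
    rw [pow_parity (show N % 2 = 0 % 2 by omega), pow_zero, one_mul] at h2
    rwa [abs_of_nonneg h1] at h2 ⊢
  · have h2 := main (N + 1) (Or.inr rfl) |h| hh
    rw [pow_parity (show (N + 1) % 2 = 1 % 2 by omega), pow_one, abs_of_nonpos h1] at h2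
    rw [abs_of_nonpos h1]
    convert h2 using 2
    ring

/-! ### a trajectory with finite ratio -/

/-- geometric turning points -/
noncomputable def gx (r : ℝ) (n : ℕ) : ℝ := r ^ n / r ^ 2

/-- geometric cyclic monotone trajectory -/
noncomputable def gy (r : ℝ) : ℕ → ℝ
  | 0 => 0
  | n + 1 => (-1) ^ n * gx r n

lemma gx_pos {r : ℝ} (hr : 1 < r) (n : ℕ) : 0 < gx r n := by
  unfold gx
  positivity

lemma gx_lt {r : ℝ} (hr : 1 < r) (n : ℕ) : gx r n < gx r (n + 2) := by
  unfold gx
  apply div_lt_div_of_pos_right _ (by positivity)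
  exact pow_lt_pow_right₀ hr (by omega)

lemma S_gx_le {r : ℝ} (hr : 1 < r) (n : ℕ) : S (gx r) n ≤ 2 / (r - 1) * gx r n := by
  induction n with
  | zero =>
    rw [S_zero]
    have := gx_pos hr 0
    have h1 : 0 < r - 1 := by linarith
    positivity
  | succ n ih =>
    rw [S_succ]
    have h1 : gx r (n + 1) = r * gx r n := by unfold gx; rw [pow_succ]; ring
    have h2 : 0 < r - 1 := by linarith
    have h3 : 2 / (r - 1) * (r * gx r n) = 2 / (r - 1) * gx r n + 2 * gx r n := by
      field_simp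
      ring
    rw [h1, h3]
    linarith

lemma isTrajectory_cyc {x : ℕ → ℝ} {y : ℕ → ℝ} (hx0 : ∀ n, 0 < x n) (hx2 : ∀ n, x n < x (n + 2))
    (hy0 : y 0 = 0) (hy : ∀ n, y (n + 1) = (-1) ^ n * x n) : IsTrajectory y := by
  refine ⟨hy0, ?_, ?_, ?_⟩
  · rw [hy 0]
    simpa using (hx0 0).ne'
  · intro n
    rcases n with _ | n
    · rw [hy 0, hy (0 + 1), hy0]
      have := hx0 0
      have := hx0 1
      simp only [zero_add, pow_one, pow_zero, one_mul, sub_zero]
      nlinarith
    · rw [hy n, hy (n + 1), hy (n + 2)]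
      have hs2 : ((-1 : ℝ) ^ n) * ((-1 : ℝ) ^ n) = 1 := by
        rw [← mul_pow]; simp
      have e : ((-1 : ℝ) ^ (n + 2) * x (n + 2) - (-1) ^ (n + 1) * x (n + 1)) *
          ((-1) ^ (n + 1) * x (n + 1) - (-1) ^ n * x n) =
          ((-1) ^ n * (-1) ^ n) * (-(x (n + 2) + x (n + 1)) * (x (n + 1) + x n)) := by
        rw [pow_succ, pow_succ]; ring
      rw [e, hs2, one_mul]
      have := hx0 n
      have := hx0 (n + 1)
      have := hx0 (n + 2)
      nlinarith
  · intro hsum
    have h1 := hsum.tendsto_atTop_zero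
    have h2 : Filter.Tendsto (fun m : ℕ => 2 * m + 1) Filter.atTop Filter.atTop := by
      apply Filter.tendsto_atTop_mono (f := fun m : ℕ => m)
      · intro m; omega
      · exact Filter.tendsto_id
    have h3 := h1.comp h2
    have h4 : ∀ m : ℕ, x 0 ≤ ((fun i => |y (i + 1) - y i|) ∘ (fun m : ℕ => 2 * m + 1)) m := by
      intro m
      simp only [Function.comp]
      rw [abs_step (σ := 1) hx0 (Or.inl rfl) (fun n => by rw [hy n]; ring) (2 * m)]
      have a1 : x 0 ≤ x (2 * m) := x_mono_parity hx2 (by omega) (by omega)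
      linarith [hx0 (2 * m + 1)]
    have h5 := ge_of_tendsto' h3 h4
    linarith [hx0 0]

lemma isAt_cyc_passes {x : ℕ → ℝ} {y : ℕ → ℝ} (hx0 : ∀ n, 0 < x n) (hx2 : ∀ n, x n < x (n + 2))
    (hy0 : y 0 = 0) (hy : ∀ n, y (n + 1) = (-1) ^ n * x n) {i : ℕ} {g : ℝ}
    (hg : 0 < g) (hgi : g < x (i + 2)) (k : ℕ) : IsAt y (tau x i g k) ((-1) ^ i * g) := by
  have hyσ : ∀ n, y (n + 1) = 1 * (-1) ^ n * x n := fun n => by rw [hy n]; ring
  unfold tau
  rcases Nat.even_or_odd k with h | h
  · -- outward pass in excursion n + 1 = i + 2 + k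
    obtain ⟨n, hn⟩ : ∃ n, i + 2 + k = n + 1 := ⟨i + 1 + k, by ring⟩
    have hpar : (n + 1) % 2 = i % 2 := by
      obtain ⟨m, hm⟩ := h
      omega
    have h1 : x (i + 2) ≤ x (n + 1) := x_mono_parity hx2 (by omega) (by omega)
    rw [h.neg_one_pow, one_mul, hn, ← pow_parity hpar]
    have h2 := isAt_segment y (n + 1) (x := (-1) ^ (n + 1) * g) (by
      rw [hy n, hy (n + 1), show (-1 : ℝ) ^ n * x n = (-1) ^ (n + 1) * (-x n) by
        rw [pow_succ]; ring]
      apply mem_uIcc_sign
      rw [Set.mem_uIcc]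
      left
      constructor <;> linarith [hx0 n])
    rw [turnTime_cyc hx0 (Or.inl rfl) hy0 hyσ n, hy n,
      show (-1 : ℝ) ^ (n + 1) * g - (-1) ^ n * x n = (-1) ^ (n + 1) * (g + x n) by
        rw [pow_succ]; ring, abs_sign, abs_of_pos (by linarith [hx0 n])] at h2
    convert h2 using 1
    rw [S_succ]
    ring
  · -- return pass in excursion n = i + 1 + k
    obtain ⟨n, hn⟩ : ∃ n, i + 1 + k = n := ⟨_, rfl⟩
    have hpar : n % 2 = i % 2 := by
      obtain ⟨m, hm⟩ := h
      omega
    have h1 : x (i + 2) ≤ x n := by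
      apply x_mono_parity hx2 _ (by omega)
      obtain ⟨m, hm⟩ := h
      omega
    rw [h.neg_one_pow, show i + 2 + k = n + 1 by omega, ← pow_parity hpar]
    have h2 := isAt_segment y (n + 1) (x := (-1) ^ n * g) (by
      rw [hy n, hy (n + 1), show (-1 : ℝ) ^ (n + 1) * x (n + 1) = (-1) ^ n * (-x (n + 1)) by
        rw [pow_succ]; ring]
      apply mem_uIcc_sign
      rw [Set.mem_uIcc]
      right
      constructor <;> linarith [hx0 (n + 1)])
    rw [turnTime_cyc hx0 (Or.inl rfl) hy0 hyσ n, hy n, ← mul_sub, abs_sign,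
      abs_of_nonpos (by linarith)] at h2
    convert h2 using 1
    rw [S_succ]
    ring

lemma finite_ratio (hp0 : 0 < p) (hp1 : p < 1) : ∃ y : ℕ → ℝ, IsTrajectory y ∧
    IsCyclicMonotone y ∧ ∃ c : ℝ, 0 ≤ c ∧ competitiveRatio p y ≤ ENNReal.ofReal (p * c) := by
  have hq0 : 0 < 1 - p := by linarith
  set r : ℝ := 2 / (2 - p) with hr
  have hr1 : 1 < r := by
    rw [hr, lt_div_iff₀ (by linarith)]
    linarith
  have hqr : (1 - p) * r < 1 := by
    rw [hr, ← mul_div_assoc, div_lt_one (by linarith)]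
    linarith
  have hqr0 : 0 < (1 - p) * r := by positivity
  have hx0 := gx_pos hr1
  have hx2 := gx_lt hr1
  have hy : ∀ n, gy r (n + 1) = (-1) ^ n * gx r n := fun n => rfl
  have hgeo := (hasSum_geometric_of_lt_one hqr0.le hqr).mul_left (p * (2 / (r - 1) * r ^ 2))
  have hsum := hgeo.add (hasSum_pq hp0 hp1)
  set c := p * (2 / (r - 1) * r ^ 2) * (1 - (1 - p) * r)⁻¹ + 1 with hc
  have hr0 : 0 < r - 1 := by linarith
  have hc0 : 0 ≤ c := by
    have : 0 < 1 - (1 - p) * r := by linarith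
    positivity
  refine ⟨gy r, isTrajectory_cyc hx0 hx2 rfl hy, ⟨gx r, hx0, hx2, Or.inl hy⟩, c, hc0, ?_⟩
  rw [ratio_le_iff hp0 hc0]
  -- bound for one side
  have main : ∀ j0 : ℕ, (j0 = 0 ∨ j0 = 1) → ∀ g : ℝ, 1 ≤ g →
      expectedTime p (gy r) ((-1) ^ j0 * g) ≤ ENNReal.ofReal (c * g) := by
    intro j0 hj0 g hg
    have hstart : gx r j0 ≤ g := by
      have : gx r j0 ≤ 1 := by
        unfold gx
        rw [div_le_one (by positivity)]
        exact pow_le_pow_right₀ hr1.le (by omega)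
      linarith
    have hex : ∃ m, g < gx r (j0 + 2 * m) := by
      obtain ⟨m, hm⟩ := pow_unbounded_of_one_lt (g * r ^ 2) hr1
      refine ⟨m, ?_⟩
      unfold gx
      rw [lt_div_iff₀ (by positivity)]
      exact hm.trans_le (pow_le_pow_right₀ hr1.le (by omega))
    classical
    have hspec := Nat.find_spec hex
    have hne : Nat.find hex ≠ 0 := by
      intro h
      rw [h, mul_zero, add_zero] at hspec
      linarith
    obtain ⟨m, hm⟩ := Nat.exists_eq_succ_of_ne_zero hne
    have hmin : gx r (j0 + 2 * m) ≤ g := by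
      by_contra h
      push Not at h
      have := Nat.find_min' hex h
      omega
    rw [hm, show j0 + 2 * m.succ = j0 + 2 * m + 2 by rw [Nat.succ_eq_add_one]; ring] at hspec
    set i := j0 + 2 * m with hi
    have hg0 : 0 < g := by linarith
    have h1 := expectedTime_le hp0 hp1.le (tau_strictMono hx0 hx2 hg0 hspec)
      (isAt_cyc_passes hx0 hx2 rfl hy hg0 hspec)
    rw [pow_parity (show i % 2 = j0 % 2 by omega)] at h1
    refine h1.trans ?_
    have hb : ∀ k, tau (gx r) i g k ≤ (2 / (r - 1) * r ^ 2 * r ^ k + 1) * g := by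
      intro k
      unfold tau
      have h2 := S_gx_le hr1 (i + 2 + k)
      have h3 : gx r (i + 2 + k) = r ^ 2 * r ^ k * gx r i := by
        unfold gx
        rw [pow_add, pow_add]
        ring
      have h4 : (-1 : ℝ) ^ k * g ≤ g := by
        rcases neg_one_pow_eq_or ℝ k with h | h <;> rw [h] <;> linarith
      have h5 : 2 / (r - 1) * gx r (i + 2 + k) ≤ 2 / (r - 1) * r ^ 2 * r ^ k * g := by
        rw [h3]
        calc 2 / (r - 1) * (r ^ 2 * r ^ k * gx r i) = (2 / (r - 1) * r ^ 2 * r ^ k) * gx r i := by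
              ring
          _ ≤ (2 / (r - 1) * r ^ 2 * r ^ k) * g := by
              apply mul_le_mul_of_nonneg_left hmin
              positivity
      linarith
    have hT : HasSum (fun k : ℕ => p * (1 - p) ^ k * ((2 / (r - 1) * r ^ 2 * r ^ k + 1) * g))
        (c * g) := by
      have h6 := hsum.mul_right g
      have e1 : (fun k : ℕ => p * (1 - p) ^ k * ((2 / (r - 1) * r ^ 2 * r ^ k + 1) * g)) =
          fun k : ℕ => (p * (2 / (r - 1) * r ^ 2) * ((1 - p) * r) ^ k + p * (1 - p) ^ k) * g := by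
        funext k
        rw [mul_pow]
        ring
      rw [e1]
      exact h6
    exact ofReal_sum_le hp0 hp1 hb (fun k => by positivity) hT
  intro h hh
  rcases le_total 0 h with h1 | h1
  · have h2 := main 0 (Or.inl rfl) |h| hh
    rw [pow_zero, one_mul] at h2
    rwa [abs_of_nonneg h1] at h2 ⊢
  · have h2 := main 1 (Or.inr rfl) |h| hh
    rw [pow_one, abs_of_nonpos h1] at h2
    rw [abs_of_nonpos h1]
    convert h2 using 2
    ring

theorem strict (hp0 : 0 < p) (hp1 : p < 1) :
    (⨅ (y : ℕ → ℝ) (_ : IsTrajectory y), competitiveRatio p y) <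
      ⨅ (y : ℕ → ℝ) (_ : IsTrajectory y) (_ : IsCyclicMonotone y), competitiveRatio p y := by
  set I := ⨅ (y : ℕ → ℝ) (_ : IsTrajectory y), competitiveRatio p y with hI
  set J := ⨅ (y : ℕ → ℝ) (_ : IsTrajectory y) (_ : IsCyclicMonotone y), competitiveRatio p y
    with hJ
  obtain ⟨y0, hy0t, hy0m, c0, hc0, hy0r⟩ := finite_ratio hp0 hp1
  have hJle : J ≤ ENNReal.ofReal (p * c0) := by
    refine le_trans ?_ hy0r
    exact iInf_le_of_le y0 (iInf_le_of_le hy0t (iInf_le_of_le hy0m le_rfl))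
  have hJtop : J ≠ ⊤ := ne_top_of_le_ne_top ENNReal.ofReal_ne_top hJle
  set j := J.toReal with hj
  have hj0 : 0 ≤ j := ENNReal.toReal_nonneg
  have hJj : J = ENNReal.ofReal j := (ENNReal.ofReal_toReal hJtop).symm
  have hq0 : 0 < 1 - p := by linarith
  set C := j / p + 1 with hC
  have hC1 : 1 ≤ C := by
    have : 0 ≤ j / p := by positivity
    linarith
  set δ := 2 * p * (1 - p) * (p * (1 - p) ^ 2 / (4 * C)) with hδ
  have hδ0 : 0 < δ := by positivity
  set η := min p (p * δ / 2) with hη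
  have hη0 : 0 < η := lt_min hp0 (by positivity)
  -- a nearly optimal cyclic monotone trajectory
  have hlt : J < ENNReal.ofReal (j + η) := by
    rw [hJj]
    exact (ENNReal.ofReal_lt_ofReal_iff (by linarith)).2 (by linarith)
  obtain ⟨y, hy⟩ := iInf_lt_iff.1 hlt
  obtain ⟨hyt, hy⟩ := iInf_lt_iff.1 hy
  obtain ⟨hym, hy⟩ := iInf_lt_iff.1 hy
  set c := (j + η) / p with hc
  have hpc : p * c = j + η := by
    rw [hc, mul_div_cancel₀ _ hp0.ne']
  have hcnn : 0 ≤ c := by positivity
  have hcC : c ≤ C := by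
    rw [hc, hC, add_div]
    have : η / p ≤ 1 := by
      rw [div_le_one hp0]
      exact min_le_left _ _
    linarith
  obtain ⟨y', hy't, hy'r, hnn⟩ := improve hp0 hp1 hC1 hcnn hcC hyt hym (by rw [hpc]; exact hy.le)
  have hI1 : I ≤ ENNReal.ofReal (p * (c - δ)) := by
    refine le_trans ?_ hy'r
    exact iInf_le_of_le y' (iInf_le_of_le hy't le_rfl)
  refine hI1.trans_lt ?_
  rw [hJj]
  have h1 : p * (c - δ) ≤ j - p * δ / 2 := by
    rw [mul_sub, hpc]
    have : η ≤ p * δ / 2 := min_le_right _ _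
    linarith
  have h2 : 0 ≤ p * (c - δ) := mul_nonneg hp0.le hnn
  have h3 : 0 < p * δ := by positivity
  exact (ENNReal.ofReal_lt_ofReal_iff (by linarith)).2 (by linarith)

end Pool.Agent.Helper569.Faulty
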