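import Pool.Agent.Helper569.FaultyCyc

open MeasureTheory
open scoped ENNReal

namespace Pool.Agent.Helper569.Faulty

/-- the additional turning point beyond `x k` -/
noncomputable def zz (x : ℕ → ℝ) (ε : ℝ) (k : ℕ) : ℝ := min ((1 + ε) * x k) (x (k + 2))

/-- the modified trajectory: in excursion `k + 2` first go to `zz k`, then back to `x k`, and then
to `x (k + 2)` -/
noncomputable def zigY (x : ℕ → ℝ) (ε : ℝ) : ℕ → ℝ
  | 0 => 0
  | 1 => x 0
  | 2 => -x 1
  | (n + 3) => if n % 3 = 0 then (-1) ^ (n / 3) * zz x ε (n / 3)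
      else if n % 3 = 1 then (-1) ^ (n / 3) * x (n / 3) else (-1) ^ (n / 3) * x (n / 3 + 2)

/-- total additional time -/
noncomputable def W (x : ℕ → ℝ) (ε : ℝ) (k : ℕ) : ℝ :=
  2 * ∑ j ∈ Finset.range k, (zz x ε j - x j)

variable {x : ℕ → ℝ} {ε : ℝ}

lemma W_zero : W x ε 0 = 0 := by simp [W]

lemma W_succ (k : ℕ) : W x ε (k + 1) = W x ε k + 2 * (zz x ε k - x k) := by
  unfold W
  rw [Finset.sum_range_succ]
  ring

lemma zz_gt (hx0 : ∀ n, 0 < x n) (hx2 : ∀ n, x n < x (n + 2)) (hε : 0 < ε) (k : ℕ) :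
    x k < zz x ε k := by
  unfold zz
  apply lt_min _ (hx2 k)
  nlinarith [hx0 k]

lemma zz_le (k : ℕ) : zz x ε k ≤ x (k + 2) := min_le_right _ _

lemma zz_le' (k : ℕ) : zz x ε k ≤ (1 + ε) * x k := min_le_left _ _

lemma W_mono (hx0 : ∀ n, 0 < x n) (hx2 : ∀ n, x n < x (n + 2)) (hε : 0 < ε) :
    Monotone (W x ε) := by
  apply monotone_nat_of_le_succ
  intro n
  rw [W_succ]
  linarith [zz_gt hx0 hx2 hε n]

lemma W_le (k : ℕ) : W x ε k ≤ ε * S x k := by
  induction k with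
  | zero => rw [W_zero, S_zero, mul_zero]
  | succ n ih =>
    rw [W_succ, S_succ]
    have := zz_le' (x := x) (ε := ε) n
    linarith

lemma zigY_a (k : ℕ) : zigY x ε (3 * k + 3) = (-1) ^ k * zz x ε k := by
  have h1 : (3 * k) % 3 = 0 := by omega
  have h2 : (3 * k) / 3 = k := by omega
  rw [zigY, if_pos h1, h2]

lemma zigY_b (k : ℕ) : zigY x ε (3 * k + 4) = (-1) ^ k * x k := by
  have h0 : ¬ (3 * k + 1) % 3 = 0 := by omega
  have h1 : (3 * k + 1) % 3 = 1 := by omega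
  have h2 : (3 * k + 1) / 3 = k := by omega
  rw [show 3 * k + 4 = (3 * k + 1) + 3 by ring, zigY, if_neg h0, if_pos h1, h2]

lemma zigY_c (k : ℕ) : zigY x ε (3 * k + 5) = (-1) ^ k * x (k + 2) := by
  have h0 : ¬ (3 * k + 2) % 3 = 0 := by omega
  have h1 : ¬ (3 * k + 2) % 3 = 1 := by omega
  have h2 : (3 * k + 2) / 3 = k := by omega
  rw [show 3 * k + 5 = (3 * k + 2) + 3 by ring, zigY, if_neg h0, if_neg h1, h2]

lemma zigY_d (k : ℕ) : zigY x ε (3 * k + 2) = -((-1) ^ k * x (k + 1)) := by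
  cases k with
  | zero => simp [zigY]
  | succ n =>
    rw [show 3 * (n + 1) + 2 = 3 * n + 5 by ring, zigY_c, pow_succ]
    ring

lemma abs_sign (k : ℕ) (a : ℝ) : |(-1) ^ k * a| = |a| := by
  rw [abs_mul, abs_neg_one_pow, one_mul]

lemma turn_a (hx0 : ∀ n, 0 < x n) (hx2 : ∀ n, x n < x (n + 2)) (hε : 0 < ε) {k : ℕ}
    (h : turnTime (zigY x ε) (3 * k + 2) = S x (k + 1) + x (k + 1) + W x ε k) :
    turnTime (zigY x ε) (3 * k + 3) = S x (k + 2) + W x ε k + zz x ε k := by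
  rw [turnTime_succ, h, zigY_a, zigY_d,
    show (-1) ^ k * zz x ε k - -((-1) ^ k * x (k + 1)) = (-1) ^ k * (zz x ε k + x (k + 1)) by ring,
    abs_sign, abs_of_pos, S_succ x (k + 1)]
  · ring
  · have := zz_gt hx0 hx2 hε k
    linarith [hx0 k, hx0 (k + 1)]

lemma turn_b (hx0 : ∀ n, 0 < x n) (hx2 : ∀ n, x n < x (n + 2)) (hε : 0 < ε) {k : ℕ}
    (h : turnTime (zigY x ε) (3 * k + 2) = S x (k + 1) + x (k + 1) + W x ε k) :
    turnTime (zigY x ε) (3 * k + 4) = S x (k + 2) + W x ε k + 2 * zz x ε k - x k := by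
  rw [turnTime_succ, turn_a hx0 hx2 hε h, zigY_a, zigY_b,
    show (-1) ^ k * x k - (-1) ^ k * zz x ε k = (-1) ^ k * (x k - zz x ε k) by ring,
    abs_sign, abs_of_neg]
  · ring
  · linarith [zz_gt hx0 hx2 hε k]

lemma turn_c (hx0 : ∀ n, 0 < x n) (hx2 : ∀ n, x n < x (n + 2)) (hε : 0 < ε) {k : ℕ}
    (h : turnTime (zigY x ε) (3 * k + 2) = S x (k + 1) + x (k + 1) + W x ε k) :
    turnTime (zigY x ε) (3 * k + 5) = S x (k + 2) + x (k + 2) + W x ε (k + 1) := by
  rw [turnTime_succ, turn_b hx0 hx2 hε h, zigY_b, zigY_c,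
    show (-1) ^ k * x (k + 2) - (-1) ^ k * x k = (-1) ^ k * (x (k + 2) - x k) by ring,
    abs_sign, abs_of_pos, W_succ]
  · ring
  · linarith [hx2 k]

lemma turn_d (hx0 : ∀ n, 0 < x n) (hx2 : ∀ n, x n < x (n + 2)) (hε : 0 < ε) (k : ℕ) :
    turnTime (zigY x ε) (3 * k + 2) = S x (k + 1) + x (k + 1) + W x ε k := by
  induction k with
  | zero =>
    have h1 := hx0 0
    have h2 := hx0 1
    simp only [turnTime, mul_zero, zero_add, Finset.sum_range_succ, Finset.sum_range_zero, zigY]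
    rw [W_zero, S_succ, S_zero, sub_zero, abs_of_pos h1, abs_of_neg (by linarith)]
    ring
  | succ n ih =>
    rw [show 3 * (n + 1) + 2 = 3 * n + 5 by ring, turn_c hx0 hx2 hε ih]

lemma mem_uIcc_sign (k : ℕ) {a b g : ℝ} (h : g ∈ Set.uIcc a b) :
    (-1) ^ k * g ∈ Set.uIcc ((-1) ^ k * a) ((-1) ^ k * b) := by
  rw [Set.mem_uIcc] at h ⊢
  rcases neg_one_pow_eq_or ℝ k with h1 | h1 <;> rw [h1]
  · simpa using h
  · rcases h with ⟨h2, h3⟩ | ⟨h2, h3⟩
    · right; constructor <;> linarith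
    · left; constructor <;> linarith

lemma pass_a (hx0 : ∀ n, 0 < x n) (hx2 : ∀ n, x n < x (n + 2)) (hε : 0 < ε) {k : ℕ} {g : ℝ}
    (hg : 0 < g) (hgz : g ≤ zz x ε k) :
    IsAt (zigY x ε) (S x (k + 2) + W x ε k + g) ((-1) ^ k * g) := by
  have h := isAt_segment (zigY x ε) (3 * k + 2) (x := (-1) ^ k * g) (by
    rw [zigY_a, zigY_d, ← mul_neg]
    apply mem_uIcc_sign
    rw [Set.mem_uIcc]
    left
    constructor <;> linarith [hx0 (k + 1)])
  rw [turn_d hx0 hx2 hε, zigY_d,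
    show (-1) ^ k * g - -((-1) ^ k * x (k + 1)) = (-1) ^ k * (g + x (k + 1)) by ring,
    abs_sign, abs_of_pos (by linarith [hx0 (k + 1)])] at h
  convert h using 1
  rw [S_succ x (k + 1)]
  ring

lemma pass_b (hx0 : ∀ n, 0 < x n) (hx2 : ∀ n, x n < x (n + 2)) (hε : 0 < ε) {k : ℕ} {g : ℝ}
    (hg : x k ≤ g) (hgz : g ≤ zz x ε k) :
    IsAt (zigY x ε) (S x (k + 2) + W x ε k + 2 * zz x ε k - g) ((-1) ^ k * g) := by
  have h := isAt_segment (zigY x ε) (3 * k + 3) (x := (-1) ^ k * g) (by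
    rw [zigY_a, zigY_b]
    apply mem_uIcc_sign
    rw [Set.mem_uIcc]
    right
    constructor <;> linarith)
  rw [turn_a hx0 hx2 hε (turn_d hx0 hx2 hε k), zigY_a,
    show (-1) ^ k * g - (-1) ^ k * zz x ε k = (-1) ^ k * (g - zz x ε k) by ring,
    abs_sign, abs_of_nonpos (by linarith)] at h
  convert h using 1
  ring

lemma pass_c (hx0 : ∀ n, 0 < x n) (hx2 : ∀ n, x n < x (n + 2)) (hε : 0 < ε) {k : ℕ} {g : ℝ}
    (hg : x k ≤ g) (hgz : g ≤ x (k + 2)) :
    IsAt (zigY x ε) (S x (k + 2) + W x ε (k + 1) + g) ((-1) ^ k * g) := by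
  have h := isAt_segment (zigY x ε) (3 * k + 4) (x := (-1) ^ k * g) (by
    rw [zigY_b, zigY_c]
    apply mem_uIcc_sign
    rw [Set.mem_uIcc]
    left
    constructor <;> linarith)
  rw [turn_b hx0 hx2 hε (turn_d hx0 hx2 hε k), zigY_b,
    show (-1) ^ k * g - (-1) ^ k * x k = (-1) ^ k * (g - x k) by ring,
    abs_sign, abs_of_nonneg (by linarith)] at h
  convert h using 1
  rw [W_succ]
  ring

lemma pass_d (hx0 : ∀ n, 0 < x n) (hx2 : ∀ n, x n < x (n + 2)) (hε : 0 < ε) {k : ℕ} {g : ℝ}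
    (hg : 0 < g) (hgz : g ≤ x (k + 2)) :
    IsAt (zigY x ε) (S x (k + 3) + W x ε (k + 1) - g) ((-1) ^ k * g) := by
  have h := isAt_segment (zigY x ε) (3 * k + 5) (x := (-1) ^ k * g) (by
    rw [show 3 * k + 5 + 1 = 3 * (k + 1) + 3 by ring, zigY_a, zigY_c,
      show (-1) ^ (k + 1) * zz x ε (k + 1) = (-1) ^ k * (-zz x ε (k + 1)) by rw [pow_succ]; ring]
    apply mem_uIcc_sign
    rw [Set.mem_uIcc]
    right
    have := zz_gt hx0 hx2 hε (k + 1)
    constructor <;> linarith [hx0 (k + 1)])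
  rw [turn_c hx0 hx2 hε (turn_d hx0 hx2 hε k), zigY_c,
    show (-1) ^ k * g - (-1) ^ k * x (k + 2) = (-1) ^ k * (g - x (k + 2)) by ring,
    abs_sign, abs_of_nonpos (by linarith)] at h
  convert h using 1
  rw [S_succ x (k + 2)]
  ring

/-- the basic list of passes -/
noncomputable def beta (x : ℕ → ℝ) (ε : ℝ) (i : ℕ) (g : ℝ) (k : ℕ) : ℝ :=
  S x (i + 2 + k) + W x ε (i + max k 1) + (-1) ^ k * g

lemma beta_strictMono (hx0 : ∀ n, 0 < x n) (hx2 : ∀ n, x n < x (n + 2)) (hε : 0 < ε) {i : ℕ}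
    {g : ℝ} (hg : 0 < g) (hgi : g < x (i + 2)) : StrictMono (beta x ε i g) := by
  intro k l hkl
  have h1 := tau_strictMono hx0 hx2 hg hgi hkl
  unfold tau at h1
  unfold beta
  have h2 : W x ε (i + max k 1) ≤ W x ε (i + max l 1) :=
    W_mono hx0 hx2 hε (by omega)
  linarith

lemma beta_pass (hx0 : ∀ n, 0 < x n) (hx2 : ∀ n, x n < x (n + 2)) (hε : 0 < ε) {i : ℕ}
    {g : ℝ} (hgi0 : x i ≤ g) (hgi : g < x (i + 2)) (k : ℕ) :
    IsAt (zigY x ε) (beta x ε i g k) ((-1) ^ i * g) := by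
  have hg : 0 < g := (hx0 i).trans_le hgi0
  unfold beta
  rcases Nat.even_or_odd k with h | h
  · rw [h.neg_one_pow, one_mul]
    rcases Nat.eq_zero_or_pos k with rfl | hk
    · have := pass_c hx0 hx2 hε hgi0 hgi.le
      simpa using this
    · have hk2 : 2 ≤ k := by
        obtain ⟨m, hm⟩ := h
        omega
      have hpar : (i + k) % 2 = i % 2 := by
        obtain ⟨m, hm⟩ := h
        omega
      rw [max_eq_left (by omega : 1 ≤ k), ← pow_parity hpar, show i + 2 + k = i + k + 2 by ring]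
      apply pass_a hx0 hx2 hε hg
      have h1 : x (i + 2) ≤ x (i + k) := x_mono_parity hx2 (by omega) (by omega)
      linarith [zz_gt hx0 hx2 hε (i + k)]
  · have hk1 : 1 ≤ k := by
      obtain ⟨m, hm⟩ := h
      omega
    have hpar : (i + (k - 1)) % 2 = i % 2 := by
      obtain ⟨m, hm⟩ := h
      omega
    have h1 : x (i + 2) ≤ x (i + (k - 1) + 2) := by
      apply x_mono_parity hx2 (by omega)
      omega
    have h2 := pass_d hx0 hx2 hε (k := i + (k - 1)) hg (hgi.le.trans h1)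
    rw [pow_parity hpar, show i + (k - 1) + 3 = i + 2 + k by omega,
      show i + (k - 1) + 1 = i + k by omega] at h2
    rw [h.neg_one_pow, max_eq_left hk1]
    convert h2 using 1
    ring

lemma beta_le (hx0 : ∀ n, 0 < x n) (hε : 0 < ε) (i : ℕ) (g : ℝ) (k : ℕ) :
    beta x ε i g k ≤ S x (i + 2 + k) + ε * S x (i + 1 + k) + (-1) ^ k * g := by
  unfold beta
  have h1 := W_le (x := x) (ε := ε) (i + max k 1)
  have h2 : S x (i + max k 1) ≤ S x (i + 1 + k) := S_mono hx0 (by omega)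
  nlinarith

lemma isTrajectory_zigY (hx0 : ∀ n, 0 < x n) (hx2 : ∀ n, x n < x (n + 2)) (hε : 0 < ε) :
    IsTrajectory (zigY x ε) := by
  refine ⟨rfl, (hx0 0).ne', ?_, ?_⟩
  · intro n
    rcases n with _ | _ | n
    · change (-x 1 - x 0) * (x 0 - 0) < 0
      nlinarith [hx0 0, hx0 1]
    · have h1 := zigY_a (x := x) (ε := ε) 0
      rw [mul_zero, zero_add, pow_zero, one_mul] at h1
      change (zigY x ε 3 - -x 1) * (-x 1 - x 0) < 0
      rw [h1]
      nlinarith [hx0 0, hx0 1, zz_gt hx0 hx2 hε 0]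
    · have hdiv : n = 3 * (n / 3) + n % 3 := (Nat.div_add_mod n 3).symm
      set k := n / 3 with hk
      have hmod : n % 3 = 0 ∨ n % 3 = 1 ∨ n % 3 = 2 := by omega
      have hs2 : ((-1 : ℝ) ^ k) * ((-1 : ℝ) ^ k) = 1 := by
        rw [← mul_pow]; simp
      have z1 := zz_gt hx0 hx2 hε k
      have z2 := zz_gt hx0 hx2 hε (k + 1)
      have p0 := hx0 k
      have p1 := hx0 (k + 1)
      have p2 := hx0 (k + 2)
      have p3 := hx2 k
      rcases hmod with h | h | h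
      · rw [show n + 1 + 1 + 2 = 3 * k + 4 by omega, show n + 1 + 1 + 1 = 3 * k + 3 by omega,
          show n + 1 + 1 = 3 * k + 2 by omega, zigY_a, zigY_b, zigY_d]
        have e : ((-1) ^ k * x k - (-1) ^ k * zz x ε k) *
            ((-1) ^ k * zz x ε k - -((-1) ^ k * x (k + 1))) =
            ((-1) ^ k * (-1) ^ k) * ((x k - zz x ε k) * (zz x ε k + x (k + 1))) := by ring
        rw [e, hs2, one_mul]
        nlinarith
      · rw [show n + 1 + 1 + 2 = 3 * k + 5 by omega, show n + 1 + 1 + 1 = 3 * k + 4 by omega,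
          show n + 1 + 1 = 3 * k + 3 by omega, zigY_a, zigY_b, zigY_c]
        have e : ((-1) ^ k * x (k + 2) - (-1) ^ k * x k) *
            ((-1) ^ k * x k - (-1) ^ k * zz x ε k) =
            ((-1) ^ k * (-1) ^ k) * ((x (k + 2) - x k) * (x k - zz x ε k)) := by ring
        rw [e, hs2, one_mul]
        nlinarith
      · rw [show n + 1 + 1 + 2 = 3 * (k + 1) + 3 by omega, show n + 1 + 1 + 1 = 3 * k + 5 by omega,
          show n + 1 + 1 = 3 * k + 4 by omega, zigY_a, zigY_b, zigY_c]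
        have e : ((-1) ^ (k + 1) * zz x ε (k + 1) - (-1) ^ k * x (k + 2)) *
            ((-1) ^ k * x (k + 2) - (-1) ^ k * x k) =
            ((-1) ^ k * (-1) ^ k) * ((-zz x ε (k + 1) - x (k + 2)) * (x (k + 2) - x k)) := by
          rw [pow_succ]; ring
        rw [e, hs2, one_mul]
        nlinarith
  · intro hsum
    have h1 := hsum.tendsto_atTop_zero
    have h2 : Filter.Tendsto (fun m : ℕ => 3 * (2 * m) + 5) Filter.atTop Filter.atTop := by
      apply Filter.tendsto_atTop_mono (f := fun m : ℕ => m)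
      · intro m; omega
      · exact Filter.tendsto_id
    have h3 := h1.comp h2
    have h4 : ∀ m : ℕ, x 0 ≤ ((fun i => |zigY x ε (i + 1) - zigY x ε i|) ∘
        (fun m : ℕ => 3 * (2 * m) + 5)) m := by
      intro m
      simp only [Function.comp]
      rw [show 3 * (2 * m) + 5 + 1 = 3 * (2 * m + 1) + 3 by ring, zigY_a, zigY_c,
        show (-1) ^ (2 * m + 1) * zz x ε (2 * m + 1) - (-1) ^ (2 * m) * x (2 * m + 2) =
        (-1) ^ (2 * m) * (-(zz x ε (2 * m + 1) + x (2 * m + 2))) by rw [pow_succ]; ring,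
        abs_sign, abs_neg]
      have a1 : x 0 ≤ x (2 * m + 2) := x_mono_parity hx2 (by omega) (by omega)
      have a2 := zz_gt hx0 hx2 hε (2 * m + 1)
      have a3 := hx0 (2 * m + 1)
      have a4 := hx0 (2 * m + 2)
      rw [abs_of_pos (by linarith)]
      linarith
    have h5 := ge_of_tendsto' h3 h4
    linarith [hx0 0]

end Pool.Agent.Helper569.Faulty
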