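import Mathlib

/-!
# Search games on networks: definitions

* `Network`: a finite connected graph whose arcs are segments of positive length;
* `Network.Q`: the network as a metric space, with the shortest-path distance;
* `Traj N O`: the search trajectories (maps `[0,∞) → Q` with speed at most one starting at `O`);
* `captureTime`, `worstTime`, `IsOptimal`;
* `Traverses`, `VisitsMoreThanTwice`.
-/

namespace Pool.Agent.Helper569.Net

open MeasureTheory Set
open scoped ENNReal NNReal

/-- A network: a finite connected graph, the arc `e` being a segment `[0, len e]` which joins the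
node `src e` (at the parameter `0`) to the node `tgt e` (at the parameter `len e`). -/
structure Network where
  /-- the nodes -/
  V : Type
  /-- the arcs -/
  E : Type
  [fintypeV : Fintype V]
  [fintypeE : Fintype E]
  /-- the initial node of an arc -/
  src : E → V
  /-- the final node of an arc -/
  tgt : E → V
  /-- the length of an arc -/
  len : E → ℝ
  len_pos : ∀ e, 0 < len e
  /-- the graph is connected -/
  connected : ∀ u v : V, Relation.EqvGen (fun a b => ∃ e, src e = a ∧ tgt e = b) u v

attribute [instance] Network.fintypeV Network.fintypeE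

namespace Network

/-- The points of the network before the ends of the arcs are glued to the nodes. -/
inductive Pre (N : Network) : Type
  | node (v : N.V) : Pre N
  | pt (e : N.E) (x : Icc (0 : ℝ) (N.len e)) : Pre N

/-- The two ends of the segment `[0, len e]`. -/
def zero (N : Network) (e : N.E) : Icc (0 : ℝ) (N.len e) := ⟨0, le_refl 0, (N.len_pos e).le⟩

/-- The two ends of the segment `[0, len e]`. -/
def last (N : Network) (e : N.E) : Icc (0 : ℝ) (N.len e) := ⟨N.len e, (N.len_pos e).le, le_refl _⟩

/-- The end `0` of the arc `e` is glued to `src e`, and the end `len e` to `tgt e`. -/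
inductive Glued (N : Network) : N.Pre → N.Pre → Prop
  | src_out (e : N.E) : Glued N (.node (N.src e)) (.pt e (N.zero e))
  | src_in (e : N.E) : Glued N (.pt e (N.zero e)) (.node (N.src e))
  | tgt_out (e : N.E) : Glued N (.node (N.tgt e)) (.pt e (N.last e))
  | tgt_in (e : N.E) : Glued N (.pt e (N.last e)) (.node (N.tgt e))

/-- `N.Walk p q r`: there is a walk from `p` to `q` in the network of total length `r`.
A walk moves along the arcs (moving from `x` to `y` on an arc costs `edist x y = |x - y|`), and
it passes between an end of an arc and the corresponding node at no cost. -/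
inductive Walk (N : Network) : N.Pre → N.Pre → ℝ≥0∞ → Prop
  | stay (p : N.Pre) : Walk N p p 0
  | along {p : N.Pre} {e : N.E} {x : Icc (0 : ℝ) (N.len e)} {r : ℝ≥0∞}
      (h : Walk N p (.pt e x) r) (y : Icc (0 : ℝ) (N.len e)) : Walk N p (.pt e y) (r + edist x y)
  | glue {p q q' : N.Pre} {r : ℝ≥0∞} (h : Walk N p q r) (g : Glued N q q') : Walk N p q' r

variable {N : Network}

theorem Glued.symm {p q : N.Pre} (h : Glued N p q) : Glued N q p := by
  cases h
  · exact .src_in _
  · exact .src_out _
  · exact .tgt_in _
  · exact .tgt_out _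

theorem Walk.trans {p q w : N.Pre} {r s : ℝ≥0∞} (h : N.Walk p q r) (h' : N.Walk q w s) :
    N.Walk p w (r + s) := by
  induction h' with
  | stay => simpa using h
  | along _ y ih => rw [← add_assoc]; exact ih.along y
  | glue _ g ih => exact ih.glue g

theorem Walk.symm {p q : N.Pre} {r : ℝ≥0∞} (h : N.Walk p q r) : N.Walk q p r := by
  induction h with
  | stay => exact .stay _
  | @along e x r h y ih =>
    have h1 : N.Walk (.pt e y) (.pt e x) (0 + edist y x) := (Walk.stay _).along x
    have := h1.trans ih
    rwa [zero_add, add_comm, edist_comm] at this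
  | @glue q q' r h g ih =>
    have h1 : N.Walk q' q 0 := (Walk.stay _).glue g.symm
    have := h1.trans ih
    rwa [zero_add] at this

/-- The shortest-path distance. -/
noncomputable instance : PseudoEMetricSpace N.Pre where
  edist p q := ⨅ (r : ℝ≥0∞) (_ : N.Walk p q r), r
  edist_self p := le_antisymm (iInf₂_le 0 (Walk.stay p)) zero_le
  edist_comm p q := by
    apply le_antisymm
    · exact le_iInf₂ fun r hr => iInf₂_le r hr.symm
    · exact le_iInf₂ fun r hr => iInf₂_le r hr.symm
  edist_triangle p q w := by
    refine ENNReal.le_of_forall_pos_le_add ?_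
    intro ε hε hfin
    have h1 : (⨅ (r : ℝ≥0∞) (_ : N.Walk p q r), r) < (⨅ (r : ℝ≥0∞) (_ : N.Walk p q r), r) + ε / 2 := by
      apply ENNReal.lt_add_right
      · exact ne_top_of_le_ne_top hfin.ne le_self_add
      · simp [hε.ne']
    have h2 : (⨅ (r : ℝ≥0∞) (_ : N.Walk q w r), r) < (⨅ (r : ℝ≥0∞) (_ : N.Walk q w r), r) + ε / 2 := by
      apply ENNReal.lt_add_right
      · exact ne_top_of_le_ne_top hfin.ne le_add_self
      · simp [hε.ne']
    obtain ⟨r, hr⟩ := iInf_lt_iff.1 h1
    obtain ⟨hr, hr'⟩ := iInf_lt_iff.1 hr
    obtain ⟨s, hs⟩ := iInf_lt_iff.1 h2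
    obtain ⟨hs, hs'⟩ := iInf_lt_iff.1 hs
    calc (⨅ (r : ℝ≥0∞) (_ : N.Walk p w r), r) ≤ r + s := iInf₂_le _ (hr.trans hs)
      _ ≤ ((⨅ (r : ℝ≥0∞) (_ : N.Walk p q r), r) + ε / 2)
          + ((⨅ (r : ℝ≥0∞) (_ : N.Walk q w r), r) + ε / 2) := add_le_add hr'.le hs'.le
      _ = _ := by
        rw [add_add_add_comm, ENNReal.add_halves]

/-- The network as a metric space: the nodes and the points of the arcs, with the shortest-path
distance, where points at distance `0` are identified (this glues the ends of the arcs to the
nodes). -/
def Q (N : Network) : Type := SeparationQuotient N.Pre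

noncomputable instance (N : Network) : EMetricSpace N.Q :=
  inferInstanceAs (EMetricSpace (SeparationQuotient N.Pre))

/-- The node `v`, as a point of the network. -/
noncomputable def node (N : Network) (v : N.V) : N.Q := SeparationQuotient.mk (.node v)

/-- The point of the arc `e` with the parameter `x ∈ [0, len e]`. -/
noncomputable def point (N : Network) (e : N.E) (x : Icc (0 : ℝ) (N.len e)) : N.Q :=
  SeparationQuotient.mk (.pt e x)

end Network

/-- The search trajectories from the starting point `O`: maps `S : [0,∞) → Q` with `S 0 = O` and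
`d (S t) (S t') ≤ |t - t'|`. -/
def Traj (N : Network) (O : N.Q) : Type := {S : ℝ≥0 → N.Q // S 0 = O ∧ LipschitzWith 1 S}

/-- The topology of pointwise convergence on the space of trajectories. -/
noncomputable instance (N : Network) (O : N.Q) : TopologicalSpace (Traj N O) :=
  inferInstanceAs (TopologicalSpace {S : ℝ≥0 → N.Q // S 0 = O ∧ LipschitzWith 1 S})

/-- The Borel `σ`-algebra on the space of trajectories. -/
noncomputable instance (N : Network) (O : N.Q) : MeasurableSpace (Traj N O) := borel _

instance (N : Network) (O : N.Q) : BorelSpace (Traj N O) := ⟨rfl⟩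

/-- The capture time `c(S,H)`: the first time at which `S` is at `H` (`∞` if there is none). -/
noncomputable def captureTime {N : Network} {O : N.Q} (S : Traj N O) (H : N.Q) : ℝ≥0∞ :=
  ⨅ (t : ℝ≥0) (_ : S.1 t = H), (t : ℝ≥0∞)

/-- The mixed search strategies: the probability distributions over trajectories. -/
abbrev MixedSearch (N : Network) (O : N.Q) : Type := ProbabilityMeasure (Traj N O)

/-- The expected capture time `c(s,H)`. -/
noncomputable def expectedTime {N : Network} {O : N.Q} (s : MixedSearch N O) (H : N.Q) : ℝ≥0∞ :=
  ∫⁻ S, captureTime S H ∂(s : Measure (Traj N O))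

/-- `sup_H c(s,H)`. -/
noncomputable def worstTime {N : Network} {O : N.Q} (s : MixedSearch N O) : ℝ≥0∞ :=
  ⨆ H : N.Q, expectedTime s H

/-- The (minimax) value of the search game. -/
noncomputable def value (N : Network) (O : N.Q) : ℝ≥0∞ := ⨅ s : MixedSearch N O, worstTime s

/-- A mixed search strategy is optimal (minimax) if `sup_H c(s,H)` is the value of the game. -/
def IsOptimal {N : Network} {O : N.Q} (s : MixedSearch N O) : Prop := worstTime s = value N O

/-- Between the times `a` and `b` the trajectory `S` traverses the segment `[x,y]` of the arc `e`: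
it is at one end of the segment at the time `a`, at the other end at the time `b`, and it is in
the segment in between. -/
def Traverses {N : Network} {O : N.Q} (S : Traj N O) (e : N.E) (x y : Icc (0 : ℝ) (N.len e))
    (a b : ℝ≥0) : Prop :=
  a < b ∧
  ((S.1 a = N.point e x ∧ S.1 b = N.point e y) ∨ (S.1 a = N.point e y ∧ S.1 b = N.point e x)) ∧
  ∀ t ∈ Icc a b, ∃ z ∈ Icc x y, S.1 t = N.point e z

/-- A trajectory visits a part of an arc more than twice: some sub-segment `[x,y]` of positive
length of some arc `e` is traversed at least three times, in the successive time intervals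
`[a₁,b₁]`, `[a₂,b₂]`, `[a₃,b₃]`, while some point `H` of the network has not been visited up to the
time `b₃`. -/
def VisitsMoreThanTwice {N : Network} {O : N.Q} (S : Traj N O) : Prop :=
  ∃ (e : N.E) (x y : Icc (0 : ℝ) (N.len e)) (a₁ b₁ a₂ b₂ a₃ b₃ : ℝ≥0), x < y ∧
    Traverses S e x y a₁ b₁ ∧ b₁ ≤ a₂ ∧ Traverses S e x y a₂ b₂ ∧ b₂ ≤ a₃ ∧
    Traverses S e x y a₃ b₃ ∧ ∃ H : N.Q, ∀ t ≤ b₃, S.1 t ≠ H

end Pool.Agent.Helper569.Net
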