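import Pool.Agent.Helper569.NetExist

/-!
# The example

Three arcs of length `6` from `X` to `Y`, and an arc of length `301` from `X` to `Z`; the starting
point `O` is the point of the long arc at distance `1` from `X`.
-/

namespace Pool.Agent.Helper569.Net

open MeasureTheory Set Filter Topology
open scoped ENNReal NNReal

/-- The nodes of the example. -/
inductive V3 : Type
  | X | Y | Z
  deriving DecidableEq

instance : Fintype V3 where
  elems := {.X, .Y, .Z}
  complete := by intro x; cases x <;> simp

/-- The lengths of the arcs. -/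
def lenE : Option (Fin 3) → ℝ
  | none => 301
  | some _ => 6

/-- The final node of the arcs. -/
def tgtE : Option (Fin 3) → V3
  | none => .Z
  | some _ => .Y

theorem lenE_pos (e : Option (Fin 3)) : 0 < lenE e := by
  cases e <;> simp [lenE]

/-- The network: three arcs `some 0, some 1, some 2` of length `6` from `X` to `Y`, and the arc
`none` of length `301` from `X` to `Z`. -/
def net : Network where
  V := V3
  E := Option (Fin 3)
  src := fun _ => .X
  tgt := tgtE
  len := lenE
  len_pos := lenE_pos
  connected := by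
    have hY : Relation.EqvGen (fun a b : V3 => ∃ _ : Option (Fin 3), V3.X = a ∧ tgtE ‹_› = b) .X .Y :=
      .rel _ _ ⟨some 0, rfl, rfl⟩
    have hZ : Relation.EqvGen (fun a b : V3 => ∃ _ : Option (Fin 3), V3.X = a ∧ tgtE ‹_› = b) .X .Z :=
      .rel _ _ ⟨none, rfl, rfl⟩
    have h : ∀ u : V3, Relation.EqvGen (fun a b : V3 => ∃ _ : Option (Fin 3), V3.X = a ∧ tgtE ‹_› = b) .X u := by
      intro u
      cases u
      · exact .refl _
      · exact hY
      · exact hZ
    intro u v
    exact .trans _ _ _ (.symm _ _ (h u)) (h v)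

/-- The point of the arc `e` at distance `x` from `X`. -/
noncomputable def P (e : Option (Fin 3)) (x : ℝ) (h : x ∈ Icc 0 (lenE e)) : net.Q :=
  net.point e ⟨x, h⟩

theorem P_congr {e : Option (Fin 3)} {x y : ℝ} (hx : x ∈ Icc 0 (lenE e)) (hxy : x = y) :
    P e x hx = P e y (hxy ▸ hx) := by subst hxy; rfl

theorem zero_memE (e : Option (Fin 3)) : (0 : ℝ) ∈ Icc 0 (lenE e) := ⟨le_refl _, (lenE_pos e).le⟩

theorem last_memE (e : Option (Fin 3)) : lenE e ∈ Icc 0 (lenE e) := ⟨(lenE_pos e).le, le_refl _⟩

theorem mem_some {i : Fin 3} {x : ℝ} (h0 : 0 ≤ x) (h1 : x ≤ 6) : x ∈ Icc 0 (lenE (some i)) := ⟨h0, h1⟩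

theorem mem_none {x : ℝ} (h0 : 0 ≤ x) (h1 : x ≤ 301) : x ∈ Icc 0 (lenE none) := ⟨h0, h1⟩

/-- The nodes. -/
noncomputable def ptX : net.Q := net.node V3.X
/-- The nodes. -/
noncomputable def ptY : net.Q := net.node V3.Y
/-- The nodes. -/
noncomputable def ptZ : net.Q := net.node V3.Z

theorem ptX_eq (e : Option (Fin 3)) : ptX = P e 0 (zero_memE e) := Network.node_src (N := net) e

theorem ptY_eq (i : Fin 3) : ptY = P (some i) 6 (last_memE (some i)) :=
  Network.node_tgt (N := net) (some i)

theorem ptZ_eq : ptZ = P none 301 (last_memE none) := Network.node_tgt (N := net) none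

/-- The starting point: the point at distance `1` from `X` on the long arc. -/
noncomputable def ptO : net.Q := P none 1 (mem_none (by norm_num) (by norm_num))

theorem exists_P (H : net.Q) : ∃ e x, ∃ h : x ∈ Icc 0 (lenE e), H = P e x h := by
  rcases Network.exists_rep H with ⟨v, rfl⟩ | ⟨e, x, rfl⟩
  · cases v
    · exact ⟨none, 0, _, ptX_eq none⟩
    · exact ⟨some 0, 6, _, ptY_eq 0⟩
    · exact ⟨none, 301, _, ptZ_eq⟩
  · exact ⟨e, x.1, x.2, rfl⟩

theorem edist_P_le (e : Option (Fin 3)) (x y : ℝ) (hx : x ∈ Icc 0 (lenE e)) (hy : y ∈ Icc 0 (lenE e)) :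
    edist (P e x hx) (P e y hy) ≤ edist x y := by
  have := Network.point_lipschitz (N := net) e ⟨x, hx⟩ ⟨y, hy⟩
  rw [ENNReal.coe_one, one_mul] at this
  exact this

/-- Potentials on the example network. -/
def mkPot (fV : V3 → ℝ) (fE : Option (Fin 3) → ℝ → ℝ)
    (hl : ∀ e x y, |fE e x - fE e y| ≤ |x - y|) (h0 : ∀ e, fV .X = fE e 0)
    (h1 : fV .Z = fE none 301) (h2 : ∀ i, fV .Y = fE (some i) 6) : Network.Potential net where
  F p := match p with
    | .node v => fV v
    | .pt e x => fE e x
  along e x y := hl e x y
  src e := h0 e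
  tgt e := by
    cases e with
    | none => exact h1
    | some i => exact h2 i

/-- The signed coordinate: `0` at `O`, `1` at `X`, `7` at `Y`, `-300` at `Z`. -/
def potG : Network.Potential net :=
  mkPot (fun v => match v with | .X => 1 | .Y => 7 | .Z => -300)
    (fun e x => match e with | none => 1 - x | some _ => 1 + x)
    (by
      intro e x y
      cases e
      · simp only
        rw [show 1 - x - (1 - y) = -(x - y) by ring, abs_neg]
      · simp only
        rw [show 1 + x - (1 + y) = x - y by ring])
    (by intro e; cases e <;> norm_num)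
    (by norm_num) (by intro i; norm_num)

/-- The signed coordinate. -/
noncomputable def G (q : net.Q) : ℝ := potG.f q

theorem G_none (x : ℝ) (h : x ∈ Icc 0 (lenE none)) : G (P none x h) = 1 - x := rfl
theorem G_some (i : Fin 3) (x : ℝ) (h : x ∈ Icc 0 (lenE (some i))) : G (P (some i) x h) = 1 + x := rfl
theorem G_Y : G ptY = 7 := rfl
theorem G_Z : G ptZ = -300 := rfl
theorem G_O : G ptO = 0 := by
  have := G_none 1 (mem_none (by norm_num) (by norm_num))
  rw [sub_self] at this
  exact this

theorem G_lip : LipschitzWith 1 G := potG.lipschitz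

/-- A point whose coordinate is in `[0,1]` is on the first unit of the long arc. -/
theorem eq_of_G {q : net.Q} (h0 : 0 ≤ G q) (h1 : G q ≤ 1) :
    q = P none (1 - G q) (mem_none (by linarith) (by linarith)) := by
  obtain ⟨e, x, hx, rfl⟩ := exists_P q
  cases e with
  | none =>
    apply P_congr
    rw [G_none]; ring
  | some i =>
    rw [G_some] at h1
    have hx0 : x = 0 := le_antisymm (by linarith) hx.1
    subst hx0
    have e1 : P (some i) 0 hx = ptX := (ptX_eq (some i)).symm
    have e2 : (1 : ℝ) - G (P (some i) 0 hx) = 0 := by rw [G_some]; ring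
    exact (e1.trans (ptX_eq none)).trans (P_congr _ e2.symm)

/-- The distance from the point at `c` on the arc `some i`. -/
noncomputable def potD (i : Fin 3) (c : ℝ) (hc : c ∈ Icc (0 : ℝ) 6) : Network.Potential net :=
  mkPot (fun v => match v with | .X => c | .Y => 6 - c | .Z => c + 301)
    (fun e x => match e with
      | none => c + x
      | some j => if j = i then |x - c| else min (c + x) (12 - c - x))
    (by
      intro e x y
      cases e
      · simp only
        rw [show c + x - (c + y) = x - y by ring]
      · simp only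
        split_ifs
        · have := abs_abs_sub_abs_le (x - c) (y - c)
          rwa [show x - c - (y - c) = x - y by ring] at this
        · have := abs_min_sub_min_le_max (c + x) (12 - c - x) (c + y) (12 - c - y)
          refine this.trans (le_of_eq ?_)
          rw [show c + x - (c + y) = x - y by ring,
            show 12 - c - x - (12 - c - y) = -(x - y) by ring, abs_neg, max_self])
    (by
      intro e
      obtain ⟨h0, h1⟩ := hc
      cases e
      · simp
      · simp only
        split_ifs
        · rw [zero_sub, abs_neg, abs_of_nonneg h0]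
        · rw [add_zero, sub_zero, min_eq_left (by linarith)])
    (by simp only)
    (by
      intro j
      obtain ⟨h0, h1⟩ := hc
      simp only
      split_ifs
      · rw [abs_of_nonneg (by linarith)]
      · rw [min_eq_right (by linarith)]; ring)

theorem potD_self (i : Fin 3) (c : ℝ) (hc : c ∈ Icc (0 : ℝ) 6) (x : ℝ) (h : x ∈ Icc 0 (lenE (some i))) :
    (potD i c hc).f (P (some i) x h) = |x - c| := by
  change (if i = i then |x - c| else min (c + x) (12 - c - x)) = _
  rw [if_pos rfl]

theorem potD_other (i j : Fin 3) (hij : j ≠ i) (c : ℝ) (hc : c ∈ Icc (0 : ℝ) 6) (x : ℝ)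
    (h : x ∈ Icc 0 (lenE (some j))) :
    (potD i c hc).f (P (some j) x h) = min (c + x) (12 - c - x) := by
  change (if j = i then |x - c| else min (c + x) (12 - c - x)) = _
  rw [if_neg hij]

/-- The value of a potential along a trajectory. -/
theorem pot_le (R : Network.Potential net) (S : Traj net ptO) (t u : ℝ≥0) :
    |R.f (S.1 t) - R.f (S.1 u)| ≤ |(t : ℝ) - u| := by
  have h1 := R.lipschitz (S.1 t) (S.1 u)
  rw [ENNReal.coe_one, one_mul] at h1
  have h2 := h1.trans (S.edist_le t u)
  rw [edist_dist, edist_dist, Real.dist_eq, NNReal.dist_eq] at h2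
  exact (ENNReal.ofReal_le_ofReal_iff (abs_nonneg _)).1 h2

end Pool.Agent.Helper569.Net
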