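import Pool.Agent.Helper569.NetMetric

namespace Pool.Agent.Helper569.Net

open MeasureTheory Set Filter Topology
open scoped ENNReal NNReal BoundedContinuousFunction

variable {N : Network} {O : N.Q}

/-- Continuous approximations of the capture time. -/
noncomputable def grid (H : N.Q) (n : ℕ) (S : Traj N O) : ℝ≥0∞ :=
  ((Finset.range (n * 2 ^ n + 1)).inf fun j =>
    (((j : ℝ≥0) / 2 ^ n : ℝ≥0) : ℝ≥0∞) + (n : ℝ≥0∞) * edist (S.1 ((j : ℝ≥0) / 2 ^ n)) H) ⊓ n

theorem grid_le_nat (H : N.Q) (n : ℕ) (S : Traj N O) : grid H n S ≤ n := inf_le_right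

theorem continuous_grid (H : N.Q) (n : ℕ) : Continuous (grid H n : Traj N O → ℝ≥0∞) := by
  unfold grid
  have h : ∀ j ∈ Finset.range (n * 2 ^ n + 1), Continuous (fun S : Traj N O =>
      (((j : ℝ≥0) / 2 ^ n : ℝ≥0) : ℝ≥0∞) + (n : ℝ≥0∞) * edist (S.1 ((j : ℝ≥0) / 2 ^ n)) H) := by
    intro j _
    have h1 : Continuous (fun S : Traj N O => edist (S.1 ((j : ℝ≥0) / 2 ^ n)) H) :=
      (continuous_eval _).edist continuous_const
    have h2 : Continuous (fun S : Traj N O => (n : ℝ≥0∞) * edist (S.1 ((j : ℝ≥0) / 2 ^ n)) H) :=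
      (ENNReal.continuous_const_mul (ENNReal.natCast_ne_top n)).comp h1
    exact continuous_const.add h2
  exact (Continuous.finset_inf_apply h).inf continuous_const

theorem grid_le (H : N.Q) (n : ℕ) (S : Traj N O) :
    grid H n S ≤ captureTime S H + (n : ℝ≥0∞) * ((1 / 2 ^ n : ℝ≥0) : ℝ≥0∞) := by
  rcases eq_or_ne (captureTime S H) ⊤ with h | h
  · simp [h]
  obtain ⟨t, ht, ht'⟩ := captureTime_attained h
  rw [ht']
  rcases le_total (n : ℝ≥0) t with h1 | h1
  · refine (grid_le_nat H n S).trans (le_trans ?_ le_self_add)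
    exact_mod_cast h1
  have hpos : (0 : ℝ≥0) < 2 ^ n := by positivity
  set j := ⌊t * 2 ^ n⌋₊ with hj
  have hj1 : (j : ℝ≥0) ≤ t * 2 ^ n := Nat.floor_le (by positivity)
  have hj2 : t * 2 ^ n < (j : ℝ≥0) + 1 := Nat.lt_floor_add_one _
  have hjn : j ∈ Finset.range (n * 2 ^ n + 1) := by
    rw [Finset.mem_range, Nat.lt_succ_iff]
    have : (j : ℝ≥0) ≤ (n : ℝ≥0) * 2 ^ n := hj1.trans (mul_le_mul_left h1 _)
    exact_mod_cast this
  have h3 : (j : ℝ≥0) / 2 ^ n ≤ t := by rwa [div_le_iff₀ hpos]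
  have h4 : edist (S.1 ((j : ℝ≥0) / 2 ^ n)) H ≤ ((1 / 2 ^ n : ℝ≥0) : ℝ≥0∞) := by
    rw [← ht]
    refine (S.edist_le _ _).trans ?_
    rw [edist_nndist]
    refine ENNReal.coe_le_coe.2 ?_
    rw [← NNReal.coe_le_coe, coe_nndist, NNReal.dist_eq, abs_sub_comm, abs_of_nonneg (by
      rw [sub_nonneg]; exact_mod_cast h3)]
    have h5 : t < ((j : ℝ≥0) + 1) / 2 ^ n := by rwa [lt_div_iff₀ hpos]
    have h6 : (t : ℝ) < ((j : ℝ) + 1) / 2 ^ n := by exact_mod_cast h5
    push_cast
    rw [add_div] at h6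
    linarith
  refine inf_le_left.trans ((Finset.inf_le hjn).trans ?_)
  refine add_le_add (by exact_mod_cast h3) (mul_le_mul_right h4 _)

theorem le_liminf_grid (H : N.Q) (S : Traj N O) :
    captureTime S H ≤ liminf (fun n => grid H n S) atTop := by
  refine le_of_forall_lt fun a ha => ?_
  obtain ⟨b, hab, hb⟩ := exists_between ha
  refine hab.trans_le ?_
  lift b to ℝ≥0 using (hb.trans_le le_top).ne
  have hne := not_visited_of_lt hb
  obtain ⟨t0, ht0, hmin⟩ := (isCompact_Icc (a := (0 : ℝ≥0)) (b := b)).exists_isMinOn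
    ⟨0, le_refl _, zero_le⟩ ((S.cont.edist (continuous_const (y := H))).continuousOn)
  have hδ : edist (S.1 t0) H ≠ 0 := by
    rw [Ne, edist_eq_zero]
    exact hne t0 ht0.2
  obtain ⟨n0, hn0⟩ := ENNReal.exists_nat_mul_gt hδ (ENNReal.coe_ne_top (r := b))
  obtain ⟨n1, hn1⟩ := exists_nat_ge b
  refine le_liminf_of_le (by isBoundedDefault) ?_
  filter_upwards [eventually_ge_atTop n0, eventually_ge_atTop n1] with n h0 h1
  refine le_inf ?_ ?_
  · refine Finset.le_inf fun j _ => ?_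
    rcases le_or_gt ((j : ℝ≥0) / 2 ^ n) b with h | h
    · have h2 : edist (S.1 t0) H ≤ edist (S.1 ((j : ℝ≥0) / 2 ^ n)) H := hmin ⟨zero_le, h⟩
      refine le_trans ?_ le_add_self
      refine hn0.le.trans ?_
      exact mul_le_mul' (by exact_mod_cast h0) h2
    · refine le_trans ?_ le_self_add
      exact_mod_cast h.le
  · have : b ≤ (n : ℝ≥0) := hn1.trans (by exact_mod_cast h1)
    exact_mod_cast this

/-- The grid functions as bounded continuous functions. -/
noncomputable def gridB (H : N.Q) (n : ℕ) : Traj N O →ᵇ ℝ≥0 :=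
  BoundedContinuousFunction.mkOfCompact ⟨fun S => (grid H n S).toNNReal,
    ENNReal.continuousOn_toNNReal.comp_continuous (continuous_grid H n)
      (fun S => ne_top_of_le_ne_top (ENNReal.natCast_ne_top n) (grid_le_nat H n S))⟩

theorem coe_gridB (H : N.Q) (n : ℕ) (S : Traj N O) : ((gridB H n S : ℝ≥0) : ℝ≥0∞) = grid H n S :=
  ENNReal.coe_toNNReal (ne_top_of_le_ne_top (ENNReal.natCast_ne_top n) (grid_le_nat H n S))

theorem tendsto_error : Tendsto (fun n : ℕ => (n : ℝ≥0∞) * ((1 / 2 ^ n : ℝ≥0) : ℝ≥0∞)) atTop (𝓝 0) := by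
  have h1 : Tendsto (fun n : ℕ => (n : ℝ) * (1 / 2) ^ n) atTop (𝓝 0) :=
    tendsto_self_mul_const_pow_of_lt_one (by norm_num) (by norm_num)
  have h2 : Tendsto (fun n : ℕ => ENNReal.ofReal ((n : ℝ) * (1 / 2) ^ n)) atTop (𝓝 (ENNReal.ofReal 0)) :=
    ENNReal.tendsto_ofReal h1
  rw [ENNReal.ofReal_zero] at h2
  refine h2.congr fun n => ?_
  rw [ENNReal.ofReal_mul (by positivity), ENNReal.ofReal_natCast]
  congr 1
  rw [← ENNReal.ofReal_coe_nnreal]
  congr 1
  push_cast
  rw [div_pow, one_pow]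

/-- Every network search game has an optimal search strategy. -/
theorem exists_isOptimal (N : Network) (O : N.Q) : ∃ s : MixedSearch N O, IsOptimal s := by
  classical
  -- a trajectory exists
  have hne : Nonempty (MixedSearch N O) := by
    let S : Traj N O := ⟨fun _ => O, rfl, LipschitzWith.const' O⟩
    exact ⟨⟨Measure.dirac S, inferInstance⟩⟩
  obtain ⟨v, hv1, hv2, hv3⟩ := exists_seq_tendsto_sInf (S := range (fun s : MixedSearch N O => worstTime s))
    (range_nonempty _) (OrderBot.bddBelow _)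
  choose P hP using hv3
  have hval : Tendsto (fun k => worstTime (P k)) atTop (𝓝 (value N O)) := by
    refine hv2.congr fun k => (hP k).symm
  let U : Ultrafilter (MixedSearch N O) := (hyperfilter ℕ).map P
  obtain ⟨s, -, hs⟩ := isCompact_univ.ultrafilter_le_nhds U (by simp)
  have hlim : Tendsto P (hyperfilter ℕ) (𝓝 s) := hs
  have hlim2 := ProbabilityMeasure.tendsto_iff_forall_lintegral_tendsto.1 hlim
  refine ⟨s, le_antisymm ?_ (iInf_le _ s)⟩
  refine iSup_le fun H => ?_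
  have key : ∀ n : ℕ, ∫⁻ S, grid H n S ∂(s : Measure (Traj N O)) ≤
      value N O + (n : ℝ≥0∞) * ((1 / 2 ^ n : ℝ≥0) : ℝ≥0∞) := by
    intro n
    have h1 := hlim2 (gridB H n)
    simp only [coe_gridB] at h1
    have h2 : Tendsto (fun k => worstTime (P k) + (n : ℝ≥0∞) * ((1 / 2 ^ n : ℝ≥0) : ℝ≥0∞))
        (hyperfilter ℕ) (𝓝 (value N O + (n : ℝ≥0∞) * ((1 / 2 ^ n : ℝ≥0) : ℝ≥0∞))) :=
      (hval.mono_left Nat.hyperfilter_le_atTop).add tendsto_const_nhds
    refine le_of_tendsto_of_tendsto h1 h2 (Eventually.of_forall fun k => ?_)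
    calc ∫⁻ S, grid H n S ∂(P k : Measure (Traj N O))
        ≤ ∫⁻ S, (captureTime S H + (n : ℝ≥0∞) * ((1 / 2 ^ n : ℝ≥0) : ℝ≥0∞)) ∂(P k : Measure (Traj N O)) :=
          lintegral_mono fun S => grid_le H n S
      _ = expectedTime (P k) H + (n : ℝ≥0∞) * ((1 / 2 ^ n : ℝ≥0) : ℝ≥0∞) := by
          rw [lintegral_add_right _ measurable_const, lintegral_const, measure_univ, mul_one]
          rfl
      _ ≤ _ := add_le_add (le_iSup (fun H => expectedTime (P k) H) H) le_rfl
  calc expectedTime s H ≤ ∫⁻ S, liminf (fun n => grid H n S) atTop ∂(s : Measure (Traj N O)) :=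
        lintegral_mono fun S => le_liminf_grid H S
    _ ≤ liminf (fun n => ∫⁻ S, grid H n S ∂(s : Measure (Traj N O))) atTop :=
        lintegral_liminf_le fun n => (continuous_grid H n).measurable
    _ ≤ liminf (fun n : ℕ => value N O + (n : ℝ≥0∞) * ((1 / 2 ^ n : ℝ≥0) : ℝ≥0∞)) atTop :=
        liminf_le_liminf (Eventually.of_forall key)
    _ = value N O := by
        refine Tendsto.liminf_eq ?_
        have := (tendsto_const_nhds (x := value N O) (f := (atTop : Filter ℕ))).add tendsto_error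
        simpa using this

end Pool.Agent.Helper569.Net
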