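import Pool.Agent.Helper569.NetExample

namespace Pool.Agent.Helper569.Net

open MeasureTheory Set Filter Topology
open scoped ENNReal NNReal

/-! ### Six test points -/

/-- The parameter of the test points. -/
def par (b : Bool) : ℝ := if b then 4 else 2

theorem par_mem (b : Bool) : par b ∈ Icc (0 : ℝ) 6 := by
  cases b <;> simp [par] <;> norm_num

/-- The test points at distance `2` and `4` from `X` on each short arc. -/
noncomputable def pt6 (a : Fin 3 × Bool) : net.Q := P (some a.1) (par a.2) (mem_some (par_mem a.2).1 (par_mem a.2).2)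

/-- Distances of the test points. -/
def dF (a b : Fin 3 × Bool) : ℕ :=
  if a.1 = b.1 then (if a.2 = b.2 then 0 else 2) else (if a.2 = b.2 then 4 else 6)
/-- Distances of the test points from `Z`. -/
def dZ (a : Fin 3 × Bool) : ℕ := if a.2 then 305 else 303
/-- Distances of the test points from `O`. -/
def dO (a : Fin 3 × Bool) : ℕ := if a.2 then 5 else 3

variable {S : Traj net ptO} {t u : ℝ≥0}

theorem G_abs (t u : ℝ≥0) : |G (S.1 t) - G (S.1 u)| ≤ |(t : ℝ) - u| := pot_le potG S t u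

theorem G_zero : G (S.1 0) = 0 := by rw [S.2.1]; exact G_O

theorem G_pt6 (a : Fin 3 × Bool) : G (pt6 a) = 1 + par a.2 := G_some _ _ _

theorem Y_ge (h : S.1 t = ptY) : (7 : ℝ) ≤ t := by
  have h1 := G_abs (S := S) t 0
  rw [h, G_zero, G_Y, NNReal.coe_zero, sub_zero, sub_zero, abs_of_nonneg t.coe_nonneg] at h1
  exact (le_abs_self _).trans h1

theorem Z_ge (h : S.1 t = ptZ) : (300 : ℝ) ≤ t := by
  have h1 := G_abs (S := S) t 0
  rw [h, G_zero, G_Z, NNReal.coe_zero, sub_zero, sub_zero, abs_of_nonneg t.coe_nonneg] at h1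
  have := (neg_le_abs _).trans h1
  linarith

theorem YZ_ge (h : S.1 t = ptY) (h' : S.1 u = ptZ) : (307 : ℝ) ≤ |(t : ℝ) - u| := by
  have h1 := G_abs (S := S) t u
  rw [h, h', G_Y, G_Z] at h1
  have := (le_abs_self _).trans h1
  linarith

theorem O_ge (a : Fin 3 × Bool) (h : S.1 t = pt6 a) : (dO a : ℝ) ≤ t := by
  have h1 := G_abs (S := S) t 0
  rw [h, G_zero, G_pt6, NNReal.coe_zero, sub_zero, sub_zero, abs_of_nonneg t.coe_nonneg] at h1
  have := (le_abs_self _).trans h1
  rcases a with ⟨i, b⟩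
  cases b <;> simp [dO, par] at * <;> linarith

theorem Z6_ge (a : Fin 3 × Bool) (h : S.1 t = pt6 a) (h' : S.1 u = ptZ) :
    (dZ a : ℝ) ≤ |(t : ℝ) - u| := by
  have h1 := G_abs (S := S) t u
  rw [h, h', G_pt6, G_Z] at h1
  have := (le_abs_self _).trans h1
  rcases a with ⟨i, b⟩
  cases b <;> simp [dZ, par] at * <;> linarith

theorem F_ge (a b : Fin 3 × Bool) (h : S.1 t = pt6 a) (h' : S.1 u = pt6 b) :
    (dF a b : ℝ) ≤ |(t : ℝ) - u| := by
  obtain ⟨i, p⟩ := a
  obtain ⟨j, q⟩ := b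
  have h1 := pot_le (potD i (par p) (par_mem p)) S u t
  have k1 : (potD i (par p) (par_mem p)).f (pt6 (i, p)) = |par p - par p| := potD_self _ _ _ _ _
  rw [h, h', k1, sub_self, abs_zero, sub_zero, abs_sub_comm (u : ℝ)] at h1
  by_cases hij : j = i
  · subst hij
    have k2 : (potD j (par p) (par_mem p)).f (pt6 (j, q)) = |par q - par p| := potD_self _ _ _ _ _
    rw [k2, abs_abs] at h1
    refine le_trans ?_ h1
    cases p <;> cases q <;> norm_num [dF, par]
  · have k2 : (potD i (par p) (par_mem p)).f (pt6 (j, q)) =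
      min (par p + par q) (12 - par p - par q) := potD_other i j hij _ _ _ _
    rw [k2] at h1
    refine le_trans ?_ ((le_abs_self _).trans h1)
    have hij' : ¬ (i = j) := fun h => hij h.symm
    cases p <;> cases q <;> norm_num [dF, par, hij']

/-! ### The travelling salesman bound -/

/-- Every order of visiting the points of `l` after `a`, and then `Z`, costs at least `K`. -/
def chk : ℕ → List (Fin 3 × Bool) → (Fin 3 × Bool) → ℕ → Bool
  | 0, _, a, K => decide (K ≤ dZ a)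
  | n + 1, l, a, K =>
    if l = [] then decide (K ≤ dZ a) else l.all fun b => chk n (l.erase b) b (K - dF a b)

theorem chk_sound (t : Fin 3 × Bool → ℝ) (z : ℝ) (hF : ∀ a b, (dF a b : ℝ) ≤ |t a - t b|)
    (hZ : ∀ a, (dZ a : ℝ) ≤ |t a - z|) :
    ∀ (n : ℕ) (l : List (Fin 3 × Bool)) (a : Fin 3 × Bool) (K : ℕ), chk n l a K = true →
      (∀ b ∈ l, t a ≤ t b) → (∀ b ∈ l, t b ≤ z) → t a ≤ z → (K : ℝ) ≤ z - t a := by
  have base : ∀ (a : Fin 3 × Bool) (K : ℕ), K ≤ dZ a → t a ≤ z → (K : ℝ) ≤ z - t a := by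
    intro a K h ha
    have h1 := hZ a
    rw [abs_sub_comm, abs_of_nonneg (by linarith)] at h1
    have h2 : (K : ℝ) ≤ dZ a := by exact_mod_cast h
    linarith
  intro n
  induction n with
  | zero =>
    intro l a K h _ _ ha
    rw [chk, decide_eq_true_eq] at h
    exact base a K h ha
  | succ n ih =>
    intro l a K h h1 h2 ha
    rw [chk] at h
    split_ifs at h with hl
    · rw [decide_eq_true_eq] at h
      exact base a K h ha
    · rw [List.all_eq_true] at h
      obtain ⟨b, hb, hmin⟩ := Finset.exists_min_image l.toFinset t (by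
        obtain ⟨c, hc⟩ := List.exists_mem_of_ne_nil l hl
        exact ⟨c, List.mem_toFinset.2 hc⟩)
      rw [List.mem_toFinset] at hb
      have h3 := ih (l.erase b) b (K - dF a b) (h b hb)
        (fun c hc => hmin c (List.mem_toFinset.2 (List.mem_of_mem_erase hc)))
        (fun c hc => h2 c (List.mem_of_mem_erase hc)) (h2 b hb)
      have h4 := hF a b
      rw [abs_sub_comm, abs_of_nonneg (by linarith [h1 b hb])] at h4
      have h5 : (K : ℝ) ≤ ((K - dF a b : ℕ) : ℝ) + dF a b := by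
        have : K ≤ (K - dF a b) + dF a b := by omega
        exact_mod_cast this
      linarith

/-- The six points. -/
def all6 : List (Fin 3 × Bool) :=
  [(0, false), (0, true), (1, false), (1, true), (2, false), (2, true)]

theorem mem_all6 : ∀ a, a ∈ all6 := by decide

theorem chk_all : ∀ b ∈ all6, chk 5 (all6.erase b) b (322 - dO b) = true := by
  decide +kernel

theorem tsp (t : Fin 3 × Bool → ℝ) (z : ℝ) (hF : ∀ a b, (dF a b : ℝ) ≤ |t a - t b|)
    (hZ : ∀ a, (dZ a : ℝ) ≤ |t a - z|) (hO : ∀ a, (dO a : ℝ) ≤ t a) (h : ∀ a, t a ≤ z) :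
    (322 : ℝ) ≤ z := by
  obtain ⟨b, -, hmin⟩ := Finset.exists_min_image Finset.univ t ⟨(0, false), Finset.mem_univ _⟩
  have h1 := chk_sound t z hF hZ 5 (all6.erase b) b (322 - dO b) (chk_all b (mem_all6 b))
    (fun c _ => hmin c (Finset.mem_univ _)) (fun c _ => h c) (h b)
  have h2 := hO b
  have h3 : (322 : ℝ) ≤ ((322 - dO b : ℕ) : ℝ) + dO b := by
    have : 322 ≤ (322 - dO b) + dO b := by omega
    exact_mod_cast this
  linarith

/-! ### Crossings -/

theorem crossing {g : ℝ≥0 → ℝ} (hg : Continuous g) {α β : ℝ≥0} (hαβ : α ≤ β) (h0 : g α ≤ 0)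
    (h1 : 1 ≤ g β) :
    ∃ a b, α ≤ a ∧ a < b ∧ b ≤ β ∧ g a = 0 ∧ g b = 1 ∧ ∀ u ∈ Icc a b, 0 ≤ g u ∧ g u ≤ 1 := by
  -- the first time when `g = 1`
  set B : Set ℝ≥0 := {u | u ∈ Icc α β ∧ g u = 1} with hB
  have hBne : B.Nonempty := by
    obtain ⟨u, hu, hu'⟩ := intermediate_value_Icc hαβ hg.continuousOn (⟨by linarith, h1⟩ : (1 : ℝ) ∈ Icc (g α) (g β))
    exact ⟨u, hu, hu'⟩
  have hBcl : IsClosed B := (isClosed_Icc).inter (isClosed_eq hg continuous_const)
  obtain ⟨⟨hb1, hb2⟩, hb3⟩ : sInf B ∈ B := hBcl.csInf_mem hBne (OrderBot.bddBelow B)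
  set b := sInf B with hb
  have hble : ∀ u ∈ Icc α b, g u ≤ 1 := by
    intro u hu
    by_contra hgu
    push Not at hgu
    obtain ⟨w, hw, hw'⟩ := intermediate_value_Icc hu.1 hg.continuousOn
      (⟨by linarith, hgu.le⟩ : (1 : ℝ) ∈ Icc (g α) (g u))
    have hwB : w ∈ B := ⟨⟨hw.1, hw.2.trans (hu.2.trans hb2)⟩, hw'⟩
    have : b ≤ w := csInf_le (OrderBot.bddBelow B) hwB
    have hwu : w = u := le_antisymm hw.2 (hu.2.trans this)
    rw [hwu] at hw'
    linarith
  -- the last time before `b` when `g = 0`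
  set A : Set ℝ≥0 := {u | u ∈ Icc α b ∧ g u = 0} with hA
  have hAne : A.Nonempty := by
    obtain ⟨u, hu, hu'⟩ := intermediate_value_Icc hb1 hg.continuousOn
      (⟨h0, by rw [hb3]; norm_num⟩ : (0 : ℝ) ∈ Icc (g α) (g b))
    exact ⟨u, hu, hu'⟩
  have hAcl : IsClosed A := (isClosed_Icc).inter (isClosed_eq hg continuous_const)
  have hAb : BddAbove A := ⟨b, fun u hu => hu.1.2⟩
  obtain ⟨⟨ha1, ha2⟩, ha3⟩ : sSup A ∈ A := hAcl.csSup_mem hAne hAb
  set a := sSup A with ha
  refine ⟨a, b, ha1, lt_of_le_of_ne ha2 ?_, hb2, ha3, hb3, ?_⟩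
  · intro hab
    rw [hab, hb3] at ha3
    norm_num at ha3
  · intro u hu
    refine ⟨?_, hble u ⟨ha1.trans hu.1, hu.2⟩⟩
    by_contra hgu
    push Not at hgu
    obtain ⟨w, hw, hw'⟩ := intermediate_value_Icc hu.2 hg.continuousOn
      (⟨hgu.le, by rw [hb3]; norm_num⟩ : (0 : ℝ) ∈ Icc (g u) (g b))
    have hwA : w ∈ A := ⟨⟨ha1.trans (hu.1.trans hw.1), hw.2⟩, hw'⟩
    have : w ≤ a := le_csSup hAb hwA
    have hwu : w = u := le_antisymm (this.trans hu.1) hw.1
    rw [hwu] at hw'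
    linarith

/-- The ends of the first unit of the long arc. -/
noncomputable def e0 : Icc (0 : ℝ) (net.len none) := ⟨0, zero_memE none⟩
/-- The ends of the first unit of the long arc. -/
noncomputable def e1 : Icc (0 : ℝ) (net.len none) := ⟨1, mem_none (by norm_num) (by norm_num)⟩

theorem e0_lt_e1 : e0 < e1 := by
  change (0 : ℝ) < 1
  norm_num

theorem S_eq {u : ℝ≥0} (h0 : 0 ≤ G (S.1 u)) (h1 : G (S.1 u) ≤ 1) :
    ∃ z ∈ Icc e0 e1, S.1 u = net.point none z := by
  refine ⟨⟨1 - G (S.1 u), mem_none (by linarith) (by linarith)⟩, ⟨?_, ?_⟩, eq_of_G h0 h1⟩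
  · change (0 : ℝ) ≤ 1 - G (S.1 u); linarith
  · change 1 - G (S.1 u) ≤ (1 : ℝ); linarith

theorem S_eq0 {u : ℝ≥0} (h : G (S.1 u) = 0) : S.1 u = net.point none e1 := by
  have h1 := eq_of_G (q := S.1 u) h.ge (by rw [h]; norm_num)
  rw [P_congr (y := 1) _ (by rw [h]; ring)] at h1
  exact h1

theorem S_eq1 {u : ℝ≥0} (h : G (S.1 u) = 1) : S.1 u = net.point none e0 := by
  have h1 := eq_of_G (q := S.1 u) (by rw [h]; norm_num) h.le
  rw [P_congr (y := 0) _ (by rw [h]; ring)] at h1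
  exact h1

theorem traverses_up {α β : ℝ≥0} (hαβ : α ≤ β) (h0 : G (S.1 α) ≤ 0) (h1 : 1 ≤ G (S.1 β)) :
    ∃ a b, α ≤ a ∧ b ≤ β ∧ G (S.1 b) = 1 ∧ Traverses S none e0 e1 a b := by
  obtain ⟨a, b, ha, hab, hb, ga, gb, hu⟩ := crossing (g := fun u => G (S.1 u))
    (G_lip.continuous.comp S.cont) hαβ h0 h1
  exact ⟨a, b, ha, hb, gb, hab, .inr ⟨S_eq0 ga, S_eq1 gb⟩, fun u h => S_eq (hu u h).1 (hu u h).2⟩

theorem traverses_down {α β : ℝ≥0} (hαβ : α ≤ β) (h0 : 1 ≤ G (S.1 α)) (h1 : G (S.1 β) ≤ 0) :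
    ∃ a b, α ≤ a ∧ b ≤ β ∧ Traverses S none e0 e1 a b := by
  obtain ⟨a, b, ha, hab, hb, ga, gb, hu⟩ := crossing (g := fun u => 1 - G (S.1 u))
    (continuous_const.sub (G_lip.continuous.comp S.cont)) hαβ (by linarith) (by linarith)
  refine ⟨a, b, ha, hb, hab, .inl ⟨S_eq1 (by linarith), S_eq0 (by linarith)⟩, fun u h => ?_⟩
  obtain ⟨h2, h3⟩ := hu u h
  exact S_eq (by linarith) (by linarith)

/-- The event: `Y` is visited before `Z`, and some test point after `Z`. -/
def evA : Set (Traj net ptO) :=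
  {S | captureTime S ptY < captureTime S ptZ} ∩
    ⋃ a : Fin 3 × Bool, ({S | captureTime S ptZ < captureTime S (pt6 a)} ∩
      {S | captureTime S (pt6 a) < ⊤})

theorem measurableSet_evA : MeasurableSet evA := by
  refine MeasurableSet.inter (measurableSet_lt (measurable_captureTime _) (measurable_captureTime _)) ?_
  refine MeasurableSet.iUnion fun a => MeasurableSet.inter ?_ ?_
  · exact measurableSet_lt (measurable_captureTime _) (measurable_captureTime _)
  · exact measurableSet_lt (measurable_captureTime _) measurable_const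

theorem visits_of_evA (S : Traj net ptO) (h : S ∈ evA) : VisitsMoreThanTwice S := by
  obtain ⟨h1, h2⟩ := h
  rw [mem_iUnion] at h2
  obtain ⟨a, h2, h3⟩ := h2
  simp only [mem_ofPred_eq] at h1 h2 h3
  obtain ⟨c, hc, hc'⟩ := captureTime_attained h3.ne
  obtain ⟨z, hz, hz'⟩ := captureTime_attained (h2.trans h3).ne
  obtain ⟨y, hy, hy'⟩ := captureTime_attained (h1.trans (h2.trans h3)).ne
  have hyz : y < z := by rw [hy', hz'] at h1; exact_mod_cast h1
  have hzc : z < c := by rw [hz', hc'] at h2; exact_mod_cast h2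
  have gc : 3 ≤ G (S.1 c) := by
    rw [hc, G_pt6]
    cases a.2 <;> norm_num [par]
  obtain ⟨a₁, b₁, -, hb₁, -, T1⟩ := traverses_up (S := S) (α := 0) (β := y) zero_le G_zero.le
    (by rw [hy, G_Y]; norm_num)
  obtain ⟨a₂, b₂, ha₂, hb₂, T2⟩ := traverses_down (S := S) hyz.le
    (by rw [hy, G_Y]; norm_num) (by rw [hz, G_Z]; norm_num)
  obtain ⟨a₃, b₃, ha₃, hb₃, gb₃, T3⟩ := traverses_up (S := S) hzc.le
    (by rw [hz, G_Z]; norm_num) (by linarith)
  refine ⟨none, e0, e1, a₁, b₁, a₂, b₂, a₃, b₃, e0_lt_e1, T1, hb₁.trans ha₂, T2, hb₂.trans ha₃, T3,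
    pt6 a, ?_⟩
  have hlt : b₃ < c := by
    refine lt_of_le_of_ne hb₃ ?_
    intro hEq
    rw [hEq] at gb₃
    linarith
  refine not_visited_of_lt ?_
  rw [hc']
  exact_mod_cast hlt

/-- Outside of the event, the weighted cost is at least `8701`. -/
theorem cost_ge (S : Traj net ptO) (h : S ∉ evA) (hY : captureTime S ptY ≠ ⊤)
    (hZ : captureTime S ptZ ≠ ⊤) (h6 : ∀ a, captureTime S (pt6 a) ≠ ⊤) :
    (8701 : ℝ≥0∞) ≤ 27 * captureTime S ptZ + captureTime S ptY := by
  obtain ⟨z, hz, hz'⟩ := captureTime_attained hZ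
  obtain ⟨y, hy, hy'⟩ := captureTime_attained hY
  choose t ht ht' using fun a => captureTime_attained (h6 a)
  rw [hz', hy']
  suffices hs : (8701 : ℝ) ≤ 27 * z + y by
    have : (8701 : ℝ≥0) ≤ 27 * z + y := by exact_mod_cast hs
    exact_mod_cast this
  have hz300 := Z_ge hz
  have hy7 := Y_ge hy
  rcases le_or_gt z y with hzy | hyz
  · have h1 := YZ_ge hy hz
    have h2 : (z : ℝ) ≤ y := by exact_mod_cast hzy
    rw [abs_of_nonneg (by linarith)] at h1
    linarith
  · have h1 : ∀ a, t a ≤ z := by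
      intro a
      by_contra hlt
      push Not at hlt
      apply h
      refine ⟨?_, mem_iUnion.2 ⟨a, ?_, ?_⟩⟩
      · simp only [mem_ofPred_eq]
        rw [hy', hz']
        exact_mod_cast hyz
      · simp only [mem_ofPred_eq]
        rw [hz', ht']
        exact_mod_cast hlt
      · simp only [mem_ofPred_eq]
        rw [ht']
        exact ENNReal.coe_lt_top
    have h2 := tsp (fun a => (t a : ℝ)) (z : ℝ) (fun a b => F_ge a b (ht a) (ht b))
      (fun a => Z6_ge a (ht a) hz) (fun a => O_ge a (ht a)) (fun a => by exact_mod_cast h1 a)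
    linarith

/-- A strategy for which the event has probability zero costs at least `8701 / 28`. -/
theorem worst_ge (s : MixedSearch net ptO) (h : (s : Measure (Traj net ptO)) evA = 0) :
    (8701 : ℝ≥0∞) ≤ 28 * worstTime s := by
  by_cases hfin : worstTime s = ⊤
  · rw [hfin]; simp
  have hH : ∀ H, expectedTime s H ≤ worstTime s := fun H => le_iSup (fun H => expectedTime s H) H
  have hae : ∀ H, ∀ᵐ S ∂(s : Measure (Traj net ptO)), captureTime S H ≠ ⊤ := by
    intro H
    have h1 : ∫⁻ S, captureTime S H ∂(s : Measure (Traj net ptO)) ≠ ⊤ :=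
      ne_top_of_le_ne_top hfin (hH H)
    filter_upwards [ae_lt_top (measurable_captureTime H) h1] with S hS using hS.ne
  have hae6 : ∀ᵐ S ∂(s : Measure (Traj net ptO)), ∀ a, captureTime S (pt6 a) ≠ ⊤ :=
    ae_all_iff.2 fun a => hae (pt6 a)
  have hA : ∀ᵐ S ∂(s : Measure (Traj net ptO)), S ∉ evA := measure_eq_zero_iff_ae_notMem.1 h
  calc (8701 : ℝ≥0∞) = ∫⁻ _S, 8701 ∂(s : Measure (Traj net ptO)) := by
        rw [lintegral_const, measure_univ, mul_one]
    _ ≤ ∫⁻ S, (27 * captureTime S ptZ + captureTime S ptY) ∂(s : Measure (Traj net ptO)) := by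
        refine lintegral_mono_ae ?_
        filter_upwards [hae ptY, hae ptZ, hae6, hA] with S h1 h2 h3 h4
        exact cost_ge S h4 h1 h2 h3
    _ = 27 * expectedTime s ptZ + expectedTime s ptY := by
        rw [lintegral_add_right _ (measurable_captureTime _),
          lintegral_const_mul _ (measurable_captureTime _)]
        rfl
    _ ≤ 27 * worstTime s + worstTime s := add_le_add (mul_le_mul_right (hH _) _) (hH _)
    _ = 28 * worstTime s := by
        rw [show (28 : ℝ≥0∞) = 27 + 1 by norm_num, add_mul, one_mul]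

end Pool.Agent.Helper569.Net
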