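import Pool.Agent.Helper569.NetDefs

namespace Pool.Agent.Helper569.Net

open MeasureTheory Set Filter Topology
open scoped ENNReal NNReal

namespace Network

variable {N : Network}

theorem pre_edist_def (p q : N.Pre) : edist p q = ⨅ (r : ℝ≥0∞) (_ : N.Walk p q r), r := rfl

theorem edist_mk (p q : N.Pre) :
    edist (SeparationQuotient.mk p : N.Q) (SeparationQuotient.mk q : N.Q) = edist p q := rfl

/-- Potentials: functions on the network given on nodes and arcs, 1-Lipschitz along arcs and
consistent at the nodes. -/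
structure Potential (N : Network) where
  F : N.Pre → ℝ
  along : ∀ e (x y : Icc (0 : ℝ) (N.len e)), |F (.pt e x) - F (.pt e y)| ≤ |(x : ℝ) - y|
  src : ∀ e, F (.node (N.src e)) = F (.pt e (N.zero e))
  tgt : ∀ e, F (.node (N.tgt e)) = F (.pt e (N.last e))

theorem Potential.glued (P : Potential N) {p q : N.Pre} (h : Glued N p q) : P.F p = P.F q := by
  cases h
  · exact P.src _
  · exact (P.src _).symm
  · exact P.tgt _
  · exact (P.tgt _).symm

theorem Potential.walk (P : Potential N) {p q : N.Pre} {r : ℝ≥0∞} (h : N.Walk p q r) :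
    edist (P.F p) (P.F q) ≤ r := by
  induction h with
  | stay => simp
  | @along e x r h y ih =>
    refine (edist_triangle _ _ _).trans (add_le_add ih ?_)
    rw [edist_dist, edist_dist]
    refine ENNReal.ofReal_le_ofReal ?_
    rw [Subtype.dist_eq, Real.dist_eq, Real.dist_eq]
    exact P.along e x y
  | glue h g ih => rwa [← P.glued g]

theorem Potential.lipschitz_pre (P : Potential N) : LipschitzWith 1 P.F := by
  intro p q
  rw [ENNReal.coe_one, one_mul, pre_edist_def]
  exact le_iInf₂ fun r hr => P.walk hr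

/-- The function on the network. -/
noncomputable def Potential.f (P : Potential N) : N.Q → ℝ :=
  SeparationQuotient.lift P.F fun _ _ h => (h.map P.lipschitz_pre.continuous).eq

theorem Potential.f_point (P : Potential N) (e : N.E) (x : Icc (0 : ℝ) (N.len e)) :
    P.f (N.point e x) = P.F (.pt e x) := rfl

theorem Potential.f_node (P : Potential N) (v : N.V) : P.f (N.node v) = P.F (.node v) := rfl

theorem Potential.lipschitz (P : Potential N) : LipschitzWith 1 P.f := by
  intro p q
  obtain ⟨p, rfl⟩ := SeparationQuotient.surjective_mk p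
  obtain ⟨q, rfl⟩ := SeparationQuotient.surjective_mk q
  exact P.lipschitz_pre p q

theorem point_lipschitz (e : N.E) : LipschitzWith 1 (N.point e) := by
  intro x y
  rw [ENNReal.coe_one, one_mul]
  change edist (SeparationQuotient.mk (Pre.pt e x) : N.Q) (SeparationQuotient.mk (Pre.pt e y) : N.Q) ≤ _
  rw [edist_mk, pre_edist_def]
  refine iInf₂_le _ ?_
  have := (Walk.stay (N := N) (.pt e x)).along y
  rwa [zero_add] at this

theorem node_src (e : N.E) : N.node (N.src e) = N.point e (N.zero e) := by
  apply edist_eq_zero.1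
  change edist (SeparationQuotient.mk (Pre.node (N.src e)) : N.Q)
    (SeparationQuotient.mk (Pre.pt e (N.zero e)) : N.Q) = 0
  rw [edist_mk, pre_edist_def]
  exact le_antisymm (iInf₂_le _ ((Walk.stay _).glue (.src_out e))) zero_le

theorem node_tgt (e : N.E) : N.node (N.tgt e) = N.point e (N.last e) := by
  apply edist_eq_zero.1
  change edist (SeparationQuotient.mk (Pre.node (N.tgt e)) : N.Q)
    (SeparationQuotient.mk (Pre.pt e (N.last e)) : N.Q) = 0
  rw [edist_mk, pre_edist_def]
  exact le_antisymm (iInf₂_le _ ((Walk.stay _).glue (.tgt_out e))) zero_le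

theorem exists_rep (H : N.Q) : (∃ v, H = N.node v) ∨ ∃ e x, H = N.point e x := by
  obtain ⟨p, rfl⟩ := SeparationQuotient.surjective_mk H
  cases p with
  | node v => exact .inl ⟨v, rfl⟩
  | pt e x => exact .inr ⟨e, x, rfl⟩

instance : CompactSpace N.Q := by
  constructor
  have h1 : (univ : Set N.Q) = (⋃ v : N.V, {N.node v}) ∪ ⋃ e : N.E, range (N.point e) := by
    ext H
    simp only [mem_univ, mem_union, mem_iUnion, mem_singleton_iff, mem_range, true_iff]
    rcases exists_rep H with ⟨v, rfl⟩ | ⟨e, x, rfl⟩
    · exact .inl ⟨v, rfl⟩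
    · exact .inr ⟨e, x, rfl⟩
  rw [h1]
  refine IsCompact.union (isCompact_iUnion fun v => isCompact_singleton)
    (isCompact_iUnion fun e => isCompact_range (point_lipschitz e).continuous)

end Network

/-! ### Trajectories and capture times -/

variable {N : Network} {O : N.Q}

theorem Traj.lip (S : Traj N O) : LipschitzWith 1 S.1 := S.2.2

theorem Traj.cont (S : Traj N O) : Continuous S.1 := S.lip.continuous

theorem Traj.edist_le (S : Traj N O) (t u : ℝ≥0) : edist (S.1 t) (S.1 u) ≤ edist t u := by
  simpa using S.lip t u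

instance : T2Space (Traj N O) :=
  inferInstanceAs (T2Space {S : ℝ≥0 → N.Q // S 0 = O ∧ LipschitzWith 1 S})

theorem continuous_eval (t : ℝ≥0) : Continuous (fun S : Traj N O => S.1 t) :=
  (continuous_apply t).comp continuous_subtype_val

instance : CompactSpace (Traj N O) := by
  have : IsClosed {S : ℝ≥0 → N.Q | S 0 = O ∧ LipschitzWith 1 S} := by
    have h1 : {S : ℝ≥0 → N.Q | S 0 = O ∧ LipschitzWith 1 S} =
        {S | S 0 = O} ∩ ⋂ (t : ℝ≥0) (u : ℝ≥0), {S | edist (S t) (S u) ≤ edist t u} := by
      ext S
      simp only [mem_ofPred_eq, mem_inter_iff, mem_iInter, LipschitzWith, ENNReal.coe_one, one_mul]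
    rw [h1]
    refine IsClosed.inter (isClosed_eq (continuous_apply 0) continuous_const) ?_
    refine isClosed_iInter fun t => isClosed_iInter fun u => ?_
    exact isClosed_le ((continuous_apply t).edist (continuous_apply u)) continuous_const
  exact isCompact_iff_compactSpace.1 this.isCompact

theorem captureTime_le {S : Traj N O} {H : N.Q} {t : ℝ≥0} (h : S.1 t = H) :
    captureTime S H ≤ t := iInf₂_le t h

theorem captureTime_attained {S : Traj N O} {H : N.Q} (h : captureTime S H ≠ ⊤) :
    ∃ t : ℝ≥0, S.1 t = H ∧ captureTime S H = t := by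
  set A : Set ℝ≥0 := {t | S.1 t = H} with hA
  have hne : A.Nonempty := by
    by_contra hne
    apply h
    rw [Set.not_nonempty_iff_eq_empty] at hne
    rw [captureTime, iInf₂_eq_top]
    intro t ht
    exact absurd (show t ∈ A from ht) (by simp [hne])
  have hcl : IsClosed A := isClosed_eq S.cont continuous_const
  have hmem : sInf A ∈ A := hcl.csInf_mem hne (OrderBot.bddBelow A)
  refine ⟨sInf A, hmem, le_antisymm (captureTime_le hmem) ?_⟩
  refine le_iInf₂ fun t ht => ?_
  exact_mod_cast csInf_le (OrderBot.bddBelow A) ht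

theorem not_visited_of_lt {S : Traj N O} {H : N.Q} {t : ℝ≥0} (h : (t : ℝ≥0∞) < captureTime S H) :
    ∀ u ≤ t, S.1 u ≠ H := by
  intro u hu hH
  have := captureTime_le hH
  exact absurd (h.trans_le this) (not_lt.2 (by exact_mod_cast hu))

theorem continuous_eval₂ : Continuous (fun q : Traj N O × ℝ≥0 => q.1.1 q.2) := by
  rw [continuous_iff_continuousAt]
  rintro ⟨S, t⟩
  rw [ContinuousAt, tendsto_iff_edist_tendsto_0]
  have h1 : ∀ q : Traj N O × ℝ≥0, edist (q.1.1 q.2) (S.1 t) ≤ edist q.2 t + edist (q.1.1 t) (S.1 t) := by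
    intro q
    exact (edist_triangle _ (q.1.1 t) _).trans (add_le_add (q.1.edist_le _ _) le_rfl)
  have h2 : Tendsto (fun q : Traj N O × ℝ≥0 => edist q.2 t + edist (q.1.1 t) (S.1 t)) (𝓝 (S, t))
      (𝓝 0) := by
    have : Continuous (fun q : Traj N O × ℝ≥0 => edist q.2 t + edist (q.1.1 t) (S.1 t)) := by
      refine Continuous.add (continuous_snd.edist continuous_const) ?_
      exact ((continuous_eval t).comp continuous_fst).edist continuous_const
    have h3 := this.tendsto (S, t)
    simpa using h3
  exact tendsto_of_tendsto_of_tendsto_of_le_of_le tendsto_const_nhds h2 (fun _ => zero_le) h1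

theorem isClosed_captureTime_le (H : N.Q) (T : ℝ≥0) :
    IsClosed {S : Traj N O | captureTime S H ≤ T} := by
  have h1 : {S : Traj N O | captureTime S H ≤ T} =
      Prod.fst '' {q : Traj N O × ℝ≥0 | q.2 ∈ Icc 0 T ∧ q.1.1 q.2 = H} := by
    ext S
    simp only [mem_ofPred_eq, mem_image, Prod.exists, exists_and_right, exists_eq_right, mem_Icc,
      zero_le, true_and]
    constructor
    · intro h
      obtain ⟨t, ht, ht'⟩ := captureTime_attained (ne_top_of_le_ne_top ENNReal.coe_ne_top h)
      rw [ht'] at h
      exact ⟨t, by exact_mod_cast h, ht⟩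
    · rintro ⟨t, ht, ht'⟩
      exact (captureTime_le ht').trans (by exact_mod_cast ht)
  rw [h1]
  have h2 : IsCompact {q : Traj N O × ℝ≥0 | q.2 ∈ Icc 0 T ∧ q.1.1 q.2 = H} := by
    have h3 : IsCompact ((univ : Set (Traj N O)) ×ˢ (Icc (0 : ℝ≥0) T)) :=
      isCompact_univ.prod isCompact_Icc
    refine h3.of_isClosed_subset ?_ ?_
    · refine IsClosed.inter ?_ ?_
      · exact isClosed_Icc.preimage continuous_snd
      · exact isClosed_eq continuous_eval₂ continuous_const
    · rintro ⟨S, t⟩ ⟨h, -⟩
      exact ⟨mem_univ _, h⟩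
  exact (h2.image continuous_fst).isClosed

theorem measurable_captureTime (H : N.Q) : Measurable (fun S : Traj N O => captureTime S H) := by
  refine measurable_of_Iic fun a => ?_
  rcases eq_or_ne a ⊤ with rfl | ha
  · simp
  · lift a to ℝ≥0 using ha
    exact (isClosed_captureTime_le H a).measurableSet

end Pool.Agent.Helper569.Net
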