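import Pool.Agent.Helper569.NetLower

namespace Pool.Agent.Helper569.Net

open MeasureTheory Set Filter Topology
open scoped ENNReal NNReal

/-! ### Concatenation of paths -/

theorem lip_iff {X : Type*} [PseudoEMetricSpace X] {f : ℝ≥0 → X} :
    LipschitzWith 1 f ↔ ∀ t u, t ≤ u → edist (f t) (f u) ≤ ((u - t : ℝ≥0) : ℝ≥0∞) := by
  have key : ∀ t u : ℝ≥0, t ≤ u → edist t u = ((u - t : ℝ≥0) : ℝ≥0∞) := by
    intro t u h
    rw [edist_nndist]
    congr 1
    rw [← NNReal.coe_inj, coe_nndist, NNReal.dist_eq, NNReal.coe_sub h, abs_sub_comm,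
      abs_of_nonneg (sub_nonneg.2 (by exact_mod_cast h))]
  constructor
  · intro hf t u h
    rw [← key t u h]
    simpa using hf t u
  · intro hf t u
    rw [ENNReal.coe_one, one_mul]
    rcases le_total t u with h | h
    · rw [key t u h]; exact hf t u h
    · rw [edist_comm, edist_comm t, key u t h]; exact hf u t h

/-- Concatenation. -/
noncomputable def glue {X : Type*} (d : ℝ≥0) (f g : ℝ≥0 → X) (t : ℝ≥0) : X :=
  if t ≤ d then f t else g (t - d)

theorem glue_left {X : Type*} {d : ℝ≥0} {f g : ℝ≥0 → X} {t : ℝ≥0} (h : t ≤ d) :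
    glue d f g t = f t := if_pos h

theorem glue_right {X : Type*} {d : ℝ≥0} {f g : ℝ≥0 → X} (h : f d = g 0) (t : ℝ≥0) :
    glue d f g (d + t) = g t := by
  rcases eq_or_ne t 0 with rfl | ht
  · rw [add_zero, glue_left le_rfl, h]
  · rw [glue, if_neg, add_tsub_cancel_left]
    rw [not_le]
    exact lt_add_of_pos_right _ (pos_iff_ne_zero.2 ht)

theorem glue_lip {X : Type*} [PseudoEMetricSpace X] {d : ℝ≥0} {f g : ℝ≥0 → X} (h : f d = g 0)
    (hf : LipschitzWith 1 f) (hg : LipschitzWith 1 g) : LipschitzWith 1 (glue d f g) := by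
  rw [lip_iff] at hf hg ⊢
  intro t u htu
  rcases le_total u d with hu | hu
  · rw [glue_left hu, glue_left (htu.trans hu)]
    exact hf t u htu
  · obtain ⟨u', rfl⟩ := exists_add_of_le hu
    rw [glue_right h]
    rcases le_total t d with ht | ht
    · rw [glue_left ht]
      refine (edist_triangle _ (f d) _).trans ?_
      have h1 := hf t d ht
      have h2 := hg 0 u' zero_le
      rw [tsub_zero] at h2
      calc edist (f t) (f d) + edist (f d) (g u')
          ≤ ((d - t : ℝ≥0) : ℝ≥0∞) + (u' : ℝ≥0∞) := add_le_add h1 (by rw [h]; exact h2)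
        _ = ((d + u' - t : ℝ≥0) : ℝ≥0∞) := by
          rw [← ENNReal.coe_add]
          congr 1
          rw [tsub_add_eq_add_tsub ht]
    · obtain ⟨t', rfl⟩ := exists_add_of_le ht
      rw [glue_right h, add_tsub_add_eq_tsub_left]
      exact hg t' u' (le_of_add_le_add_left htu)

/-! ### Legs -/

/-- Move from `x` to the end `len e` of the arc `e`. -/
noncomputable def up (e : Option (Fin 3)) (x t : ℝ≥0) : net.Q :=
  P e (min ((x : ℝ) + t) (lenE e)) ⟨le_min (by positivity) (lenE_pos e).le, min_le_right _ _⟩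

/-- Move from `x` to the end `0` of the arc `e`. -/
noncomputable def down (e : Option (Fin 3)) (x : Icc 0 (lenE e)) (t : ℝ≥0) : net.Q :=
  P e (max ((x : ℝ) - t) 0) ⟨le_max_right _ _, max_le
    (by have := t.coe_nonneg; have := x.2.2; linarith) (lenE_pos e).le⟩

theorem up_eq (e : Option (Fin 3)) (x t : ℝ≥0) {z : ℝ} (hz : z ∈ Icc 0 (lenE e))
    (h : (x : ℝ) + t = z) : up e x t = P e z hz := by
  rw [up]
  apply P_congr
  rw [h, min_eq_left hz.2]

theorem down_eq (e : Option (Fin 3)) (x : Icc 0 (lenE e)) (t : ℝ≥0) {z : ℝ} (hz : z ∈ Icc 0 (lenE e))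
    (h : (x : ℝ) = z + t) : down e x t = P e z hz := by
  rw [down]
  apply P_congr
  rw [h, add_sub_cancel_right, max_eq_left hz.1]

theorem up_lip (e : Option (Fin 3)) (x : ℝ≥0) : LipschitzWith 1 (up e x) := by
  intro t u
  rw [ENNReal.coe_one, one_mul]
  refine (edist_P_le _ _ _ _ _).trans ?_
  rw [edist_dist, edist_dist, Real.dist_eq, NNReal.dist_eq]
  refine ENNReal.ofReal_le_ofReal ?_
  refine (abs_min_sub_min_le_max _ _ _ _).trans ?_
  rw [add_sub_add_left_eq_sub, sub_self, abs_zero]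
  exact max_le le_rfl (abs_nonneg _)

theorem down_lip (e : Option (Fin 3)) (x : Icc 0 (lenE e)) : LipschitzWith 1 (down e x) := by
  intro t u
  rw [ENNReal.coe_one, one_mul]
  refine (edist_P_le _ _ _ _ _).trans ?_
  rw [edist_dist, edist_dist, Real.dist_eq, NNReal.dist_eq]
  refine ENNReal.ofReal_le_ofReal ?_
  refine (abs_max_sub_max_le_max _ _ _ _).trans ?_
  rw [sub_sub_sub_cancel_left, sub_self, abs_zero, abs_sub_comm]
  exact max_le le_rfl (abs_nonneg _)

/-- The ends. -/
noncomputable def endE (e : Option (Fin 3)) : Icc 0 (lenE e) := ⟨lenE e, last_memE e⟩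

/-- The parameter of `O`. -/
noncomputable def one' : Icc 0 (lenE none) := ⟨1, mem_none (by norm_num) (by norm_num)⟩

theorem up_start (i : Fin 3) : up (some i) 0 0 = ptX := by
  rw [up_eq _ _ _ (zero_memE _) (by simp), ← ptX_eq]

theorem up_none_start : up none 0 0 = ptX := by
  rw [up_eq _ _ _ (zero_memE _) (by simp), ← ptX_eq]

theorem up_end (i : Fin 3) : up (some i) 0 6 = ptY := by
  rw [up_eq _ _ _ (last_memE _) (by simp [lenE]), ptY_eq i]
  rfl

theorem up_none_end : up none 0 301 = ptZ := by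
  rw [up_eq _ _ _ (last_memE _) (by simp [lenE]), ptZ_eq]
  rfl

theorem up_one_end : up none 1 300 = ptZ := by
  rw [up_eq _ _ _ (last_memE _) (by simp [lenE]; norm_num), ptZ_eq]
  rfl

theorem up_one_start : up none 1 0 = ptO := by
  rw [up_eq (z := 1) _ _ _ (mem_none (by norm_num) (by norm_num)) (by simp)]
  rfl

theorem down_start (i : Fin 3) : down (some i) (endE _) 0 = ptY := by
  rw [down_eq _ _ _ (last_memE _) (by simp [endE]), ptY_eq i]
  rfl

theorem down_end (i : Fin 3) : down (some i) (endE _) 6 = ptX := by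
  rw [down_eq _ _ _ (zero_memE _) (by simp [endE, lenE]), ← ptX_eq]

theorem down_none_start : down none (endE _) 0 = ptZ := by
  rw [down_eq _ _ _ (last_memE _) (by simp [endE]), ptZ_eq]
  rfl

theorem down_none_end : down none (endE _) 301 = ptX := by
  rw [down_eq _ _ _ (zero_memE _) (by simp [endE, lenE]), ← ptX_eq]

theorem down_one_start : down none one' 0 = ptO := by
  rw [down_eq (z := 1) _ _ _ (mem_none (by norm_num) (by norm_num)) (by simp [one'])]
  rfl

theorem down_one_end : down none one' 1 = ptX := by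
  rw [down_eq _ _ _ (zero_memE _) (by simp [one']), ← ptX_eq]

/-! ### The two kinds of trajectories -/

/-- From `Z` back to `X`, and to `Y` through the arc `k`. -/
noncomputable def w5 (k : Fin 3) : ℝ≥0 → net.Q := glue 301 (down none (endE _)) (up (some k) 0)
/-- From `X` to `Z`, back to `X`, to `Y` through the arc `k`. -/
noncomputable def w4 (k : Fin 3) : ℝ≥0 → net.Q := glue 301 (up none 0) (w5 k)
/-- From `Y` to `X` through the arc `j`, and then `w4 k`. -/
noncomputable def w3 (j k : Fin 3) : ℝ≥0 → net.Q := glue 6 (down (some j) (endE _)) (w4 k)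
/-- From `X` to `Y` through the arc `i`, and then `w3 j k`. -/
noncomputable def w2 (i j k : Fin 3) : ℝ≥0 → net.Q := glue 6 (up (some i) 0) (w3 j k)
/-- From `O` to `X`, and then `w2 i j k`. -/
noncomputable def w1 (i j k : Fin 3) : ℝ≥0 → net.Q := glue 1 (down none one') (w2 i j k)

theorem w5_start (k : Fin 3) : w5 k 0 = ptZ := by rw [w5, glue_left zero_le, down_none_start]
theorem w5_glue (k : Fin 3) : down none (endE _) 301 = up (some k) 0 0 := by
  rw [down_none_end, up_start]
theorem w5_lip (k : Fin 3) : LipschitzWith 1 (w5 k) :=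
  glue_lip (w5_glue k) (down_lip _ _) (up_lip _ _)

theorem w4_start (k : Fin 3) : w4 k 0 = ptX := by rw [w4, glue_left zero_le, up_none_start]
theorem w4_glue (k : Fin 3) : up none 0 301 = w5 k 0 := by rw [up_none_end, w5_start]
theorem w4_lip (k : Fin 3) : LipschitzWith 1 (w4 k) := glue_lip (w4_glue k) (up_lip _ _) (w5_lip k)

theorem w3_start (j k : Fin 3) : w3 j k 0 = ptY := by rw [w3, glue_left zero_le, down_start]
theorem w3_glue (j k : Fin 3) : down (some j) (endE _) 6 = w4 k 0 := by rw [down_end, w4_start]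
theorem w3_lip (j k : Fin 3) : LipschitzWith 1 (w3 j k) :=
  glue_lip (w3_glue j k) (down_lip _ _) (w4_lip k)

theorem w2_start (i j k : Fin 3) : w2 i j k 0 = ptX := by rw [w2, glue_left zero_le, up_start]
theorem w2_glue (i j k : Fin 3) : up (some i) 0 6 = w3 j k 0 := by rw [up_end, w3_start]
theorem w2_lip (i j k : Fin 3) : LipschitzWith 1 (w2 i j k) :=
  glue_lip (w2_glue i j k) (up_lip _ _) (w3_lip j k)

theorem w1_start (i j k : Fin 3) : w1 i j k 0 = ptO := by rw [w1, glue_left zero_le, down_one_start]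
theorem w1_glue (i j k : Fin 3) : down none one' 1 = w2 i j k 0 := by rw [down_one_end, w2_start]
theorem w1_lip (i j k : Fin 3) : LipschitzWith 1 (w1 i j k) :=
  glue_lip (w1_glue i j k) (down_lip _ _) (w2_lip i j k)

/-- The first kind of trajectory. -/
noncomputable def W1 (i j k : Fin 3) : Traj net ptO := ⟨w1 i j k, w1_start i j k, w1_lip i j k⟩

/-- From `Y` to `X` through `j`, back to `Y` through `k`. -/
noncomputable def v4 (j k : Fin 3) : ℝ≥0 → net.Q := glue 6 (down (some j) (endE _)) (up (some k) 0)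
/-- From `X` to `Y` through `i` and then `v4 j k`. -/
noncomputable def v3 (i j k : Fin 3) : ℝ≥0 → net.Q := glue 6 (up (some i) 0) (v4 j k)
/-- From `Z` to `X` and then `v3 i j k`. -/
noncomputable def v2 (i j k : Fin 3) : ℝ≥0 → net.Q := glue 301 (down none (endE _)) (v3 i j k)
/-- From `O` to `Z` and then `v2 i j k`. -/
noncomputable def v1 (i j k : Fin 3) : ℝ≥0 → net.Q := glue 300 (up none 1) (v2 i j k)

theorem v4_start (j k : Fin 3) : v4 j k 0 = ptY := by rw [v4, glue_left zero_le, down_start]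
theorem v4_glue (j k : Fin 3) : down (some j) (endE _) 6 = up (some k) 0 0 := by
  rw [down_end, up_start]
theorem v4_lip (j k : Fin 3) : LipschitzWith 1 (v4 j k) :=
  glue_lip (v4_glue j k) (down_lip _ _) (up_lip _ _)

theorem v3_start (i j k : Fin 3) : v3 i j k 0 = ptX := by rw [v3, glue_left zero_le, up_start]
theorem v3_glue (i j k : Fin 3) : up (some i) 0 6 = v4 j k 0 := by rw [up_end, v4_start]
theorem v3_lip (i j k : Fin 3) : LipschitzWith 1 (v3 i j k) :=
  glue_lip (v3_glue i j k) (up_lip _ _) (v4_lip j k)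

theorem v2_start (i j k : Fin 3) : v2 i j k 0 = ptZ := by rw [v2, glue_left zero_le, down_none_start]
theorem v2_glue (i j k : Fin 3) : down none (endE _) 301 = v3 i j k 0 := by
  rw [down_none_end, v3_start]
theorem v2_lip (i j k : Fin 3) : LipschitzWith 1 (v2 i j k) :=
  glue_lip (v2_glue i j k) (down_lip _ _) (v3_lip i j k)

theorem v1_start (i j k : Fin 3) : v1 i j k 0 = ptO := by rw [v1, glue_left zero_le, up_one_start]
theorem v1_glue (i j k : Fin 3) : up none 1 300 = v2 i j k 0 := by rw [up_one_end, v2_start]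
theorem v1_lip (i j k : Fin 3) : LipschitzWith 1 (v1 i j k) :=
  glue_lip (v1_glue i j k) (up_lip _ _) (v2_lip i j k)

/-- The second kind of trajectory. -/
noncomputable def W2 (i j k : Fin 3) : Traj net ptO := ⟨v1 i j k, v1_start i j k, v1_lip i j k⟩

/-! ### Hitting times of the first kind -/

variable {i j k : Fin 3} {z w : ℝ≥0}

theorem zmem (e : Option (Fin 3)) (z : ℝ≥0) (h : (z : ℝ) ≤ lenE e) : (z : ℝ) ∈ Icc 0 (lenE e) :=
  ⟨z.coe_nonneg, h⟩

theorem W1_first (h : (z : ℝ) ∈ Icc 0 (lenE (some i))) :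
    captureTime (W1 i j k) (P (some i) z h) ≤ ((1 + z : ℝ≥0) : ℝ≥0∞) := by
  apply captureTime_le
  change w1 i j k (1 + z) = _
  have hz : z ≤ 6 := by exact_mod_cast h.2
  rw [w1, glue_right (w1_glue i j k), w2, glue_left hz]
  exact up_eq _ _ _ _ (by simp)

theorem W1_second (h : (z : ℝ) ∈ Icc 0 (lenE (some j))) (hzw : z + w = 6) :
    captureTime (W1 i j k) (P (some j) z h) ≤ ((1 + (6 + w) : ℝ≥0) : ℝ≥0∞) := by
  apply captureTime_le
  change w1 i j k (1 + (6 + w)) = _
  have hw : w ≤ 6 := hzw ▸ le_add_self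
  have hzw' : (z : ℝ) + w = 6 := by exact_mod_cast hzw
  rw [w1, glue_right (w1_glue i j k), w2, glue_right (w2_glue i j k), w3, glue_left hw]
  exact down_eq _ _ _ _ hzw'.symm

theorem W1_third (h : (z : ℝ) ∈ Icc 0 (lenE (some k))) :
    captureTime (W1 i j k) (P (some k) z h) ≤ ((1 + (6 + (6 + (301 + (301 + z)))) : ℝ≥0) : ℝ≥0∞) := by
  apply captureTime_le
  change w1 i j k (1 + (6 + (6 + (301 + (301 + z))))) = _
  rw [w1, glue_right (w1_glue i j k), w2, glue_right (w2_glue i j k), w3, glue_right (w3_glue j k),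
    w4, glue_right (w4_glue k), w5, glue_right (w5_glue k)]
  exact up_eq _ _ _ _ (by simp)

theorem W1_near (h : (z : ℝ) ∈ Icc 0 (lenE none)) (hzw : z + w = 1) :
    captureTime (W1 i j k) (P none z h) ≤ (w : ℝ≥0∞) := by
  apply captureTime_le
  change w1 i j k w = _
  have hw : w ≤ 1 := hzw ▸ le_add_self
  have hzw' : (z : ℝ) + w = 1 := by exact_mod_cast hzw
  rw [w1, glue_left hw]
  exact down_eq _ _ _ _ hzw'.symm

theorem W1_far (h : (z : ℝ) ∈ Icc 0 (lenE none)) :
    captureTime (W1 i j k) (P none z h) ≤ ((1 + (6 + (6 + z)) : ℝ≥0) : ℝ≥0∞) := by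
  apply captureTime_le
  change w1 i j k (1 + (6 + (6 + z))) = _
  have hz : z ≤ 301 := by exact_mod_cast h.2
  rw [w1, glue_right (w1_glue i j k), w2, glue_right (w2_glue i j k), w3, glue_right (w3_glue j k),
    w4, glue_left hz]
  exact up_eq _ _ _ _ (by simp)

/-! ### Hitting times of the second kind -/

theorem W2_first (h : (z : ℝ) ∈ Icc 0 (lenE (some i))) :
    captureTime (W2 i j k) (P (some i) z h) ≤ ((300 + (301 + z) : ℝ≥0) : ℝ≥0∞) := by
  apply captureTime_le
  change v1 i j k (300 + (301 + z)) = _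
  have hz : z ≤ 6 := by exact_mod_cast h.2
  rw [v1, glue_right (v1_glue i j k), v2, glue_right (v2_glue i j k), v3, glue_left hz]
  exact up_eq _ _ _ _ (by simp)

theorem W2_second (h : (z : ℝ) ∈ Icc 0 (lenE (some j))) (hzw : z + w = 6) :
    captureTime (W2 i j k) (P (some j) z h) ≤ ((300 + (301 + (6 + w)) : ℝ≥0) : ℝ≥0∞) := by
  apply captureTime_le
  change v1 i j k (300 + (301 + (6 + w))) = _
  have hw : w ≤ 6 := hzw ▸ le_add_self
  have hzw' : (z : ℝ) + w = 6 := by exact_mod_cast hzw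
  rw [v1, glue_right (v1_glue i j k), v2, glue_right (v2_glue i j k), v3,
    glue_right (v3_glue i j k), v4, glue_left hw]
  exact down_eq _ _ _ _ hzw'.symm

theorem W2_third (h : (z : ℝ) ∈ Icc 0 (lenE (some k))) :
    captureTime (W2 i j k) (P (some k) z h) ≤ ((300 + (301 + (6 + (6 + z))) : ℝ≥0) : ℝ≥0∞) := by
  apply captureTime_le
  change v1 i j k (300 + (301 + (6 + (6 + z)))) = _
  rw [v1, glue_right (v1_glue i j k), v2, glue_right (v2_glue i j k), v3,
    glue_right (v3_glue i j k), v4, glue_right (v4_glue j k)]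
  exact up_eq _ _ _ _ (by simp)

theorem W2_near (h : (z : ℝ) ∈ Icc 0 (lenE none)) (hzw : z + w = 301) :
    captureTime (W2 i j k) (P none z h) ≤ ((300 + w : ℝ≥0) : ℝ≥0∞) := by
  apply captureTime_le
  change v1 i j k (300 + w) = _
  have hw : w ≤ 301 := hzw ▸ le_add_self
  have hzw' : (z : ℝ) + w = 301 := by exact_mod_cast hzw
  rw [v1, glue_right (v1_glue i j k), v2, glue_left hw]
  exact down_eq _ _ _ _ hzw'.symm

theorem W2_far (h : (z : ℝ) ∈ Icc 0 (lenE none)) (hzw : 1 + w = z) :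
    captureTime (W2 i j k) (P none z h) ≤ (w : ℝ≥0∞) := by
  apply captureTime_le
  change v1 i j k w = _
  have hz : z ≤ 301 := by exact_mod_cast h.2
  have hw : w ≤ 300 := by
    have h1 : 1 + w ≤ 1 + 300 := by rw [hzw]; norm_num; exact hz
    exact le_of_add_le_add_left h1
  rw [v1, glue_left hw]
  refine up_eq _ _ _ _ ?_
  exact_mod_cast hzw

/-! ### The mixed strategy -/

/-- The mixed strategy, as a measure. -/
noncomputable def mixM : Measure (Traj net ptO) :=
  ((19 / 75 : ℝ≥0) : ℝ≥0∞) • Measure.dirac (W1 0 1 2) +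
  ((19 / 75 : ℝ≥0) : ℝ≥0∞) • Measure.dirac (W1 1 2 0) +
  ((19 / 75 : ℝ≥0) : ℝ≥0∞) • Measure.dirac (W1 2 0 1) +
  ((6 / 75 : ℝ≥0) : ℝ≥0∞) • Measure.dirac (W2 0 1 2) +
  ((6 / 75 : ℝ≥0) : ℝ≥0∞) • Measure.dirac (W2 1 2 0) +
  ((6 / 75 : ℝ≥0) : ℝ≥0∞) • Measure.dirac (W2 2 0 1)

instance : IsProbabilityMeasure mixM := by
  constructor
  simp only [mixM, Measure.coe_add, Measure.coe_smul, Pi.add_apply, Pi.smul_apply, measure_univ,
    smul_eq_mul, mul_one]
  simp only [← ENNReal.coe_add]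
  rw [ENNReal.coe_eq_one, ← NNReal.coe_inj]
  push_cast
  norm_num

/-- The mixed strategy. -/
noncomputable def mix : MixedSearch net ptO := ⟨mixM, inferInstance⟩

theorem expected_le (H : net.Q) (a b c d e f : ℝ≥0) (ha : captureTime (W1 0 1 2) H ≤ a)
    (hb : captureTime (W1 1 2 0) H ≤ b) (hc : captureTime (W1 2 0 1) H ≤ c)
    (hd : captureTime (W2 0 1 2) H ≤ d) (he : captureTime (W2 1 2 0) H ≤ e)
    (hf : captureTime (W2 2 0 1) H ≤ f)
    (h : 19 / 75 * (a : ℝ) + 19 / 75 * b + 19 / 75 * c + 6 / 75 * d + 6 / 75 * e + 6 / 75 * f ≤ 7766 / 25) :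
    expectedTime mix H ≤ ((7766 / 25 : ℝ≥0) : ℝ≥0∞) := by
  have h1 : expectedTime mix H = ((19 / 75 : ℝ≥0) : ℝ≥0∞) * captureTime (W1 0 1 2) H +
      ((19 / 75 : ℝ≥0) : ℝ≥0∞) * captureTime (W1 1 2 0) H +
      ((19 / 75 : ℝ≥0) : ℝ≥0∞) * captureTime (W1 2 0 1) H +
      ((6 / 75 : ℝ≥0) : ℝ≥0∞) * captureTime (W2 0 1 2) H +
      ((6 / 75 : ℝ≥0) : ℝ≥0∞) * captureTime (W2 1 2 0) H +
      ((6 / 75 : ℝ≥0) : ℝ≥0∞) * captureTime (W2 2 0 1) H := by
    change ∫⁻ S, captureTime S H ∂mixM = _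
    simp only [mixM, lintegral_add_measure, lintegral_smul_measure,
      lintegral_dirac' _ (measurable_captureTime H), smul_eq_mul]
  rw [h1]
  calc _ ≤ ((19 / 75 : ℝ≥0) : ℝ≥0∞) * a + ((19 / 75 : ℝ≥0) : ℝ≥0∞) * b +
      ((19 / 75 : ℝ≥0) : ℝ≥0∞) * c + ((6 / 75 : ℝ≥0) : ℝ≥0∞) * d +
      ((6 / 75 : ℝ≥0) : ℝ≥0∞) * e + ((6 / 75 : ℝ≥0) : ℝ≥0∞) * f := by
        gcongr
    _ ≤ _ := by
        simp only [← ENNReal.coe_mul, ← ENNReal.coe_add]
        refine ENNReal.coe_le_coe.2 ?_
        rw [← NNReal.coe_le_coe]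
        push_cast
        exact h

theorem expected_mix_le (H : net.Q) : expectedTime mix H ≤ ((7766 / 25 : ℝ≥0) : ℝ≥0∞) := by
  obtain ⟨e, x, hx, rfl⟩ := exists_P H
  obtain ⟨z, rfl⟩ : ∃ z : ℝ≥0, (z : ℝ) = x := ⟨⟨x, hx.1⟩, rfl⟩
  cases e with
  | some i =>
    have hz6 : (z : ℝ) ≤ 6 := hx.2
    obtain ⟨w, hw⟩ := exists_add_of_le (show z ≤ 6 by exact_mod_cast hz6)
    have hw' : (6 : ℝ) = z + w := by exact_mod_cast hw
    fin_cases i
    · refine expected_le _ _ _ _ _ _ _ (W1_first hx) (W1_third hx) (W1_second hx hw.symm)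
        (W2_first hx) (W2_third hx) (W2_second hx hw.symm) ?_
      push_cast
      linarith
    · refine expected_le _ _ _ _ _ _ _ (W1_second hx hw.symm) (W1_first hx) (W1_third hx)
        (W2_second hx hw.symm) (W2_first hx) (W2_third hx) ?_
      push_cast
      linarith
    · refine expected_le _ _ _ _ _ _ _ (W1_third hx) (W1_second hx hw.symm) (W1_first hx)
        (W2_third hx) (W2_second hx hw.symm) (W2_first hx) ?_
      push_cast
      linarith
  | none =>
    have hz301 : (z : ℝ) ≤ 301 := hx.2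
    rcases le_total z 1 with h1 | h1
    · obtain ⟨w, hw⟩ := exists_add_of_le h1
      obtain ⟨w', hw'⟩ := exists_add_of_le (show z ≤ 301 by exact_mod_cast hz301)
      have e1 : (1 : ℝ) = z + w := by exact_mod_cast hw
      have e2 : (301 : ℝ) = z + w' := by exact_mod_cast hw'
      have := z.coe_nonneg
      refine expected_le _ _ _ _ _ _ _ (W1_near hx hw.symm) (W1_near hx hw.symm)
        (W1_near hx hw.symm) (W2_near hx hw'.symm) (W2_near hx hw'.symm) (W2_near hx hw'.symm) ?_
      push_cast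
      linarith
    · obtain ⟨w, hw⟩ := exists_add_of_le h1
      have e1 : (z : ℝ) = 1 + w := by exact_mod_cast hw
      refine expected_le _ _ _ _ _ _ _ (W1_far hx) (W1_far hx) (W1_far hx) (W2_far hx hw.symm)
        (W2_far hx hw.symm) (W2_far hx hw.symm) ?_
      push_cast
      linarith

theorem worst_mix_le : worstTime mix ≤ ((7766 / 25 : ℝ≥0) : ℝ≥0∞) := iSup_le expected_mix_le

theorem value_le : value net ptO ≤ ((7766 / 25 : ℝ≥0) : ℝ≥0∞) := (iInf_le _ mix).trans worst_mix_le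

/-- Every optimal strategy gives positive probability to the event. -/
theorem evA_pos (s : MixedSearch net ptO) (hs : IsOptimal s) :
    0 < (s : Measure (Traj net ptO)) evA := by
  rw [pos_iff_ne_zero]
  intro h
  have h1 := worst_ge s h
  rw [hs] at h1
  have h2 : (28 : ℝ≥0∞) * value net ptO ≤ ((28 * (7766 / 25) : ℝ≥0) : ℝ≥0∞) := by
    rw [ENNReal.coe_mul]
    exact mul_le_mul_right value_le _
  have h3 := h1.trans h2
  have h4 : (8701 : ℝ≥0) ≤ 28 * (7766 / 25) := by exact_mod_cast h3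
  have h5 : (8701 : ℝ) ≤ 28 * (7766 / 25) := by exact_mod_cast h4
  norm_num at h5

end Pool.Agent.Helper569.Net
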