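import Pool.Agent.Helper569.ReulProb

namespace Pool.Agent.Helper569.Reul

open Complex Set Metric

/-- the angle `π/3` -/
noncomputable def th : ℝ := Real.pi / 3

noncomputable def ω : ℂ := ⟨-1 / 2, √3 / 2⟩

noncomputable def ζ : ℂ := 1 + ω

/-- the standard solid Reuleaux triangle in `ℂ` -/
def TT : Set ℂ := {z | ‖z‖ ≤ 1 ∧ ‖z - 1‖ ≤ 1 ∧ ‖z - ζ‖ ≤ 1}

theorem sqrt3_sq : (√3 : ℝ) ^ 2 = 3 := Real.sq_sqrt (by norm_num)

theorem omega_sq : ω ^ 2 = -1 - ω := by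
  apply Complex.ext
  · simp [ω, pow_two]
    nlinarith [sqrt3_sq]
  · simp [ω, pow_two]
    ring

theorem omega_cube : ω ^ 3 = 1 := by
  have h := omega_sq
  have : ω ^ 3 = ω * ω ^ 2 := by ring
  rw [this, h]
  have : ω * (-1 - ω) = -ω - ω ^ 2 := by ring
  rw [this, h]; ring

theorem conj_omega : (starRingEnd ℂ) ω = ω ^ 2 := by
  rw [omega_sq]
  apply Complex.ext
  · simp [ω]; norm_num
  · simp [ω]

theorem norm_omega : ‖ω‖ = 1 := by
  have h : ‖ω‖ ^ 3 = 1 := by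
    rw [← norm_pow, omega_cube, norm_one]
  have h0 : 0 ≤ ‖ω‖ := norm_nonneg _
  nlinarith [sq_nonneg (‖ω‖ + 1/2), sq_nonneg (‖ω‖ - 1)]

theorem zeta_eq : ζ = -ω ^ 2 := by
  rw [omega_sq, ζ]; ring

theorem zeta_eq_exp : ζ = Complex.exp (th * I) := by
  rw [Complex.exp_mul_I, ← Complex.ofReal_cos, ← Complex.ofReal_sin]
  rw [th, Real.cos_pi_div_three, Real.sin_pi_div_three]
  apply Complex.ext
  · simp [ζ, ω]; norm_num
  · simp [ζ, ω]

noncomputable def pA (s : ℝ) : ℂ := Complex.exp (s * I)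
noncomputable def pB (s : ℝ) : ℂ := 1 + ω * pA s
noncomputable def pC (s : ℝ) : ℂ := 1 + ω + ω ^ 2 * pA s

theorem norm_pA (s : ℝ) : ‖pA s‖ = 1 := Complex.norm_exp_ofReal_mul_I s

theorem pA_reflect (s : ℝ) : pA (th - s) = ζ * (starRingEnd ℂ) (pA s) := by
  rw [zeta_eq_exp, pA, pA, ← Complex.exp_conj, ← Complex.exp_add]
  congr 1
  simp
  ring

/-- `g ψ χ = |pA ψ - pB χ|` -/
noncomputable def gg (ψ χ : ℝ) : ℝ := ‖pA ψ - pB χ‖

theorem dist_AB (ψ χ : ℝ) : ‖pA ψ - pB χ‖ = gg ψ χ := rfl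

theorem dist_BC (ψ χ : ℝ) : ‖pB ψ - pC χ‖ = gg ψ χ := by
  have : pB ψ - pC χ = ω * (pA ψ - pB χ) := by
    simp only [pB, pC]; ring
  rw [this, norm_mul, norm_omega, one_mul, gg]

theorem dist_CA (ψ χ : ℝ) : ‖pC ψ - pA χ‖ = gg ψ χ := by
  have : pC ψ - pA χ = ω ^ 2 * (pA ψ - pB χ) := by
    simp only [pB, pC]
    have h2 := omega_sq
    have h3 := omega_cube
    linear_combination h2 + (pA χ) * h3
  rw [this, norm_mul, norm_pow, norm_omega, one_pow, one_mul, gg]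

theorem dist_BA (ψ χ : ℝ) : ‖pB ψ - pA χ‖ = gg χ ψ := by
  rw [norm_sub_rev]; rfl

theorem dist_CB (ψ χ : ℝ) : ‖pC ψ - pB χ‖ = gg χ ψ := by
  rw [norm_sub_rev]; exact dist_BC _ _

theorem dist_AC (ψ χ : ℝ) : ‖pA ψ - pC χ‖ = gg χ ψ := by
  rw [norm_sub_rev]; exact dist_CA _ _

theorem dist_BB (ψ χ : ℝ) : ‖pB ψ - pB χ‖ = ‖pA ψ - pA χ‖ := by
  have : pB ψ - pB χ = ω * (pA ψ - pA χ) := by
    simp only [pB]; ring
  rw [this, norm_mul, norm_omega, one_mul]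

theorem dist_CC (ψ χ : ℝ) : ‖pC ψ - pC χ‖ = ‖pA ψ - pA χ‖ := by
  have : pC ψ - pC χ = ω ^ 2 * (pA ψ - pA χ) := by
    simp only [pC]; ring
  rw [this, norm_mul, norm_pow, norm_omega, one_pow, one_mul]

theorem gg_reflect (ψ χ : ℝ) : gg (th - χ) (th - ψ) = gg ψ χ := by
  unfold gg pB
  rw [pA_reflect, pA_reflect, zeta_eq]
  have : -ω ^ 2 * (starRingEnd ℂ) (pA χ) - (1 + ω * (-ω ^ 2 * (starRingEnd ℂ) (pA ψ)))
      = (starRingEnd ℂ) (pA ψ - (1 + ω * pA χ)) := by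
    simp only [map_sub, map_add, map_one, map_mul, conj_omega]
    have h3 := omega_cube
    linear_combination ((starRingEnd ℂ) (pA ψ)) * h3
  rw [this, Complex.norm_conj]

theorem norm_pA_reflect (ψ χ : ℝ) : ‖pA (th - ψ) - pA (th - χ)‖ = ‖pA ψ - pA χ‖ := by
  rw [pA_reflect, pA_reflect, ← mul_sub, norm_mul, ← map_sub, Complex.norm_conj, zeta_eq,
    norm_neg, norm_pow, norm_omega]
  simp

/-- The kernel `f φ t`. -/
noncomputable def ker (φ t : ℝ) : ℝ :=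
  ‖pA φ - pA t‖ + ‖pA φ - pB (th - t)‖ + ‖pA φ - pC (th - t)‖

/-- The sum of the distances from `z` to the six points of the orbit of `pA φ`. -/
noncomputable def six (z : ℂ) (φ : ℝ) : ℝ :=
  dist z (pA φ) + dist z (pB φ) + dist z (pC φ) + dist z (pA (th - φ)) + dist z (pB (th - φ))
    + dist z (pC (th - φ))

theorem six_A (s φ : ℝ) : six (pA s) φ = ker φ s + ker φ (th - s) := by
  simp only [six, ker, dist_eq_norm, dist_AB, dist_AC, sub_sub_cancel]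
  have h1 := gg_reflect (φ) (th - s)
  have h2 := gg_reflect (th - s) φ
  simp only [sub_sub_cancel] at h1 h2
  rw [h1, h2, norm_sub_rev (pA s) (pA φ)]
  have h3 := norm_pA_reflect (th - s) φ
  rw [sub_sub_cancel] at h3
  rw [h3, norm_sub_rev (pA (th - s)) (pA φ)]
  ring

theorem six_B (s φ : ℝ) : six (pB s) φ = ker φ s + ker φ (th - s) := by
  rw [← six_A]
  simp only [six, dist_eq_norm, dist_AB, dist_AC, dist_BA, dist_BC, dist_BB]
  ring

theorem six_C (s φ : ℝ) : six (pC s) φ = ker φ s + ker φ (th - s) := by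
  rw [← six_A]
  simp only [six, dist_eq_norm, dist_AB, dist_AC, dist_CA, dist_CB, dist_CC]
  ring


theorem pA_re (s : ℝ) : (pA s).re = Real.cos s := by
  rw [pA, Complex.exp_ofReal_mul_I_re]

theorem pA_im (s : ℝ) : (pA s).im = Real.sin s := by
  rw [pA, Complex.exp_ofReal_mul_I_im]

theorem norm_sq_eq (z : ℂ) : ‖z‖ ^ 2 = z.re ^ 2 + z.im ^ 2 := by
  rw [← Complex.normSq_eq_norm_sq, Complex.normSq_apply]; ring

theorem norm_pA_sub_sq (ψ χ : ℝ) : ‖pA ψ - pA χ‖ ^ 2 = 2 - 2 * Real.cos (ψ - χ) := by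
  rw [norm_sq_eq]
  simp only [Complex.sub_re, Complex.sub_im, pA_re, pA_im]
  rw [Real.cos_sub]
  nlinarith [Real.sin_sq_add_cos_sq ψ, Real.sin_sq_add_cos_sq χ]

theorem pA_zero : pA 0 = 1 := by simp [pA]

theorem pA_th : pA th = ζ := by rw [zeta_eq_exp, pA]

theorem norm_pA_sub_le_one_iff (ψ χ : ℝ) : ‖pA ψ - pA χ‖ ≤ 1 ↔ 1 / 2 ≤ Real.cos (ψ - χ) := by
  have h := norm_pA_sub_sq ψ χ
  have h0 := norm_nonneg (pA ψ - pA χ)
  constructor
  · intro h1; nlinarith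
  · intro h1; nlinarith

theorem th_pos : 0 < th := by unfold th; positivity

theorem cos_ge_half {x : ℝ} (h0 : |x| ≤ th) : 1 / 2 ≤ Real.cos x := by
  rw [← Real.cos_pi_div_three, ← Real.cos_abs x]
  apply Real.cos_le_cos_of_nonneg_of_le_pi (abs_nonneg x)
  · linarith [Real.pi_pos]
  · exact h0

theorem abs_le_of_cos_ge_half {x : ℝ} (h0 : |x| ≤ Real.pi) (h : 1 / 2 ≤ Real.cos x) : |x| ≤ th := by
  by_contra hc
  push Not at hc
  have h1 : Real.cos |x| < Real.cos th := by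
    apply Real.cos_lt_cos_of_nonneg_of_le_pi th_pos.le h0 hc
  rw [Real.cos_abs, th, Real.cos_pi_div_three] at h1
  linarith

theorem pA_mem {s : ℝ} (hs : s ∈ Icc 0 th) : pA s ∈ TT := by
  refine ⟨(norm_pA s).le, ?_, ?_⟩
  · rw [← pA_zero, norm_pA_sub_le_one_iff, sub_zero]
    exact cos_ge_half (by rw [abs_of_nonneg hs.1]; exact hs.2)
  · rw [← pA_th, norm_pA_sub_le_one_iff]
    apply cos_ge_half
    rw [abs_le]
    constructor <;> linarith [hs.1, hs.2]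

theorem exists_param {z : ℂ} (hz : z ∈ TT) (h1 : ‖z‖ = 1) : ∃ s ∈ Icc 0 th, z = pA s := by
  have hz1 : z = pA (arg z) := by
    have := Complex.norm_mul_exp_arg_mul_I z
    rw [h1] at this
    simpa [pA] using this.symm
  have ha := Complex.neg_pi_lt_arg z
  have hb := Complex.arg_le_pi z
  refine ⟨arg z, ?_, hz1⟩
  obtain ⟨-, h2, h3⟩ := hz
  rw [hz1, ← pA_zero, norm_pA_sub_le_one_iff, sub_zero] at h2
  rw [hz1, ← pA_th, norm_pA_sub_le_one_iff] at h3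
  have h4 := abs_le_of_cos_ge_half (abs_le.2 ⟨by linarith, hb⟩) h2
  rw [abs_le] at h4
  have hth : th = Real.pi / 3 := rfl
  have hpi := Real.pi_pos
  have h5 := abs_le_of_cos_ge_half (x := arg z - th) (abs_le.2 ⟨by linarith, by linarith⟩) h3
  rw [abs_le] at h5
  exact ⟨by linarith, by linarith⟩

/-- the rotation `z ↦ 1 + ω z` by `2π/3` about the centre -/
noncomputable def rot (z : ℂ) : ℂ := 1 + ω * z

theorem rot_mem {z : ℂ} : rot z ∈ TT ↔ z ∈ TT := by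
  have h1 : ‖rot z‖ = ‖z - ζ‖ := by
    have : rot z = ω * (z - ζ) := by
      rw [rot, zeta_eq]
      linear_combination (-1 : ℂ) * omega_cube
    rw [this, norm_mul, norm_omega, one_mul]
  have h2 : ‖rot z - 1‖ = ‖z‖ := by
    have : rot z - 1 = ω * z := by rw [rot]; ring
    rw [this, norm_mul, norm_omega, one_mul]
  have h3 : ‖rot z - ζ‖ = ‖z - 1‖ := by
    have : rot z - ζ = ω * (z - 1) := by rw [rot, ζ]; ring
    rw [this, norm_mul, norm_omega, one_mul]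
  simp only [TT, Set.mem_ofPred_eq, h1, h2, h3]
  tauto

theorem TT_closed : IsClosed TT := by
  have h1 : IsClosed {z : ℂ | ‖z‖ ≤ 1} := isClosed_le (by fun_prop) (by fun_prop)
  have h2 : IsClosed {z : ℂ | ‖z - 1‖ ≤ 1} := isClosed_le (by fun_prop) (by fun_prop)
  have h3 : IsClosed {z : ℂ | ‖z - ζ‖ ≤ 1} := isClosed_le (by fun_prop) (by fun_prop)
  exact h1.inter (h2.inter h3)

theorem not_mem_interior {z c : ℂ} (hc : ∀ z ∈ TT, ‖z - c‖ ≤ 1) (h : ‖z - c‖ = 1) :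
    z ∉ interior TT := by
  intro hi
  have h1 : TT ⊆ closedBall c 1 := fun w hw => by
    rw [mem_closedBall, dist_eq_norm]; exact hc w hw
  have h2 := interior_mono h1 hi
  rw [interior_closedBall c one_ne_zero, mem_ball, dist_eq_norm] at h2
  linarith

theorem mem_frontier_iff {z : ℂ} :
    z ∈ frontier TT ↔ z ∈ TT ∧ (‖z‖ = 1 ∨ ‖z - 1‖ = 1 ∨ ‖z - ζ‖ = 1) := by
  rw [TT_closed.frontier_eq]
  constructor
  · rintro ⟨h1, h2⟩
    refine ⟨h1, ?_⟩
    by_contra hc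
    push Not at hc
    apply h2
    rw [mem_interior]
    refine ⟨{w : ℂ | ‖w‖ < 1} ∩ ({w : ℂ | ‖w - 1‖ < 1} ∩ {w : ℂ | ‖w - ζ‖ < 1}), ?_, ?_, ?_⟩
    · rintro w ⟨a, b, c⟩
      exact ⟨le_of_lt a, le_of_lt b, le_of_lt c⟩
    · have h1 : IsOpen {z : ℂ | ‖z‖ < 1} := isOpen_lt (by fun_prop) (by fun_prop)
      have h2 : IsOpen {z : ℂ | ‖z - 1‖ < 1} := isOpen_lt (by fun_prop) (by fun_prop)
      have h3 : IsOpen {z : ℂ | ‖z - ζ‖ < 1} := isOpen_lt (by fun_prop) (by fun_prop)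
      exact h1.inter (h2.inter h3)
    · exact ⟨lt_of_le_of_ne h1.1 hc.1, lt_of_le_of_ne h1.2.1 hc.2.1, lt_of_le_of_ne h1.2.2 hc.2.2⟩
  · rintro ⟨h1, h2⟩
    refine ⟨h1, ?_⟩
    rcases h2 with h2 | h2 | h2
    · exact not_mem_interior (c := 0) (fun z hz => by rw [sub_zero]; exact hz.1)
        (by rw [sub_zero]; exact h2)
    · exact not_mem_interior (c := 1) (fun z hz => hz.2.1) h2
    · exact not_mem_interior (c := ζ) (fun z hz => hz.2.2) h2

theorem rot_pA (s : ℝ) : rot (pA s) = pB s := rfl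

theorem rot_pB (s : ℝ) : rot (pB s) = pC s := by
  simp only [rot, pB, pC]; ring

theorem pA_mem_frontier {s : ℝ} (hs : s ∈ Icc 0 th) : pA s ∈ frontier TT :=
  mem_frontier_iff.2 ⟨pA_mem hs, Or.inl (norm_pA s)⟩

theorem pB_mem_frontier {s : ℝ} (hs : s ∈ Icc 0 th) : pB s ∈ frontier TT := by
  refine mem_frontier_iff.2 ⟨by rw [← rot_pA, rot_mem]; exact pA_mem hs, Or.inr (Or.inl ?_)⟩
  have : pB s - 1 = ω * pA s := by rw [pB]; ring
  rw [this, norm_mul, norm_omega, norm_pA, one_mul]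

theorem pC_mem_frontier {s : ℝ} (hs : s ∈ Icc 0 th) : pC s ∈ frontier TT := by
  refine mem_frontier_iff.2 ⟨by rw [← rot_pB, rot_mem, ← rot_pA, rot_mem]; exact pA_mem hs,
    Or.inr (Or.inr ?_)⟩
  have : pC s - ζ = ω ^ 2 * pA s := by rw [pC, ζ]; ring
  rw [this, norm_mul, norm_pow, norm_omega, norm_pA, one_pow, one_mul]

theorem frontier_param {z : ℂ} (hz : z ∈ frontier TT) :
    ∃ s ∈ Icc 0 th, z = pA s ∨ z = pB s ∨ z = pC s := by
  rw [mem_frontier_iff] at hz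
  obtain ⟨h1, h2 | h2 | h2⟩ := hz
  · obtain ⟨s, hs, h⟩ := exists_param h1 h2
    exact ⟨s, hs, Or.inl h⟩
  · have hz : z = rot (ω ^ 2 * (z - 1)) := by
      rw [rot]; linear_combination (-(z - 1)) * omega_cube
    have h3 : ω ^ 2 * (z - 1) ∈ TT := by
      rw [← rot_mem, ← hz]; exact h1
    have h4 : ‖ω ^ 2 * (z - 1)‖ = 1 := by
      rw [norm_mul, norm_pow, norm_omega, h2]; norm_num
    obtain ⟨s, hs, h⟩ := exists_param h3 h4
    exact ⟨s, hs, Or.inr (Or.inl (by rw [hz, h, rot_pA]))⟩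
  · have hz : z = rot (rot (ω * (z - ζ))) := by
      rw [rot, rot, ζ]; linear_combination (-(z - 1 - ω)) * omega_cube
    have h3 : ω * (z - ζ) ∈ TT := by
      rw [← rot_mem, ← rot_mem, ← hz]; exact h1
    have h4 : ‖ω * (z - ζ)‖ = 1 := by
      rw [norm_mul, norm_omega, h2]; norm_num
    obtain ⟨s, hs, h⟩ := exists_param h3 h4
    exact ⟨s, hs, Or.inr (Or.inr (by rw [hz, h, rot_pA, rot_pB]))⟩

theorem frontier_six {z : ℂ} (hz : z ∈ frontier TT) :
    ∃ s ∈ Icc 0 th, ∀ φ, six z φ = ker φ s + ker φ (th - s) := by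
  obtain ⟨s, hs, h⟩ := frontier_param hz
  refine ⟨s, hs, fun φ => ?_⟩
  rcases h with rfl | rfl | rfl
  · exact six_A s φ
  · exact six_B s φ
  · exact six_C s φ

theorem TT_compact : IsCompact TT := by
  apply Metric.isCompact_of_isClosed_isBounded TT_closed
  apply (Metric.isBounded_closedBall (x := (0:ℂ)) (r := 1)).subset
  intro z hz
  rw [mem_closedBall, dist_zero_right]
  exact hz.1

theorem frontier_compact : IsCompact (frontier TT) :=
  TT_compact.of_isClosed_subset isClosed_frontier TT_closed.frontier_subset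

theorem frontier_nonempty : (frontier TT).Nonempty := ⟨pA 0, pA_mem_frontier ⟨le_rfl, th_pos.le⟩⟩

end Pool.Agent.Helper569.Reul
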