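import Pool.Agent.Helper569.ReulIneq

namespace Pool.Agent.Helper569.Reul

open Set

theorem poly2 {x : ℝ} (h0 : 0 ≤ x) (h1 : x ≤ 1) :
    (0.957 * (1 - 0.6 * x) ^ 2 + 0.001) * ((1 + x + x ^ 2) ^ 2 * (1 + x / 2 + 3 / 8 * x ^ 2))
      ≤ 1.12 * (1 + 2 * x) := by
  have h : 1.12 * (1 + 2 * x) - (0.957 * (1 - 0.6 * x) ^ 2 + 0.001) *
      ((1 + x + x ^ 2) ^ 2 * (1 + x / 2 + 3 / 8 * x ^ 2)) =
      81 / 500 * (x ^ 0 * (1 - x) ^ 8) + 11447 / 5000 * (x ^ 1 * (1 - x) ^ 7) + 982503 / 100000 * (x ^ 2 * (1 - x) ^ 6) + 2003623 / 100000 * (x ^ 3 * (1 - x) ^ 5) + 35159 / 1600 * (x ^ 4 * (1 - x) ^ 4) + 173823 / 12500 * (x ^ 5 * (1 - x) ^ 3) + 1279829 / 200000 * (x ^ 6 * (1 - x) ^ 2) + 1207 / 400 * (x ^ 7 * (1 - x) ^ 1) + 30369 / 40000 * (x ^ 8 * (1 - x) ^ 0) := by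
    ring
  have h2 : 0 ≤ 1 - x := by linarith
  have h3 : 0 ≤ 81 / 500 * (x ^ 0 * (1 - x) ^ 8) + 11447 / 5000 * (x ^ 1 * (1 - x) ^ 7) + 982503 / 100000 * (x ^ 2 * (1 - x) ^ 6) + 2003623 / 100000 * (x ^ 3 * (1 - x) ^ 5) + 35159 / 1600 * (x ^ 4 * (1 - x) ^ 4) + 173823 / 12500 * (x ^ 5 * (1 - x) ^ 3) + 1279829 / 200000 * (x ^ 6 * (1 - x) ^ 2) + 1207 / 400 * (x ^ 7 * (1 - x) ^ 1) + 30369 / 40000 * (x ^ 8 * (1 - x) ^ 0) := by
    positivity
  linarith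

/-- `√(1+x+x²) ≤ 1 + x/2 + 3x²/8` -/
theorem sqrt_poly_le {x : ℝ} (h0 : 0 ≤ x) :
    √(1 + x + x ^ 2) ≤ 1 + x / 2 + 3 / 8 * x ^ 2 := by
  apply Real.sqrt_le_iff.2
  constructor
  · positivity
  · have : 0 ≤ x ^ 3 := by positivity
    have : 0 ≤ x ^ 4 := by positivity
    nlinarith

/-- The local lower bound for the kernel. -/
theorem W_local {x t : ℝ} (hx0 : 0 < x) (hx1 : x ≤ 1) (ht0 : 0 < t) (ht1 : t ≤ 1 / 2000) :
    0.957 * (1 - 0.6 * x) ^ 2 / t ^ 2 ≤ W (x * t) t := by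
  have hpi := Real.pi_gt_three
  have hth : th = Real.pi / 3 := rfl
  have ht : t ∈ Icc 0 th := ⟨ht0.le, by linarith⟩
  have h0 : 0 < x * t := by positivity
  have h1' : x * t ≤ t := by nlinarith
  have h1 : x * t ≤ 1 / 2000 := by linarith
  rw [W_eq]
  have hD := Db5_ge h0 h1 ht
  have hXa := XXa_le h0 h1 ht
  have hXap := XXa_pos h0 h1 ht
  have hvu := vu_nonneg ht
  obtain ⟨hu0, hu1, hv0, hv1⟩ := uv_bounds ht
  obtain ⟨hs0, hs1, hc0, hc1⟩ := sc_bounds h0 h1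
  obtain ⟨r0, r1⟩ := sqrt3_bounds
  have r3 := sqrt3_sq
  -- bounds on u, v
  have hu2 : t / 2 * 0.9999 ≤ Real.sin (t / 2) := by
    have := Real.sin_gt_sub_cube (x := t / 2) (by positivity)
    have h2 : (t / 2) ^ 3 / 6 ≤ t / 2 * 0.0001 := by
      have : (t / 2) ^ 2 ≤ 0.0004 := by nlinarith
      nlinarith
    linarith
  have hu3 : Real.sin (t / 2) ≤ t / 2 := Real.sin_le (by positivity)
  have hv2 : 0.9999 ≤ Real.cos (t / 2) := by
    have := Real.one_sub_sq_div_two_le_cos (x := t / 2)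
    nlinarith
  have hS : (x * t + t / 2) * 0.9999 ≤ Real.sin (x * t + t / 2) := by
    have := Real.sin_gt_sub_cube (x := x * t + t / 2) (by positivity)
    have h3 : x * t + t / 2 ≤ 1 / 1000 := by linarith
    have h2 : (x * t + t / 2) ^ 3 / 6 ≤ (x * t + t / 2) * 0.0001 := by
      have h4 : (x * t + t / 2) ^ 2 ≤ 0.0004 := by nlinarith
      have h5 : 0 < x * t + t / 2 := by positivity
      nlinarith
    linarith
  have hC : Real.cos (x * t + t / 2) ≤ 1 := Real.cos_le_one _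
  -- bound on Da^5
  have hXa2 : XX (Aa t) (Ba t) (Ca t) (x * t) ≤ t ^ 2 * (1 + x + x ^ 2) := by
    refine hXa.trans ?_
    have e1 : Real.sin (t / 2) ^ 2 ≤ (t / 2) ^ 2 := by gcongr
    have e2 : Real.sin (x * t / 2) ^ 2 ≤ (x * t / 2) ^ 2 := by gcongr
    have e3 : Real.sin (t / 2) * Real.sin (x * t / 2) ≤ (t / 2) * (x * t / 2) := by gcongr
    nlinarith
  have hDa5 : √(XX (Aa t) (Ba t) (Ca t) (x * t)) ^ 5
      ≤ t ^ 5 * ((1 + x + x ^ 2) ^ 2 * (1 + x / 2 + 3 / 8 * x ^ 2)) := by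
    have e1 : √(XX (Aa t) (Ba t) (Ca t) (x * t)) ^ 5
        = (XX (Aa t) (Ba t) (Ca t) (x * t)) ^ 2 * √(XX (Aa t) (Ba t) (Ca t) (x * t)) := by
      have := Real.sq_sqrt hXap.le
      calc √(XX (Aa t) (Ba t) (Ca t) (x * t)) ^ 5
          = (√(XX (Aa t) (Ba t) (Ca t) (x * t)) ^ 2) ^ 2 * √(XX (Aa t) (Ba t) (Ca t) (x * t)) := by
            ring
        _ = _ := by rw [this]
    rw [e1]
    have e2 : √(XX (Aa t) (Ba t) (Ca t) (x * t)) ≤ t * (1 + x / 2 + 3 / 8 * x ^ 2) := by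
      calc √(XX (Aa t) (Ba t) (Ca t) (x * t)) ≤ √(t ^ 2 * (1 + x + x ^ 2)) := Real.sqrt_le_sqrt hXa2
        _ = t * √(1 + x + x ^ 2) := by
          rw [Real.sqrt_mul (by positivity), Real.sqrt_sq ht0.le]
        _ ≤ _ := by gcongr; exact sqrt_poly_le hx0.le
    calc (XX (Aa t) (Ba t) (Ca t) (x * t)) ^ 2 * √(XX (Aa t) (Ba t) (Ca t) (x * t))
        ≤ (t ^ 2 * (1 + x + x ^ 2)) ^ 2 * (t * (1 + x / 2 + 3 / 8 * x ^ 2)) := by gcongr
      _ = _ := by ring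
  have hXs := Real.sqrt_pos.2 hXap
  have hXb := Real.sqrt_pos.2 (XXb_pos h0 h1 ht)
  have hp2 := poly2 hx0.le hx1
  set P := (1 + x + x ^ 2) ^ 2 * (1 + x / 2 + 3 / 8 * x ^ 2) with hP
  have hP1 : 0 < P := by positivity
  clear_value P
  generalize hSS : Real.sin (x * t + t / 2) = S at *
  generalize hCC : Real.cos (x * t + t / 2) = C at *
  generalize Real.sin (t / 2) = u at *
  generalize Real.cos (t / 2) = v at *
  generalize √(XX (Aa t) (Ba t) (Ca t) (x * t)) = Da at *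
  generalize √(XX (Ab t) (Bb t) (Cb t) (x * t)) = Db at *
  generalize (√3 : ℝ) = r at *
  -- lower bound for the first numerator
  have hrv : 1.7315 ≤ r * v - u := by
    have : 1.732 * 0.9999 ≤ r * v := by gcongr
    linarith
  have hrv2 : 2.998 ≤ (r * v - u) ^ 2 := by nlinarith only [hrv]
  have hvu2 : 0.999 ≤ v - r * u := by
    have : r * u ≤ 1.7321 * (1 / 4000) := by gcongr; linarith
    linarith
  have hu4 : (t / 2 * 0.9999) ^ 2 ≤ u ^ 2 := by gcongr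
  have hnum : 2.99 * (t ^ 3 * (1 + 2 * x)) ≤
      4 * u ^ 2 * (r * v - u) ^ 2 * (2 * (v - r * u) * S) := by
    calc 2.99 * (t ^ 3 * (1 + 2 * x))
        ≤ 4 * (t / 2 * 0.9999) ^ 2 * 2.998 * (2 * 0.999 * ((x * t + t / 2) * 0.9999)) := by
          have e : 4 * (t / 2 * 0.9999) ^ 2 * 2.998 * (2 * 0.999 * ((x * t + t / 2) * 0.9999))
            = (0.9999 ^ 3 * 2.998 * 0.999) * (t ^ 3 * (1 + 2 * x)) := by ring
          rw [e]
          apply mul_le_mul_of_nonneg_right _ (by positivity)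
          norm_num
      _ ≤ _ := by gcongr
  have hfirst : 1.12 * (1 + 2 * x) / (t ^ 2 * P) ≤
      3 / 8 * (4 * u ^ 2 * (r * v - u) ^ 2 * (2 * (v - r * u) * S) / Da ^ 5) := by
    have a1 : 2.99 * (t ^ 3 * (1 + 2 * x)) / (t ^ 5 * P) ≤
        4 * u ^ 2 * (r * v - u) ^ 2 * (2 * (v - r * u) * S) / Da ^ 5 := by
      apply div_le_div₀ _ hnum (by positivity) hDa5
      exact le_trans (by positivity) hnum
    have a2 : 2.99 * (t ^ 3 * (1 + 2 * x)) / (t ^ 5 * P) = 2.99 * (1 + 2 * x) / (t ^ 2 * P) := by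
      field_simp
    rw [a2] at a1
    have a3 : 1.12 * (1 + 2 * x) / (t ^ 2 * P) ≤ 3 / 8 * (2.99 * (1 + 2 * x) / (t ^ 2 * P)) := by
      rw [mul_div_assoc', ← mul_assoc]
      gcongr
      norm_num
    linarith
  have hsecond : 3 / 8 * ((1 - 4 * u ^ 2) ^ 2 * (4 * u * C) / Db ^ 5) ≤ 0.001 / t ^ 2 := by
    have hN : (1 - 4 * u ^ 2) ^ 2 ≤ 1 := by
      have a1 : 0 ≤ 1 - 4 * u ^ 2 := by nlinarith only [hu0, hu1]
      have a2 : 1 - 4 * u ^ 2 ≤ 1 := by nlinarith only [hu0]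
      nlinarith only [a1, a2]
    have e2 : (1 - 4 * u ^ 2) ^ 2 * (4 * u * C) ≤ 2 * t := by
      have b1 : 4 * u * C ≤ 4 * u := mul_le_of_le_one_right (by positivity) hC
      have b2 : (1 - 4 * u ^ 2) ^ 2 * (4 * u * C) ≤ (1 - 4 * u ^ 2) ^ 2 * (4 * u) :=
        mul_le_mul_of_nonneg_left b1 (sq_nonneg _)
      have b3 : (1 - 4 * u ^ 2) ^ 2 * (4 * u) ≤ 1 * (4 * u) :=
        mul_le_mul_of_nonneg_right hN (by positivity)
      linarith
    have e3 : (1 - 4 * u ^ 2) ^ 2 * (4 * u * C) / Db ^ 5 ≤ 2 * t / 0.99 :=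
      div_le_div₀ (by linarith) e2 (by norm_num) hD
    have e4 : 3 / 8 * (2 * t / 0.99) ≤ 0.001 / t ^ 2 := by
      rw [le_div_iff₀ (by positivity)]
      have : t ^ 3 ≤ (1 / 2000) ^ 3 := by gcongr
      have e5 : 3 / 8 * (2 * t / 0.99) * t ^ 2 = 3 / 8 * (2 / 0.99) * t ^ 3 := by ring
      rw [e5]
      norm_num at this ⊢
      linarith
    linarith
  have hmain : 0.957 * (1 - 0.6 * x) ^ 2 / t ^ 2 + 0.001 / t ^ 2 ≤
      1.12 * (1 + 2 * x) / (t ^ 2 * P) := by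
    rw [← add_div, div_le_div_iff₀ (by positivity) (by positivity)]
    have : (0.957 * (1 - 0.6 * x) ^ 2 + 0.001) * P * t ^ 2 ≤ 1.12 * (1 + 2 * x) * t ^ 2 := by
      gcongr
    linarith
  linarith

end Pool.Agent.Helper569.Reul
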