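import Pool.Agent.Helper569.ReulNu

namespace Pool.Agent.Helper569.Reul

open Set MeasureTheory Filter Topology
open scoped ENNReal NNReal

section nu

variable {ν : Measure ℝ} [IsProbabilityMeasure ν] {Λ : ℝ}

theorem fubini_ker {b a : ℝ} (hba : b ≤ a) {Q : ℝ → ℝ} (hQ : ContinuousOn Q (Icc b a)) :
    Integrable (fun t => ∫ φ in b..a, ker φ t * Q φ) ν ∧
      ∫ t, (∫ φ in b..a, ker φ t * Q φ) ∂ν = ∫ φ in b..a, (∫ t, ker φ t ∂ν) * Q φ := by
  have hQi : Integrable Q (volume.restrict (Ioc b a)) :=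
    (hQ.integrableOn_Icc).mono_set Ioc_subset_Icc_self
  have hI : Integrable (fun z : ℝ × ℝ => ker z.2 z.1 * Q z.2)
      (ν.prod (volume.restrict (Ioc b a))) := by
    have h1 : Integrable (fun z : ℝ × ℝ => Q z.2) (ν.prod (volume.restrict (Ioc b a))) :=
      hQi.comp_snd ν
    apply h1.bdd_mul (c := 9)
    · exact (ker_continuous.comp continuous_swap).aestronglyMeasurable
    · apply Filter.Eventually.of_forall
      intro z
      rw [Real.norm_eq_abs, abs_of_nonneg (ker_nonneg _ _)]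
      exact ker_le _ _
  constructor
  · have := hI.integral_prod_left
    refine this.congr ?_
    apply Filter.Eventually.of_forall
    intro t
    simp only
    rw [intervalIntegral.integral_of_le hba]
  · have h2 := integral_integral_swap (f := fun t φ => ker φ t * Q φ) hI
    rw [intervalIntegral.integral_of_le hba]
    have h3 : ∫ t, (∫ φ in b..a, ker φ t * Q φ) ∂ν = ∫ t, (∫ φ in Ioc b a, ker φ t * Q φ) ∂ν := by
      congr 1
      ext t
      rw [intervalIntegral.integral_of_le hba]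
    rw [h3, h2]
    congr 1
    ext φ
    rw [integral_mul_const]

theorem V_integral (hν : ν (Icc 0 th)ᶜ = 0) (hΛ : ∀ φ ∈ Icc 0 th, ∫ t, ker φ t ∂ν = Λ)
    {a : ℝ} (ha : 0 < a) (ha1 : a ≤ 1 / 2000) :
    Integrable (fun t => V (pp a) (qq a) (rho * a) a t) ν ∧
      ∫ t, V (pp a) (qq a) (rho * a) a t ∂ν = 0 := by
  have hb : 0 < rho * a := mul_pos rho_pos ha
  have hba : rho * a < a := by nlinarith [rho_lt_one]
  have hth := th_gt
  have hne : ∀ φ ∈ Icc (rho * a) a, φ ≠ 0 := fun φ hφ => by have := hφ.1; intro h; linarith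
  have hp : ∀ φ ∈ Icc (rho * a) a, HasDerivAt (pp a) (qq a φ) φ :=
    fun φ hφ => hasDerivAt_pp a (hne φ hφ)
  have hq : ∀ φ ∈ Icc (rho * a) a, HasDerivAt (qq a) (qq1 a φ) φ :=
    fun φ hφ => hasDerivAt_qq a (hne φ hφ)
  have hq1 : ∀ φ ∈ Icc (rho * a) a, HasDerivAt (qq1 a) (qq2 a φ) φ :=
    fun φ hφ => hasDerivAt_qq1 a (hne φ hφ)
  have hq2 := continuousOn_qq2 a hne
  have cq : ContinuousOn (qq a) (Icc (rho * a) a) :=
    fun φ hφ => (hq φ hφ).continuousAt.continuousWithinAt
  have cQ : ContinuousOn (fun φ => qq2 a φ + qq a φ / 4) (Icc (rho * a) a) :=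
    hq2.add (cq.div_const 4)
  obtain ⟨f1, f2⟩ := fubini_ker (ν := ν) hba.le cQ
  have haI : a ∈ Icc 0 th := ⟨ha.le, by linarith⟩
  have hbI : rho * a ∈ Icc 0 th := ⟨hb.le, by linarith⟩
  obtain ⟨k1i, k1z⟩ := k1_integral hν hΛ ha ha1
  obtain ⟨k2i, k2z⟩ := k1_integral hν hΛ hb (by linarith)
  -- the integral of Q
  have hQint : ∫ φ in (rho * a)..a, (qq2 a φ + qq a φ / 4) = qq1 a a - qq1 a (rho * a) := by
    have hF : ∀ φ ∈ uIcc (rho * a) a, HasDerivAt (fun φ => qq1 a φ + pp a φ / 4)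
        (qq2 a φ + qq a φ / 4) φ := by
      intro φ hφ
      rw [uIcc_of_le hba.le] at hφ
      exact (hq1 φ hφ).add ((hp φ hφ).div_const 4)
    rw [intervalIntegral.integral_eq_sub_of_hasDerivAt hF]
    · rw [pp_self, pp_rho ha]; ring
    · apply ContinuousOn.intervalIntegrable
      rw [uIcc_of_le hba.le]
      exact cQ
  have hF2 : ∫ φ in (rho * a)..a, (∫ t, ker φ t ∂ν) * (qq2 a φ + qq a φ / 4)
      = Λ * (qq1 a a - qq1 a (rho * a)) := by
    rw [← hQint, ← intervalIntegral.integral_const_mul]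
    apply intervalIntegral.integral_congr
    intro φ hφ
    rw [uIcc_of_le hba.le] at hφ
    simp only
    rw [hΛ φ ⟨by linarith [hφ.1], by linarith [hφ.2]⟩]
  -- a.e. identity
  have hae : ∀ᵐ t ∂ν, V (pp a) (qq a) (rho * a) a t =
      (∫ φ in (rho * a)..a, ker φ t * (qq2 a φ + qq a φ / 4)) -
        ((qq1 a a * ker a t - qq a a * k1 a t)
          - (qq1 a (rho * a) * ker (rho * a) t - qq a (rho * a) * k1 (rho * a) t)) := by
    have n1 : ∀ᵐ t ∂ν, t ≠ a := by
      rw [ae_iff]; simpa using no_atom hν hΛ ha ha1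
    have n2 : ∀ᵐ t ∂ν, t ≠ rho * a := by
      rw [ae_iff]; simpa using no_atom hν hΛ hb (by linarith)
    filter_upwards [ae_mem hν, n1, n2] with t ht h1 h2
    rw [green_ker hb.le hba (by linarith) ht h1 h2
      (fun φ hφ => XXa_pos (by linarith [hφ.1]) (by linarith [hφ.2]) ht)
      (fun φ hφ => XXb_pos (by linarith [hφ.1]) (by linarith [hφ.2]) ht)
      hp hq hq1 hq2 (pp_self a) (pp_rho ha)]
    ring
  have i1 : Integrable (fun t => qq1 a a * ker a t - qq a a * k1 a t) ν :=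
    ((ker_integrable ν a).const_mul _).sub (k1i.const_mul _)
  have i2 : Integrable (fun t => qq1 a (rho * a) * ker (rho * a) t
      - qq a (rho * a) * k1 (rho * a) t) ν :=
    ((ker_integrable ν (rho * a)).const_mul _).sub (k2i.const_mul _)
  have i3 : Integrable (fun t => (qq1 a a * ker a t - qq a a * k1 a t)
      - (qq1 a (rho * a) * ker (rho * a) t - qq a (rho * a) * k1 (rho * a) t)) ν := i1.sub i2
  constructor
  · exact (f1.sub i3).congr (hae.mono fun t ht => ht.symm)
  · rw [integral_congr_ae hae, integral_sub f1 i3, integral_sub i1 i2, f2, hF2,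
      integral_sub ((ker_integrable ν a).const_mul _) (k1i.const_mul _),
      integral_sub ((ker_integrable ν (rho * a)).const_mul _) (k2i.const_mul _),
      integral_const_mul, integral_const_mul, integral_const_mul, integral_const_mul,
      k1z, k2z, hΛ a haI, hΛ (rho * a) hbI]
    ring

theorem shell (hν : ν (Icc 0 th)ᶜ = 0) (hΛ : ∀ φ ∈ Icc 0 th, ∫ t, ker φ t ∂ν = Λ)
    {a : ℝ} (ha : 0 < a) (ha1 : a ≤ 1 / 2000) :
    ν.real (Ioo (rho * a) a) ≤ 4 * a ^ 3 * ν.real (Ioo 0 (rho * a)) := by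
  have hb : 0 < rho * a := mul_pos rho_pos ha
  have hba : rho * a < a := by nlinarith [rho_lt_one]
  obtain ⟨hi, hz⟩ := V_integral hν hΛ ha ha1
  set κ := Real.exp (2 * Real.pi) * rho / 4 / a with hκ
  set c := Real.exp (2 * Real.pi) * a * (rho * a) with hc
  have i1 : Integrable (fun t => (Ioo (rho * a) a).indicator (fun _ => κ) t) ν :=
    (integrable_const κ).indicator measurableSet_Ioo
  have i2 : Integrable (fun t => (Ioo 0 (rho * a)).indicator (fun _ => c) t) ν :=
    (integrable_const c).indicator measurableSet_Ioo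
  have hle : ∫ t, ((Ioo (rho * a) a).indicator (fun _ => κ) t
      - (Ioo 0 (rho * a)).indicator (fun _ => c) t) ∂ν
      ≤ ∫ t, V (pp a) (qq a) (rho * a) a t ∂ν := by
    apply integral_mono_ae (i1.sub i2) hi
    have n1 : ∀ᵐ t ∂ν, t ≠ a := by
      rw [ae_iff]; simpa using no_atom hν hΛ ha ha1
    have n2 : ∀ᵐ t ∂ν, t ≠ rho * a := by
      rw [ae_iff]; simpa using no_atom hν hΛ hb (by linarith)
    filter_upwards [ae_mem hν, n1, n2] with t ht h1 h2
    simp only [Pi.sub_apply]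
    rcases lt_or_gt_of_ne h2 with h3 | h3
    · have e1 := V_lower_zero ha ha1 ht h3
      rw [indicator_of_notMem (by simp only [mem_Ioo, not_and]; intro h; linarith)]
      rcases eq_or_lt_of_le ht.1 with h4 | h4
      · rw [indicator_of_notMem (by simp only [mem_Ioo, not_and]; intro h; linarith)]
        rw [← h4] at e1 ⊢
        linarith
      · rw [indicator_of_mem (by exact ⟨h4, h3⟩)]
        refine le_trans ?_ e1
        have : Real.exp (2 * Real.pi) * a * t ≤ Real.exp (2 * Real.pi) * a * (rho * a) := by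
          gcongr
        linarith
    · rw [indicator_of_notMem (s := Ioo 0 (rho * a)) (by simp only [mem_Ioo, not_and]; intro h; linarith)]
      rcases lt_or_gt_of_ne h1 with h4 | h4
      · rw [indicator_of_mem (by exact ⟨h3, h4⟩)]
        have := V_lower_mid ha ha1 ht h3 h4
        linarith
      · rw [indicator_of_notMem (by simp only [mem_Ioo, not_and]; intro h; linarith)]
        have := V_nonneg ha ha1 ht h4.le
        linarith
  rw [hz, integral_sub i1 i2, integral_indicator_const _ measurableSet_Ioo,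
    integral_indicator_const _ measurableSet_Ioo, smul_eq_mul, smul_eq_mul] at hle
  have hκ0 : 0 < κ := by
    have := rho_pos
    positivity
  have h5 : c = κ * (4 * a ^ 3) := by
    rw [hc, hκ]; field_simp
  rw [h5] at hle
  have h6 : κ * ν.real (Ioo (rho * a) a) ≤ κ * (4 * a ^ 3 * ν.real (Ioo 0 (rho * a))) := by
    linarith
  exact le_of_mul_le_mul_left h6 hκ0

theorem rho_le_half : rho ≤ 1 / 2 := by
  unfold rho
  rw [Real.exp_neg, inv_le_comm₀ (Real.exp_pos _) (by norm_num)]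
  have := Real.add_one_le_exp (5 * Real.pi)
  have := Real.pi_gt_three
  norm_num
  linarith

theorem step (hν : ν (Icc 0 th)ᶜ = 0) (hΛ : ∀ φ ∈ Icc 0 th, ∫ t, ker φ t ∂ν = Λ)
    {a : ℝ} (ha : 0 < a) (ha1 : a ≤ 1 / 2000) :
    ν.real (Ioo 0 a) ≤ (1 + 4 * a ^ 3) * ν.real (Ioo 0 (rho * a)) := by
  have hb : 0 < rho * a := mul_pos rho_pos ha
  have hba : rho * a < a := by nlinarith [rho_lt_one]
  have h1 := shell hν hΛ ha ha1
  have h2 : Ioo 0 a ⊆ Ioo 0 (rho * a) ∪ ({rho * a} ∪ Ioo (rho * a) a) := by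
    intro x hx
    rcases lt_trichotomy x (rho * a) with h | h | h
    · exact Or.inl ⟨hx.1, h⟩
    · exact Or.inr (Or.inl h)
    · exact Or.inr (Or.inr ⟨h, hx.2⟩)
  have h3 : ν.real (Ioo 0 a) ≤ ν.real (Ioo 0 (rho * a)) + (ν.real {rho * a} + ν.real (Ioo (rho * a) a)) :=
    (measureReal_mono h2).trans ((measureReal_union_le _ _).trans
      (add_le_add le_rfl (measureReal_union_le _ _)))
  have h4 : ν.real {rho * a} = 0 := by
    rw [measureReal_def, no_atom hν hΛ hb (by linarith), ENNReal.toReal_zero]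
  rw [h4] at h3
  linarith

theorem null_near_zero (hν : ν (Icc 0 th)ᶜ = 0) (hΛ : ∀ φ ∈ Icc 0 th, ∫ t, ker φ t ∂ν = Λ)
    {a : ℝ} (ha : 0 < a) (ha1 : a ≤ 1 / 2000) : ν.real (Ioo 0 a) = 0 := by
  have hr0 := rho_pos
  have hr1 := rho_lt_one
  have hr2 := rho_le_half
  set m : ℕ → ℝ := fun n => ν.real (Ioo 0 (rho ^ n * a)) with hm
  have hpow : ∀ n : ℕ, 0 < rho ^ n := fun n => by positivity
  have hpow1 : ∀ n : ℕ, rho ^ n ≤ 1 := fun n => pow_le_one₀ hr0.le hr1.le
  have hmle : ∀ n, m n ≤ m 0 := by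
    intro n
    refine measureReal_mono ?_ (measure_ne_top _ _)
    apply Ioo_subset_Ioo_right
    have := hpow1 n
    rw [pow_zero, one_mul]
    nlinarith
  have hm0 : 0 ≤ m 0 := measureReal_nonneg
  have hstep : ∀ n, m n ≤ m (n + 1) + rho ^ n / 4 * m 0 := by
    intro n
    have hn0 : 0 < rho ^ n * a := mul_pos (hpow n) ha
    have hn1 : rho ^ n * a ≤ a := by nlinarith [hpow1 n]
    have h1 := step hν hΛ hn0 (by linarith)
    have h2 : rho * (rho ^ n * a) = rho ^ (n + 1) * a := by ring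
    rw [h2] at h1
    have h3 : m n ≤ (1 + 4 * (rho ^ n * a) ^ 3) * m (n + 1) := h1
    have h4 : 4 * (rho ^ n * a) ^ 3 ≤ rho ^ n / 4 := by
      have e1 : (rho ^ n * a) ^ 3 = rho ^ n * ((rho ^ n) ^ 2 * a ^ 3) := by ring
      have e2 : (rho ^ n) ^ 2 * a ^ 3 ≤ 1 ^ 2 * (1 / 2000) ^ 3 := by
        have := hpow1 n
        gcongr
      rw [e1]
      have := hpow n
      nlinarith
    have h5 : 4 * (rho ^ n * a) ^ 3 * m (n + 1) ≤ rho ^ n / 4 * m 0 := by
      apply mul_le_mul h4 (hmle _) measureReal_nonneg (by positivity)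
    linarith
  have hind : ∀ n, m 0 ≤ m n + (1 - rho ^ n) / 2 * m 0 := by
    intro n
    induction n with
    | zero => simp
    | succ n ih =>
      have h1 := hstep n
      have h2 : (1 - rho ^ n) / 2 * m 0 + rho ^ n / 4 * m 0 ≤ (1 - rho ^ (n + 1)) / 2 * m 0 := by
        rw [← add_mul]
        apply mul_le_mul_of_nonneg_right _ hm0
        have : rho ^ (n + 1) ≤ rho ^ n / 2 := by
          rw [pow_succ]; nlinarith [hpow n]
        linarith
      linarith
  have hlim : Tendsto m atTop (𝓝 0) := by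
    have h1 : Tendsto (fun n : ℕ => ν (Ioo 0 (rho ^ n * a))) atTop
        (𝓝 (ν (⋂ n : ℕ, Ioo 0 (rho ^ n * a)))) := by
      apply tendsto_measure_iInter_atTop
      · intro n; exact measurableSet_Ioo.nullMeasurableSet
      · intro n k hnk
        apply Ioo_subset_Ioo_right
        have : rho ^ k ≤ rho ^ n := pow_le_pow_of_le_one hr0.le hr1.le hnk
        nlinarith
      · exact ⟨0, measure_ne_top _ _⟩
    have h2 : (⋂ n : ℕ, Ioo 0 (rho ^ n * a)) = ∅ := by
      apply eq_empty_of_forall_notMem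
      intro x hx
      rw [mem_iInter] at hx
      have hx0 : 0 < x := (hx 0).1
      have h3 : Tendsto (fun n : ℕ => rho ^ n * a) atTop (𝓝 (0 * a)) :=
        (tendsto_pow_atTop_nhds_zero_of_lt_one hr0.le hr1).mul_const a
      rw [zero_mul] at h3
      have h4 := (h3.eventually (gt_mem_nhds hx0)).exists
      obtain ⟨n, hn⟩ := h4
      exact absurd (hx n).2 (by linarith)
    rw [h2, measure_empty] at h1
    have h3 := (ENNReal.tendsto_toReal ENNReal.zero_ne_top).comp h1
    exact h3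
  have hfin : m 0 ≤ m 0 / 2 := by
    have h1 : ∀ n, m 0 / 2 ≤ m n := by
      intro n
      have := hind n
      have h2 : 0 ≤ rho ^ n / 2 * m 0 := by have := hpow n; positivity
      linarith
    have h2 : m 0 / 2 ≤ 0 := ge_of_tendsto hlim (Filter.Eventually.of_forall h1)
    linarith
  have : m 0 = ν.real (Ioo 0 a) := by simp [hm]
  rw [← this]
  linarith

theorem null_interior (hν : ν (Icc 0 th)ᶜ = 0) (hΛ : ∀ φ ∈ Icc 0 th, ∫ t, ker φ t ∂ν = Λ) :
    ∀ᵐ t ∂ν, t = 0 ∨ t = th := by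
  have ha : (0 : ℝ) < 1 / 2000 := by norm_num
  have ha1 : (1 / 2000 : ℝ) ≤ 1 / 2000 := le_rfl
  have h0 := null_near_zero hν hΛ ha ha1
  obtain ⟨hi, hz⟩ := V_integral hν hΛ ha ha1
  have hn : ∀ᵐ t ∂ν, t ∉ Ioo (0 : ℝ) (1 / 2000) := by
    rw [ae_iff]
    simp only [not_not]
    rw [measureReal_def, ENNReal.toReal_eq_zero_iff] at h0
    rcases h0 with h0 | h0
    · exact h0
    · exact absurd h0 (measure_ne_top _ _)
  have hb : 0 < rho * (1 / 2000 : ℝ) := mul_pos rho_pos ha
  have hnn : 0 ≤ᵐ[ν] fun t => V (pp (1 / 2000)) (qq (1 / 2000)) (rho * (1 / 2000)) (1 / 2000) t := by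
    filter_upwards [ae_mem hν, hn] with t ht h1
    rcases eq_or_lt_of_le ht.1 with h2 | h2
    · have := V_lower_zero ha ha1 ht (by rw [← h2]; exact hb)
      rw [← h2] at this ⊢
      simpa using this
    · have h3 : 1 / 2000 ≤ t := by
        by_contra h4
        exact h1 ⟨h2, by linarith⟩
      exact V_nonneg ha ha1 ht h3
  have h5 := (integral_eq_zero_iff_of_nonneg_ae hnn hi).1 hz
  filter_upwards [ae_mem hν, hn, h5] with t ht h1 h6
  by_contra h7
  push Not at h7
  have h2 : 0 < t := lt_of_le_of_ne ht.1 (Ne.symm h7.1)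
  have h3 : 1 / 2000 ≤ t := by
    by_contra h4
    exact h1 ⟨h2, by linarith⟩
  have h8 := V_pos ha ha1 ht h3 (lt_of_le_of_ne ht.2 h7.2)
  simp only [Pi.zero_apply] at h6
  linarith

end nu

end Pool.Agent.Helper569.Reul
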