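import Pool.Agent.Helper569.ReulGeom

namespace Pool.Agent.Helper569.Reul

open Complex Set Metric MeasureTheory Filter Topology BoundedContinuousFunction
open scoped ENNReal

theorem avg_measure {Ω : Type*} [MeasurableSpace Ω] [TopologicalSpace Ω] [BorelSpace Ω]
    [MeasurableSingletonClass Ω]
    {ι : Type*} [Fintype ι] [Nonempty ι] (s : ι → Ω) :
    ∃ P : ProbabilityMeasure Ω, ∀ f : Ω →ᵇ ℝ,
      ∫ ω, f ω ∂(P : Measure Ω) = (1 / (Fintype.card ι : ℝ)) * ∑ i, f (s i) := by
  have hc : (Fintype.card ι : ℝ≥0∞) ≠ 0 := by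
    simp
  have hc' : (Fintype.card ι : ℝ≥0∞) ≠ ∞ := by simp
  refine ⟨⟨(Fintype.card ι : ℝ≥0∞)⁻¹ • ∑ i, Measure.dirac (s i), ⟨?_⟩⟩, ?_⟩
  · simp [ENNReal.inv_mul_cancel hc hc']
  · intro f
    simp only [ProbabilityMeasure.coe_mk]
    rw [integral_smul_measure, integral_finsetSum_measure]
    · simp
    · intro i _
      exact f.integrable _

theorem pA_continuous : Continuous pA := by
  unfold pA; fun_prop

theorem pB_continuous : Continuous pB := by
  unfold pB
  exact continuous_const.add (continuous_const.mul pA_continuous)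

theorem pC_continuous : Continuous pC := by
  unfold pC
  exact continuous_const.add (continuous_const.mul pA_continuous)

theorem ker_continuous : Continuous (fun p : ℝ × ℝ => ker p.1 p.2) := by
  unfold ker
  have h1 : Continuous (fun p : ℝ × ℝ => pA p.1) := pA_continuous.comp continuous_fst
  have h2 : Continuous (fun p : ℝ × ℝ => pA p.2) := pA_continuous.comp continuous_snd
  have h3 : Continuous (fun p : ℝ × ℝ => pB (th - p.2)) :=
    pB_continuous.comp (continuous_const.sub continuous_snd)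
  have h4 : Continuous (fun p : ℝ × ℝ => pC (th - p.2)) :=
    pC_continuous.comp (continuous_const.sub continuous_snd)
  exact ((h1.sub h2).norm.add (h1.sub h3).norm).add (h1.sub h4).norm

theorem ker_continuous_right (φ : ℝ) : Continuous (fun t => ker φ t) :=
  ker_continuous.comp (continuous_const.prodMk continuous_id)

theorem norm_pB_le (s : ℝ) : ‖pB s‖ ≤ 2 := by
  calc ‖pB s‖ ≤ ‖(1 : ℂ)‖ + ‖ω * pA s‖ := norm_add_le _ _
    _ = 2 := by rw [norm_mul, norm_omega, norm_pA, norm_one]; norm_num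

theorem norm_pC_le (s : ℝ) : ‖pC s‖ ≤ 3 := by
  calc ‖pC s‖ ≤ ‖(1 : ℂ) + ω‖ + ‖ω ^ 2 * pA s‖ := norm_add_le _ _
    _ ≤ ‖(1 : ℂ)‖ + ‖ω‖ + ‖ω ^ 2 * pA s‖ := by gcongr; exact norm_add_le _ _
    _ = 3 := by rw [norm_mul, norm_pow, norm_omega, norm_pA, norm_one]; norm_num

theorem ker_nonneg (φ t : ℝ) : 0 ≤ ker φ t := by unfold ker; positivity

theorem ker_le (φ t : ℝ) : ker φ t ≤ 9 := by
  unfold ker
  have h1 := norm_sub_le (pA φ) (pA t)
  have h2 := norm_sub_le (pA φ) (pB (th - t))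
  have h3 := norm_sub_le (pA φ) (pC (th - t))
  have h4 := norm_pB_le (th - t)
  have h5 := norm_pC_le (th - t)
  rw [norm_pA] at h1 h2 h3
  rw [norm_pA] at h1
  linarith

theorem exists_measure (hab : maxAvg (frontier TT) ≤ rendezvous (frontier TT)) :
    ∃ ν : Measure ℝ, IsProbabilityMeasure ν ∧ ν (Icc 0 th)ᶜ = 0 ∧
      ∃ Λ, ∀ φ ∈ Icc 0 th, ∫ t, ker φ t ∂ν = Λ := by
  set b := maxAvg (frontier TT) with hb
  have h1 : ∀ k : ℕ, ∃ (P : ProbabilityMeasure (Icc 0 th)), ∀ φ ∈ Icc 0 th,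
      |∫ t, ker φ t ∂(P : Measure (Icc 0 th)) - 3 * b| ≤ 3 * (1 / ((k : ℝ) + 1)) := by
    intro k
    obtain ⟨n, x, hn, hx, hU⟩ := exists_config frontier_compact frontier_nonempty hab
      (ε := 1 / ((k : ℝ) + 1)) (by positivity)
    have : Nonempty (Fin n) := ⟨⟨0, hn⟩⟩
    have hn0 : (0 : ℝ) < n := by exact_mod_cast hn
    have h2 := fun i => frontier_six (hx i)
    choose s hs hs2 using h2
    let s' : Fin n ⊕ Fin n → Icc 0 th := Sum.elim (fun i => ⟨s i, hs i⟩)
      (fun i => ⟨th - s i, by constructor <;> linarith [(hs i).1, (hs i).2]⟩)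
    obtain ⟨P, hP⟩ := avg_measure s'
    refine ⟨P, ?_⟩
    intro φ hφ
    let F : Icc 0 th →ᵇ ℝ := BoundedContinuousFunction.ofNormedAddCommGroup
      (fun t : Icc 0 th => ker φ t) ((ker_continuous_right φ).comp continuous_subtype_val) 9
      (fun t => by
        rw [Real.norm_eq_abs, abs_of_nonneg (ker_nonneg _ _)]; exact ker_le _ _)
    have h3 := hP F
    have h4 : ∫ t, F t ∂(P : Measure (Icc 0 th)) = ∫ t, ker φ t ∂(P : Measure (Icc 0 th)) := rfl
    rw [h4] at h3
    rw [h3]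
    have h5 : ∑ i, F (s' i) = ∑ i, six (x i) φ := by
      simp only [Fintype.sum_sum_type, ← Finset.sum_add_distrib]
      apply Finset.sum_congr rfl
      intro i _
      rw [hs2 i φ]
      rfl
    have h6 : (Fintype.card (Fin n ⊕ Fin n) : ℝ) = 2 * n := by
      simp; ring
    rw [h5, h6]
    have hφ' : th - φ ∈ Icc 0 th := by constructor <;> linarith [hφ.1, hφ.2]
    have a1 := hU _ (pA_mem_frontier hφ)
    have a2 := hU _ (pB_mem_frontier hφ)
    have a3 := hU _ (pC_mem_frontier hφ)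
    have a4 := hU _ (pA_mem_frontier hφ')
    have a5 := hU _ (pB_mem_frontier hφ')
    have a6 := hU _ (pC_mem_frontier hφ')
    rw [abs_le] at *
    have h7 : 1 / (2 * (n : ℝ)) * ∑ i, six (x i) φ =
        (1 / 2) * ((1 / (n : ℝ)) * ∑ i, dist (x i) (pA φ) + (1 / (n : ℝ)) * ∑ i, dist (x i) (pB φ)
        + (1 / (n : ℝ)) * ∑ i, dist (x i) (pC φ) + (1 / (n : ℝ)) * ∑ i, dist (x i) (pA (th - φ))
        + (1 / (n : ℝ)) * ∑ i, dist (x i) (pB (th - φ))
        + (1 / (n : ℝ)) * ∑ i, dist (x i) (pC (th - φ))) := by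
      simp only [six, Finset.sum_add_distrib]
      field_simp
    rw [h7]
    constructor <;> linarith [a1.1, a1.2, a2.1, a2.2, a3.1, a3.2, a4.1, a4.2, a5.1, a5.2, a6.1, a6.2]
  choose P hP using h1
  -- limit along an ultrafilter
  let U : Ultrafilter (ProbabilityMeasure (Icc 0 th)) := (hyperfilter ℕ).map P
  obtain ⟨ν, -, hν⟩ := isCompact_univ.ultrafilter_le_nhds U (by simp)
  have hlim : Tendsto P (hyperfilter ℕ) (𝓝 ν) := by
    rw [Tendsto]
    exact hν
  have hν2 := ProbabilityMeasure.tendsto_iff_forall_integral_tendsto.1 hlim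
  refine ⟨(ν : Measure (Icc 0 th)).map Subtype.val, ?_, ?_, 3 * b, ?_⟩
  · exact Measure.isProbabilityMeasure_map measurable_subtype_coe.aemeasurable
  · rw [Measure.map_apply measurable_subtype_coe measurableSet_Icc.compl]
    simp
  · intro φ hφ
    rw [integral_map measurable_subtype_coe.aemeasurable
      (ker_continuous_right φ).aestronglyMeasurable]
    let F : Icc 0 th →ᵇ ℝ := BoundedContinuousFunction.ofNormedAddCommGroup
      (fun t : Icc 0 th => ker φ t) ((ker_continuous_right φ).comp continuous_subtype_val) 9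
      (fun t => by
        rw [Real.norm_eq_abs, abs_of_nonneg (ker_nonneg _ _)]; exact ker_le _ _)
    have h3 := hν2 F
    have h4 : Tendsto (fun k => ∫ t, F t ∂(P k : Measure (Icc 0 th))) atTop (𝓝 (3 * b)) := by
      rw [tendsto_iff_norm_sub_tendsto_zero]
      have h5 : Tendsto (fun k : ℕ => 3 * (1 / ((k : ℝ) + 1))) atTop (𝓝 0) := by
        have := tendsto_one_div_add_atTop_nhds_zero_nat (𝕜 := ℝ)
        simpa using this.const_mul 3
      apply squeeze_zero (fun _ => norm_nonneg _) _ h5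
      intro k
      rw [Real.norm_eq_abs]
      exact hP k φ hφ
    have h5 : Tendsto (fun k => ∫ t, F t ∂(P k : Measure (Icc 0 th))) (hyperfilter ℕ) (𝓝 (3 * b)) :=
      h4.mono_left Nat.hyperfilter_le_atTop
    exact tendsto_nhds_unique h3 h5

end Pool.Agent.Helper569.Reul
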