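import Pool.Agent.Helper569.ReulTest

namespace Pool.Agent.Helper569.Reul

open Set MeasureTheory Filter Topology
open scoped ENNReal NNReal

theorem norm_pA_sub_le (φ ψ : ℝ) : ‖pA φ - pA ψ‖ ≤ |φ - ψ| := by
  rw [norm_AA]
  have h := Real.abs_sin_le_abs (x := (φ - ψ) / 2)
  rw [abs_div, abs_two] at h
  linarith

theorem ker_lip (φ ψ t : ℝ) : |ker φ t - ker ψ t| ≤ 3 * |φ - ψ| := by
  have h := norm_pA_sub_le φ ψ
  have key : ∀ y : ℂ, |‖pA φ - y‖ - ‖pA ψ - y‖| ≤ |φ - ψ| := by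
    intro y
    have h1 := abs_norm_sub_norm_le (pA φ - y) (pA ψ - y)
    rw [sub_sub_sub_cancel_right] at h1
    linarith
  have h1 := key (pA t)
  have h2 := key (pB (th - t))
  have h3 := key (pC (th - t))
  unfold ker
  rw [abs_le] at *
  constructor <;> linarith [h1.1, h1.2, h2.1, h2.2, h3.1, h3.2]

theorem th_gt : (1 : ℝ) / 2000 < th := by
  have hpi := Real.pi_gt_three
  have hth : th = Real.pi / 3 := rfl
  linarith

/-- the smooth part of the kernel -/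
theorem hasDerivAt_smooth {φ t : ℝ} (h0 : 0 < φ) (h1 : φ ≤ 1 / 2000) (ht : t ∈ Icc 0 th) :
    HasDerivAt (fun φ => √(XX (Ab t) (Bb t) (Cb t) φ) + √(XX (Aa t) (Ba t) (Ca t) φ))
      (D1 (Ab t) (Bb t) (Cb t) φ + D1 (Aa t) (Ba t) (Ca t) φ) φ :=
  (hasDerivAt_sqrt (XXb_pos h0 h1 ht)).add (hasDerivAt_sqrt (XXa_pos h0 h1 ht))

theorem hasDerivAt_ker {φ t : ℝ} (h0 : 0 < φ) (h1 : φ ≤ 1 / 2000) (ht : t ∈ Icc 0 th)
    (hne : t ≠ φ) : HasDerivAt (fun φ => ker φ t) (k1 φ t) φ := by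
  have hth := th_gt
  have h2 : HasDerivAt (fun φ => 2 * |Real.sin ((φ - t) / 2)|) (s1 φ t) φ := by
    rcases lt_or_gt_of_ne hne with h | h
    · rw [s1, if_pos h]
      apply (hasDerivAt_sinhalf φ t).congr_of_eventuallyEq
      have : ∀ᶠ x in 𝓝 φ, x ∈ Ioo t th := Ioo_mem_nhds h (by linarith)
      filter_upwards [this] with x hx
      rw [abs_sin_of_le ⟨by linarith [hx.1, ht.1], hx.2.le⟩ ht hx.1.le]
    · rw [s1, if_neg (by linarith)]
      have h3 := (hasDerivAt_sinhalf φ t).neg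
      apply h3.congr_of_eventuallyEq
      have : ∀ᶠ x in 𝓝 φ, x ∈ Ioo 0 t := Ioo_mem_nhds h0 h
      filter_upwards [this] with x hx
      rw [abs_sin_of_ge ⟨hx.1.le, by linarith [hx.2, ht.2]⟩ ht hx.2.le]
      simp only [Pi.neg_apply]
      ring
  have h3 := h2.add (hasDerivAt_smooth h0 h1 ht)
  have h4 : (fun φ => ker φ t) = (fun φ => 2 * |Real.sin ((φ - t) / 2)|) + (fun φ =>
      √(XX (Ab t) (Bb t) (Cb t) φ) + √(XX (Aa t) (Ba t) (Ca t) φ)) := by
    ext x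
    rw [ker_eq]
    simp only [Pi.add_apply]
    ring
  rw [h4]
  refine h3.congr_deriv ?_
  rw [k1]; ring

theorem k1_measurable (φ : ℝ) : Measurable (fun t => k1 φ t) := by
  unfold k1
  apply Measurable.add
  · apply Measurable.add
    · unfold s1
      apply Measurable.ite (measurableSet_Iio)
      · fun_prop
      · fun_prop
    · unfold D1 XX1 XX Ab Bb Cb
      fun_prop
  · unfold D1 XX1 XX Aa Ba Ca
    fun_prop

theorem not_diff_abs_sin {c : ℝ} (φ0 : ℝ) (hc : 0 < c)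
    (h : DifferentiableAt ℝ (fun φ => c * |Real.sin ((φ - φ0) / 2)|) φ0) : False := by
  obtain ⟨d, hd⟩ : ∃ d, HasDerivAt (fun φ => c * |Real.sin ((φ - φ0) / 2)|) d φ0 :=
    ⟨_, h.hasDerivAt⟩
  have hmin : IsLocalMin (fun φ => c * |Real.sin ((φ - φ0) / 2)|) φ0 := by
    apply Filter.Eventually.of_forall
    intro x
    simp only [sub_self, zero_div, Real.sin_zero, abs_zero, mul_zero]
    positivity
  have hd0 : d = 0 := hmin.hasDerivAt_eq_zero hd
  rw [hd0] at hd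
  rw [hasDerivAt_iff_isLittleO] at hd
  have hpi := Real.pi_pos
  have h2 := hd.def (c := c / (2 * Real.pi)) (by positivity)
  simp only [sub_self, zero_div, Real.sin_zero, abs_zero, mul_zero, sub_zero, smul_zero,
    Real.norm_eq_abs] at h2
  rw [Metric.eventually_nhds_iff] at h2
  obtain ⟨ε, hε, h3⟩ := h2
  set x := φ0 + min (ε / 2) 1 with hx
  have hm : 0 < min (ε / 2) 1 := by positivity
  have hm1 : min (ε / 2) 1 ≤ 1 := min_le_right _ _
  have hm2 : min (ε / 2) 1 ≤ ε / 2 := min_le_left _ _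
  have h4 := @h3 x (by rw [Real.dist_eq, hx, add_sub_cancel_left, abs_of_pos hm]; linarith)
  have h5 : x - φ0 = min (ε / 2) 1 := by rw [hx]; ring
  rw [h5] at h4
  set m := min (ε / 2) 1 with hmm
  have h6 := Real.mul_le_sin (x := m / 2) (by positivity) (by linarith [Real.pi_gt_three])
  have h7 : 0 < Real.sin (m / 2) := lt_of_lt_of_le (by positivity) h6
  rw [abs_of_pos h7, abs_of_pos hm, abs_of_pos (by positivity)] at h4
  have h8 : c * (2 / Real.pi * (m / 2)) ≤ c / (2 * Real.pi) * m := by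
    refine le_trans ?_ h4
    gcongr
  have h9 : c * (2 / Real.pi * (m / 2)) = c * m / Real.pi := by field_simp
  have h10 : c / (2 * Real.pi) * m = c * m / Real.pi / 2 := by field_simp
  rw [h9, h10] at h8
  have : 0 < c * m / Real.pi := by positivity
  linarith

section nu

variable {ν : Measure ℝ} [IsProbabilityMeasure ν] {Λ : ℝ}

omit [IsProbabilityMeasure ν] in
theorem ae_mem (h : ν (Icc 0 th)ᶜ = 0) : ∀ᵐ t ∂ν, t ∈ Icc 0 th := by
  rw [ae_iff]
  exact h

theorem ker_integrable (μ : Measure ℝ) [IsFiniteMeasure μ] (φ : ℝ) :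
    Integrable (fun t => ker φ t) μ := by
  apply Integrable.of_bound (ker_continuous_right φ).aestronglyMeasurable 9
  apply Filter.Eventually.of_forall
  intro t
  rw [Real.norm_eq_abs, abs_of_nonneg (ker_nonneg _ _)]
  exact ker_le _ _

theorem deriv_integral (μ : Measure ℝ) [IsFiniteMeasure μ] {φ : ℝ} (h0 : 0 < φ)
    (h1 : φ ≤ 1 / 2000) (hμ : ∀ᵐ t ∂μ, t ∈ Icc 0 th ∧ t ≠ φ) :
    Integrable (fun t => k1 φ t) μ ∧
      HasDerivAt (fun φ => ∫ t, ker φ t ∂μ) (∫ t, k1 φ t ∂μ) φ := by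
  apply hasDerivAt_integral_of_dominated_loc_of_lip (s := univ) (bound := fun _ => 3)
  · exact univ_mem
  · exact Filter.Eventually.of_forall (fun x => (ker_continuous_right x).aestronglyMeasurable)
  · exact ker_integrable μ φ
  · exact (k1_measurable φ).aestronglyMeasurable
  · apply Filter.Eventually.of_forall
    intro t
    apply LipschitzOnWith.of_dist_le_mul
    intro x _ y _
    rw [Real.dist_eq, Real.dist_eq]
    refine (ker_lip x y t).trans ?_
    simp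
  · exact integrable_const _
  · filter_upwards [hμ] with t ht
    exact hasDerivAt_ker h0 h1 ht.1 ht.2

/-- No atoms in `(0, 1/2000]`. -/
theorem no_atom (hν : ν (Icc 0 th)ᶜ = 0) (hΛ : ∀ φ ∈ Icc 0 th, ∫ t, ker φ t ∂ν = Λ)
    {φ0 : ℝ} (h0 : 0 < φ0) (h1 : φ0 ≤ 1 / 2000) : ν {φ0} = 0 := by
  by_contra hne
  have hth := th_gt
  have hm : 0 < (ν {φ0}).toReal := ENNReal.toReal_pos hne (measure_ne_top _ _)
  have hae : ∀ᵐ t ∂(ν.restrict {φ0}ᶜ), t ∈ Icc 0 th ∧ t ≠ φ0 := by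
    rw [ae_restrict_iff' (measurableSet_singleton _).compl]
    filter_upwards [ae_mem hν] with t ht ht2
    exact ⟨ht, ht2⟩
  have h2 := (deriv_integral (ν.restrict {φ0}ᶜ) h0 h1 hae).2
  have h3 : ∀ φ, ∫ t, ker φ t ∂ν = (ν {φ0}).toReal * ker φ φ0
      + ∫ t, ker φ t ∂(ν.restrict {φ0}ᶜ) := by
    intro φ
    rw [← integral_add_compl (measurableSet_singleton φ0) (ker_integrable ν φ)]
    congr 1
    rw [integral_singleton]
    simp [Measure.real]
  have h4 : DifferentiableAt ℝ (fun φ => (ν {φ0}).toReal * ker φ φ0) φ0 := by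
    have h5 : DifferentiableAt ℝ (fun φ => Λ - ∫ t, ker φ t ∂(ν.restrict {φ0}ᶜ)) φ0 :=
      (h2.differentiableAt).const_sub Λ
    apply h5.congr_of_eventuallyEq
    have : ∀ᶠ x in 𝓝 φ0, x ∈ Ioo 0 th := Ioo_mem_nhds h0 (by linarith)
    filter_upwards [this] with x hx
    have e1 := hΛ x ⟨hx.1.le, hx.2.le⟩
    rw [h3] at e1
    linarith
  have h6 : DifferentiableAt ℝ (fun φ => (ν {φ0}).toReal * 2 * |Real.sin ((φ - φ0) / 2)|) φ0 := by
    have h7 := (hasDerivAt_smooth h0 h1 (t := φ0) ⟨h0.le, by linarith⟩).differentiableAt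
    have h8 := h4.sub (h7.const_mul (ν {φ0}).toReal)
    apply h8.congr_of_eventuallyEq
    apply Filter.Eventually.of_forall
    intro x
    simp only [ker_eq, Pi.sub_apply]
    ring
  exact not_diff_abs_sin φ0 (by positivity) h6

theorem k1_integral (hν : ν (Icc 0 th)ᶜ = 0) (hΛ : ∀ φ ∈ Icc 0 th, ∫ t, ker φ t ∂ν = Λ)
    {φ : ℝ} (h0 : 0 < φ) (h1 : φ ≤ 1 / 2000) :
    Integrable (fun t => k1 φ t) ν ∧ ∫ t, k1 φ t ∂ν = 0 := by
  have hth := th_gt
  have hne : ∀ᵐ t ∂ν, t ≠ φ := by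
    rw [ae_iff]
    simpa using no_atom hν hΛ h0 h1
  have hae : ∀ᵐ t ∂ν, t ∈ Icc 0 th ∧ t ≠ φ := (ae_mem hν).and hne
  obtain ⟨h2, h3⟩ := deriv_integral ν h0 h1 hae
  refine ⟨h2, ?_⟩
  have h4 : HasDerivAt (fun φ => ∫ t, ker φ t ∂ν) 0 φ := by
    apply (hasDerivAt_const φ Λ).congr_of_eventuallyEq
    have : ∀ᶠ x in 𝓝 φ, x ∈ Ioo 0 th := Ioo_mem_nhds h0 (by linarith)
    filter_upwards [this] with x hx
    exact hΛ x ⟨hx.1.le, hx.2.le⟩
  exact h3.unique h4

end nu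

end Pool.Agent.Helper569.Reul
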