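import Pool.Agent.Helper569.ReulFinal

namespace Pool.Agent.Helper569.Reul

open Set Metric
open scoped ComplexConjugate

theorem unit_cases {u : ℂ} (h0 : ‖u‖ = 1) (h1 : ‖u - 1‖ = 1) : u = ζ ∨ u = conj ζ := by
  have hzre : ζ.re = 1 / 2 := by simp [ζ, ω]; norm_num
  have hzim : ζ.im = √3 / 2 := by simp [ζ, ω]
  have a0 : u.re ^ 2 + u.im ^ 2 = 1 := by rw [← norm_sq_eq, h0]; norm_num
  have a1 : (u.re - 1) ^ 2 + u.im ^ 2 = 1 := by
    have : ‖u - 1‖ ^ 2 = 1 := by rw [h1]; norm_num
    rw [norm_sq_eq] at this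
    simpa using this
  have hre : u.re = 1 / 2 := by linarith
  rw [hre] at a0
  have hr := sqrt3_sq
  have him : (u.im - √3 / 2) * (u.im + √3 / 2) = 0 := by
    linear_combination a0 - (1 / 4) * hr
  rcases mul_eq_zero.1 him with h | h
  · left
    apply Complex.ext
    · rw [hre, hzre]
    · rw [hzim]; linarith
  · right
    apply Complex.ext
    · rw [Complex.conj_re, hre, hzre]
    · rw [Complex.conj_im, hzim]; linarith

/-- the planar isometry carrying the standard triangle to a given one in `ℂ`. -/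
theorem exists_iso_complex (w : Fin 3 → ℂ) (hw : ∀ i j, i ≠ j → dist (w i) (w j) = 1) :
    ∃ f : ℂ ≃ᵢ ℂ, f 0 = w 0 ∧ f 1 = w 1 ∧ f ζ = w 2 := by
  set d := w 1 - w 0 with hd
  have hd1 : ‖d‖ = 1 := by
    rw [hd, ← dist_eq_norm]; exact hw 1 0 (by decide)
  have hd0 : d ≠ 0 := by
    intro h; rw [h, norm_zero] at hd1; exact zero_ne_one hd1
  have hu : ‖(w 2 - w 0) / d‖ = 1 := by
    rw [norm_div, hd1, div_one, ← dist_eq_norm]; exact hw 2 0 (by decide)
  have hu1 : ‖(w 2 - w 0) / d - 1‖ = 1 := by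
    have : (w 2 - w 0) / d - 1 = (w 2 - w 1) / d := by
      field_simp
      rw [hd]; ring
    rw [this, norm_div, hd1, div_one, ← dist_eq_norm]; exact hw 2 1 (by decide)
  rcases unit_cases hu hu1 with h | h
  · refine ⟨IsometryEquiv.mk' (fun z => w 0 + d * z) (fun z => (z - w 0) / d) ?_ ?_, ?_, ?_, ?_⟩
    · intro z
      field_simp
      ring
    · apply Isometry.of_dist_eq
      intro z z'
      rw [dist_eq_norm, dist_eq_norm]
      have : w 0 + d * z - (w 0 + d * z') = d * (z - z') := by ring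
      rw [this, norm_mul, hd1, one_mul]
    · change w 0 + d * 0 = w 0
      ring
    · change w 0 + d * 1 = w 1
      rw [hd]; ring
    · change w 0 + d * ζ = w 2
      rw [← h]
      field_simp
      ring
  · refine ⟨IsometryEquiv.mk' (fun z => w 0 + d * conj z) (fun z => conj ((z - w 0) / d)) ?_ ?_,
      ?_, ?_, ?_⟩
    · intro z
      rw [Complex.conj_conj]
      field_simp
      ring
    · apply Isometry.of_dist_eq
      intro z z'
      rw [dist_eq_norm, dist_eq_norm]
      have : w 0 + d * conj z - (w 0 + d * conj z') = d * conj (z - z') := by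
        rw [map_sub]; ring
      rw [this, norm_mul, hd1, one_mul, Complex.norm_conj]
    · change w 0 + d * conj 0 = w 0
      simp
    · change w 0 + d * conj 1 = w 1
      rw [map_one, hd]; ring
    · change w 0 + d * conj ζ = w 2
      rw [← h]
      field_simp
      ring

theorem exists_iso (v : Fin 3 → EuclideanSpace ℝ (Fin 2))
    (hv : ∀ i j, i ≠ j → dist (v i) (v j) = 1) :
    ∃ f : ℂ ≃ᵢ EuclideanSpace ℝ (Fin 2), f 0 = v 0 ∧ f 1 = v 1 ∧ f ζ = v 2 := by
  let E : ℂ ≃ₗᵢ[ℝ] EuclideanSpace ℝ (Fin 2) := Complex.orthonormalBasisOneI.repr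
  obtain ⟨g, h0, h1, h2⟩ := exists_iso_complex (fun i => E.symm (v i)) (fun i j hij => by
    rw [E.symm.dist_map]; exact hv i j hij)
  refine ⟨g.trans E.toIsometryEquiv, ?_, ?_, ?_⟩
  · rw [IsometryEquiv.trans_apply, h0]
    exact E.apply_symm_apply _
  · rw [IsometryEquiv.trans_apply, h1]
    exact E.apply_symm_apply _
  · rw [IsometryEquiv.trans_apply, h2]
    exact E.apply_symm_apply _

theorem reuleaux_eq {X : Type*} [PseudoMetricSpace X] (v : Fin 3 → X) (f : ℂ ≃ᵢ X)
    (h0 : f 0 = v 0) (h1 : f 1 = v 1) (h2 : f ζ = v 2) : reuleaux v = f '' TT := by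
  ext x
  obtain ⟨z, rfl⟩ := f.surjective x
  rw [f.injective.mem_set_image]
  simp only [reuleaux, mem_iInter, mem_closedBall]
  rw [Fin.forall_fin_succ, Fin.forall_fin_two]
  simp only [Fin.succ_zero_eq_one, Fin.succ_one_eq_two]
  rw [← h0, ← h1, ← h2, f.dist_eq, f.dist_eq, f.dist_eq, dist_zero_right, dist_eq_norm,
    dist_eq_norm]
  rfl

/-- Main theorem. -/
theorem main (v : Fin 3 → EuclideanSpace ℝ (Fin 2))
    (hv : ∀ i j, i ≠ j → dist (v i) (v j) = 1) :
    rendezvous (frontier (reuleaux v)) < maxAvg (frontier (reuleaux v)) ∧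
      rendezvous (reuleaux v) < maxAvg (reuleaux v) := by
  obtain ⟨f, h0, h1, h2⟩ := exists_iso v hv
  rw [reuleaux_eq v f h0 h1 h2]
  have hfr : frontier (f '' TT) = f '' frontier TT := by
    have := f.toHomeomorph.image_frontier TT
    exact this.symm
  rw [hfr, rendezvous_image f.isometry, rendezvous_image f.isometry, maxAvg_image f.isometry,
    maxAvg_image f.isometry]
  exact ⟨frontier_lt, solid_lt⟩

end Pool.Agent.Helper569.Reul
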