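import Mathlib

set_option autoImplicit false

namespace Pool.Agent.Helper569.Spec

open MeasureTheory FourierTransform Metric Set
open scoped RealInnerProductSpace ENNReal ComplexConjugate

/-- `d`-dimensional Euclidean space. -/
abbrev E (d : ℕ) := EuclideanSpace ℝ (Fin d)

variable {d : ℕ}

/-- the exponential `e_l(x) = exp(2 pi i <l,x>)` -/
noncomputable def ee (l x : E d) : ℂ := Complex.exp (2 * Real.pi * (⟪l, x⟫ : ℝ) * Complex.I)

/-- `Λ` is a spectrum of `Ω`: the exponentials `e_l`, `l ∈ Λ`, form an orthogonal basis of `L²(Ω)`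
(pairwise orthogonal and complete). -/
def IsSpectrum (Ω Λ : Set (E d)) : Prop :=
  (∀ l ∈ Λ, ∀ m ∈ Λ, l ≠ m → ∫ x in Ω, ee l x * conj (ee m x) = 0) ∧
  (∀ f : E d → ℂ, MemLp f 2 (volume.restrict Ω) →
    (∀ l ∈ Λ, ∫ x in Ω, f x * conj (ee l x) = 0) → f =ᵐ[volume.restrict Ω] 0)

/-- `Ω` is spectral. -/
def IsSpectral (Ω : Set (E d)) : Prop := ∃ Λ : Set (E d), IsSpectrum Ω Λ

/-- `hat A w = ∫_A exp(-2 pi i <w,x>) dx` -/
noncomputable def hat (A : Set (E d)) (w : E d) : ℂ := ∫ x in A, conj (ee w x)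

/-- `T F A ξ z`: the partial sum of the expansion of `1_A e_ξ`, `v = |Ω|`. -/
noncomputable def T (v : ℝ) (F : Finset (E d)) (A : Set (E d)) (ξ z : E d) : ℂ :=
  (v : ℂ)⁻¹ * ∑ l ∈ F, hat A (l - ξ) * ee l z

theorem ee_norm (l x : E d) : ‖ee l x‖ = 1 := by
  unfold ee
  rw [Complex.norm_exp]
  simp

theorem ee_conj (l x : E d) : conj (ee l x) = ee (-l) x := by
  unfold ee
  rw [← Complex.exp_conj]
  congr 1
  simp [Complex.conj_ofReal, map_ofNat]

theorem ee_add (l m x : E d) : ee (l + m) x = ee l x * ee m x := by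
  unfold ee
  rw [← Complex.exp_add]
  congr 1
  rw [inner_add_left]
  push_cast
  ring

theorem ee_add_right (l x y : E d) : ee l (x + y) = ee l x * ee l y := by
  unfold ee
  rw [← Complex.exp_add]
  congr 1
  rw [inner_add_right]
  push_cast
  ring

theorem ee_cont (l : E d) : Continuous (ee l) := by
  unfold ee
  fun_prop

-- ===== planch (job 21560)
section PlanchAux21560

variable {E : Type*} [NormedAddCommGroup E] [InnerProductSpace ℝ E] [FiniteDimensional ℝ E]
  [MeasurableSpace E] [BorelSpace E]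

/-- The `L²` Fourier transform of an integrable and square integrable function is represented by
the pointwise Fourier integral. -/
theorem fourier_toLp_ae_21560 {f : E → ℂ} (h1 : Integrable f) (h2 : MemLp f 2) :
    ((𝓕 (h2.toLp f) : Lp ℂ 2 (volume : Measure E)) : E → ℂ) =ᵐ[volume] 𝓕 f := by
  have hcont : Continuous (𝓕 f) :=
    VectorFourier.fourierIntegral_continuous Real.continuous_fourierChar continuous_inner h1
  refine ae_eq_of_integral_contDiff_smul_eq ?_ hcont.locallyIntegrable ?_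
  · exact (Lp.memLp (μ := (volume : Measure E))
      (𝓕 (h2.toLp f) : Lp ℂ 2 (volume : Measure E))).locallyIntegrable (by norm_num)
  · intro g hg hgs
    have hgc : HasCompactSupport (fun x => (g x : ℂ)) := by
      refine hgs.comp_left (g := fun r : ℝ => (r : ℂ)) (by simp)
    have hgd : ContDiff ℝ ((⊤ : ℕ∞) : WithTop ℕ∞) (fun x => (g x : ℂ)) :=
      Complex.ofRealCLM.contDiff.comp hg
    set φ : SchwartzMap E ℂ := hgc.toSchwartzMap hgd with hφ
    have hφx : ∀ x, φ x = (g x : ℂ) := fun x => rfl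
    have key := DFunLike.congr_fun (Lp.fourier_toTemperedDistribution_eq (h2.toLp f)) φ
    rw [TemperedDistribution.fourier_apply, Lp.toTemperedDistribution_apply (μ := volume),
      Lp.toTemperedDistribution_apply (μ := volume)] at key
    have e1 : ∫ x : E, g x • ((𝓕 (h2.toLp f) : Lp ℂ 2 (volume : Measure E)) : E → ℂ) x =
        ∫ x, φ x • ((𝓕 (h2.toLp f) : Lp ℂ 2 (volume : Measure E)) : E → ℂ) x := by
      refine integral_congr_ae (Filter.Eventually.of_forall fun x => ?_)
      simp [hφx]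
    have e2 : ∫ x, g x • 𝓕 f x = ∫ x, φ x • 𝓕 f x := by
      refine integral_congr_ae (Filter.Eventually.of_forall fun x => ?_)
      simp [hφx]
    rw [e1, ← key, e2]
    have e3 : ∫ x, (𝓕 φ) x • ((h2.toLp f : Lp ℂ 2 (volume : Measure E)) : E → ℂ) x = ∫ x, (𝓕 φ) x • f x := by
      refine integral_congr_ae ?_
      filter_upwards [h2.coeFn_toLp] with x hx
      rw [hx]
    rw [e3]
    have hφi : Integrable (fun x => φ x) := φ.integrable
    have := VectorFourier.integral_fourierIntegral_smul_eq_flip (L := innerₗ E)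
      (μ := volume) (ν := volume) Real.continuous_fourierChar continuous_inner hφi h1
    have hfl : (innerₗ E).flip = innerₗ E := by
      ext x y; simp
    rw [hfl] at this
    exact this

theorem plancherel_21560 {f : E → ℂ} (h1 : Integrable f) (h2 : MemLp f 2) :
    MemLp (𝓕 f) 2 ∧ ∫ ξ, ‖𝓕 f ξ‖ ^ 2 = ∫ x, ‖f x‖ ^ 2 := by
  have hae := fourier_toLp_ae_21560 h1 h2
  have hm : MemLp (𝓕 f) 2 := (memLp_congr_ae hae).1 (Lp.memLp (μ := (volume : Measure E)) (𝓕 (h2.toLp f) : Lp ℂ 2 (volume : Measure E)))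
  refine ⟨hm, ?_⟩
  have hn := Lp.norm_fourier_eq (h2.toLp f)
  have hnorm : ∀ u : Lp ℂ 2 (volume : Measure E), ∫ x, ‖(u : E → ℂ) x‖ ^ 2 = ‖u‖ ^ 2 := by
    intro u
    have h1 : inner ℂ u u = ((‖u‖ : ℝ) : ℂ) ^ 2 := inner_self_eq_norm_sq_to_K u
    rw [L2.inner_def] at h1
    have h2 : ∫ x, inner ℂ ((u : E → ℂ) x) ((u : E → ℂ) x) =
        ((∫ x, ‖(u : E → ℂ) x‖ ^ 2 : ℝ) : ℂ) := by
      rw [← integral_complex_ofReal]
      refine integral_congr_ae (Filter.Eventually.of_forall fun x => ?_)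
      simp only [inner_self_eq_norm_sq_to_K]
      push_cast
      rfl
    rw [h2] at h1
    exact_mod_cast h1
  rw [show ∫ ξ, ‖𝓕 f ξ‖ ^ 2 = ∫ ξ, ‖((𝓕 (h2.toLp f) : Lp ℂ 2 (volume : Measure E)) : E → ℂ) ξ‖ ^ 2 from ?_,
    hnorm, hn, ← hnorm]
  · refine integral_congr_ae ?_
    filter_upwards [h2.coeFn_toLp] with x hx
    rw [hx]
  · refine integral_congr_ae ?_
    filter_upwards [hae] with x hx
    rw [hx]



end PlanchAux21560

-- TARGET
/-- Plancherel for the indicator-type functions: `g` bounded measurable with bounded support. -/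
theorem planch (g : E d → ℂ) (hg : Measurable g) (A : Set (E d)) (hA : MeasurableSet A)
    (hAb : Bornology.IsBounded A) (C : ℝ) (hC : ∀ x, ‖g x‖ ≤ C) :
    Integrable (fun w : E d => ‖∫ x in A, g x * conj (ee w x)‖ ^ 2) ∧
    ∫ w : E d, ‖∫ x in A, g x * conj (ee w x)‖ ^ 2 = ∫ x in A, ‖g x‖ ^ 2 := by
  have hfin : volume A < ⊤ := hAb.measure_lt_top
  haveI : IsFiniteMeasure (volume.restrict A) := ⟨by simpa using hfin⟩
  have h1 : Integrable (A.indicator g) := by
    rw [integrable_indicator_iff hA]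
    exact Integrable.of_bound hg.aestronglyMeasurable C (Filter.Eventually.of_forall hC)
  have h2 : MemLp (A.indicator g) 2 := by
    rw [memLp_indicator_iff_restrict hA]
    exact MemLp.of_bound hg.aestronglyMeasurable C (Filter.Eventually.of_forall hC)
  obtain ⟨hm, he⟩ := plancherel_21560 h1 h2
  have key : ∀ w : E d, 𝓕 (A.indicator g) w = ∫ x in A, g x * conj (ee w x) := by
    intro w
    rw [Real.fourier_eq']
    rw [← integral_indicator hA]
    refine integral_congr_ae (Filter.Eventually.of_forall fun x => ?_)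
    by_cases hx : x ∈ A
    · simp only [Set.indicator_of_mem hx]
      rw [ee_conj]
      unfold ee
      rw [smul_eq_mul, mul_comm]
      congr 2
      rw [inner_neg_left, real_inner_comm]
      push_cast
      ring
    · simp [Set.indicator_of_notMem hx]
  have key2 : (fun w : E d => ‖∫ x in A, g x * conj (ee w x)‖ ^ 2) =
      fun w => ‖𝓕 (A.indicator g) w‖ ^ 2 := by
    funext w
    rw [key]
  rw [key2]
  refine ⟨?_, ?_⟩
  · exact (memLp_two_iff_integrable_sq_norm hm.1).1 hm
  · rw [he, ← integral_indicator hA]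
    refine integral_congr_ae (Filter.Eventually.of_forall fun x => ?_)
    by_cases hx : x ∈ A
    · simp [Set.indicator_of_mem hx]
    · simp [Set.indicator_of_notMem hx]

-- ===== hat_cont (job 21561)
-- TARGET
theorem hat_cont (A : Set (E d)) (hA : MeasurableSet A) (hAb : Bornology.IsBounded A) :
    Continuous (hat A) := by
  have hfin : volume A < ⊤ := hAb.measure_lt_top
  have : IsFiniteMeasure (volume.restrict A) := ⟨by simpa using hfin⟩
  unfold hat
  refine MeasureTheory.continuous_of_dominated (F := fun w x => conj (ee w x))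
    (bound := fun _ => (1 : ℝ)) ?_ ?_ (integrable_const _) ?_
  · intro w
    exact (Complex.continuous_conj.comp (ee_cont w)).aestronglyMeasurable
  · intro w
    refine Filter.Eventually.of_forall (fun x => ?_)
    rw [RCLike.norm_conj, ee_norm]
  · refine Filter.Eventually.of_forall (fun x => ?_)
    refine Complex.continuous_conj.comp ?_
    unfold ee
    fun_prop

-- ===== parseval (job 21562)
theorem parseval_inner_aux {Ω : Set (E d)} {f g : E d → ℂ} (hf : MemLp f 2 (volume.restrict Ω))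
    (hg : MemLp g 2 (volume.restrict Ω)) :
    inner ℂ (hf.toLp f) (hg.toLp g) = ∫ x in Ω, g x * conj (f x) := by
  rw [L2.inner_def]
  apply integral_congr_ae
  filter_upwards [hf.coeFn_toLp, hg.coeFn_toLp] with x h1 h2
  rw [h1, h2, RCLike.inner_apply]

theorem parseval_self (l x : E d) : ee l x * conj (ee l x) = 1 := by
  rw [Complex.mul_conj, Complex.normSq_eq_norm_sq, ee_norm]
  simp

theorem parseval_FF {Ω A : Set (E d)} (hA : MeasurableSet A) (hAΩ : A ⊆ Ω) (ξ : E d) :
    ∫ x in Ω, A.indicator (ee ξ) x * conj (A.indicator (ee ξ) x) = ((volume.real A : ℝ) : ℂ) := by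
  have : ∀ x, A.indicator (ee ξ) x * conj (A.indicator (ee ξ) x) =
      A.indicator (fun _ => (1 : ℂ)) x := by
    intro x
    by_cases hx : x ∈ A
    · rw [indicator_of_mem hx, indicator_of_mem hx, parseval_self]
    · rw [indicator_of_notMem hx, indicator_of_notMem hx]; simp
  simp_rw [this]
  rw [setIntegral_indicator hA, inter_eq_self_of_subset_right hAΩ, setIntegral_const]
  simp

theorem parseval_bF {Ω A : Set (E d)} (hA : MeasurableSet A) (hAΩ : A ⊆ Ω) (l ξ : E d) :
    ∫ x in Ω, A.indicator (ee ξ) x * conj (ee l x) = hat A (l - ξ) := by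
  unfold hat
  have : ∀ x, A.indicator (ee ξ) x * conj (ee (l : E d) x) =
      A.indicator (fun x => conj (ee ((l : E d) - ξ) x)) x := by
    intro x
    by_cases hx : x ∈ A
    · rw [indicator_of_mem hx, indicator_of_mem hx, sub_eq_add_neg, ee_add, map_mul, ee_conj (-ξ),
        neg_neg, mul_comm]
    · rw [indicator_of_notMem hx, indicator_of_notMem hx, zero_mul]
  simp_rw [this]
  rw [setIntegral_indicator hA, inter_eq_self_of_subset_right hAΩ]

theorem parseval_hilb {H : Type*} [NormedAddCommGroup H] [InnerProductSpace ℂ H] [CompleteSpace H]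
    {ι : Type*} (G : ι → H) (F : H) (v : ℝ) (hvpos : 0 < v)
    (h1 : ∀ l, inner ℂ (G l) (G l) = (v : ℂ)) (h2 : ∀ l m, l ≠ m → inner ℂ (G l) (G m) = 0)
    (h3 : ∀ f, (∀ l, inner ℂ (G l) f = 0) → f = 0) (w : ℝ) (hw : inner ℂ F F = (w : ℂ)) :
    HasSum (fun l => ‖inner ℂ (G l) F‖ ^ 2) (v * w) := by
  obtain ⟨c, hc⟩ : ∃ c : ℂ, c = ((Real.sqrt v)⁻¹ : ℝ) := ⟨_, rfl⟩
  have hsv : 0 < Real.sqrt v := Real.sqrt_pos.2 hvpos
  have hcc : conj c * c = ((v⁻¹ : ℝ) : ℂ) := by
    rw [hc, Complex.conj_ofReal, ← Complex.ofReal_mul, ← mul_inv, Real.mul_self_sqrt hvpos.le]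
  have hc0 : c ≠ 0 := by
    intro h
    rw [h] at hcc
    have h2 : (v⁻¹ : ℝ) = 0 := by
      have h3 : ((v⁻¹ : ℝ) : ℂ) = 0 := by rw [← hcc]; simp
      exact_mod_cast h3
    exact (inv_pos.2 hvpos).ne' h2
  have hortho : Orthonormal ℂ (fun l => c • G l) := by
    classical
    rw [orthonormal_iff_ite]
    intro l m
    rw [inner_smul_left, inner_smul_right, ← mul_assoc, hcc]
    split_ifs with hlm
    · subst hlm
      rw [h1, ← Complex.ofReal_mul, inv_mul_cancel₀ hvpos.ne']
      simp
    · rw [h2 l m hlm, mul_zero]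
  have hperp : (Submodule.span ℂ (Set.range (fun l => c • G l)))ᗮ = ⊥ := by
    rw [eq_bot_iff]
    intro f hf
    rw [Submodule.mem_orthogonal] at hf
    rw [Submodule.mem_bot]
    apply h3
    intro l
    have h2 := hf (c • G l) (Submodule.subset_span ⟨l, rfl⟩)
    rw [inner_smul_left] at h2
    exact (mul_eq_zero.1 h2).resolve_left (by simpa using hc0)
  have hsum := (HilbertBasis.mkOfOrthogonalEqBot hortho hperp).hasSum_inner_mul_inner F F
  rw [HilbertBasis.coe_mkOfOrthogonalEqBot hortho hperp] at hsum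
  have hterm : ∀ l : ι, inner ℂ F (c • G l) * inner ℂ (c • G l) F =
      ((v⁻¹ * ‖inner ℂ (G l) F‖ ^ 2 : ℝ) : ℂ) := by
    intro l
    rw [← inner_conj_symm, inner_smul_left, map_mul, Complex.conj_conj]
    have h1 : c * conj (inner ℂ (G l) F) * (conj c * inner ℂ (G l) F) =
      (conj c * c) * (inner ℂ (G l) F * conj (inner ℂ (G l) F)) := by ring
    rw [h1, hcc, Complex.mul_conj, Complex.normSq_eq_norm_sq]
    push_cast
    rfl
  simp_rw [hterm] at hsum
  rw [hw] at hsum
  have hsum2 := Complex.hasSum_ofReal.1 hsum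
  have hsum3 := hsum2.mul_left v
  have e : ∀ l : ι, v * (v⁻¹ * ‖inner ℂ (G l) F‖ ^ 2) = ‖inner ℂ (G l) F‖ ^ 2 := by
    intro l
    rw [← mul_assoc, mul_inv_cancel₀ hvpos.ne', one_mul]
  simp_rw [e] at hsum3
  exact hsum3

theorem parseval_gen (Ω : Set (E d)) {ι : Type*} (u : ι → E d → ℂ) (f : E d → ℂ)
    (hu : ∀ l, MemLp (u l) 2 (volume.restrict Ω)) (hf : MemLp f 2 (volume.restrict Ω))
    (v : ℝ) (hvpos : 0 < v) (h1 : ∀ l, ∫ x in Ω, u l x * conj (u l x) = (v : ℂ))
    (h2 : ∀ l m, l ≠ m → ∫ x in Ω, u m x * conj (u l x) = 0)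
    (h3 : ∀ g : E d → ℂ, MemLp g 2 (volume.restrict Ω) →
      (∀ l, ∫ x in Ω, g x * conj (u l x) = 0) → g =ᵐ[volume.restrict Ω] 0)
    (w : ℝ) (hw : ∫ x in Ω, f x * conj (f x) = (w : ℂ)) :
    HasSum (fun l => ‖∫ x in Ω, f x * conj (u l x)‖ ^ 2) (v * w) := by
  have := parseval_hilb (fun l => (hu l).toLp (u l)) (hf.toLp f) v hvpos
    (fun l => by rw [parseval_inner_aux, h1]) (fun l m hlm => by rw [parseval_inner_aux, h2 l m hlm])
    (fun g hg => by
      rw [Lp.eq_zero_iff_ae_eq_zero]
      apply h3 g (Lp.memLp g)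
      intro l
      have h4 := parseval_inner_aux (hu l) (Lp.memLp g)
      rw [Lp.toLp_coeFn] at h4
      rw [← h4]
      exact hg l) w (by rw [parseval_inner_aux, hw])
  have e : ∀ l, inner ℂ ((hu l).toLp (u l)) (hf.toLp f) = ∫ x in Ω, f x * conj (u l x) := fun l =>
    parseval_inner_aux (hu l) hf
  simp_rw [e] at this
  exact this

-- TARGET
/-- Parseval -/
theorem parseval (Ω Λ : Set (E d)) (hm : MeasurableSet Ω) (hb : Bornology.IsBounded Ω)
    (h0 : 0 < volume Ω) (hs : IsSpectrum Ω Λ) (A : Set (E d)) (hA : MeasurableSet A) (hAΩ : A ⊆ Ω)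
    (ξ : E d) :
    HasSum (fun l : Λ => ‖hat A ((l : E d) - ξ)‖ ^ 2) (volume.real Ω * volume.real A) := by
  have hfin : volume Ω < ⊤ := hb.measure_lt_top
  have : IsFiniteMeasure (volume.restrict Ω) := ⟨by rwa [Measure.restrict_apply_univ]⟩
  have hvpos : 0 < volume.real Ω := by
    rw [Measure.real]
    exact ENNReal.toReal_pos h0.ne' hfin.ne
  have hmem : ∀ l : E d, MemLp (ee l) 2 (volume.restrict Ω) := fun l =>
    MemLp.of_bound (ee_cont l).aestronglyMeasurable 1
      (Filter.Eventually.of_forall fun x => (ee_norm l x).le)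
  have hmemF : MemLp (A.indicator (ee ξ)) 2 (volume.restrict Ω) := (hmem ξ).indicator hA
  have key := parseval_gen Ω (fun l : Λ => ee (l : E d)) (A.indicator (ee ξ))
    (fun l => hmem l) hmemF (volume.real Ω) hvpos (fun l => by
        simp_rw [parseval_self]
        rw [setIntegral_const]
        simp) (fun l m hlm => hs.1 m m.2 l l.2 fun h => hlm (Subtype.ext h.symm))
    (fun g hg h => hs.2 g hg fun l hl => h ⟨l, hl⟩) (volume.real A) (parseval_FF hA hAΩ ξ)
  simp_rw [parseval_bF hA hAΩ] at key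
  exact key

-- ===== trans_orth (job 21563)
-- TARGET
/-- orthogonality on a translate -/
theorem trans_orth (Ω Λ : Set (E d)) (hm : MeasurableSet Ω) (hb : Bornology.IsBounded Ω)
    (hs : IsSpectrum Ω Λ) (F : Finset (E d)) (hF : ∀ l ∈ F, l ∈ Λ) (c : E d → ℂ) (s : E d) :
    ∫ x in Ω, ‖∑ l ∈ F, c l * ee l (x + s)‖ ^ 2 = volume.real Ω * ∑ l ∈ F, ‖c l‖ ^ 2 := by
  have hfin : IsFiniteMeasure ((volume : Measure (E d)).restrict Ω) :=
    ⟨by rw [Measure.restrict_apply_univ]; exact hb.measure_lt_top⟩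
  obtain ⟨b, hbb⟩ : ∃ b : E d → ℂ, ∀ l, b l = c l * ee l s := ⟨_, fun _ => rfl⟩
  have hbn : ∀ l, ‖b l‖ = ‖c l‖ := fun l => by rw [hbb, norm_mul, ee_norm, mul_one]
  have hint : ∀ l m : E d, Integrable (fun x => ee l x * conj (ee m x))
      ((volume : Measure (E d)).restrict Ω) := by
    intro l m
    refine Integrable.of_bound (C := 1) ?_ (Filter.Eventually.of_forall fun x => ?_)
    · exact ((ee_cont l).mul (Complex.continuous_conj.comp (ee_cont m))).aestronglyMeasurable
    · rw [norm_mul, RCLike.norm_conj, ee_norm, ee_norm, one_mul]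
  have hexp : ∀ x, ((‖∑ l ∈ F, c l * ee l (x + s)‖ ^ 2 : ℝ) : ℂ) =
      ∑ l ∈ F, ∑ m ∈ F, (b l * conj (b m)) * (ee l x * conj (ee m x)) := by
    intro x
    have h1 : ∑ l ∈ F, c l * ee l (x + s) = ∑ l ∈ F, b l * ee l x :=
      Finset.sum_congr rfl fun l _ => by rw [ee_add_right, hbb]; ring
    rw [h1]
    push_cast
    rw [← Complex.mul_conj', map_sum, Finset.sum_mul_sum]
    refine Finset.sum_congr rfl fun l _ => Finset.sum_congr rfl fun m _ => ?_
    rw [map_mul]
    ring
  have hdiag : ∀ l ∈ F, ∀ m ∈ F, ∫ x in Ω, (b l * conj (b m)) * (ee l x * conj (ee m x)) =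
      if l = m then (((volume.real Ω) * ‖c l‖ ^ 2 : ℝ) : ℂ) else 0 := by
    intro l hl m hm'
    rw [integral_const_mul]
    split_ifs with h
    · subst h
      have h1 : ∀ x, ee l x * conj (ee l x) = 1 := by
        intro x
        rw [RCLike.mul_conj, ee_norm]
        simp
      simp_rw [h1]
      rw [integral_const, RCLike.mul_conj, hbn]
      simp only [measureReal_restrict_apply_univ]
      push_cast
      rw [Complex.real_smul, mul_one]
      exact mul_comm _ _
    · rw [hs.1 l (hF l hl) m (hF m hm') h, mul_zero]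
  have key : ((∫ x in Ω, ‖∑ l ∈ F, c l * ee l (x + s)‖ ^ 2 : ℝ) : ℂ) =
      ((volume.real Ω * ∑ l ∈ F, ‖c l‖ ^ 2 : ℝ) : ℂ) := by
    rw [← integral_complex_ofReal]
    simp_rw [hexp]
    rw [integral_finset_sum _ (fun l _ => integrable_finset_sum _ fun m _ =>
      (hint l m).const_mul _)]
    have h2 : ∀ l ∈ F, ∫ x in Ω, ∑ m ∈ F, (b l * conj (b m)) * (ee l x * conj (ee m x)) =
        (((volume.real Ω) * ‖c l‖ ^ 2 : ℝ) : ℂ) := by
      intro l hl
      rw [integral_finset_sum _ (fun m _ => (hint l m).const_mul _),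
        Finset.sum_congr rfl (fun m hm' => hdiag l hl m hm'), Finset.sum_ite_eq, if_pos hl]
    rw [Finset.sum_congr rfl h2, Finset.mul_sum]
    push_cast
    rfl
  exact_mod_cast key

-- ===== leak_eq (job 21564)
theorem leak_fin (Ω : Set (E d)) (hb : Bornology.IsBounded Ω) :
    IsFiniteMeasure (volume.restrict Ω) := ⟨by
      rw [Measure.restrict_apply_univ]
      exact hb.measure_lt_top⟩

theorem leak_bdd_int (Ω : Set (E d)) (hb : Bornology.IsBounded Ω) (f : E d → ℂ)
    (hf : Measurable f) (C : ℝ) (hC : ∀ x, ‖f x‖ ≤ C) : Integrable f (volume.restrict Ω) := by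
  have := leak_fin Ω hb
  exact Integrable.of_bound hf.aestronglyMeasurable C (Filter.Eventually.of_forall hC)

theorem leak_T (v : ℝ) (F : Finset (E d)) (A : Set (E d)) (ξ x : E d) :
    T v F A ξ x = ∑ l ∈ F, ((v : ℂ)⁻¹ * hat A (l - ξ)) * ee l x := by
  unfold T
  rw [Finset.mul_sum]
  exact Finset.sum_congr rfl fun l _ => by ring

theorem leak_ee (l ξ x : E d) : ee ξ x * conj (ee l x) = conj (ee (l - ξ) x) := by
  rw [sub_eq_add_neg, ee_add, map_mul, ee_conj (-ξ), neg_neg]
  ring

theorem leak_sq (z w : ℂ) : ‖z - w‖ ^ 2 = ‖z‖ ^ 2 - 2 * (z * conj w).re + ‖w‖ ^ 2 := by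
  rw [Complex.sq_norm, Complex.sq_norm, Complex.sq_norm, Complex.normSq_sub]
  ring

-- TARGET
/-- the error of the partial sum in `L²(Ω)` -/
theorem leak_eq (Ω Λ : Set (E d)) (hm : MeasurableSet Ω) (hb : Bornology.IsBounded Ω)
    (h0 : 0 < volume Ω) (hs : IsSpectrum Ω Λ) (F : Finset (E d)) (hF : ∀ l ∈ F, l ∈ Λ)
    (A : Set (E d)) (hA : MeasurableSet A) (hAΩ : A ⊆ Ω) (ξ : E d) :
    ∫ x in Ω, ‖A.indicator (fun x => ee ξ x) x - T (volume.real Ω) F A ξ x‖ ^ 2
      = volume.real A - (volume.real Ω)⁻¹ * ∑ l ∈ F, ‖hat A (l - ξ)‖ ^ 2 := by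
  have hfin := leak_fin Ω hb
  obtain ⟨v, hv⟩ : ∃ v, v = volume.real Ω := ⟨_, rfl⟩
  have hv0 : 0 < v := by
    rw [hv]
    exact ENNReal.toReal_pos h0.ne' hb.measure_lt_top.ne
  rw [← hv]
  obtain ⟨f, hf⟩ : ∃ f : E d → ℂ, f = A.indicator (fun x => ee ξ x) := ⟨_, rfl⟩
  obtain ⟨c, hc⟩ : ∃ c : E d → ℂ, c = fun l => (v : ℂ)⁻¹ * hat A (l - ξ) := ⟨_, rfl⟩
  obtain ⟨p, hp⟩ : ∃ p : E d → ℂ, p = fun x => ∑ l ∈ F, c l * ee l x := ⟨_, rfl⟩
  have hpT : ∀ x, T v F A ξ x = p x := by
    intro x
    rw [leak_T, hp, hc]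
  have hfm : Measurable f := by
    rw [hf]
    exact (ee_cont ξ).measurable.indicator hA
  have hf1 : ∀ x, ‖f x‖ ≤ 1 := by
    intro x
    rw [hf]
    by_cases hx : x ∈ A
    · rw [Set.indicator_of_mem hx, ee_norm]
    · rw [Set.indicator_of_notMem hx, norm_zero]
      exact zero_le_one
  have hpc : Continuous p := by
    rw [hp]
    exact continuous_finsetSum _ fun l _ => continuous_const.mul (ee_cont l)
  have hpb : ∀ x, ‖p x‖ ≤ ∑ l ∈ F, ‖c l‖ := by
    intro x
    rw [hp]
    refine (norm_sum_le _ _).trans (Finset.sum_le_sum fun l _ => ?_)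
    rw [norm_mul, ee_norm, mul_one]
  have hS0 : 0 ≤ ∑ l ∈ F, ‖c l‖ := Finset.sum_nonneg fun l _ => norm_nonneg _
  have hcl : ∀ l, ‖c l‖ ^ 2 = (v⁻¹) ^ 2 * ‖hat A (l - ξ)‖ ^ 2 := by
    intro l
    rw [hc]
    simp only
    rw [norm_mul, mul_pow, norm_inv, Complex.norm_real, Real.norm_eq_abs, abs_of_pos hv0]
  -- the three integrals
  have hff : ∀ x, ‖f x‖ ^ 2 = A.indicator (fun _ => (1 : ℝ)) x := by
    intro x
    rw [hf]
    by_cases hx : x ∈ A
    · rw [Set.indicator_of_mem hx, Set.indicator_of_mem hx, ee_norm, one_pow]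
    · rw [Set.indicator_of_notMem hx, Set.indicator_of_notMem hx, norm_zero]
      norm_num
  have hΩA : Ω ∩ A = A := Set.inter_eq_right.2 hAΩ
  have hI1 : ∫ x in Ω, ‖f x‖ ^ 2 = volume.real A := by
    simp only [hff]
    rw [setIntegral_indicator hA, hΩA, setIntegral_const, smul_eq_mul, mul_one]
  have hI3 : ∫ x in Ω, ‖p x‖ ^ 2 = v⁻¹ * ∑ l ∈ F, ‖hat A (l - ξ)‖ ^ 2 := by
    have h := trans_orth Ω Λ hm hb hs F hF c 0
    simp only [add_zero] at h
    rw [hp]
    simp only
    rw [h, ← hv, Finset.mul_sum, Finset.mul_sum]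
    refine Finset.sum_congr rfl fun l _ => ?_
    rw [hcl]
    field_simp
  have hfp : Integrable (fun x => f x * conj (p x)) (volume.restrict Ω) := by
    apply leak_bdd_int Ω hb _ _ (1 * ∑ l ∈ F, ‖c l‖)
    · intro x
      rw [norm_mul]
      refine mul_le_mul (hf1 x) ?_ (norm_nonneg _) zero_le_one
      rw [RCLike.norm_conj]
      exact hpb x
    · exact hfm.mul (Complex.continuous_conj.measurable.comp hpc.measurable)
  have hI2 : ∫ x in Ω, f x * conj (p x) = ((v⁻¹ * ∑ l ∈ F, ‖hat A (l - ξ)‖ ^ 2 : ℝ) : ℂ) := by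
    have h1 : ∀ x, f x * conj (p x) = ∑ l ∈ F, conj (c l) * (A.indicator (fun x => conj (ee (l - ξ) x)) x) := by
      intro x
      rw [hp, hf]
      simp only
      rw [map_sum, Finset.mul_sum]
      refine Finset.sum_congr rfl fun l _ => ?_
      by_cases hx : x ∈ A
      · rw [Set.indicator_of_mem hx, Set.indicator_of_mem hx, ← leak_ee, map_mul]
        ring
      · rw [Set.indicator_of_notMem hx, Set.indicator_of_notMem hx]
        ring
    simp only [h1]
    rw [integral_finsetSum]
    · rw [Finset.mul_sum, Complex.ofReal_sum]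
      refine Finset.sum_congr rfl fun l _ => ?_
      rw [integral_const_mul, setIntegral_indicator hA, hΩA]
      show conj (c l) * hat A (l - ξ) = _
      rw [hc]
      simp only
      rw [map_mul, map_inv₀, Complex.conj_ofReal, mul_assoc, mul_comm (conj _) (hat _ _),
        Complex.mul_conj, Complex.normSq_eq_norm_sq]
      push_cast
      ring
    · intro l _
      apply Integrable.const_mul
      apply leak_bdd_int Ω hb _ _ 1
      · intro x
        by_cases hx : x ∈ A
        · rw [Set.indicator_of_mem hx, RCLike.norm_conj, ee_norm]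
        · rw [Set.indicator_of_notMem hx, norm_zero]
          exact zero_le_one
      · exact (Complex.continuous_conj.measurable.comp (ee_cont _).measurable).indicator hA
  have hi1 : Integrable (fun x => ‖f x‖ ^ 2) (volume.restrict Ω) := by
    simp only [hff]
    exact (integrable_const (1:ℝ)).indicator hA
  have hi3 : Integrable (fun x => ‖p x‖ ^ 2) (volume.restrict Ω) := by
    refine Integrable.of_bound (hpc.norm.pow 2).measurable.aestronglyMeasurable
      ((∑ l ∈ F, ‖c l‖) ^ 2) (Filter.Eventually.of_forall fun x => ?_)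
    rw [Real.norm_eq_abs, abs_of_nonneg (by positivity)]
    exact pow_le_pow_left₀ (norm_nonneg _) (hpb x) 2
  have hi2 : Integrable (fun x => 2 * (f x * conj (p x)).re) (volume.restrict Ω) :=
    hfp.re.const_mul 2
  have hre : ∫ x in Ω, (f x * conj (p x)).re = v⁻¹ * ∑ l ∈ F, ‖hat A (l - ξ)‖ ^ 2 := by
    have h1 := integral_re hfp
    rw [hI2] at h1
    exact h1
  have hint : ∀ x, ‖A.indicator (fun x => ee ξ x) x - T v F A ξ x‖ ^ 2 =
      ‖f x‖ ^ 2 - 2 * (f x * conj (p x)).re + ‖p x‖ ^ 2 := by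
    intro x
    rw [hpT, ← hf, leak_sq]
  simp only [hint]
  have hi12 : Integrable (fun x => ‖f x‖ ^ 2 - 2 * (f x * conj (p x)).re) (volume.restrict Ω) :=
    hi1.sub hi2
  rw [integral_add hi12 hi3, integral_sub hi1 hi2, integral_const_mul, hI1, hI3, hre]
  ring

-- ===== lower (job 21565)
theorem lower_T_eq (v : ℝ) (F : Finset (E d)) (A : Set (E d)) (ξ z : E d) :
    T v F A ξ z = ∑ l ∈ F, ((v : ℂ)⁻¹ * hat A (l - ξ)) * ee l z := by
  unfold T
  rw [Finset.mul_sum]
  apply Finset.sum_congr rfl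
  intro l _
  ring

theorem lower_T_cont (v : ℝ) (F : Finset (E d)) (A : Set (E d)) (ξ : E d) :
    Continuous (fun z => T v F A ξ z) := by
  have : (fun z => T v F A ξ z) = (fun z => ∑ l ∈ F, ((v : ℂ)⁻¹ * hat A (l - ξ)) * ee l z) := by
    funext z
    exact lower_T_eq v F A ξ z
  rw [this]
  exact continuous_finsetSum F (fun l _ => continuous_const.mul (ee_cont l))

theorem lower_int (f : E d → ℝ) (hf : Continuous f) (N : Set (E d)) (hNb : Bornology.IsBounded N) :
    IntegrableOn f N :=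
  (hf.continuousOn.integrableOn_compact hNb.isCompact_closure).mono_set subset_closure

theorem lower_orth (Ω Λ : Set (E d)) (hm : MeasurableSet Ω) (hb : Bornology.IsBounded Ω)
    (h0 : 0 < volume Ω) (hs : IsSpectrum Ω Λ) (F : Finset (E d)) (hF : ∀ l ∈ F, l ∈ Λ)
    (A : Set (E d)) (ξ s : E d) :
    ∫ x in Ω, ‖T (volume.real Ω) F A ξ (x + s)‖ ^ 2 =
      (volume.real Ω)⁻¹ * ∑ l ∈ F, ‖hat A (l - ξ)‖ ^ 2 := by
  have hv : 0 < volume.real Ω := ENNReal.toReal_pos h0.ne' hb.measure_lt_top.ne
  simp only [lower_T_eq]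
  rw [trans_orth Ω Λ hm hb hs F hF, Finset.mul_sum, Finset.mul_sum]
  apply Finset.sum_congr rfl
  intro l _
  rw [norm_mul, norm_inv, Complex.norm_real, Real.norm_of_nonneg hv.le, mul_pow]
  field_simp

-- TARGET
/-- the lower bound on a neighbourhood `N` -/
theorem lower (Ω Λ : Set (E d)) (hm : MeasurableSet Ω) (hb : Bornology.IsBounded Ω)
    (h0 : 0 < volume Ω) (hs : IsSpectrum Ω Λ) (F : Finset (E d)) (hF : ∀ l ∈ F, l ∈ Λ)
    (A : Set (E d)) (hA : MeasurableSet A) (hAΩ : A ⊆ Ω) (ξ s : E d)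
    (N : Set (E d)) (hN : MeasurableSet N) (hNb : Bornology.IsBounded N) (hAN : A ⊆ N)
    (hsN : ∀ x ∈ Ω, x + s ∈ N) (hsA : ∀ x ∈ Ω, x + s ∉ A) :
    2 * volume.real A - 3 * (volume.real A - (volume.real Ω)⁻¹ * ∑ l ∈ F, ‖hat A (l - ξ)‖ ^ 2)
      ≤ ∫ z in N, ‖T (volume.real Ω) F A ξ z‖ ^ 2 := by
  obtain ⟨q, hq⟩ : ∃ q : E d → ℝ, ∀ z, q z = ‖T (volume.real Ω) F A ξ z‖ ^ 2 := ⟨_, fun _ => rfl⟩
  obtain ⟨S, hS⟩ : ∃ S : ℝ, S = (volume.real Ω)⁻¹ * ∑ l ∈ F, ‖hat A (l - ξ)‖ ^ 2 := ⟨_, rfl⟩
  have hq0 : ∀ z, 0 ≤ q z := by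
    intro z
    rw [hq]
    positivity
  have hqc : Continuous q := by
    have : q = fun z => ‖T (volume.real Ω) F A ξ z‖ ^ 2 := funext hq
    rw [this]
    exact (lower_T_cont _ F A ξ).norm.pow 2
  simp only [← hq]
  rw [← hS]
  have hΩi : IntegrableOn q Ω := lower_int q hqc Ω hb
  have hNi : IntegrableOn q N := lower_int q hqc N hNb
  -- translate
  have htr : ∫ z in (fun x => x + s) '' Ω, q z = S := by
    rw [(measurePreserving_add_right volume s).setIntegral_image_emb (measurableEmbedding_addRight s) q Ω, hS,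
      ← lower_orth Ω Λ hm hb h0 hs F hF A ξ s]
    simp only [hq]
  have hΩq : ∫ z in Ω, q z = S := by
    rw [hS, ← lower_orth Ω Λ hm hb h0 hs F hF A ξ 0]
    simp only [hq, add_zero]
  have hleak : ∫ z in Ω \ A, q z ≤ volume.real A - S := by
    rw [hS, ← leak_eq Ω Λ hm hb h0 hs F hF A hA hAΩ ξ]
    have h1 : ∫ z in Ω \ A, q z = ∫ x in Ω \ A, ‖A.indicator (fun x => ee ξ x) x - T (volume.real Ω) F A ξ x‖ ^ 2 := by
      apply setIntegral_congr_fun (hm.diff hA)
      intro x hx
      show q x = ‖A.indicator (fun x => ee ξ x) x - T (volume.real Ω) F A ξ x‖ ^ 2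
      rw [Set.indicator_of_notMem hx.2, zero_sub, norm_neg, hq]
    rw [h1]
    apply setIntegral_mono_set
    · -- integrability
      have h2 : Measurable (fun x => ‖A.indicator (fun x => ee ξ x) x - T (volume.real Ω) F A ξ x‖ ^ 2) :=
        (((ee_cont ξ).measurable.indicator hA).sub (lower_T_cont _ F A ξ).measurable).norm.pow_const 2
      have h3 : IntegrableOn (fun x => 2 * (1 + q x)) Ω := by
        have h4 : Continuous (fun x => 2 * (1 + q x)) := by fun_prop
        exact lower_int _ h4 Ω hb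
      apply Integrable.mono' h3 h2.aestronglyMeasurable
      apply Filter.Eventually.of_forall
      intro x
      have h5 : ‖A.indicator (fun x => ee ξ x) x‖ ≤ 1 := by
        by_cases hx : x ∈ A
        · rw [Set.indicator_of_mem hx, ee_norm]
        · rw [Set.indicator_of_notMem hx, norm_zero]
          norm_num
      have h6 := norm_sub_le (A.indicator (fun x => ee ξ x) x) (T (volume.real Ω) F A ξ x)
      rw [Real.norm_of_nonneg (sq_nonneg _), hq]
      have h7 := norm_nonneg (A.indicator (fun x => ee ξ x) x)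
      have h8 := norm_nonneg (T (volume.real Ω) F A ξ x)
      have h9 := norm_nonneg (A.indicator (fun x => ee ξ x) x - T (volume.real Ω) F A ξ x)
      nlinarith [sq_nonneg (‖A.indicator (fun x => ee ξ x) x‖ - ‖T (volume.real Ω) F A ξ x‖)]
    · apply Filter.Eventually.of_forall
      intro x
      exact sq_nonneg _
    · exact Filter.Eventually.of_forall (fun x hx => hx.1)
  have hsplit : ∫ z in Ω, q z = (∫ z in A, q z) + ∫ z in Ω \ A, q z := by
    have h1 := setIntegral_sdiff hA hΩi hAΩ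
    linarith
  have hdisj : Disjoint A ((fun x => x + s) '' Ω) := by
    rw [Set.disjoint_left]
    rintro x hx ⟨y, hy, rfl⟩
    exact hsA y hy hx
  have himm : MeasurableSet ((fun x => x + s) '' Ω) :=
    (measurableEmbedding_addRight s).measurableSet_image.mpr hm
  have hsub : (fun x => x + s) '' Ω ⊆ N := by
    rintro x ⟨y, hy, rfl⟩
    exact hsN y hy
  have hun : ∫ z in A ∪ ((fun x => x + s) '' Ω), q z = (∫ z in A, q z) + ∫ z in (fun x => x + s) '' Ω, q z :=
    setIntegral_union hdisj himm (hNi.mono_set hAN) (hNi.mono_set hsub)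
  have hle : ∫ z in A ∪ ((fun x => x + s) '' Ω), q z ≤ ∫ z in N, q z := by
    apply setIntegral_mono_set hNi
    · exact Filter.Eventually.of_forall (fun x => hq0 x)
    · exact Filter.Eventually.of_forall (fun x hx => (Set.union_subset hAN hsub) hx)
  linarith

-- ===== upper (job 21567)
theorem upper_ee_neg (l x : E d) : ee l (-x) = ee (-l) x := by
  unfold ee
  rw [inner_neg_right, inner_neg_left]

theorem upper_ee_cont_left (x : E d) : Continuous (fun l : E d => ee l x) := by
  unfold ee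
  fun_prop

theorem upper_hat_cont (A : Set (E d)) (hfin : volume A < ⊤) : Continuous (hat A) := by
  haveI : IsFiniteMeasure (volume.restrict A) := ⟨by rw [Measure.restrict_apply_univ]; exact hfin⟩
  unfold hat
  refine continuous_of_dominated (F := fun (w : E d) (x : E d) => conj (ee w x))
    (bound := fun _ => 1) ?_ ?_ ?_ ?_
  · intro w
    exact (Complex.continuous_conj.comp (ee_cont w)).aestronglyMeasurable
  · intro w
    refine Filter.Eventually.of_forall (fun x => ?_)
    rw [RCLike.norm_conj, ee_norm]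
  · exact integrable_const _
  · refine Filter.Eventually.of_forall (fun x => ?_)
    exact Complex.continuous_conj.comp (upper_ee_cont_left x)

theorem upper_hat_le (A : Set (E d)) (hfin : volume A < ⊤) (w : E d) :
    ‖hat A w‖ ≤ volume.real A := by
  unfold hat
  have := norm_setIntegral_le_of_norm_le_const (μ := volume) (s := A) (f := fun x => conj (ee w x))
    (C := 1) hfin (fun x _ => by rw [RCLike.norm_conj, ee_norm])
  simpa using this

theorem upper_T_eq (v : ℝ) (F : Finset (E d)) (A : Set (E d)) (hfin : volume A < ⊤) (ξ z : E d) :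
    T v F A ξ z = (v : ℂ)⁻¹ * ∫ x in A, (∑ l ∈ F, ee l (z - x)) * conj (ee (-ξ) x) := by
  haveI : IsFiniteMeasure (volume.restrict A) := ⟨by rw [Measure.restrict_apply_univ]; exact hfin⟩
  unfold T hat
  congr 1
  have hpt : ∀ (l x : E d), conj (ee (l - ξ) x) * ee l z = ee l (z - x) * conj (ee (-ξ) x) := by
    intro l x
    rw [ee_conj, ee_conj, neg_neg, neg_sub, sub_eq_add_neg ξ l, ee_add, sub_eq_add_neg z x,
      ee_add_right, upper_ee_neg]
    ring
  have hint : ∀ l ∈ F, Integrable (fun x => ee l (z - x) * conj (ee (-ξ) x)) (volume.restrict A) := by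
    intro l _
    refine Integrable.of_bound (C := 1) ?_ ?_
    · refine Continuous.aestronglyMeasurable ?_
      exact ((ee_cont l).comp (continuous_const.sub continuous_id)).mul
        (Complex.continuous_conj.comp (ee_cont (-ξ)))
    · refine Filter.Eventually.of_forall (fun x => ?_)
      rw [norm_mul, RCLike.norm_conj, ee_norm, ee_norm, one_mul]
  calc ∑ l ∈ F, (∫ x in A, conj (ee (l - ξ) x)) * ee l z
      = ∑ l ∈ F, ∫ x in A, ee l (z - x) * conj (ee (-ξ) x) := by
        refine Finset.sum_congr rfl (fun l _ => ?_)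
        rw [← integral_mul_const]
        exact integral_congr_ae (Filter.Eventually.of_forall fun x => hpt l x)
    _ = ∫ x in A, ∑ l ∈ F, ee l (z - x) * conj (ee (-ξ) x) := (integral_finset_sum F hint).symm
    _ = ∫ x in A, (∑ l ∈ F, ee l (z - x)) * conj (ee (-ξ) x) := by
        refine integral_congr_ae (Filter.Eventually.of_forall fun x => ?_)
        simp only [Finset.sum_mul]

theorem upper_T_cont (v : ℝ) (F : Finset (E d)) (A : Set (E d)) (hfin : volume A < ⊤) :
    Continuous (fun p : E d × E d => T v F A p.1 p.2) := by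
  unfold T
  refine continuous_const.mul (continuous_finset_sum _ fun l _ => ?_)
  exact ((upper_hat_cont A hfin).comp (continuous_const.sub continuous_fst)).mul
    ((ee_cont l).comp continuous_snd)

theorem upper_T_le (v : ℝ) (F : Finset (E d)) (A : Set (E d)) (hfin : volume A < ⊤) (ξ z : E d) :
    ‖T v F A ξ z‖ ≤ |v|⁻¹ * (F.card * volume.real A) := by
  unfold T
  rw [norm_mul, norm_inv, Complex.norm_real, Real.norm_eq_abs]
  refine mul_le_mul_of_nonneg_left ?_ (by positivity)
  refine (norm_sum_le _ _).trans ?_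
  rw [← nsmul_eq_mul]
  refine Finset.sum_le_card_nsmul _ _ _ (fun l _ => ?_)
  rw [norm_mul, ee_norm, mul_one]
  exact upper_hat_le A hfin _

/-- the full integral over the frequencies, for fixed `z` -/
theorem upper_fix (v : ℝ) (F : Finset (E d)) (A : Set (E d)) (hA : MeasurableSet A)
    (hAb : Bornology.IsBounded A) (z : E d) :
    Integrable (fun ξ : E d => ‖T v F A ξ z‖ ^ 2) ∧
    ∫ ξ : E d, ‖T v F A ξ z‖ ^ 2 = (v ^ 2)⁻¹ * ∫ x in A, ‖∑ l ∈ F, ee l (z - x)‖ ^ 2 := by
  have hfin : volume A < ⊤ := hAb.measure_lt_top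
  have hDc : Continuous (fun x : E d => ∑ l ∈ F, ee l (z - x)) :=
    continuous_finset_sum _ fun l _ => (ee_cont l).comp (continuous_const.sub continuous_id)
  obtain ⟨p1, p2⟩ := planch (fun x : E d => ∑ l ∈ F, ee l (z - x)) hDc.measurable A hA hAb F.card
    (fun x => by
      refine (norm_sum_le _ _).trans ?_
      have : ∑ l ∈ F, ‖ee l (z - x)‖ ≤ F.card • (1 : ℝ) :=
        Finset.sum_le_card_nsmul _ _ _ (fun l _ => by rw [ee_norm])
      simpa using this)
  have e : (fun ξ : E d => ‖T v F A ξ z‖ ^ 2) = fun ξ : E d => (v ^ 2)⁻¹ *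
      ‖∫ x in A, (∑ l ∈ F, ee l (z - x)) * conj (ee (-ξ) x)‖ ^ 2 := by
    funext ξ
    rw [upper_T_eq v F A hfin, norm_mul, mul_pow, norm_inv, Complex.norm_real, inv_pow,
      Real.norm_eq_abs, sq_abs]
  rw [e]
  constructor
  · exact (p1.comp_neg).const_mul _
  · rw [integral_const_mul]
    congr 1
    rw [← p2]
    exact integral_neg_eq_self (fun w : E d => ‖∫ x in A, (∑ l ∈ F, ee l (z - x)) * conj (ee w x)‖ ^ 2)
      volume

-- TARGET
/-- the exact formula for the average over all frequencies -/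
theorem upper (Ω Λ : Set (E d)) (hm : MeasurableSet Ω) (hb : Bornology.IsBounded Ω)
    (h0 : 0 < volume Ω) (hs : IsSpectrum Ω Λ) (F : Finset (E d)) (hF : ∀ l ∈ F, l ∈ Λ)
    (N : Set (E d)) (hN : MeasurableSet N) (hNb : Bornology.IsBounded N)
    (n : ℕ) (A : Fin n → Set (E d)) (hA : ∀ i, MeasurableSet (A i))
    (hdisj : Pairwise (fun i j => Disjoint (A i) (A j))) (hU : ⋃ i, A i = Ω) (R : ℝ) :
    ∑ i, ∫ ξ in ball (0 : E d) R, ∫ z in N, ‖T (volume.real Ω) F (A i) ξ z‖ ^ 2
      ≤ F.card * volume.real N / volume.real Ω := by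
  set v := volume.real Ω with hv
  have hvpos : 0 < v := by
    rw [hv, Measure.real]
    exact ENNReal.toReal_pos h0.ne' hb.measure_lt_top.ne
  have hAb : ∀ i, Bornology.IsBounded (A i) := fun i =>
    hb.subset (by rw [← hU]; exact subset_iUnion A i)
  have hAfin : ∀ i, volume (A i) < ⊤ := fun i => (hAb i).measure_lt_top
  haveI hf1 : IsFiniteMeasure (volume.restrict (ball (0 : E d) R)) :=
    ⟨by rw [Measure.restrict_apply_univ]; exact measure_ball_lt_top⟩
  haveI hf2 : IsFiniteMeasure (volume.restrict N) :=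
    ⟨by rw [Measure.restrict_apply_univ]; exact hNb.measure_lt_top⟩
  -- joint integrability
  have hjoint : ∀ i, Integrable (Function.uncurry fun (ξ z : E d) => ‖T v F (A i) ξ z‖ ^ 2)
      ((volume.restrict (ball (0 : E d) R)).prod (volume.restrict N)) := by
    intro i
    refine Integrable.of_bound (C := (|v|⁻¹ * (F.card * volume.real (A i))) ^ 2) ?_ ?_
    · exact ((upper_T_cont v F (A i) (hAfin i)).norm.pow 2).aestronglyMeasurable
    · refine Filter.Eventually.of_forall (fun p => ?_)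
      simp only [Function.uncurry]
      rw [norm_pow, norm_norm]
      exact pow_le_pow_left₀ (norm_nonneg _) (upper_T_le v F (A i) (hAfin i) _ _) 2
  have hswap : ∀ i, ∫ ξ in ball (0 : E d) R, ∫ z in N, ‖T v F (A i) ξ z‖ ^ 2
      = ∫ z in N, ∫ ξ in ball (0 : E d) R, ‖T v F (A i) ξ z‖ ^ 2 := fun i =>
    integral_integral_swap (hjoint i)
  have hint2 : ∀ i ∈ (Finset.univ : Finset (Fin n)),
      Integrable (fun z => ∫ ξ in ball (0 : E d) R, ‖T v F (A i) ξ z‖ ^ 2) (volume.restrict N) :=
    fun i _ => (hjoint i).integral_prod_right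
  rw [Finset.sum_congr rfl (fun i _ => hswap i), ← integral_finset_sum _ hint2]
  -- pointwise bound
  have hpt : ∀ z : E d, ∑ i, ∫ ξ in ball (0 : E d) R, ‖T v F (A i) ξ z‖ ^ 2 ≤ F.card / v := by
    intro z
    have h1 : ∀ i, ∫ ξ in ball (0 : E d) R, ‖T v F (A i) ξ z‖ ^ 2 ≤
        (v ^ 2)⁻¹ * ∫ x in A i, ‖∑ l ∈ F, ee l (z - x)‖ ^ 2 := by
      intro i
      obtain ⟨q1, q2⟩ := upper_fix v F (A i) (hA i) (hAb i) z
      rw [← q2]
      exact setIntegral_le_integral q1 (Filter.Eventually.of_forall fun ξ => by positivity)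
    refine (Finset.sum_le_sum fun i _ => h1 i).trans ?_
    rw [← Finset.mul_sum]
    have hDc : Continuous (fun x : E d => ‖∑ l ∈ F, ee l (z - x)‖ ^ 2) :=
      (continuous_finset_sum _ fun l _ =>
        (ee_cont l).comp (continuous_const.sub continuous_id)).norm.pow 2
    have hDi : ∀ i, IntegrableOn (fun x : E d => ‖∑ l ∈ F, ee l (z - x)‖ ^ 2) (A i) := by
      intro i
      haveI : IsFiniteMeasure (volume.restrict (A i)) :=
        ⟨by rw [Measure.restrict_apply_univ]; exact hAfin i⟩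
      refine Integrable.of_bound (C := (F.card : ℝ) ^ 2) hDc.aestronglyMeasurable ?_
      refine Filter.Eventually.of_forall (fun x => ?_)
      rw [norm_pow, norm_norm]
      refine pow_le_pow_left₀ (norm_nonneg _) ?_ 2
      refine (norm_sum_le _ _).trans ?_
      have : ∑ l ∈ F, ‖ee l (z - x)‖ ≤ F.card • (1 : ℝ) :=
        Finset.sum_le_card_nsmul _ _ _ (fun l _ => by rw [ee_norm])
      simpa using this
    have h2 : ∑ i, ∫ x in A i, ‖∑ l ∈ F, ee l (z - x)‖ ^ 2
        = ∫ x in Ω, ‖∑ l ∈ F, ee l (z - x)‖ ^ 2 := by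
      rw [← hU, integral_iUnion_fintype hA hdisj hDi]
    have h3 : ∫ x in Ω, ‖∑ l ∈ F, ee l (z - x)‖ ^ 2 = v * F.card := by
      have h4 := trans_orth Ω Λ hm hb hs F hF (fun _ => 1) (-z)
      have h5 : ∀ x : E d, ‖∑ l ∈ F, (1 : ℂ) * ee l (x + -z)‖ = ‖∑ l ∈ F, ee l (z - x)‖ := by
        intro x
        rw [← RCLike.norm_conj (∑ l ∈ F, ee l (z - x)), map_sum]
        congr 1
        refine Finset.sum_congr rfl (fun l _ => ?_)
        rw [one_mul, ee_conj, ← upper_ee_neg]
        congr 1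
        abel
      simp only [h5] at h4
      rw [h4, ← hv]
      simp
    rw [h2, h3]
    apply le_of_eq
    field_simp
  calc ∫ z in N, ∑ i, ∫ ξ in ball (0 : E d) R, ‖T v F (A i) ξ z‖ ^ 2
      ≤ ∫ z in N, (F.card / v : ℝ) :=
        integral_mono (integrable_finset_sum _ hint2) (integrable_const _) hpt
    _ = F.card * volume.real N / v := by
        rw [setIntegral_const, smul_eq_mul]
        ring

-- ===== count (job 21569)
-- TARGET
/-- the counting bound -/
theorem count (Ω Λ : Set (E d)) (hm : MeasurableSet Ω) (hb : Bornology.IsBounded Ω)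
    (h0 : 0 < volume Ω) (hs : IsSpectrum Ω Λ) (κ ρ₀ : ℝ)
    (hκ : (1 - κ) * volume.real Ω ≤ ∫ u in ball (0 : E d) ρ₀, ‖hat Ω u‖ ^ 2)
    (t : E d) (R : ℝ) (hR : 0 < R) (hρ : 0 < ρ₀) (F : Finset (E d)) (hF : ∀ l ∈ F, l ∈ Λ)
    (hFt : ∀ l ∈ F, l ∈ ball t R) :
    (F.card : ℝ) * (1 - κ) ≤ volume.real Ω * volume.real (ball (0 : E d) (R + ρ₀)) := by
  classical
  have hV : 0 < volume.real Ω := ENNReal.toReal_pos h0.ne' hb.measure_lt_top.ne
  have hcont : Continuous (fun u : E d => ‖hat Ω u‖ ^ 2) := (hat_cont Ω hm hb).norm.pow 2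
  have h1 : ∀ ξ : E d, ∑ l ∈ F, ‖hat Ω (l - ξ)‖ ^ 2 ≤ volume.real Ω * volume.real Ω := by
    intro ξ
    have hp := parseval Ω Λ hm hb h0 hs Ω hm (subset_refl Ω) ξ
    have h2 := sum_le_hasSum (F.subtype (· ∈ Λ)) (fun _ _ => by positivity) hp
    rwa [Finset.sum_subtype_of_mem (fun l : E d => ‖hat Ω (l - ξ)‖ ^ 2) hF] at h2
  have hci : ∀ l : E d, IntegrableOn (fun ξ : E d => ‖hat Ω (l - ξ)‖ ^ 2)
      (ball t (R + ρ₀)) volume := by
    intro l
    have hc : Continuous (fun ξ : E d => ‖hat Ω (l - ξ)‖ ^ 2) :=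
      hcont.comp (continuous_const.sub continuous_id)
    exact (hc.continuousOn.integrableOn_compact (isCompact_closedBall t (R + ρ₀))).mono_set
      ball_subset_closedBall
  have h2 : ∫ ξ in ball t (R + ρ₀), ∑ l ∈ F, ‖hat Ω (l - ξ)‖ ^ 2 ≤
      volume.real Ω * volume.real Ω * volume.real (ball t (R + ρ₀)) := by
    calc ∫ ξ in ball t (R + ρ₀), ∑ l ∈ F, ‖hat Ω (l - ξ)‖ ^ 2
        ≤ ∫ ξ in ball t (R + ρ₀), (volume.real Ω * volume.real Ω) := by
          apply setIntegral_mono
          · exact integrable_finsetSum F (fun l _ => hci l)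
          · exact integrableOn_const (measure_ball_lt_top.ne)
          · exact h1
      _ = volume.real Ω * volume.real Ω * volume.real (ball t (R + ρ₀)) := by
          rw [setIntegral_const, smul_eq_mul, mul_comm]
  have h3 : ∀ l ∈ F, ∫ u in ball (0 : E d) ρ₀, ‖hat Ω u‖ ^ 2 ≤
      ∫ ξ in ball t (R + ρ₀), ‖hat Ω (l - ξ)‖ ^ 2 := by
    intro l hl
    have e1 : ∫ u in ball (0 : E d) ρ₀, ‖hat Ω u‖ ^ 2 =
        ∫ ξ in ball l ρ₀, ‖hat Ω (l - ξ)‖ ^ 2 := by
      rw [← integral_indicator measurableSet_ball, ← integral_indicator measurableSet_ball,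
        ← integral_sub_left_eq_self _ volume l]
      congr 1
      funext ξ
      by_cases hξ : ξ ∈ ball l ρ₀
      · rw [Set.indicator_of_mem hξ, Set.indicator_of_mem]
        rw [mem_ball_zero_iff, ← dist_eq_norm, dist_comm]
        exact hξ
      · rw [Set.indicator_of_notMem hξ, Set.indicator_of_notMem]
        rw [mem_ball_zero_iff, ← dist_eq_norm, dist_comm]
        exact hξ
    rw [e1]
    apply setIntegral_mono_set (hci l)
    · exact Filter.Eventually.of_forall fun ξ => by positivity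
    · apply HasSubset.Subset.eventuallyLE
      apply ball_subset_ball'
      have := hFt l hl
      rw [mem_ball] at this
      linarith
  have h4 : (F.card : ℝ) * ((1 - κ) * volume.real Ω) ≤
      volume.real Ω * volume.real Ω * volume.real (ball t (R + ρ₀)) := by
    calc (F.card : ℝ) * ((1 - κ) * volume.real Ω)
        = ∑ l ∈ F, ((1 - κ) * volume.real Ω) := by rw [Finset.sum_const, nsmul_eq_mul]
      _ ≤ ∑ l ∈ F, ∫ ξ in ball t (R + ρ₀), ‖hat Ω (l - ξ)‖ ^ 2 :=
          Finset.sum_le_sum fun l hl => hκ.trans (h3 l hl)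
      _ = ∫ ξ in ball t (R + ρ₀), ∑ l ∈ F, ‖hat Ω (l - ξ)‖ ^ 2 := by
          rw [integral_finsetSum F (fun l _ => hci l)]
      _ ≤ _ := h2
  have hball : volume.real (ball t (R + ρ₀)) = volume.real (ball (0 : E d) (R + ρ₀)) := by
    rw [Measure.real, Measure.real, Measure.addHaar_ball_center]
  rw [hball] at h4
  have h5 : ((F.card : ℝ) * (1 - κ)) * volume.real Ω ≤
      (volume.real Ω * volume.real (ball (0 : E d) (R + ρ₀))) * volume.real Ω := by
    calc ((F.card : ℝ) * (1 - κ)) * volume.real Ω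
        = (F.card : ℝ) * ((1 - κ) * volume.real Ω) := by ring
      _ ≤ _ := h4
      _ = _ := by ring
  exact le_of_mul_le_mul_right h5 hV

-- ===== tail (job 21570)
-- TARGET
/-- tails of `hat A` are small -/
theorem tail (A : Set (E d)) (hA : MeasurableSet A) (hAb : Bornology.IsBounded A)
    (δ : ℝ) (hδ : 0 < δ) : ∃ ρ₀ : ℝ, 0 < ρ₀ ∧ ∀ ρ ≥ ρ₀,
      volume.real A - δ ≤ ∫ u in ball (0 : E d) ρ, ‖hat A u‖ ^ 2 ∧
      ∫ u in (ball (0 : E d) ρ)ᶜ, ‖hat A u‖ ^ 2 ≤ δ := by
  obtain ⟨h1, h2⟩ := planch (fun _ : E d => (1 : ℂ)) measurable_const A hA hAb 1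
    (fun x => by rw [norm_one])
  have e1 : (fun w : E d => ‖∫ x in A, (1 : ℂ) * conj (ee w x)‖ ^ 2) =
      fun w => ‖hat A w‖ ^ 2 := by
    funext w
    simp only [one_mul, hat]
  have hI : Integrable (fun w : E d => ‖hat A w‖ ^ 2) := by
    rw [← e1]
    exact h1
  have hV : ∫ w : E d, ‖hat A w‖ ^ 2 = volume.real A := by
    have e2 : ∫ w : E d, ‖hat A w‖ ^ 2 = ∫ w : E d, ‖∫ x in A, (1 : ℂ) * conj (ee w x)‖ ^ 2 := by
      rw [e1]
    rw [e2, h2]
    simp
  have hnn : ∀ w : E d, 0 ≤ ‖hat A w‖ ^ 2 := fun w => sq_nonneg _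
  have hlim := tendsto_setIntegral_of_monotone (μ := (volume : Measure (E d)))
    (s := fun n : ℕ => ball (0 : E d) (n : ℝ)) (f := fun w => ‖hat A w‖ ^ 2)
    (fun n => measurableSet_ball)
    (fun n k hnk => ball_subset_ball (by exact_mod_cast hnk)) hI.integrableOn
  rw [iUnion_ball_nat, Measure.restrict_univ, hV] at hlim
  have hev := hlim.eventually (lt_mem_nhds (show volume.real A - δ < volume.real A by linarith))
  obtain ⟨N, hN⟩ := Filter.eventually_atTop.1 hev
  refine ⟨(N : ℝ) + 1, by positivity, fun ρ hρ => ?_⟩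
  have h3 : volume.real A - δ ≤ ∫ u in ball (0 : E d) ρ, ‖hat A u‖ ^ 2 := by
    refine (hN N le_rfl).le.trans ?_
    refine setIntegral_mono_set hI.integrableOn (Filter.Eventually.of_forall hnn) ?_
    exact (ball_subset_ball (by linarith)).eventuallyLE
  refine ⟨h3, ?_⟩
  have h4 := integral_add_compl (μ := (volume : Measure (E d)))
    (measurableSet_ball : MeasurableSet (ball (0 : E d) ρ)) hI
  rw [hV] at h4
  linarith

-- ===== leak_avg (job 21572)
theorem leak_count (Λ : Set (E d)) (R : ℝ) (hR : 0 < R) (C : ℝ)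
    (hC : ∀ t : E d, ∀ F : Finset (E d), (∀ l ∈ F, l ∈ Λ) → (∀ l ∈ F, l ∈ ball t R) →
      (F.card : ℝ) ≤ C) : Λ.Countable := by
  obtain ⟨s, hs, hcov⟩ := TopologicalSpace.countable_cover_nhds (fun x : E d => ball_mem_nhds x hR)
  have h1 : Λ = ⋃ x ∈ s, (Λ ∩ ball x R) := by
    ext l
    constructor
    · intro hl
      have : l ∈ ⋃ x ∈ s, ball x R := by rw [hcov]; trivial
      rw [Set.mem_iUnion₂] at this ⊢
      obtain ⟨x, hx, hlx⟩ := this
      exact ⟨x, hx, hl, hlx⟩
    · intro hl
      rw [Set.mem_iUnion₂] at hl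
      obtain ⟨x, hx, hl, _⟩ := hl
      exact hl
  rw [h1]
  refine hs.biUnion (fun x _ => Set.Finite.countable ?_)
  by_contra hinf
  obtain ⟨n, hn⟩ := exists_nat_gt C
  obtain ⟨G, hG, hcard⟩ := Set.Infinite.exists_subset_card_eq hinf n
  have := hC x G (fun l hl => (hG hl).1) (fun l hl => (hG hl).2)
  rw [hcard] at this
  linarith

-- TARGET
/-- the average of the errors -/
theorem leak_avg (Ω Λ : Set (E d)) (hm : MeasurableSet Ω) (hb : Bornology.IsBounded Ω)
    (h0 : 0 < volume Ω) (hs : IsSpectrum Ω Λ) (R ρ : ℝ) (hR : 0 < R) (hρ : 0 < ρ)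
    (C : ℝ) (hC : ∀ t : E d, ∀ F : Finset (E d), (∀ l ∈ F, l ∈ Λ) → (∀ l ∈ F, l ∈ ball t R) →
      (F.card : ℝ) ≤ C)
    (F : Finset (E d)) (hF : ∀ l, l ∈ F ↔ l ∈ Λ ∧ l ∈ ball (0 : E d) (R + ρ))
    (A : Set (E d)) (hA : MeasurableSet A) (hAΩ : A ⊆ Ω) :
    ∫ ξ in ball (0 : E d) R,
      (volume.real A - (volume.real Ω)⁻¹ * ∑ l ∈ F, ‖hat A (l - ξ)‖ ^ 2)
      ≤ (volume.real Ω)⁻¹ * C * ∫ u in (ball (0 : E d) ρ)ᶜ, ‖hat A u‖ ^ 2 := by
  classical
  have hAb : Bornology.IsBounded A := hb.subset hAΩ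
  have hcont := hat_cont A hA hAb
  have hcount := leak_count Λ R hR C hC
  have hC0 : 0 ≤ C := by
    have := hC 0 ∅ (by simp) (by simp)
    simpa using this
  have hv : 0 < volume.real Ω := by
    refine ENNReal.toReal_pos h0.ne' ?_
    exact hb.measure_lt_top.ne
  obtain ⟨v, hvdef⟩ : ∃ v, v = volume.real Ω := ⟨_, rfl⟩
  rw [← hvdef] at hv ⊢
  have : Countable Λ := hcount.to_subtype
  obtain ⟨W, hW⟩ : ∃ W : E d → ℝ, W = fun u => ‖hat A u‖ ^ 2 := ⟨_, rfl⟩
  have hWc : Continuous W := by rw [hW]; exact hcont.norm.pow 2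
  have hW0 : ∀ u, 0 ≤ W u := by intro u; rw [hW]; positivity
  have hWi : Integrable W := by
    have := (planch (fun _ => 1) measurable_const A hA hAb 1 (by simp)).1
    rw [hW]
    simpa [hat] using this
  have hgoal : ∫ ξ in ball (0 : E d) R,
      (volume.real A - v⁻¹ * ∑ l ∈ F, W (l - ξ)) ≤ v⁻¹ * C * ∫ u in (ball (0 : E d) ρ)ᶜ, W u := by
    -- the sum over the complement of F
    have hsum : ∀ ξ, HasSum (fun l : Λ => if (l : E d) ∈ F then 0 else W ((l : E d) - ξ))
        (v * volume.real A - ∑ l ∈ F, W (l - ξ)) := by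
      intro ξ
      have h1 := parseval Ω Λ hm hb h0 hs A hA hAΩ ξ
      rw [← hvdef] at h1
      have h1' : HasSum (fun l : Λ => W ((l : E d) - ξ)) (v * volume.real A) := by
        rw [hW]; exact h1
      have h2 : HasSum (fun l : Λ => if (l : E d) ∈ F then W ((l : E d) - ξ) else 0)
          (∑ l ∈ F, W (l - ξ)) := by
        have h3 : HasSum (fun l : Λ => if (l : E d) ∈ F then W ((l : E d) - ξ) else 0)
            (∑ l ∈ F.subtype (· ∈ Λ), (if (l : E d) ∈ F then W ((l : E d) - ξ) else 0)) :=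
          hasSum_sum_of_ne_finset_zero (by
            intro l hl
            rw [Finset.mem_subtype] at hl
            exact if_neg hl)
        have h4 : ∑ l ∈ F.subtype (· ∈ Λ), (if (l : E d) ∈ F then W ((l : E d) - ξ) else 0) =
            ∑ l ∈ F, (if l ∈ F then W (l - ξ) else 0) :=
          Finset.sum_subtype_of_mem (fun l => if l ∈ F then W (l - ξ) else 0) (fun l hl => ((hF l).1 hl).1)
        rw [h4, Finset.sum_congr rfl (fun l hl => by rw [if_pos hl] : ∀ l ∈ F, (if l ∈ F then W (l - ξ) else 0) = W (l - ξ))] at h3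
        exact h3
      have h5 := h1'.sub h2
      have h6 : (fun l : Λ => if (l : E d) ∈ F then 0 else W ((l : E d) - ξ)) =
          fun l : Λ => W ((l : E d) - ξ) - (if (l : E d) ∈ F then W ((l : E d) - ξ) else 0) := by
        funext l
        by_cases hl : (l : E d) ∈ F
        · simp [hl]
        · simp [hl]
      rw [h6]
      exact h5
    have hfun : ∀ ξ, volume.real A - v⁻¹ * ∑ l ∈ F, W (l - ξ) =
        v⁻¹ * ∑' l : Λ, (if (l : E d) ∈ F then 0 else W ((l : E d) - ξ)) := by
      intro ξ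
      rw [(hsum ξ).tsum_eq]
      field_simp
    have hnn : ∀ ξ, ∀ l : Λ, 0 ≤ (if (l : E d) ∈ F then 0 else W ((l : E d) - ξ)) := by
      intro ξ l
      split_ifs
      · exact le_rfl
      · exact hW0 _
    have hnn2 : ∀ ξ, 0 ≤ volume.real A - v⁻¹ * ∑ l ∈ F, W (l - ξ) := by
      intro ξ
      rw [hfun]
      exact mul_nonneg (by positivity) (tsum_nonneg (hnn ξ))
    have hhc : Continuous (fun ξ => volume.real A - v⁻¹ * ∑ l ∈ F, W (l - ξ)) := by
      refine continuous_const.sub (continuous_const.mul (continuous_finsetSum _ (fun l _ => ?_)))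
      exact hWc.comp (continuous_const.sub continuous_id)
    have hhi : IntegrableOn (fun ξ => volume.real A - v⁻¹ * ∑ l ∈ F, W (l - ξ)) (ball (0 : E d) R) :=
      (hhc.continuousOn.integrableOn_compact (isCompact_closedBall 0 R)).mono_set ball_subset_closedBall
    have hrhs0 : 0 ≤ v⁻¹ * C * ∫ u in (ball (0 : E d) ρ)ᶜ, W u :=
      mul_nonneg (by positivity) (integral_nonneg (fun u => hW0 u))
    rw [← ENNReal.ofReal_le_ofReal_iff hrhs0,
      ofReal_integral_eq_lintegral_ofReal hhi (Filter.Eventually.of_forall hnn2),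
      ENNReal.ofReal_mul (by positivity),
      ofReal_integral_eq_lintegral_ofReal (hWi.integrableOn) (Filter.Eventually.of_forall hW0)]
    -- counting function
    obtain ⟨c, hc⟩ : ∃ c : Λ → E d → ENNReal, c = fun (l : Λ) (u : E d) =>
      if (l : E d) ∉ F ∧ (l : E d) - u ∈ ball (0 : E d) R then 1 else 0 := ⟨_, rfl⟩
    have hcm : ∀ l, Measurable (c l) := by
      intro l
      rw [hc]
      by_cases hl : (l : E d) ∈ F
      · simp only [hl, not_true_eq_false, false_and, if_false]
        exact measurable_const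
      · simp only [hl, not_false_eq_true, true_and]
        refine Measurable.ite ?_ measurable_const measurable_const
        exact (isOpen_ball.preimage (continuous_const.sub continuous_id)).measurableSet
    have hcsum : ∀ u, ∑' l, c l u ≤ ((ball (0 : E d) ρ)ᶜ).indicator (fun _ => ENNReal.ofReal C) u := by
      intro u
      rw [ENNReal.tsum_eq_iSup_sum]
      apply iSup_le
      intro G
      by_cases hu : u ∈ ball (0 : E d) ρ
      · have : ∀ l ∈ G, c l u = 0 := by
          intro l _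
          rw [hc]
          apply if_neg
          rintro ⟨h1, h2⟩
          apply h1
          rw [hF]
          refine ⟨l.2, ?_⟩
          rw [mem_ball_zero_iff] at hu h2 ⊢
          have h3 : ‖(l : E d)‖ ≤ ‖(l : E d) - u‖ + ‖u‖ := by
            have := norm_add_le ((l : E d) - u) u
            rwa [sub_add_cancel] at this
          linarith
        rw [Finset.sum_eq_zero this]
        exact zero_le
      · rw [Set.indicator_of_mem (show u ∈ (ball (0 : E d) ρ)ᶜ from hu)]
        rw [hc]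
        simp only []
        rw [Finset.sum_boole, ← ENNReal.ofReal_natCast]
        apply ENNReal.ofReal_le_ofReal
        have h1 := hC u ((G.filter (fun l : Λ => (l : E d) ∉ F ∧ (l : E d) - u ∈ ball (0 : E d) R)).map
          (Function.Embedding.subtype _)) (by
            intro l hl
            rw [Finset.mem_map] at hl
            obtain ⟨l', _, rfl⟩ := hl
            exact l'.2) (by
            intro l hl
            rw [Finset.mem_map] at hl
            obtain ⟨l', hl', rfl⟩ := hl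
            rw [Finset.mem_filter] at hl'
            have := hl'.2.2
            rw [mem_ball_zero_iff] at this
            rw [mem_ball, dist_eq_norm]
            exact this)
        rwa [Finset.card_map] at h1
    have hWm : Measurable (fun u => ENNReal.ofReal (W u)) := hWc.measurable.ennreal_ofReal
    calc ∫⁻ ξ in ball (0 : E d) R, ENNReal.ofReal (volume.real A - v⁻¹ * ∑ l ∈ F, W (l - ξ))
        = ∫⁻ ξ in ball (0 : E d) R, ENNReal.ofReal v⁻¹ *
            ∑' l : Λ, (if (l : E d) ∈ F then 0 else ENNReal.ofReal (W ((l : E d) - ξ))) := by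
          apply lintegral_congr
          intro ξ
          rw [hfun, ENNReal.ofReal_mul (by positivity), ENNReal.ofReal_tsum_of_nonneg (hnn ξ) (hsum ξ).summable]
          congr 1
          apply tsum_congr
          intro l
          split_ifs <;> simp
      _ = ENNReal.ofReal v⁻¹ * ∫⁻ ξ in ball (0 : E d) R,
            ∑' l : Λ, (if (l : E d) ∈ F then 0 else ENNReal.ofReal (W ((l : E d) - ξ))) := by
          rw [lintegral_const_mul' _ _ ENNReal.ofReal_ne_top]
      _ = ENNReal.ofReal v⁻¹ * ∑' l : Λ, ∫⁻ ξ in ball (0 : E d) R,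
            (if (l : E d) ∈ F then 0 else ENNReal.ofReal (W ((l : E d) - ξ))) := by
          rw [lintegral_tsum]
          intro l
          by_cases hl : (l : E d) ∈ F
          · simp only [hl, if_true]
            exact aemeasurable_const
          · simp only [hl, if_false]
            exact (hWm.comp (measurable_const.sub measurable_id)).aemeasurable
      _ = ENNReal.ofReal v⁻¹ * ∑' l : Λ, ∫⁻ u, c l u * ENNReal.ofReal (W u) := by
          congr 1
          apply tsum_congr
          intro l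
          rw [← lintegral_sub_left_eq_self (fun u => c l u * ENNReal.ofReal (W u)) (l : E d),
            ← lintegral_indicator measurableSet_ball]
          apply lintegral_congr
          intro ξ
          rw [hc]
          simp only [Set.indicator_apply, sub_sub_cancel]
          by_cases hl : (l : E d) ∈ F
          · simp [hl]
          · by_cases hξ : ξ ∈ ball (0 : E d) R
            · simp only [hl, hξ, if_false, if_true, not_false_eq_true, and_self, one_mul]
            · simp only [hl, hξ, if_false, not_false_eq_true, and_false, zero_mul]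
      _ = ENNReal.ofReal v⁻¹ * ∫⁻ u, (∑' l : Λ, c l u) * ENNReal.ofReal (W u) := by
          congr 1
          rw [← lintegral_tsum]
          · apply lintegral_congr
            intro u
            rw [ENNReal.tsum_mul_right]
          · intro l
            exact ((hcm l).mul hWm).aemeasurable
      _ ≤ ENNReal.ofReal v⁻¹ * ∫⁻ u in (ball (0 : E d) ρ)ᶜ, ENNReal.ofReal C * ENNReal.ofReal (W u) := by
          apply mul_le_mul_right
          rw [← lintegral_indicator measurableSet_ball.compl]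
          apply lintegral_mono
          intro u
          have := hcsum u
          simp only [Set.indicator_apply] at this ⊢
          split_ifs at this ⊢ with hu
          · exact mul_le_mul_left this _
          · have h0 := le_antisymm this zero_le
            rw [h0, zero_mul]
      _ = ENNReal.ofReal (v⁻¹ * C) * ∫⁻ u in (ball (0 : E d) ρ)ᶜ, ENNReal.ofReal (W u) := by
          rw [lintegral_const_mul' _ _ ENNReal.ofReal_ne_top, ← mul_assoc,
            ← ENNReal.ofReal_mul (by positivity)]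
  rw [hW] at hgoal
  exact hgoal

-- ===== partition (job 21573)
-- TARGET
/-- geometric partition -/
theorem partition (Ω : Set (E d)) (hm : MeasurableSet Ω) (hb : Bornology.IsBounded Ω)
    (hn : IsNowhereDense Ω) (ε : ℝ) (hε : 0 < ε) :
    ∃ (n : ℕ) (A : Fin n → Set (E d)) (s : Fin n → E d), (∀ i, MeasurableSet (A i)) ∧
      Pairwise (fun i j => Disjoint (A i) (A j)) ∧ ⋃ i, A i = Ω ∧ (∀ i, ‖s i‖ < ε) ∧
      ∀ i, ∀ x ∈ Ω, x + s i ∉ A i := by
  classical
  set L : Set (E d) := closure Ω with hL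
  have hLcl : IsClosed L := isClosed_closure
  have hLc : IsCompact L := Metric.isCompact_of_isClosed_isBounded hLcl hb.closure
  have hLi : interior L = ∅ := hn
  -- the shifts
  have hs : ∀ x : E d, ∃ s : E d, ‖s‖ < ε ∧ x - s ∉ L := by
    intro x
    by_contra hcon
    push Not at hcon
    have hball : ball x ε ⊆ L := by
      intro y hy
      have h1 : ‖x - y‖ < ε := by
        rw [mem_ball, dist_comm, dist_eq_norm] at hy
        exact hy
      have h2 := hcon (x - y) h1
      rwa [sub_sub_cancel] at h2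
    have h3 : x ∈ interior L := mem_interior.2 ⟨ball x ε, hball, isOpen_ball, mem_ball_self hε⟩
    rw [hLi] at h3
    exact h3
  choose s hsn hsL using hs
  set U : E d → Set (E d) := fun x => {y | y - s x ∉ L} with hU
  have hUo : ∀ x, IsOpen (U x) := by
    intro x
    have hc : Continuous (fun y : E d => y - s x) := by fun_prop
    exact hLcl.isOpen_compl.preimage hc
  have hUx : ∀ x, x ∈ U x := fun x => hsL x
  obtain ⟨t, ht⟩ := hLc.elim_finite_subcover U hUo (fun x _ => mem_iUnion.2 ⟨x, hUx x⟩)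
  set e := t.equivFin.symm with he
  set B : Fin t.card → Set (E d) := fun i => Ω ∩ U (e i : E d) with hB
  have hBm : ∀ i, MeasurableSet (B i) := fun i => hm.inter (hUo _).measurableSet
  refine ⟨t.card, disjointed B, fun i => s (e i : E d), ?_, ?_, ?_, ?_, ?_⟩
  · intro i
    exact disjointedRec (fun _ j ht => MeasurableSet.diff ht (hBm j)) (hBm i)
  · exact disjoint_disjointed B
  · rw [iUnion_disjointed]
    apply Subset.antisymm
    · exact iUnion_subset (fun i => inter_subset_left)
    · intro x hx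
      have h1 := ht (subset_closure hx)
      rw [mem_iUnion₂] at h1
      obtain ⟨y, hy, hxy⟩ := h1
      rw [mem_iUnion]
      refine ⟨t.equivFin ⟨y, hy⟩, hx, ?_⟩
      have h2 : e (t.equivFin ⟨y, hy⟩) = ⟨y, hy⟩ := by
        rw [he]; exact Equiv.symm_apply_apply _ _
      rw [h2]
      exact hxy
  · intro i
    exact hsn _
  · intro i x hx hcon
    have h1 := disjointed_subset B i hcon
    have h2 : x + s (e i : E d) - s (e i : E d) ∉ L := h1.2
    rw [add_sub_cancel_right] at h2
    exact h2 (subset_closure hx)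

-- ===== ball_ratio (job 21574)
-- TARGET
/-- volume growth of balls -/
theorem ball_ratio (c : ℝ) (hc : 0 ≤ c) (η : ℝ) (hη : 0 < η) :
    ∃ R₀ : ℝ, 0 < R₀ ∧ ∀ R ≥ R₀,
      volume.real (ball (0 : E d) (R + c)) ≤ (1 + η) * volume.real (ball (0 : E d) R) := by
  have hball : ∀ r : ℝ, 0 < r →
      volume.real (ball (0 : E d) r) = r ^ d * volume.real (ball (0 : E d) 1) := by
    intro r hr
    have h1 := Measure.addHaar_ball_of_pos (volume : Measure (E d)) 0 hr
    rw [measureReal_def, measureReal_def, h1, ENNReal.toReal_mul,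
      ENNReal.toReal_ofReal (by positivity), finrank_euclideanSpace_fin]
  have hlim : Filter.Tendsto (fun R : ℝ => (1 + c / R) ^ d) Filter.atTop
      (nhds ((1 + 0) ^ d)) :=
    (tendsto_const_nhds.add (tendsto_const_nhds.div_atTop Filter.tendsto_id)).pow d
  rw [add_zero, one_pow] at hlim
  have hev : ∀ᶠ R : ℝ in Filter.atTop, (1 + c / R) ^ d < 1 + η :=
    hlim.eventually (Iio_mem_nhds (by linarith))
  obtain ⟨R₁, hR₁⟩ := Filter.eventually_atTop.mp hev
  refine ⟨max R₁ 1, by positivity, fun R hR => ?_⟩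
  have hR1 : 1 ≤ R := (le_max_right _ _).trans hR
  have hRpos : 0 < R := by linarith
  have h2 := hR₁ R ((le_max_left _ _).trans hR)
  rw [hball (R + c) (by linarith), hball R hRpos]
  have h3 : R + c = R * (1 + c / R) := by field_simp
  rw [h3, mul_pow]
  have hV : 0 ≤ volume.real (ball (0 : E d) 1) := measureReal_nonneg
  have h4 : 0 ≤ R ^ d * volume.real (ball (0 : E d) 1) := by positivity
  calc R ^ d * (1 + c / R) ^ d * volume.real (ball (0 : E d) 1)
      = (1 + c / R) ^ d * (R ^ d * volume.real (ball (0 : E d) 1)) := by ring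
    _ ≤ (1 + η) * (R ^ d * volume.real (ball (0 : E d) 1)) :=
        mul_le_mul_of_nonneg_right h2.le h4

-- ===== T_cont (job 21668)
theorem ee_cont2_21668 (l : E d) : Continuous (fun z : E d × E d => ee l z.2) :=
  (ee_cont l).comp continuous_snd

-- TARGET
/-- continuity in the frequency -/
theorem T_cont (Ω : Set (E d)) (F : Finset (E d)) (A : Set (E d)) (hA : MeasurableSet A)
    (hAb : Bornology.IsBounded A) (N : Set (E d)) (hN : MeasurableSet N)
    (hNb : Bornology.IsBounded N) :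
    Continuous (fun ξ : E d => ∫ z in N, ‖T (volume.real Ω) F A ξ z‖ ^ 2) := by
  have hT : Continuous (fun t : E d × E d => ‖T (volume.real Ω) F A t.1 t.2‖ ^ 2) := by
    unfold T
    refine (Continuous.norm ?_).pow 2
    refine continuous_const.mul ?_
    refine continuous_finsetSum _ fun l _ => ?_
    refine Continuous.mul ?_ (ee_cont2_21668 l)
    exact (hat_cont A hA hAb).comp (continuous_const.sub continuous_fst)
  have h1 := continuous_parametric_integral_of_continuous (μ := volume.restrict N)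
    (f := fun ξ z : E d => ‖T (volume.real Ω) F A ξ z‖ ^ 2) hT hNb.isCompact_closure
  rw [Measure.restrict_restrict isClosed_closure.measurableSet,
    Set.inter_eq_right.2 subset_closure] at h1
  exact h1

/-- for fixed neighbourhood -/
theorem main_eps (Ω Λ : Set (E d)) (hm : MeasurableSet Ω) (hb : Bornology.IsBounded Ω)
    (h0 : 0 < volume Ω) (hs : IsSpectrum Ω Λ) (hn : IsNowhereDense Ω) (ε : ℝ) (hε : 0 < ε) :
    2 * volume.real Ω ≤ volume.real (thickening ε (closure Ω)) := by
  have hvfin : volume Ω ≠ ⊤ := hb.measure_lt_top.ne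
  have hv : 0 < volume.real Ω := ENNReal.toReal_pos h0.ne' hvfin
  set v := volume.real Ω with hvdef
  obtain ⟨n, A, s, hA, hdisj, hU, hsε, hsA⟩ := partition Ω hm hb hn ε hε
  have hAΩ : ∀ i, A i ⊆ Ω := fun i => by rw [← hU]; exact subset_iUnion A i
  have hAb : ∀ i, Bornology.IsBounded (A i) := fun i => hb.subset (hAΩ i)
  set N := thickening ε (closure Ω) with hNdef
  have hNb : Bornology.IsBounded N := (hb.closure).thickening
  have hNm : MeasurableSet N := isOpen_thickening.measurableSet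
  have hΩN : Ω ⊆ N := subset_closure.trans (self_subset_thickening hε _)
  have hsN : ∀ i, ∀ x ∈ Ω, x + s i ∈ N := by
    intro i x hx
    rw [hNdef, mem_thickening_iff]
    refine ⟨x, subset_closure hx, ?_⟩
    rw [dist_eq_norm]
    simpa using hsε i
  have hsum : ∑ i, volume.real (A i) = v := by
    rw [hvdef, ← hU, measureReal_iUnion_fintype (fun i j h => hdisj h) hA
      (fun i => (hAb i).measure_lt_top.ne)]
  -- the key inequality for each δ
  have key : ∀ δ : ℝ, 0 < δ → δ < 1 →
      2 * v * (1 - δ) ≤ (1 + δ) * (3 * δ + volume.real N) := by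
    intro δ hδ hδ1
    obtain ⟨ρ₀, hρ₀, ht0⟩ := tail Ω hm hb (δ * v) (by positivity)
    have hκ : (1 - δ) * v ≤ ∫ u in ball (0 : E d) ρ₀, ‖hat Ω u‖ ^ 2 := by
      have := (ht0 ρ₀ le_rfl).1
      linarith
    choose r hr0 hr using fun i => tail (A i) (hA i) (hAb i) (δ / (n + 1)) (by positivity)
    obtain ⟨ρ, hρpos, hρr⟩ : ∃ ρ : ℝ, 0 < ρ ∧ ∀ i, r i ≤ ρ := by
      refine ⟨1 + ∑ i, r i, ?_, ?_⟩
      · have : 0 ≤ ∑ i, r i := Finset.sum_nonneg fun i _ => (hr0 i).le
        linarith
      · intro i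
        have := Finset.single_le_sum (f := r) (fun i _ => (hr0 i).le) (Finset.mem_univ i)
        linarith
    have htau : ∑ i, ∫ u in (ball (0 : E d) ρ)ᶜ, ‖hat (A i) u‖ ^ 2 ≤ δ := by
      calc ∑ i, ∫ u in (ball (0 : E d) ρ)ᶜ, ‖hat (A i) u‖ ^ 2
          ≤ ∑ i : Fin n, δ / (n + 1) := Finset.sum_le_sum fun i _ => (hr i ρ (hρr i)).2
        _ = n * (δ / (n + 1)) := by simp
        _ ≤ δ := by
          rw [mul_div_assoc', div_le_iff₀ (by positivity)]
          nlinarith
    obtain ⟨R₁, hR₁, hb1⟩ := ball_ratio (d := d) (ρ + ρ₀) (by positivity) δ hδ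
    obtain ⟨R₂, hR₂, hb2⟩ := ball_ratio (d := d) ρ₀ hρ₀.le δ hδ
    set R := max R₁ R₂ with hRdef
    have hR : 0 < R := lt_max_of_lt_left hR₁
    have hB1 := hb1 R (le_max_left _ _)
    have hB2 := hb2 R (le_max_right _ _)
    set B := volume.real (ball (0 : E d) R) with hBdef
    have hBpos : 0 < B := by
      rw [hBdef]
      exact ENNReal.toReal_pos (measure_ball_pos _ _ hR).ne' measure_ball_lt_top.ne
    set C := v * volume.real (ball (0 : E d) (R + ρ₀)) / (1 - δ) with hCdef
    have h1δ : 0 < 1 - δ := by linarith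
    have hC : ∀ t : E d, ∀ F : Finset (E d), (∀ l ∈ F, l ∈ Λ) → (∀ l ∈ F, l ∈ ball t R) →
        (F.card : ℝ) ≤ C := by
      intro t F hF hFt
      have := count Ω Λ hm hb h0 hs δ ρ₀ hκ t R hR hρ₀ F hF hFt
      rw [hCdef, le_div_iff₀ h1δ]
      exact this
    -- the finite set
    have hfin : (Λ ∩ ball (0 : E d) (R + ρ)).Finite := by
      by_contra hinf
      have hinf' : (Λ ∩ ball (0 : E d) (R + ρ)).Infinite := hinf
      obtain ⟨k, hk⟩ := exists_nat_gt (v * volume.real (ball (0 : E d) (R + ρ + ρ₀)) / (1 - δ))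
      obtain ⟨F, hFs, hFc⟩ := hinf'.exists_subset_card_eq k
      have := count Ω Λ hm hb h0 hs δ ρ₀ hκ 0 (R + ρ) (by positivity) hρ₀ F
        (fun l hl => (hFs hl).1) (fun l hl => (hFs hl).2)
      rw [hFc, ← le_div_iff₀ h1δ] at this
      linarith
    set F := hfin.toFinset with hFdef
    have hF : ∀ l, l ∈ F ↔ l ∈ Λ ∧ l ∈ ball (0 : E d) (R + ρ) := by
      intro l
      rw [hFdef, Set.Finite.mem_toFinset]
      rfl
    have hFΛ : ∀ l ∈ F, l ∈ Λ := fun l hl => ((hF l).1 hl).1
    have hFcard : (F.card : ℝ) * (1 - δ) ≤ v * volume.real (ball (0 : E d) (R + ρ + ρ₀)) :=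
      count Ω Λ hm hb h0 hs δ ρ₀ hκ 0 (R + ρ) (by positivity) hρ₀ F hFΛ
        (fun l hl => ((hF l).1 hl).2)
    -- upper bound
    have hup := upper Ω Λ hm hb h0 hs F hFΛ N hNm hNb n A hA hdisj hU R
    -- lower bound
    have hleak : ∀ i, ∫ ξ in ball (0 : E d) R,
        (volume.real (A i) - v⁻¹ * ∑ l ∈ F, ‖hat (A i) (l - ξ)‖ ^ 2)
        ≤ v⁻¹ * C * ∫ u in (ball (0 : E d) ρ)ᶜ, ‖hat (A i) u‖ ^ 2 := fun i =>
      leak_avg Ω Λ hm hb h0 hs R ρ hR hρpos C hC F hF (A i) (hA i) (hAΩ i)
    have hlc : ∀ i, Continuous (fun ξ : E d =>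
        volume.real (A i) - v⁻¹ * ∑ l ∈ F, ‖hat (A i) (l - ξ)‖ ^ 2) := by
      intro i
      have hc := hat_cont (A i) (hA i) (hAb i)
      fun_prop
    have hlow : ∀ i, 2 * volume.real (A i) * B - 3 * ∫ ξ in ball (0 : E d) R,
        (volume.real (A i) - v⁻¹ * ∑ l ∈ F, ‖hat (A i) (l - ξ)‖ ^ 2)
        ≤ ∫ ξ in ball (0 : E d) R, ∫ z in N, ‖T v F (A i) ξ z‖ ^ 2 := by
      intro i
      have hint1 : IntegrableOn (fun ξ : E d =>
          volume.real (A i) - v⁻¹ * ∑ l ∈ F, ‖hat (A i) (l - ξ)‖ ^ 2) (ball (0 : E d) R) :=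
        ((hlc i).continuousOn.integrableOn_compact (isCompact_closedBall (0 : E d) R)).mono_set
          ball_subset_closedBall
      have hint2 : IntegrableOn (fun ξ : E d => ∫ z in N, ‖T v F (A i) ξ z‖ ^ 2)
          (ball (0 : E d) R) :=
        ((T_cont Ω F (A i) (hA i) (hAb i) N hNm hNb).continuousOn.integrableOn_compact
          (isCompact_closedBall (0 : E d) R)).mono_set ball_subset_closedBall
      have hconst : IntegrableOn (fun _ : E d => 2 * volume.real (A i)) (ball (0 : E d) R) :=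
        integrableOn_const measure_ball_lt_top.ne
      have e1 : 2 * volume.real (A i) * B - 3 * ∫ ξ in ball (0 : E d) R,
          (volume.real (A i) - v⁻¹ * ∑ l ∈ F, ‖hat (A i) (l - ξ)‖ ^ 2)
          = ∫ ξ in ball (0 : E d) R, (2 * volume.real (A i) -
            3 * (volume.real (A i) - v⁻¹ * ∑ l ∈ F, ‖hat (A i) (l - ξ)‖ ^ 2)) := by
        rw [integral_sub hconst (hint1.const_mul 3)]
        congr 1
        · rw [setIntegral_const, smul_eq_mul, hBdef]
          ring
        · exact (integral_const_mul _ _).symm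
      rw [e1]
      refine integral_mono (hconst.sub (hint1.const_mul 3)) hint2 ?_
      intro ξ
      exact lower Ω Λ hm hb h0 hs F hFΛ (A i) (hA i) (hAΩ i) ξ (s i) N hNm hNb
        ((hAΩ i).trans hΩN) (hsN i) (hsA i)
    have hlowsum : 2 * v * B - 3 * ∑ i, ∫ ξ in ball (0 : E d) R,
        (volume.real (A i) - v⁻¹ * ∑ l ∈ F, ‖hat (A i) (l - ξ)‖ ^ 2)
        ≤ F.card * volume.real N / v := by
      refine le_trans ?_ hup
      refine le_trans (le_of_eq ?_) (Finset.sum_le_sum fun i _ => hlow i)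
      rw [Finset.sum_sub_distrib, ← Finset.mul_sum, ← Finset.sum_mul, ← Finset.mul_sum, hsum]
    have hleaksum : ∑ i, ∫ ξ in ball (0 : E d) R,
        (volume.real (A i) - v⁻¹ * ∑ l ∈ F, ‖hat (A i) (l - ξ)‖ ^ 2) ≤ v⁻¹ * C * δ := by
      refine le_trans (Finset.sum_le_sum fun i _ => hleak i) ?_
      rw [← Finset.mul_sum]
      refine mul_le_mul_of_nonneg_left htau ?_
      rw [hCdef]
      positivity
    have hvC : v⁻¹ * C = volume.real (ball (0 : E d) (R + ρ₀)) / (1 - δ) := by
      rw [hCdef]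
      field_simp
    rw [hvC] at hleaksum
    have hNn : 0 ≤ volume.real N := measureReal_nonneg
    have h3 : F.card * volume.real N / v ≤ (1 + δ) * B * volume.real N / (1 - δ) := by
      rw [div_le_div_iff₀ hv h1δ]
      have e : (F.card : ℝ) * volume.real N * (1 - δ) = (F.card * (1 - δ)) * volume.real N := by ring
      rw [e]
      have : (F.card : ℝ) * (1 - δ) ≤ v * ((1 + δ) * B) := by
        refine hFcard.trans ?_
        refine mul_le_mul_of_nonneg_left ?_ hv.le
        rw [add_assoc]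
        exact hB1
      calc (F.card * (1 - δ)) * volume.real N ≤ (v * ((1 + δ) * B)) * volume.real N :=
            mul_le_mul_of_nonneg_right this hNn
        _ = (1 + δ) * B * volume.real N * v := by ring
    have h4 : volume.real (ball (0 : E d) (R + ρ₀)) / (1 - δ) * δ ≤ (1 + δ) * B / (1 - δ) * δ := by
      refine mul_le_mul_of_nonneg_right ?_ hδ.le
      exact div_le_div_of_nonneg_right hB2 h1δ.le
    have h5 : 2 * v * B ≤ 3 * ((1 + δ) * B / (1 - δ) * δ) + (1 + δ) * B * volume.real N / (1 - δ) := by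
      linarith
    have h6 : 2 * v * B * (1 - δ) ≤ (1 + δ) * (3 * δ + volume.real N) * B := by
      have := mul_le_mul_of_nonneg_right h5 h1δ.le
      have e : (3 * ((1 + δ) * B / (1 - δ) * δ) + (1 + δ) * B * volume.real N / (1 - δ)) * (1 - δ)
          = (1 + δ) * (3 * δ + volume.real N) * B := by
        field_simp
      rw [e] at this
      exact this
    have h7 : 2 * v * (1 - δ) * B ≤ (1 + δ) * (3 * δ + volume.real N) * B := by linarith
    exact le_of_mul_le_mul_right h7 hBpos
  -- limit δ → 0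
  have hlim1 : Filter.Tendsto (fun δ : ℝ => 2 * v * (1 - δ)) (nhdsWithin 0 (Ioi 0))
      (nhds (2 * v * (1 - 0))) := by
    refine (Continuous.tendsto ?_ 0).mono_left nhdsWithin_le_nhds
    fun_prop
  have hlim2 : Filter.Tendsto (fun δ : ℝ => (1 + δ) * (3 * δ + volume.real N)) (nhdsWithin 0 (Ioi 0))
      (nhds ((1 + 0) * (3 * 0 + volume.real N))) := by
    refine (Continuous.tendsto ?_ 0).mono_left nhdsWithin_le_nhds
    fun_prop
  have hev : ∀ᶠ δ : ℝ in nhdsWithin 0 (Ioi 0), 2 * v * (1 - δ) ≤ (1 + δ) * (3 * δ + volume.real N) := by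
    filter_upwards [Ioo_mem_nhdsGT (show (0 : ℝ) < 1 by norm_num)] with δ hδ
    exact key δ hδ.1 hδ.2
  have := le_of_tendsto_of_tendsto hlim1 hlim2 hev
  simpa using this

theorem main (Ω : Set (E d)) (hm : MeasurableSet Ω) (hb : Bornology.IsBounded Ω)
    (h0 : 0 < volume Ω) (hs : IsSpectral Ω) (hn : IsNowhereDense Ω) :
    2 * volume Ω ≤ volume (closure Ω) := by
  obtain ⟨Λ, hs⟩ := hs
  have hvfin : volume Ω ≠ ⊤ := hb.measure_lt_top.ne
  have hlim : Filter.Tendsto (fun ε : ℝ => volume (thickening ε (closure Ω)))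
      (nhdsWithin 0 (Ioi 0)) (nhds (volume (closure Ω))) := by
    have := tendsto_measure_thickening_of_isClosed (μ := (volume : Measure (E d)))
      (s := closure Ω) ⟨1, one_pos, (hb.closure.thickening).measure_lt_top.ne⟩ isClosed_closure
    exact this
  refine ge_of_tendsto hlim ?_
  filter_upwards [self_mem_nhdsWithin] with ε hε
  have h := main_eps Ω Λ hm hb h0 hs hn ε hε
  have hfin : volume (thickening ε (closure Ω)) ≠ ⊤ := (hb.closure.thickening).measure_lt_top.ne
  have e1 : (2 * volume Ω) = ENNReal.ofReal (2 * volume.real Ω) := by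
    rw [ENNReal.ofReal_mul (by norm_num)]
    simp [Measure.real, ENNReal.ofReal_toReal hvfin]
  rw [e1]
  rw [ENNReal.ofReal_le_iff_le_toReal hfin]
  exact h

end Pool.Agent.Helper569.Spec
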